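import Mathlib
import Pool.Agent.H926.A.Q0
import Pool.Agent.H926.T.Asm
import Pool.Agent.H926.T.Non
import Pool.Agent.H926.T.Det1
import Pool.Graph.R_pool_sql_team_seeded_1acbe0a2.Y220.P.JPull

/-!
# Hodge classes and Weil classes for imaginary quadratic fields: lemma statements

Target: `X` is an abelian variety of dimension at most seven such that the endomorphism algebra of each
simple factor contains a maximal commutative subfield which is totally real or (imaginary) quadratic.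
Then all Hodge classes on `X` are generated by divisors and by Weil classes for imaginary quadratic
fields on abelian fourfolds and sixfolds.

`QR per B c κ f` (`Q0.lean`) is the ring, `RCq` its complex span, `NQ Z B c` the system of the forms
whose alternations belong to `RCq` (compare `WeilRing`, `RC`, `NZ` in `Pool.Agent.Y4.P`). Here `c` is a
statement; if it is true, then the Weil classes on sixfolds are only those on sixfolds of trivial
discriminant and on simple sixfolds.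
-/

set_option linter.unusedSectionVars false

namespace Pool.Agent.H926.A

open Matrix Module Pool.Agent.W437.HC Pool.Agent.W437.HD Pool.Agent.TH504.CB Pool.Agent.W522.U
open Pool.Agent.Y90 hiding mulA exists_lam mulA_altQ
open Pool.Agent.W548.Odd hiding cv
open Pool.Agent.W437.HP (cK cK_mul cK_one)
open Pool.Agent.H204R3.CM (IsHodge)
open Pool.Agent.H204R3.SP (Kills bil2 IsTate)
open Pool.Agent.Y4.P (MaxM EigM cx WD JB)
open Pool.Agent.Y4.Q (IsMaxEndo)

noncomputable section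

section defs

variable {B : Type} [Fintype B] [DecidableEq B]

/-- The submodule `U` is isomorphic (through `T`) to the image of an idempotent `ε` with coefficients in
the imaginary quadratic field `ℚ(w)`, `w ^ 2 = -D`. -/
def PDq (L : Submodule ℂ (Matrix B B ℂ)) (U : Submodule ℂ (B → ℂ)) : Prop :=
  ∃ (w : ℂ) (D : ℚ) (ε : Matrix B B ℂ) (T : (B → ℂ) →ₗ[ℂ] (B → ℂ)), 0 < D ∧ w * w = -(D : ℂ) ∧
    ε * ε = ε ∧ (∀ X ∈ L, X * ε = ε * X) ∧ (∀ i j, ∃ x y : ℚ, ε i j = x + y * w) ∧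
    (∀ X ∈ L, ∀ u ∈ U, T (X *ᵥ u) = X *ᵥ T u) ∧ (∀ u ∈ U, T u = 0 → u = 0) ∧
    ∀ v, v ∈ U.map T ↔ ε *ᵥ v = v

/-- There is a nonzero invariant alternating form on `U`. -/
def AltE (L : Submodule ℂ (Matrix B B ℂ)) (U : Submodule ℂ (B → ℂ)) : Prop :=
  ∃ b : (B → ℂ) →ₗ[ℂ] (B → ℂ) →ₗ[ℂ] ℂ,
    (∀ X ∈ L, ∀ u ∈ U, ∀ v ∈ U, b (X *ᵥ u) v + b u (X *ᵥ v) = 0) ∧
    (∃ u ∈ U, ∃ v ∈ U, b u v ≠ 0) ∧ ∀ u ∈ U, ∀ v ∈ U, b u v = -b v u

end defs

/-- The endomorphism algebra of a simple `Z` has a maximal commutative subfield which is totally real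
or quadratic. -/
def RQM {a : ℕ} (Z : Matrix (Fin a) (Fin a) ℂ) : Prop :=
  ∃ φ, MaxM Z φ ∧
    ((∀ z ∈ (minpoly ℚ φ).aroots ℂ, z.im = 0) ∨ (minpoly ℚ φ).natDegree = 2)

/-- This holds for all simple factors. -/
def QF {G : ℕ} (Z : Matrix (Fin G) (Fin G) ℂ) : Prop :=
  ∀ (a : ℕ) (Z' : Matrix (Fin a) (Fin a) ℂ) (E : Matrix (Fin G ⊕ Fin G) (Fin a ⊕ Fin a) ℚ)
    (F : Matrix (Fin a ⊕ Fin a) (Fin G ⊕ Fin G) ℚ), Fac Z Z' E F → PM Z' → IsSimpleAV Z' →
    0 < a → RQM Z'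

/-- A maximal commutative subfield of the endomorphism algebra of the simple abelian subvariety `U` is
totally real or quadratic. -/
def IsRQSub {H T : Type} [AddCommGroup H] [Module ℚ H] [AddCommGroup T] [Module ℂ T]
    (per : H →+ T) (U : Submodule ℚ H) : Prop :=
  ∃ a : U →ₗ[ℚ] U, IsMaxEndo per U a ∧
    ((∀ z ∈ (minpoly ℚ a).aroots ℂ, z.im = 0) ∨ (minpoly ℚ a).natDegree = 2)

/-- **S_QWEIL (products of determinants, one imaginary quadratic field).** (helper926 does this one: it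
is `Pool.Agent.Y37.P.jweil` and `Pool.Agent.Y220.P.jpull` for the new ring.) -/
def S_QWEIL : Prop :=
  ∀ (B G : ℕ) (Z : Matrix (Fin G) (Fin G) ℂ) (_h : PM Z) (w : ℂ) (D : ℚ) (_hD : 0 < D)
    (_hw : w * w = -(D : ℂ)) (S : Type) [Fintype S] [DecidableEq S] (d : S → ℕ)
    (P : ∀ x, Matrix (Fin G ⊕ Fin G) (Fin (d x)) (IntermediateField.adjoin ℚ {w}))
    (Q : ∀ x, Matrix (Fin (d x)) (Fin G ⊕ Fin G) (IntermediateField.adjoin ℚ {w}))
    (_hQP : ∀ x, Q x * P x = 1)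
    (_hc : ∀ x, ∀ X ∈ LZ Z, X * cx (P x * Q x) = cx (P x * Q x) * X)
    (_htr : ∀ X ∈ LZ Z, ∑ x, Matrix.trace (X * cx (P x * Q x)) = 0)
    (R : ∀ k : (Σ x, Fin (d x)), Matrix (Fin (d k.1)) (Fin G ⊕ Fin G) ℂ)
    (_hR : ∀ k, ∀ X ∈ LZ Z, R k * X = (cx (Q k.1) * X * cx (P k.1)) * R k)
    (ψ : MultilinearMap ℂ (fun _ : (Σ x, Fin (d x)) => Fin G ⊕ Fin G → ℂ) ℂ)
    (_hψ : ∀ v, ψ v = ∏ x, Matrix.det (Matrix.of fun y j : Fin (d x) =>
      (R ⟨x, y⟩ *ᵥ v ⟨x, y⟩) j)) (_hB : ∑ x, d x ≤ B)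
    (c : Prop) (_hs : c → ∑ x, d x = 6 → ∃ x, Odd (d x)),
    ψ ∈ NQ Z B c (Σ x, Fin (d x))

/-- **S_QTR (traces).**

Proof. `DS Z σ = (DZ Z).map σ`. `(σ w) ^ 2 = σ (-D) = w ^ 2`, so `σ w = w` or `σ w = -w` (`w ≠ 0`).
`t = trace (DZ Z * ε)` is an integer by `Pool.Agent.Y977.P.jtrace` (`JTrace` in `Y4/P/Jobs.lean`, with
`σ = RingEquiv.refl ℂ`; `DS Z (refl) = DZ Z`), so it is fixed by all automorphisms. If `σ w = w` then
`ε.map σ = ε` and `trace (DS Z σ * ε) = σ t = t`. If `σ w = -w` then `σ.symm w = -w`; `w` is purely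
imaginary (`w * w = -D < 0`), so `cc w = -w` and `ε.map σ.symm = ε.map cc`; hence
`trace (DS Z σ * ε) = σ (trace (DZ Z * ε.map cc)) = σ (cc (trace ((DZ Z).map cc * ε)))`, and
`(DZ Z).map cc = -DZ Z` (`DZ Z` is `I` or `-I` times a real matrix: `DJ_JR`, `DJ`; look for a lemma like
`DS_cc`), so this is `σ (cc (-t)) = -t`. -/
def S_QTR : Prop :=
  ∀ (G : ℕ) (Z : Matrix (Fin G) (Fin G) ℂ) (_h : PM Z) (U : Submodule ℂ (Fin G ⊕ Fin G → ℂ))
    (_hU : IrS (LZ Z) U) (ε : Matrix (Fin G ⊕ Fin G) (Fin G ⊕ Fin G) ℂ)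
    (T : (Fin G ⊕ Fin G → ℂ) →ₗ[ℂ] (Fin G ⊕ Fin G → ℂ)) (_h1 : ε * ε = ε)
    (_h2 : ∀ X ∈ LZ Z, X * ε = ε * X) (_h3 : ∀ X ∈ LZ Z, ∀ u ∈ U, T (X *ᵥ u) = X *ᵥ T u)
    (_h4 : ∀ u ∈ U, T u = 0 → u = 0) (_h5 : ∀ v, v ∈ U.map T ↔ ε *ᵥ v = v) (w : ℂ) (D : ℚ)
    (_hD : 0 < D) (_hw : w * w = -(D : ℂ)) (_hε : ∀ i j, ∃ x y : ℚ, ε i j = x + y * w)
    (σ : ℂ ≃+* ℂ),
    Matrix.trace (DS Z σ * ε) = (σ w / w) * Matrix.trace (DZ Z * ε)

/-- **S_QVAN (too many variables).**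

Proof. Let `φ = MultilinearMap.alternatization ψ`, a `ℂ`-alternating form; `altQ ψ v = φ (cv ∘ v)`
(unfold `altQ`, `MultilinearMap.alternatization_apply`; see the use in `RC_mul`, `Y4/P/Ring.lean`).
`φ v = 0` if some `v k` is in `V'`. Let `C` be a complement of `V'`
(`Submodule.exists_isCompl`), `dim C = 2 G - dim V' ≤ G`. Write `v k = c k + w k` with `c k ∈ C`,
`w k ∈ V'`. Then `φ v = φ c` (`MultilinearMap.map_add_univ`, or replace one variable after the other),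
and `c` is linearly dependent as `card κ > G ≥ dim C`, so `φ c = 0`
(`AlternatingMap.map_linearDependent`). -/
def S_QVAN : Prop :=
  ∀ (G : ℕ) (V' : Submodule ℂ (Fin G ⊕ Fin G → ℂ)) (_hV : G ≤ finrank ℂ V') (κ : Type)
    [Fintype κ] [DecidableEq κ] (_hκ : G < Fintype.card κ)
    (ψ : MultilinearMap ℂ (fun _ : κ => Fin G ⊕ Fin G → ℂ) ℂ)
    (_hψ : ∀ v, (∃ k, v k ∈ V') → ψ v = 0), altQ ψ = 0

/-- **S_QISO (the common kernel is large).**

Proof. `om G` is nondegenerate and alternating (`om_nd`, `om_anti`), and `LZ Z` is skew for it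
(`PM.om_sp h`). Let `V'` be the common kernel, `Φ : V → ∏ x y, W x` the map `v ↦ (q x y v)`,
`rank Φ = 2 G - dim V'` (the kernel is `V'`). For `x, y` and a linear form `l` on `W x` let
`u x y l ∈ V` be the vector with `om G (u x y l) v = l (q x y v)` for all `v`. Let
`Ψ : ∏ x y, Dual (W x) → V` be the map `l ↦ ∑ u x y (l x y)`. It is the transpose of `Φ` (up to the
isomorphism `V ≃ Dual V` given by `om G`), so it has the same rank. Claim: `Φ ∘ Ψ = 0`. Then
`rank Φ ≤ dim ker Φ = 2 G - rank Φ`, so `rank Φ ≤ G` and `dim V' ≥ G`.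
Claim: `q x' y' (u x y l) = 0`. Suppose that it is not zero for some `l`. For `X ∈ LZ Z`:
`X *ᵥ u x y l = u x y (-l ∘ X)` (`om_sp` and equivariance of `q x y`). So
`M = {l | q x' y' (u x y l) = 0}` is a proper subspace of `Dual (W x)` stable under `l ↦ l ∘ X`, hence
(annihilators; `W x` is irreducible) `M = 0`, and the image of `l ↦ q x' y' (u x y l)` is a nonzero
stable subspace of `W x'`, so it is `W x'`. So `l ↦ q x' y' (u x y l)` is an isomorphism
`Dual (W x) ≃ W x'`, let `τ : W x' → Dual (W x)` be its inverse, and `b u v = τ u v` for `u ∈ W x'`,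
`v ∈ W x`, an invariant perfect pairing; extend it to `V × V` by linear projections `V → W x'`,
`V → W x` (any: `Submodule.exists_isCompl` / `LinearMap.exists_leftInverse_of_injective`). This
contradicts `_hno`. -/
def S_QISO : Prop :=
  ∀ (G : ℕ) (Z : Matrix (Fin G) (Fin G) ℂ) (_h : PM Z) (S : Type) [Fintype S]
    (W : S → Submodule ℂ (Fin G ⊕ Fin G → ℂ)) (_hW : ∀ x, IrS (LZ Z) (W x))
    (_hno : ∀ (x x' : S) (b : (Fin G ⊕ Fin G → ℂ) →ₗ[ℂ] (Fin G ⊕ Fin G → ℂ) →ₗ[ℂ] ℂ),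
      (∀ X ∈ LZ Z, ∀ u ∈ W x, ∀ v ∈ W x', b (X *ᵥ u) v + b u (X *ᵥ v) = 0) →
        ∀ u ∈ W x, ∀ v ∈ W x', b u v = 0)
    (ι : S → Type) [∀ x, Fintype (ι x)] (q : ∀ x, ι x → (Fin G ⊕ Fin G → ℂ) →ₗ[ℂ] W x)
    (_hq : ∀ x y, ∀ X ∈ LZ Z, ∀ v, (q x y (X *ᵥ v) : Fin G ⊕ Fin G → ℂ) =
      X *ᵥ (q x y v : Fin G ⊕ Fin G → ℂ)),
    G ≤ finrank ℂ ↥(⨅ x, ⨅ y, LinearMap.ker (q x y))

/-- **S_QTWO (submodules of dimension two).** Uses S_QTR.

Proof. Suppose `finrank ℂ W = 2` and let `t = trace (DZ Z * ε)`. By S_QTR `trace (DS Z σ * ε) = ± t`.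
If `t = 0` then `trace (X * ε) = 0` for all `X ∈ LZ Z` (`trace_all`), so all `X ∈ LZ Z` act on `W` (`≅` the
image of `ε`, through `T`) with trace zero, and the determinant form (`W` has dimension two) is
invariant (`trace_skew`-like: `det (X u) v + det u (X v) = trace X * det u v`), so `AltE (LZ Z) W`.
If `t ≠ 0`: `DZ Z` acts on the two-dimensional image of `ε` as an involution (`DS_sq`) with nonzero trace,
so it is a scalar `δ = ± 1` there: `DZ Z * ε = δ • ε`. If `σ w = w` then `ε.map σ = ε` and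
`DS Z σ * ε = δ • ε`. If `σ w = -w` then `σ.symm w = -w` and `cc w = -w` (`w` is purely imaginary), so for
`τ = cc` followed by `σ` one has `τ w = w`, `DS Z τ = -DS Z σ` (`(DZ Z).map cc = -DZ Z`, `DZ_conj`), so
`DS Z σ * ε = -δ • ε`. So all `DS Z σ` act on the image of `ε` as scalars, hence so does each element of
`LZ Z` (`LZ_le`: the matrices which commute with `ε` and act as scalars on its image are a Lie
algebra), and then each line in `W` is stable, a contradiction to `IrS (LZ Z) W`, `dim W = 2`.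
(Compare `altF_of_two` in `Pool.Graph.R_pool_sql_team_seeded_63374d34.N994.PG.FiveSeven`: if no `DS Z σ`
is a scalar on `U`, `dim U = 2`, then there is an invariant alternating form.) -/
def S_QTWO : Prop :=
  ∀ (G : ℕ) (Z : Matrix (Fin G) (Fin G) ℂ) (_h : PM Z) (W : Submodule ℂ (Fin G ⊕ Fin G → ℂ))
    (_hW : IrS (LZ Z) W) (_hA : ¬AltE (LZ Z) W) (_hP : PDq (LZ Z) W), finrank ℂ W ≠ 2

/-- **S_Q6 (Weil classes on simple sixfolds).**

Proof. `exists_fac h hU.1`: a simple factor `Z'` (`Fac Z Z' E F`, dimension `a`) such that `ml F` is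
injective on `U` and `U' = U.map (ml F)` is irreducible; `finrank U' = 6`. Let `φ` be as in `RQM Z'`
(`QF Z`). `Pool.Agent.Y261.P.jspec a Z' h' hs ha φ hφ`: a root `z` of the minimal polynomial and an
equivariant `T`, injective on `U'`, with `U'.map T = EigM φ z`, so `finrank (EigM φ z) = 6`.
`z` is not real (otherwise `om a` is not zero on `EigM φ z` and gives `AltE (LZ Z) U`; this is case 1 of
`s_qloc`, `Pool/Agent/H926/A/Qloc.lean`). So the degree of the minimal polynomial is two,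
`X ^ 2 + p X + q`, the roots are `z`, `cc z`, and with `w = z - cc z = 2 z + p`, `D = 4 q - p ^ 2 > 0`,
`j = 2 φ + p` (a rational matrix): `w * w = -D`, `j * j = -D`, `EigM φ z = {v | qm j v = w v}`, and
`2 a = finrank (EigM φ z) + finrank (EigM φ (cc z)) = 12` (the two eigenspaces are exchanged by the
complex conjugation), so `a = 6`.
This is the structure `KT`/`KW` of `Pool.Graph.R_seed8.Y90.Wei1` / `R915` / `N994.PG.HDet` (`U := EigM φ z`,
`φ := j`, `α := w`, `d := D`): see `dl`, `dl_kill`, `dl_hodge`, `dl_move`, `N1`, `N1_mem` in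
`N994/PG/HDet.lean`; the proof is the same as for its main lemma (determinant forms of balanced
eigenspaces belong to the ring), with the ring `QR`. In detail: let `pj = (2 w)⁻¹ (qm j + w)`, the
projection to `EigM φ z`, `f'` a basis of `EigM φ z` and `Δ v = f'.det (pj (v y))`. The traces of the
`DS Z' σ` on `EigM φ z` are `± tr Z' (EigM φ z) = ± tr Z U = 0` so `Δ` is killed by them and its rational
parts `ratA Δ l` are Hodge classes on `Y = perOne Z'`; `j` may be moved in them (`Δ` with `qm j v y` in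
the place of `v y` is `w * Δ v`). `Y` is simple (`IsSimpleAV Z'`; this is literally `St.IsSimpleSub
(perOne Z') ⊤` up to `⊤ ≠ ⊥`), so they are `IsQWeil c (perOne Z') 6 _` (after reindexing `ι ≃ Fin 6`;
`St.IsAV (perOne Z')`: `h'.cht.av ..`, see `pullq` in `Pool/Agent/H926/A/Qpull.lean`).
The given form: `ψ v = f.det (q y (v y)) = const * f'.det (T (ml F (q y (v y))))`, and
`v ↦ T (ml F (q y v))` is an equivariant map `R y` from `LZ Z` on `V` to `LZ Z'` on `V'`, so it is in the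
complex span of the rational homomorphisms `TT Z Z'` (`exp_mem`, see the end of `s_qweil` in
`Pool/Agent/H926/A/Qweil.lean`); reduction to one rational homomorphism `A` for all variables:
`M1_mem`/`N1_mem` (polarization); and then `altQ` of `v ↦ Δ (A v)` is a combination of the pull-backs
along `A` of the rational parts (`altQ_expand`), as at the end of `pullq`. -/
def S_Q6 : Prop :=
  ∀ (B G : ℕ) (_hB : 6 ≤ B) (Z : Matrix (Fin G) (Fin G) ℂ) (_h : PM Z) (_hq : QF Z)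
    (U : Submodule ℂ (Fin G ⊕ Fin G → ℂ)) (_hU : IrS (LZ Z) U) (_h6 : finrank ℂ U = 6)
    (_hA : ¬AltE (LZ Z) U) (_htr : tr Z U = 0) (ι : Type) [Fintype ι] [DecidableEq ι]
    (f : Basis ι ℂ U) (q : ι → (Fin G ⊕ Fin G → ℂ) →ₗ[ℂ] U)
    (_hq : ∀ y, ∀ X ∈ LZ Z, ∀ v, (q y (X *ᵥ v) : Fin G ⊕ Fin G → ℂ) =
      X *ᵥ (q y v : Fin G ⊕ Fin G → ℂ))
    (ψ : MultilinearMap ℂ (fun _ : ι => Fin G ⊕ Fin G → ℂ) ℂ)
    (_hψ : ∀ v, ψ v = f.det (fun y => q y (v y))) (c : Prop),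
    ψ ∈ NQ Z B c ι

/-- The Gram matrix of the Hermitian form on the image of the idempotent. -/
def Sg {V N : Type} [Fintype V] {K : IntermediateField ℚ ℂ} (M : Matrix V V ℚ)
    (P : Matrix V N K) : Matrix N N ℂ := (cx P)ᵀ * cK ℂ M * (cx P).map (starRingEnd ℂ)

/-- **S_DPOS (the sign of the determinant).**

Proof. Let `Σ = Sg M P`. `conj Σ = (P̄)ᵀ M P = -Σᵀ` (`M` is real and skew), so `conj (det Σ) =
(-1) ^ 6 det Σ = det Σ`, `det Σ` is real; it is in `K = ℚ(r)` (the entries of `cx P` and of its conjugate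
are in `K`, as `conj r = -r`), `K = ℚ + ℚ r`, `r` purely imaginary, so it is rational.
Sign: let `J` be the complex matrix of the complex structure and `C = (cx Q) J (cx P)`. `J` commutes with
`cx (P * Q)` (`w.com (RingEquiv.refl ℂ)`, `DJ J = ± I J`), so `J (cx P) = (cx P) C`, `C * C = -1`,
`trace C = 0` (`w.tr`). So `det C = 1`: e.g. `p = (1 - I C) / 2` is an idempotent with trace `3`, so it
has rank three (`Pool.Agent.Y4.P.exists_PQ`-like decompositions `p = P' Q'`, `Q' P' = 1`, or a basis of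
eigenvectors), and `C = I (2 p - 1)`; `det C = I ^ 6 * (1) ^ 3 * (-1) ^ 3 = 1`.
Positivity: for `u : N → ℂ`, `u ≠ 0`, the vector `v = (cx P) u` is not zero (`Q P = 1`), `v = x + I y` with
real `x`, `y`, and `(J v) ⬝ᵥ (M v̄)` is `(J x) ⬝ᵥ (M x) + (J y) ⬝ᵥ (M y) > 0` (the mixed terms cancel,
because `Jᵀ M` is symmetric, by `w.inv` and `w.skew`); and `(J v) ⬝ᵥ (M v̄) = uᵀ (Cᵀ Σ) ū`. So the matrix
`Cᵀ Σ` (or its transpose) is Hermitian positive definite, its determinant is positive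
(`Matrix.PosDef.det_pos`), and `det (Cᵀ Σ) = det C * det Σ = det Σ`. -/
def S_DPOS : Prop :=
  ∀ (r : ℂ) (D : ℚ) (_hD : 0 < D) (_hr : r * r = -(D : ℂ)) (V N : Type) [Fintype V]
    [DecidableEq V] [Fintype N] [DecidableEq N] (_hN : Fintype.card N = 6) (J : Matrix V V ℝ)
    (M : Matrix V V ℚ) (P : Matrix V N (IntermediateField.adjoin ℚ {r}))
    (Q : Matrix N V (IntermediateField.adjoin ℚ {r})) (_w : WD J M P Q),
    ∃ δ : ℚ, 0 < δ ∧ Matrix.det (Sg M P) = δ

/-- **S_DISC (the discriminant).** `WD`, `JB`, `reg`, `co`, `blow`, `MB` are in `Y4/P/Jobs.lean`, the facts on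
them in `Y141/P/JStr.lean`, `actK` in `Y220/P/JPull.lean`; see the use in `pullq`
(`Pool/Agent/H926/A/Qpull.lean`: `s1` ... `s7`, `ch.polar`).

Proof. Let `E v w = v ⬝ᵥ (M' *ᵥ w)` with `M' = (reg β P)ᵀ * W * reg β P`, where
`W (v, i) (v', i') = if i = i' then (if i = 0 then 1 else D) * M v v' else 0`. It is a polarization: like
`MB β M P` (the proof of `jstr`; `reg β P` is injective and intertwines `JB β J P Q` and `blow 2 J`, and
`W` is `M` on the first and `D M` on the second copy of `V`), by `ch.polar`.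
For `u v : N × Fin 2 → ℚ` let `ũ = u (·, 0) + r u (·, 1) : N → K` and `S(u, v) = (P ũ)ᵀ M conj(P ṽ)`. Then
`reg β P *ᵥ u` has the coordinates of `P ũ`, and with `x = x₀ + r x₁`, `y = y₀ + r y₁` (`r̄ = -r`,
`r ^ 2 = -D`): `xᵀ M ȳ = (x₀ᵀ M y₀ + D x₁ᵀ M y₁) + r (x₁ᵀ M y₀ - x₀ᵀ M y₁)`, so
`E u v` is the rational part of `S(u, v) = E u v + r I(u, v)`. `actK β N r'` is multiplication by `r`, so
`E (r u) v + r I(r u, v) = S(r u, v) = r S(u, v) = -D I(u, v) + r E(u, v)`: `E (r u) v = -D I(u, v)`, and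
`S(u, r v) = -r S(u, v)` gives `E u (r v) = D I(u, v)`. So `E (r u) v = -E u (r v)`, and
`E u (r v) + r E u v = D I(u, v) + r E u v = r (E u v - r I(u, v)) = r conj (S(u, v))`. Take in
`HasTrivialDisc` `s = r`, `v i` = the unit vector at `(e i, 0)` (`e : Fin 6 ≃ N`), so
`S(v i, v j) = Sg M P (e i) (e j)`, and the determinant is `r ^ 6 * conj (det (Sg M P)) = -D ^ 3 * δ =
-a ^ 2`. Take `x = a`, `y = 0`. -/
def S_DISC : Prop :=
  ∀ (r : ℂ) (D : ℚ) (_hD : 0 < D) (_hr : r * r = -(D : ℂ)) (V N : Type) [Fintype V]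
    [DecidableEq V] [Fintype N] [DecidableEq N] (_hN : Fintype.card N = 6) (J : Matrix V V ℝ)
    (M : Matrix V V ℚ) (P : Matrix V N (IntermediateField.adjoin ℚ {r}))
    (Q : Matrix N V (IntermediateField.adjoin ℚ {r})) (_w : WD J M P Q)
    (β : Basis (Fin 2) ℚ (IntermediateField.adjoin ℚ {r})) (_h0 : ((β 0 : _) : ℂ) = 1)
    (_h1 : ((β 1 : _) : ℂ) = r) (δ a : ℚ) (_hδ : Matrix.det (Sg M P) = δ) (_ha : a ≠ 0)
    (_hda : D ^ 3 * δ = a ^ 2) (T : Type) [AddCommGroup T] [Module ℂ T]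
    (per : (N × Fin 2 → ℚ) →+ T) (_ch : Cht per (JB β J P Q))
    (r' : IntermediateField.adjoin ℚ {r}) (_hr' : (r' : ℂ) = r),
    St.HasTrivialDisc per D (Pool.Agent.Y220.P.actK β N r')

/-- **S_QONE (products of determinants for one field).** Uses S_QWEIL, S_QTR, S_QVAN, S_QTWO, S_Q6.
(The proof for `c = False` is in `Pool/Agent/H926/A/Qone.lean`, by helper263.)

New: if `c` is true, `∑ x, card (ι x) = 6 ≤ B` and no `card (ι x)` is odd: the numbers `finrank (W x)` are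
positive, even and not two (S_QTWO), so there is exactly one `x : S`, `finrank (W x) = 6`; its trace
`trace (DZ Z * ε x) = 0` is `tr Z (W x)` (`Pool.Agent.Y977.P.jtrace` with `σ = RingEquiv.refl ℂ`), and S_Q6
gives the claim after the reindexing `(Σ x, ι x) ≃ ι x`.

Proof. As in `Pool.Agent.Y4.P.det_full` (`Y4/P/Det2.lean`) with `K = IntermediateField.adjoin ℚ {w}`:
the entries of `ε x` are in `K`, `exists_PQ hId` gives `d x`, `P x`, `Q x`, etc. The traces:
by S_QTR `∑ x, trace (DS Z σ * ε x) = (σ w / w) * ∑ x, trace (DZ Z * ε x) = 0` for all `σ`, and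
`Pool.Agent.Y4.P.trace_all` gives it for all `X ∈ LZ Z`. `d x = card (ι x) = finrank (W x)`. If
`∑ x, d x ≤ B` use S_QWEIL in the place of `hWl`. Otherwise `∑ x, card (ι x) > B ≥ G`, so the first
alternative of `_hb` holds, and `ψ v = 0` if some `v ⟨x, y⟩` is in the common kernel (a determinant
with the zero vector), so `altQ ψ = 0` by S_QVAN and `ψ ∈ NQ Z B _` (by definition of `NQ`: for all
instances `altQ ψ ∈ RCq`). -/
def S_QONE : Prop :=
  ∀ (B G : ℕ) (_hGB : G ≤ B) (Z : Matrix (Fin G) (Fin G) ℂ) (_h : PM Z) (w : ℂ) (D : ℚ)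
    (_hD : 0 < D) (_hw : w * w = -(D : ℂ)) (S : Type) [Fintype S] [DecidableEq S]
    (W : S → Submodule ℂ (Fin G ⊕ Fin G → ℂ)) (_hW : ∀ x, IrS (LZ Z) (W x))
    (ε : S → Matrix (Fin G ⊕ Fin G) (Fin G ⊕ Fin G) ℂ)
    (T : S → (Fin G ⊕ Fin G → ℂ) →ₗ[ℂ] (Fin G ⊕ Fin G → ℂ)) (_e1 : ∀ x, ε x * ε x = ε x)
    (_e2 : ∀ x, ∀ X ∈ LZ Z, X * ε x = ε x * X) (_e3 : ∀ x i j, ∃ y z : ℚ, ε x i j = y + z * w)
    (_e5 : ∀ x, ∀ X ∈ LZ Z, ∀ u ∈ W x, T x (X *ᵥ u) = X *ᵥ T x u)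
    (_e6 : ∀ x, ∀ u ∈ W x, T x u = 0 → u = 0) (_e7 : ∀ x v, v ∈ (W x).map (T x) ↔ ε x *ᵥ v = v)
    (_htr : ∑ x, Matrix.trace (DZ Z * ε x) = 0)
    (ι : S → Type) [∀ x, Fintype (ι x)] [∀ x, DecidableEq (ι x)]
    (f : ∀ x, Basis (ι x) ℂ (W x)) (q : ∀ x, ι x → (Fin G ⊕ Fin G → ℂ) →ₗ[ℂ] W x)
    (_hq : ∀ x y, ∀ X ∈ LZ Z, ∀ v, (q x y (X *ᵥ v) : Fin G ⊕ Fin G → ℂ) =
      X *ᵥ (q x y v : Fin G ⊕ Fin G → ℂ))
    (_hb : G ≤ finrank ℂ ↥(⨅ x, ⨅ y, LinearMap.ker (q x y)) ∨ ∑ x, Fintype.card (ι x) ≤ B)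
    (ψ : MultilinearMap ℂ (fun _ : (Σ x, ι x) => Fin G ⊕ Fin G → ℂ) ℂ)
    (_hψ : ∀ v, ψ v = ∏ x, (f x).det (fun y => q x y (v ⟨x, y⟩)))
    (c : Prop) (_hc : c → QF Z ∧ ∀ x, ¬AltE (LZ Z) (W x)),
    ψ ∈ NQ Z B c (Σ x, ι x)

/-- **S_QDET (products of determinants).** Uses S_QONE, S_QTR, S_QISO. Compare
`Pool.Agent.Y4.P.det_full` (`Y4/P/Det2.lean`). (The proof for `c = False` is in
`Pool/Agent/H926/A/Qdet.lean`, by helper643. New: the hypothesis `_hc` of S_QONE; an alternating form on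
`W x` would be an invariant pairing of `W x` with itself, excluded as in `_hno`.)

Proof. Let `S = Σ i, Fin (a i).toNat`; for `x : S` one has `a x.1 > 0`; take `w x`, `D x`, `ε x`, `T x`
from `_hPD`. `_hno` of S_QISO: if there is a nonzero invariant pairing of `W x.1` and `W x'.1` then
`Du (RZ Z) 1 (W x.1) (W x'.1)` (`rz_du`), and `Du (RZ Z) 1 (W x.1) (W (st x.1))`, so by `_hDu'`
`x'.1 = st x.1` and `a x'.1 = -a x.1 < 0`, a contradiction.
Traces: let `t x = trace (DZ Z * ε x)` and `χ x : (ℂ ≃+* ℂ) →* ℂ`, `χ x σ = σ (w x) / w x` (the values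
are `±1`, so it is multiplicative: `σ (τ w) = ± σ w`). By `jtrace` and `tr_pos` (as in `det_full`)
`∑ x, trace (DS Z σ * ε x) = 0` for all `σ`, that is `∑ x, χ x σ * t x = 0` by S_QTR. The distinct
ones among the characters `χ x` are linearly independent (`linearIndependent_monoidHom`), so for each
`c` in the (finite) set `C` of the characters `χ x`: `∑ x with χ x = c, t x = 0`.
One class: fix `c ∈ C` and `x₀` with `χ x₀ = c`, `w = w x₀`. For `x` with `χ x = c` the quotient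
`w x / w` is fixed by all automorphisms of `ℂ`, so it is rational (library: a complex number fixed by
all automorphisms of `ℂ` is rational; look for it in `Pool.Graph.R_seed8.Y90` / `W437`), so the entries
of `ε x` are in `ℚ + ℚ w`. S_QONE for `S_c = {x // χ x = c}` gives: the product of the determinants
over `x ∈ S_c` is in `NQ Z B (Σ x : S_c, ι x.1.1)` (first alternative of `_hb` by S_QISO).
The product over all classes: by induction on a finite set `C'` of characters the product of the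
determinants over `{x // χ x ∈ C'}` is in `NQ Z B _`, by `(clo_NQ Z B).mul` (see `Clo` in the library
and its use in `Pool/Agent/H926/Kun.lean`) with the bijection
`(Σ x : {χ x = c}, ι) ⊕ (Σ x : {χ x ∈ C'}, ι) ≃ Σ x : {χ x ∈ insert c C'}, ι`; for `C' = C` reindex. -/
def S_QDET : Prop :=
  ∀ (B G : ℕ) (_hGB : G ≤ B) (Z : Matrix (Fin G) (Fin G) ℂ) (_h : PM Z) (s : ℕ)
    (W : Fin s → Submodule ℂ (Fin G ⊕ Fin G → ℂ)) (_hW : ∀ i, IrS (LZ Z) (W i))
    (st : Fin s → Fin s) (_hst : ∀ i, st (st i) = i) (_hDu : ∀ i, Du (RZ Z) 1 (W i) (W (st i)))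
    (_hDu' : ∀ i j, Du (RZ Z) 1 (W i) (W j) → j = st i)
    (a : Fin s → ℤ) (_ha : ∀ i, a (st i) = -a i) (_hPD : ∀ i, a i ≠ 0 → PDq (LZ Z) (W i))
    (_hdet : ∀ (g : Gam (GG (LZ Z))) (hg : ∀ i, ∀ u ∈ W i, RZ Z g u ∈ W i), ∃ M : ℕ, M ≠ 0 ∧
      (∏ i, LinearMap.det ((RZ Z g).restrict (hg i)) ^ a i) ^ M = 1)
    (ι : Fin s → Type) [∀ i, Fintype (ι i)] [∀ i, DecidableEq (ι i)]
    (f : ∀ i, Basis (ι i) ℂ (W i))
    (q : ∀ x : (Σ i, Fin (a i).toNat), ι x.1 → (Fin G ⊕ Fin G → ℂ) →ₗ[ℂ] W x.1)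
    (_hq : ∀ x y g v, (q x y (RZ Z g v) : Fin G ⊕ Fin G → ℂ) = RZ Z g (q x y v))
    (ψ : MultilinearMap ℂ (fun _ : (Σ x : (Σ i, Fin (a i).toNat), ι x.1) =>
      Fin G ⊕ Fin G → ℂ) ℂ)
    (_hψ : ∀ v, ψ v = ∏ x : (Σ i, Fin (a i).toNat), (f x.1).det (fun y => q x y (v ⟨x, y⟩)))
    (c : Prop) (_hc : c → QF Z),
    ψ ∈ NQ Z B c (Σ x : (Σ i, Fin (a i).toNat), ι x.1)

/-- **S_QDET1 (determinants on orthogonal submodules).** Uses S_QONE. Compare `s_det1`
(`Pool/Agent/H926/T/Det1.lean`). (The proof for `c = False` is in `Pool/Agent/H926/A/Qdet1.lean`, by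
helper643. New: the hypothesis `_hc` of S_QONE; `¬AltE (LZ Z) U` as each invariant form on `U` is a
multiple of the symmetric form `b`.)

Proof. Take `w`, `D`, `ε`, `T` from `PDq`. S_QONE with `S = Unit`, `W = fun _ => U`, `ι = fun _ => Fin n`
(reindex `Fin n ≃ Σ _ : Unit, Fin n` as in `det_one`, `Pool/Agent/H926/T3d.lean`). The trace: as in
`s_det1` (`trace (X * ε)` is the trace of the restriction of `X` to `U`, which is skew for the
nondegenerate form `b`; `trace_skew`); take `X = DZ Z`. The bound: `n = finrank ℂ U ≤ G ≤ B`: `om G`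
restricted to `U` is an invariant alternating form; by Schur's lemma it is a multiple of the symmetric
nondegenerate form `b` on `U` (`om G u v = b (τ u) v` for a linear `τ : U → U` commuting with `LZ Z`, an
eigenspace of `τ` is stable, so `τ` is a scalar `c`; `c b u v = om G u v = -om G v u = -c b v u =
-c b u v`, so `c = 0`). So `U` is isotropic for the nondegenerate form `om G` on a space of dimension
`2 G` and `finrank ℂ U ≤ G` (e.g. `LinearMap.BilinForm` orthogonal complements, or `U → Dual (V / U)` is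
injective). -/
def S_QDET1 : Prop :=
  ∀ (B G : ℕ) (_hGB : G ≤ B) (Z : Matrix (Fin G) (Fin G) ℂ) (_h : PM Z)
    (U : Submodule ℂ (Fin G ⊕ Fin G → ℂ)) (_hU : IrS (LZ Z) U) (_hPD : PDq (LZ Z) U)
    (b : (Fin G ⊕ Fin G → ℂ) →ₗ[ℂ] (Fin G ⊕ Fin G → ℂ) →ₗ[ℂ] ℂ)
    (_hb : ∀ X ∈ LZ Z, ∀ u ∈ U, ∀ v ∈ U, b (X *ᵥ u) v + b u (X *ᵥ v) = 0)
    (_hb0 : ∃ u ∈ U, ∃ v ∈ U, b u v ≠ 0) (_hbs : ∀ u ∈ U, ∀ v ∈ U, b u v = b v u)
    (n : ℕ) (e : Basis (Fin n) ℂ U) (q : Fin n → ((Fin G ⊕ Fin G → ℂ) →ₗ[ℂ] U))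
    (_hq : ∀ i, ∀ X ∈ LZ Z, ∀ v, ((q i (X *ᵥ v) : U) : Fin G ⊕ Fin G → ℂ) =
      X *ᵥ (q i v : Fin G ⊕ Fin G → ℂ))
    (ψ : MultilinearMap ℂ (fun _ : Fin n => Fin G ⊕ Fin G → ℂ) ℂ)
    (_hψ : ∀ v, ψ v = e.det fun j => q j (v j)) (c : Prop) (_hc : c → QF Z), ψ ∈ NQ Z B c (Fin n)

/-- **S_QLOC (irreducible submodules).** Compare `s_pd` (`Pool/Agent/H926/T/Det1.lean`).

Proof. `exists_fac h hU.1` gives a simple factor `Z'` (`Fac Z Z' E F`) such that `ml F` is injective on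
`U` and `U' = U.map (ml F)` is irreducible. Take `φ` from `RQM Z'`. By
`Pool.Agent.Y261.P.jspec a Z' h' hs ha φ hφ` there is a root `z` of the minimal polynomial of `φ` and an
equivariant `T`, injective on `U'`, with `U'.map T = EigM φ z`.
Case 1: `z` is real (in particular if all roots are real). Then `om a` is not zero on `EigM φ z`
(`Pool.Agent.Y4.P.om_real h' hz ..`, see its use in `small_class`, `Y4/P/Sml.lean`), it is alternating
and `LZ Z'` is skew for it; `b u v = om a (T (ml F u)) (T (ml F v))` gives `AltE (LZ Z) U` (`hf.act`: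
`ml F (X *ᵥ u) = (cK ℂ F * X * cK ℂ E) *ᵥ ml F u` and `hf.comp`: this matrix is in `LZ Z'`).
Case 2: `z` is not real, the degree is `2`: the minimal polynomial is `X ^ 2 + s X + t` with rational
`s`, `t`, the roots are `z`, `cc z`, `4 t - s ^ 2 = 4 (im z) ^ 2 > 0`. Let `w = z - cc z = 2 z + s`, so
`w * w = -(4 t - s ^ 2)`, `D = 4 t - s ^ 2` (see `imQ_of` in `Y4/P/Sml.lean`). The idempotent
`ε' = w⁻¹ • (qm φ - cc z • 1)` has the image `EigM φ z` and coefficients in `ℚ + ℚ w`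
(`w⁻¹ = -w / D`, `cc z = (-s - w) / 2`), and it commutes with `LZ Z'` (`Y261.P.qm_comm`). So
`PDq (LZ Z') U'` with `T`, and `PDq (LZ Z) U` as in `Pool.Agent.Y4.P.jtransfer2` (`Y4/P/Tra.lean`) with
`ε = cK ℂ E * ε' * cK ℂ F` (`E`, `F` are rational). -/
def S_QLOC : Prop :=
  ∀ (G : ℕ) (Z : Matrix (Fin G) (Fin G) ℂ) (_h : PM Z) (_hq : QF Z)
    (U : Submodule ℂ (Fin G ⊕ Fin G → ℂ)) (_hU : IrS (LZ Z) U),
    AltE (LZ Z) U ∨ PDq (LZ Z) U

/-- **S_QGOOD (the factors of the period matrix of an abstract abelian variety).**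

Proof. As in `Pool.Agent.Y4.P.G3.jgood3` and `Pool.Agent.Y4.Q.jgood4` (`Y4/P/Goo.lean`,
`Y4/P/Goo4.lean`): `exists_sd A hC hf h' hs ha` gives a simple abelian subvariety `U` with `Sd`; take
`a` from the hypothesis; `maxM` gives `MaxM Z' ((Φ e).symm a)`, and the minimal polynomials of `a` and
`(Φ e).symm a` agree (see `realOddM`). -/
def S_QGOOD : Prop :=
  ∀ (H T : Type) [AddCommGroup H] [Module ℚ H] [AddCommGroup T] [Module ℂ T] (per : H →+ T)
    (G : ℕ) (Z : Matrix (Fin G) (Fin G) ℂ) (A : H ≃ₗ[ℚ] (Fin G ⊕ Fin G → ℚ))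
    (_hC : Cht (per.comp A.symm.toLinearMap.toAddMonoidHom) (JR Z))
    (_hs : ∀ U : Submodule ℚ H, St.IsSimpleSub per U → IsRQSub per U), QF Z

end

end Pool.Agent.H926.A
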