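import Mathlib
import Pool.Agent.H926.A.Jobs
import Pool.Agent.H926.T.Dual

namespace Pool.Agent.H926.A

open Matrix Module Pool.Agent.W437.HC Pool.Agent.W437.HD Pool.Agent.TH504.CB Pool.Agent.W522.U
open Pool.Agent.Y90 hiding mulA exists_lam mulA_altQ
open Pool.Agent.W548.Odd hiding cv

noncomputable section

variable {G B : ℕ} {Z : Matrix (Fin G) (Fin G) ℂ}

/-- Invariant forms on an irreducible submodule are proportional. -/
theorem prop_forms {U : Submodule ℂ (Fin G ⊕ Fin G → ℂ)} (hU : IrS (LZ Z) U)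
    {b b' : (Fin G ⊕ Fin G → ℂ) →ₗ[ℂ] (Fin G ⊕ Fin G → ℂ) →ₗ[ℂ] ℂ}
    (hb : ∀ X ∈ LZ Z, ∀ u ∈ U, ∀ v ∈ U, b (X *ᵥ u) v + b u (X *ᵥ v) = 0)
    (hb' : ∀ X ∈ LZ Z, ∀ u ∈ U, ∀ v ∈ U, b' (X *ᵥ u) v + b' u (X *ᵥ v) = 0)
    (hb0 : ∃ u ∈ U, ∃ v ∈ U, b u v ≠ 0) : ∃ c : ℂ, ∀ u ∈ U, ∀ v ∈ U, b' u v = c * b u v := by
  let S : U →ₗ[ℂ] Module.Dual ℂ U := b.domRestrict₁₂ U U
  let S' : U →ₗ[ℂ] Module.Dual ℂ U := b'.domRestrict₁₂ U U
  have hS : ∀ u v : U, S u v = b u v := fun _ _ => rfl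
  have hS' : ∀ u v : U, S' u v = b' u v := fun _ _ => rfl
  have hinj : Function.Injective S := by
    rw [injective_iff_map_eq_zero]
    intro u hu
    let W : Submodule ℂ (Fin G ⊕ Fin G → ℂ) :=
      { carrier := {x | x ∈ U ∧ ∀ v ∈ U, b x v = 0}
        add_mem' := fun {x y} hx hy => ⟨U.add_mem hx.1 hy.1, fun v hv => by
          rw [map_add, LinearMap.add_apply, hx.2 v hv, hy.2 v hv, add_zero]⟩
        zero_mem' := ⟨U.zero_mem, fun v _ => by rw [map_zero, LinearMap.zero_apply]⟩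
        smul_mem' := fun c x hx => ⟨U.smul_mem c hx.1, fun v hv => by
          rw [map_smul, LinearMap.smul_apply, hx.2 v hv, smul_zero]⟩ }
    have hW : Stab (LZ Z) W := by
      rintro X hX x ⟨hx1, hx2⟩
      refine ⟨hU.2.1 X hX x hx1, fun v hv => ?_⟩
      have h1 := hb X hX x hx1 v hv
      rw [hx2 _ (hU.2.1 X hX v hv), add_zero] at h1
      exact h1
    rcases hU.2.2 W (fun x hx => hx.1) hW with h1 | h1
    · have h2 : (u : Fin G ⊕ Fin G → ℂ) ∈ W := ⟨u.2, fun v hv => by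
        have h3 := LinearMap.congr_fun hu ⟨v, hv⟩
        exact h3⟩
      rw [h1, Submodule.mem_bot] at h2
      exact Subtype.ext h2
    · exfalso
      obtain ⟨x, hx, v, hv, hne⟩ := hb0
      have h2 : x ∈ W := by rw [h1]; exact hx
      exact hne (h2.2 v hv)
  let e : U ≃ₗ[ℂ] Module.Dual ℂ U := LinearEquiv.ofInjectiveOfFinrankEq S hinj
    Subspace.dual_finrank_eq.symm
  have he : ∀ u, e u = S u := fun u => rfl
  let τ : U →ₗ[ℂ] U := e.symm.toLinearMap ∘ₗ S'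
  have hτ : ∀ u, S (τ u) = S' u := by
    intro u
    rw [← he]
    exact e.apply_symm_apply _
  have hst : ∀ X ∈ (LZ Z).map (ph (Fin G ⊕ Fin G)).toLinearMap, ∀ u ∈ U, X u ∈ U := by
    rintro _ ⟨X, hX, rfl⟩ u hu
    exact hU.2.1 X hX u hu
  obtain ⟨c, hc⟩ := T.DualL.schur (L := ((LZ Z).map (ph (Fin G ⊕ Fin G)).toLinearMap :
      Set (End ℂ (Fin G ⊕ Fin G → ℂ)))) hU.1 (fun W hWU hW => hU.2.2 W hWU fun X hX w hw =>
      hW _ ⟨X, hX, rfl⟩ w hw) τ (by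
    rintro _ ⟨X, hX, rfl⟩ u hu hXu
    have h1 : S (τ ⟨X *ᵥ u, hXu⟩) = S ⟨X *ᵥ (τ ⟨u, hu⟩ : Fin G ⊕ Fin G → ℂ),
        hU.2.1 X hX _ (τ ⟨u, hu⟩).2⟩ := by
      rw [hτ]
      refine LinearMap.ext fun v => ?_
      rw [hS', hS]
      have h2 := hb' X hX u hu v v.2
      have h3 := hb X hX _ (τ ⟨u, hu⟩).2 v v.2
      have h4 := LinearMap.congr_fun (hτ ⟨u, hu⟩) ⟨X *ᵥ (v : Fin G ⊕ Fin G → ℂ),
        hU.2.1 X hX v v.2⟩
      rw [hS', hS] at h4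
      change b' (X *ᵥ u) v = _
      linear_combination h2 - h3 + h4
    exact congrArg Subtype.val (hinj h1)) hst
  refine ⟨c, fun u hu v hv => ?_⟩
  have h1 := LinearMap.congr_fun (hτ ⟨u, hu⟩) ⟨v, hv⟩
  rw [hc, map_smul, LinearMap.smul_apply, smul_eq_mul] at h1
  exact h1.symm

/-- A submodule with a symmetric invariant form has no alternating one. -/
theorem not_alt_of_sym {U : Submodule ℂ (Fin G ⊕ Fin G → ℂ)} (hU : IrS (LZ Z) U)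
    {b : (Fin G ⊕ Fin G → ℂ) →ₗ[ℂ] (Fin G ⊕ Fin G → ℂ) →ₗ[ℂ] ℂ}
    (hb : ∀ X ∈ LZ Z, ∀ u ∈ U, ∀ v ∈ U, b (X *ᵥ u) v + b u (X *ᵥ v) = 0)
    (hb0 : ∃ u ∈ U, ∃ v ∈ U, b u v ≠ 0) (hbs : ∀ u ∈ U, ∀ v ∈ U, b u v = b v u) :
    ¬AltE (LZ Z) U := by
  rintro ⟨b', c1, ⟨u, hu, v, hv, c2⟩, c3⟩
  obtain ⟨c, hc⟩ := prop_forms hU hb c1 hb0
  have h1 := hc u hu v hv
  have h2 := hc v hv u hu
  have h3 := c3 u hu v hv
  have h4 := hbs u hu v hv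
  apply c2
  linear_combination (1 / 2 : ℂ) * (h1 + h3 - h2) + (c / 2) * h4

end

end Pool.Agent.H926.A
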