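import Mathlib
import Pool.Agent.H926.A.Qfrm

/-!
# Invariant forms and Weil classes for imaginary quadratic fields
-/

set_option linter.unusedSectionVars false

namespace Pool.Agent.H926.A

open Matrix Module Pool.Agent.W437.HC Pool.Agent.W437.HD Pool.Agent.TH504.CB Pool.Agent.W522.U
open Pool.Agent.Y90 hiding mulA exists_lam mulA_altQ
open Pool.Agent.W548.Odd hiding cv
open Pool.Agent.W437.HP (cK cK_mul cK_one)
open Pool.Agent.H204R3.CM (IsHodge)
open Pool.Agent.H204R3.SP (Kills bil2 IsTate)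
open Pool.Agent.H926.T

noncomputable section

variable {G B : ℕ} {c : Prop} {Z : Matrix (Fin G) (Fin G) ℂ}

/-- The alternation of an invariant form is a combination of Hodge classes. -/
theorem altQ_memq (h : PM Z) {κ : Type} [Fintype κ] [DecidableEq κ]
    {F : MultilinearMap ℂ (fun _ : κ => Fin G ⊕ Fin G → ℂ) ℂ}
    (hF : ∀ X ∈ LZ Z, act X (CF F) = 0)
    (hR : ∀ r : (Fin G ⊕ Fin G → ℚ) [⋀^κ]→ₗ[ℚ] ℚ, IsHodge (perOne Z) r → QR (perOne Z) B c κ r) :
    altQ F ∈ RCq (perOne Z) B c κ := by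
  obtain ⟨m, c', l, hl⟩ := altQ_expand F
  have h1 : altQ F = ∑ j, c' j • fun v : κ → (Fin G ⊕ Fin G → ℚ) => ((ratA F (l j) v : ℚ) : ℂ) := by
    funext v
    rw [hl v, Finset.sum_apply]
    rfl
  rw [h1]
  refine Submodule.sum_mem _ fun j _ => Submodule.smul_mem _ _ ?_
  exact RCq_of (hR _ (h.cht.hodge_rat gal_LZ DZ_mem hF (l j)))

theorem pair_memq (h : PM Z) (b : (Fin G ⊕ Fin G → ℂ) →ₗ[ℂ] (Fin G ⊕ Fin G → ℂ) →ₗ[ℂ] ℂ)
    (hb : ∀ g u v, b (RZ Z g u) (RZ Z g v) = (1 : Gam (GG (LZ Z)) →* ℂ) g * b u v) :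
    bil2 b ∈ NQ Z B c (Fin 2) := by
  intro i1 i2
  obtain rfl : i1 = Fin.fintype 2 := Subsingleton.elim _ _
  obtain rfl : i2 = instDecidableEqFin 2 := Subsingleton.elim _ _
  refine altQ_memq h (fun X hX => act_of_kills fun v => ?_) fun r hr =>
    QR.divisor (κ := Fin 2) (Nat.card_fin 2) r hr
  have h1 := (rz_bil h stab_top stab_top b).1 (fun g u _ v _ => by
    rw [hb, MonoidHom.one_apply, one_mul]) X hX (v 0) trivial (v 1) trivial
  rw [Fin.sum_univ_two]
  exact h1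

/-- The alternation of an alternating form. -/
theorem altQ_altq (_h : PM Z) {κ : Type} [Fintype κ] [DecidableEq κ]
    (f : (Fin G ⊕ Fin G → ℚ) [⋀^κ]→ₗ[ℚ] ℚ)
    (hf : altQ (evalM (cst ℂ (CF f.toMultilinearMap))) ∈ RCq (perOne Z) B c κ) :
    QR (perOne Z) B c κ f := by
  refine RCq_descent ?_
  have h1 : (fun v : κ → (Fin G ⊕ Fin G → ℚ) => ((f v : ℚ) : ℂ)) =
      ((Fintype.card (Equiv.Perm κ) : ℂ))⁻¹ • altQ (evalM (cst ℂ (CF f.toMultilinearMap))) := by
    funext v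
    have h2 : ∀ σ : Equiv.Perm κ, ((Equiv.Perm.sign σ : ℤ) : ℂ) *
        evalM (cst ℂ (CF f.toMultilinearMap)) (fun k => cv (v (σ k))) = ((f v : ℚ) : ℂ) := by
      intro σ
      have h3 : evalM (cst ℂ (CF f.toMultilinearMap)) (fun k => cv (v (σ k))) =
          ((f (fun k => v (σ k)) : ℚ) : ℂ) := by
        have h4 := CF_eval f.toMultilinearMap (fun k => v (σ k))
        rw [evalM_apply]
        change _ = ((f.toMultilinearMap (fun k => v (σ k)) : ℚ) : ℂ)
        rw [h4, evalF_castK]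
        rfl
      rw [h3, show (fun k => v (σ k)) = v ∘ σ from rfl, AlternatingMap.map_perm, Units.smul_def,
        zsmul_eq_mul]
      push_cast
      rw [← mul_assoc, ← Int.cast_mul, ← Units.val_mul, Int.units_mul_self, Units.val_one,
        Int.cast_one, one_mul]
    rw [Pi.smul_apply, smul_eq_mul]
    change _ = _ * altQ (evalM (cst ℂ (CF f.toMultilinearMap))) v
    unfold altQ
    rw [Finset.sum_congr rfl fun σ _ => h2 σ, Finset.sum_const, nsmul_eq_mul, Finset.card_univ,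
      ← mul_assoc, inv_mul_cancel₀, one_mul]
    exact_mod_cast Fintype.card_ne_zero
  rw [h1]
  exact Submodule.smul_mem _ _ hf

theorem bil_memq (h : PM Z) (f : (Fin G ⊕ Fin G → ℂ) →ₗ[ℂ] (Fin G ⊕ Fin G → ℂ) →ₗ[ℂ] ℂ)
    (hf : ∀ X ∈ LZ Z, ∀ u v, f (X *ᵥ u) v + f u (X *ᵥ v) = 0) : bil2 f ∈ NQ Z B c (Fin 2) := by
  intro i1 i2
  obtain rfl : i1 = Fin.fintype 2 := Subsingleton.elim _ _
  obtain rfl : i2 = instDecidableEqFin 2 := Subsingleton.elim _ _
  refine altQ_memq h (fun X hX => act_of_kills fun v => ?_) fun r hr =>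
    QR.divisor (κ := Fin 2) (Nat.card_fin 2) r hr
  rw [Fin.sum_univ_two]
  exact hf X hX (v 0) (v 1)


/-- All forms killed by the Lie algebra belong to the system. -/
def AllFq (Z : Matrix (Fin G) (Fin G) ℂ) (B : ℕ) (c : Prop) : Prop :=
  ∀ (κ : Type) [Fintype κ] [DecidableEq κ]
    (ψ : MultilinearMap ℂ (fun _ : κ => Fin G ⊕ Fin G → ℂ) ℂ),
    (∀ X ∈ LZ Z, Kills (ph (Fin G ⊕ Fin G) X) ψ) → ψ ∈ NQ Z B c κ

/-- The part without orthogonal submodules. -/
theorem nonq (hQD : S_QDET) (h1 : S_FORMQ) (h2 : S_RK1) (h3 : S_TWI) (hGB : G ≤ B) (h : PM Z)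
    (hq : ∀ U, IrS (LZ Z) U → AltE (LZ Z) U ∨ PDq (LZ Z) U) (hc : c → QF Z) (hB : LB (GG (LZ Z)) (om G))
    (Q : End ℂ (Fin G ⊕ Fin G → ℂ)) (hQ : Q * Q = Q)
    (hQC : ∀ T, ComE (GG (LZ Z)) T → T * Q = Q * T) (hQL : ∀ X ∈ GG (LZ Z), X * Q = Q * X)
    (hQω : ∀ u v, om G (Q u) v = om G u (Q v))
    (hno : ∀ U, IrE (GG (LZ Z)) U → U ≤ LinearMap.range Q → ¬OrtE (GG (LZ Z)) U) :
    Supp (GG (LZ Z)) (fun κ _ => NQ Z B c κ) Q := by
  classical
  intro κ _ _ ψ hψ hsup
  have hSI : ∀ {U}, W522.U.SI (RZ Z) U ↔ IrS (LZ Z) U := fun {U} => si_iff h.genI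
  have hinv : ∀ (g : Gam (GG (LZ Z))) (v : κ → Fin G ⊕ Fin G → ℂ),
      ψ (fun k => RZ Z g (v k)) = ψ v := fun g v => inv_gam ψ (fun D hD _ => hψ D hD) g v
  obtain ⟨s, W, st, hW, hWQ, hWW, hall, hst, hDu, hDu'⟩ := exists_repsQ h hQ hQC hQL hQω
  rcases Nat.even_or_odd (Fintype.card κ) with he | ho
  · obtain ⟨m, hm⟩ := he
    have e : κ ≃ Fin m × Fin 2 := Fintype.equivOfCardEq (by
      rw [Fintype.card_prod, Fintype.card_fin, Fintype.card_fin, hm]
      ring)
    have h5 : ψ.domDomCongr e ∈ NQ Z B c (Fin m × Fin 2) := by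
      refine h1 (Fin G ⊕ Fin G → ℂ) (Gam (GG (LZ Z))) (RZ Z) (fun Δ hΔ => fi_top Δ hΔ) (om G) om_nd
        (rz_om h) Q hQ ?_ hQω ?_ ?_ ?_ (rz_proj h) s W hW hWQ hWW hall st hst hDu hDu'
        (fun κ _ => NQ Z B c κ) (clo_NQ Z B c) (pair_memq h) ?_ m _ ?_ ?_
      · intro g v
        exact (rz_equiv h stab_top Q).2 (fun X hX u _ =>
          (LinearMap.congr_fun (hQL (ph _ X) (mem_GG.2 hX)) u).symm) g v trivial
      · intro U hU hUQ hn
        exact rk1Q h2 h hB (hSI.1 hU) (hno U (irE_iff.2 (hSI.1 hU)) hUQ) hn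
      · intro U hU _ hn
        exact rz_line h (hSI.1 hU) hn
      · intro U U' hU hU' hUQ _ hn _ χ hT
        exact twQ h3 h hB (hSI.1 hU) (hSI.1 hU') (hno U (irE_iff.2 (hSI.1 hU)) hUQ) hn χ hT
      · intro a ha hdet ι _ _ f q hq' ψ hψ
        refine hQD B G hGB Z h s W (fun i => hSI.1 (hW i)) st hst hDu hDu' a ha (fun i h0 => ?_)
          hdet ι f q hq' ψ hψ c hc
        rcases hq (W i) (hSI.1 (hW i)) with ⟨b, b1, b2, -⟩ | h5
        · exfalso
          have h6 := hDu' i i ((rz_du h (hSI.1 (hW i)).2.1 (hSI.1 (hW i)).2.1).2 ⟨b, b2, b1⟩)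
          have h7 := ha i
          rw [← h6] at h7
          omega
        · exact h5
      · intro g v
        rw [MultilinearMap.domDomCongr_apply, MultilinearMap.domDomCongr_apply]
        exact hinv g _
      · intro v
        rw [MultilinearMap.domDomCongr_apply, MultilinearMap.domDomCongr_apply]
        exact hsup _
    exact (clo_NQ Z B c).reindex e.symm h5 ψ fun v => by
      rw [MultilinearMap.domDomCongr_apply]
      congr 1
      funext k
      simp
  · have h0 : ψ = 0 := by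
      refine MultilinearMap.ext fun v => ?_
      have h1 := hinv (gt (D := ph _ (DZ Z)) (by rw [← map_mul, DZ_sq h.det, map_one])
        (mem_GG.2 DZ_mem) (-1)) v
      have h2 : (fun k => RZ Z (gt (D := ph _ (DZ Z)) (by rw [← map_mul, DZ_sq h.det, map_one])
        (mem_GG.2 DZ_mem) (-1)) (v k)) = fun k => (-1 : ℂ) • v k := by
        funext k
        change torE (ph _ (DZ Z)) (-1) (v k) = _
        rw [torE_apply]
        simp only [Units.val_neg, Units.val_one, inv_neg, inv_one]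
        module
      rw [h2, MultilinearMap.map_smul_univ, Finset.prod_const, Finset.card_univ,
        Odd.neg_one_pow ho, neg_one_smul] at h1
      have h3 : ψ v = 0 := by linear_combination (-1 / 2 : ℂ) * h1
      rw [h3]
      rfl
    rw [h0]
    exact Submodule.zero_mem _


theorem supp_allq (hQD : S_QDET) (hDet : S_QDET1) (h1 : S_FORMQ) (h2 : S_RK1) (h3' : S_TWI)
    (hOrt : S_ORT) (hO3 : S_O3) (hGB : G ≤ B) (h : PM Z)
    (hq : ∀ U, IrS (LZ Z) U → AltE (LZ Z) U ∨ PDq (LZ Z) U) (hc : c → QF Z)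
    (hB : LB (GG (LZ Z)) (om G)) (n : ℕ) :
    ∀ Q : End ℂ (Fin G ⊕ Fin G → ℂ), finrank ℂ (LinearMap.range Q) = n → Q * Q = Q →
      (∀ T, ComE (GG (LZ Z)) T → T * Q = Q * T) → (∀ X ∈ GG (LZ Z), X * Q = Q * X) →
      (∀ u v, om G (Q u) v = om G u (Q v)) → Supp (GG (LZ Z)) (fun κ _ => NQ Z B c κ) Q := by
  induction n using Nat.strong_induction_on with
  | _ n ih =>
    intro Q hn hQ hQC hQL hQω
    by_cases hex : ∃ U, IrE (GG (LZ Z)) U ∧ U ≤ LinearMap.range Q ∧ OrtE (GG (LZ Z)) U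
    · obtain ⟨U, hU, hUQ, hO⟩ := hex
      have hDm : ph (Fin G ⊕ Fin G) (DZ Z) ∈ GG (LZ Z) := mem_GG.2 DZ_mem
      have hD2 : ph (Fin G ⊕ Fin G) (DZ Z) * ph (Fin G ⊕ Fin G) (DZ Z) = 1 := by
        rw [← map_mul, DZ_sq h.det, map_one]
      have h3 := hO3 _ (GG (LZ Z)) U hU hO _ hDm hD2
      obtain ⟨p, pp, pC, pL, pω, pU, pX, pQ, pS⟩ := hOrt _ (GG (LZ Z)) (om G) hB U hU hO h3
        (fun κ _ => NQ Z B c κ) (clo_NQ Z B c)
        (fun b hb => bil_memq h b fun X hX u v => hb _ (mem_GG.2 hX) u v)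
        (fun m e q hq' ψ hψ => by
          obtain ⟨b, hb1, hb2, hb3⟩ := hO
          have hU' := irs_iff.1 hU
          have hPD : PDq (LZ Z) U := by
            rcases hq U hU' with hA | hP
            · exact absurd hA (not_alt_of_sym hU' (fun X hX u hu v hv =>
                hb1 _ (mem_GG.2 hX) u hu v hv) hb2 hb3)
            · exact hP
          exact hDet B G hGB Z h U hU' hPD b (fun X hX u hu v hv =>
            hb1 _ (mem_GG.2 hX) u hu v hv) hb2 hb3 m e q
              (fun i X hX v => hq' i _ (mem_GG.2 hX) v) ψ hψ c hc)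
      have hQU : ∀ u ∈ U, Q u = u := by
        intro u hu
        obtain ⟨w, rfl⟩ := hUQ hu
        exact LinearMap.congr_fun hQ w
      have hQp : Q * p = p := pQ Q hQC hQU
      have hpQ : p * Q = p := by rw [hQC p pL, hQp]
      have hS := ih (finrank ℂ (LinearMap.range (Q - p))) (by
        rw [← hn]
        refine Submodule.finrank_lt_finrank_of_lt (lt_of_le_of_ne ?_ ?_)
        · rintro _ ⟨w, rfl⟩
          refine ⟨(Q - p) w, ?_⟩
          have h4 : Q * (Q - p) = Q - p := by rw [mul_sub, hQ, hQp]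
          exact LinearMap.congr_fun h4 w
        · intro heq
          obtain ⟨u, hu, hu0⟩ := Submodule.exists_mem_ne_zero_of_ne_bot hU.1
          have h4 : u ∈ LinearMap.range (Q - p) := by
            rw [heq]
            exact hUQ hu
          obtain ⟨w, hw⟩ := h4
          have h5 : p * (Q - p) = 0 := by rw [mul_sub, hpQ, pp, sub_self]
          apply hu0
          rw [← pU u hu, ← hw]
          exact LinearMap.congr_fun h5 w) (Q - p) rfl
        (by rw [mul_sub, sub_mul, sub_mul, hQ, hQp, hpQ, pp]; abel)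
        (fun T hT => by rw [mul_sub, sub_mul, hQC T hT, pC T hT])
        (fun X hX => by rw [mul_sub, sub_mul, hQL X hX, pL X hX])
        (fun u v => by
          rw [LinearMap.sub_apply, LinearMap.sub_apply, map_sub, map_sub, LinearMap.sub_apply,
            hQω, pω])
      have h6 := Supp.add (P := p) (Q := Q - p) (clo_NQ Z B c) pp
        (by rw [mul_sub, sub_mul, sub_mul, hQ, hQp, hpQ, pp]; abel)
        (by rw [mul_sub, hpQ, pp, sub_self]) (by rw [sub_mul, hQp, pp, sub_self]) pL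
        (fun X hX => by rw [mul_sub, sub_mul, hQL X hX, pL X hX])
        (fun X hX => ⟨X * p, pX X hX, by rw [mul_assoc, mul_sub, hpQ, pp, sub_self, mul_zero],
          by rw [mul_assoc, pp]⟩) pS hS
      rwa [add_sub_cancel] at h6
    · exact nonq hQD h1 h2 h3' hGB h hq hc hB Q hQ hQC hQL hQω fun U hU hUQ hO => hex ⟨U, hU, hUQ, hO⟩

/-- **All forms killed by the Lie algebra belong to the system.** -/
theorem allF_ofq (hQD : S_QDET) (hDet : S_QDET1) (h1 : S_FORMQ) (h2 : S_RK1) (h3 : S_TWI)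
    (hOrt : S_ORT) (hO3 : S_O3) (hLB : S_LB) (hGB : G ≤ B) (h : PM Z)
    (hq : ∀ U, IrS (LZ Z) U → AltE (LZ Z) U ∨ PDq (LZ Z) U) (hc : c → QF Z) (hb : BrH Z) : AllFq Z B c := by
  intro κ _ _ ψ hψ
  refine supp_allq hQD hDet h1 h2 h3 hOrt hO3 hGB h hq hc (hLB G Z h hb) _ 1 rfl (one_mul 1)
    (fun T _ => by rw [one_mul, mul_one]) (fun X _ => by rw [one_mul, mul_one]) (fun _ _ => rfl)
    κ ψ (fun y hy => ?_) fun v => rfl
  obtain ⟨A, hA, rfl⟩ := exists_GG hy
  exact hψ A hA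

/-- **Hodge classes belong to the ring: period matrices.** -/
theorem hodge_pmq (hA : AllFq Z B c) (h : PM Z) {κ : Type} [Finite κ] (f : (Fin G ⊕ Fin G → ℚ) [⋀^κ]→ₗ[ℚ] ℚ)
    (hf : IsHodge (perOne Z) f) : QR (perOne Z) B c κ f := by
  classical
  let _ : Fintype κ := Fintype.ofFinite κ
  refine altQ_altq h f ?_
  have h2 : evalM (cst ℂ (CF f.toMultilinearMap)) ∈ NQ Z B c κ :=
    hA κ _ (hodge_kills h hf)
  exact h2 _ _

end

end Pool.Agent.H926.A
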