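import Mathlib
import Pool.Agent.H926.A.Jobs

/-!
# Products of determinants, splitting by quadratic characters
-/

set_option autoImplicit false
set_option linter.unusedSectionVars false

namespace Pool.Agent.H926.A

open Matrix Module Pool.Agent.W437.HC Pool.Agent.W437.HD Pool.Agent.TH504.CB Pool.Agent.W522.U
open Pool.Agent.Y90 hiding mulA exists_lam mulA_altQ
open Pool.Agent.W548.Odd hiding cv
open Pool.Agent.W437.HP (cK cK_mul cK_one)
open Pool.Agent.H204R3.CM (IsHodge)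
open Pool.Agent.H204R3.SP (Kills bil2 IsTate)
open Pool.Agent.Y4.P (MaxM EigM cx)

noncomputable section

namespace Q643

section prod

variable {S : Type} [Fintype S] {κ : S → Type} {V : Type} [AddCommGroup V] [Module ℂ V]

theorem prod_aux (g : ∀ x, MultilinearMap ℂ (fun _ : κ x => V) ℂ) [DecidableEq (Σ x, κ x)]
    [DecidableEq S] (m : (Σ x, κ x) → V) (x₀ : S) [DecidableEq (κ x₀)] (y₀ : κ x₀) (z : V) :
    ∏ x, g x (fun y => Function.update m ⟨x₀, y₀⟩ z ⟨x, y⟩) =
      g x₀ (Function.update (fun y => m ⟨x₀, y⟩) y₀ z) *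
        ∏ x ∈ Finset.univ.erase x₀, g x (fun y => m ⟨x, y⟩) := by
  rw [← Finset.mul_prod_erase Finset.univ _ (Finset.mem_univ x₀)]
  have h1 : (fun y => Function.update m ⟨x₀, y₀⟩ z ⟨x₀, y⟩) =
      Function.update (fun y => m ⟨x₀, y⟩) y₀ z := by
    funext y
    by_cases hy : y = y₀
    · subst hy
      rw [Function.update_self, Function.update_self]
    · rw [Function.update_of_ne hy, Function.update_of_ne]
      intro h
      exact hy (eq_of_heq (Sigma.mk.inj h).2)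
  rw [h1]
  refine congrArg _ (Finset.prod_congr rfl fun x hx => ?_)
  have h2 : (fun y => Function.update m ⟨x₀, y₀⟩ z ⟨x, y⟩) = fun y => m ⟨x, y⟩ := by
    funext y
    rw [Function.update_of_ne]
    intro h
    exact (Finset.ne_of_mem_erase hx) (Sigma.mk.inj h).1
  rw [h2]

/-- The product of multilinear maps in disjoint sets of variables. -/
def prodM (g : ∀ x, MultilinearMap ℂ (fun _ : κ x => V) ℂ) :
    MultilinearMap ℂ (fun _ : (Σ x, κ x) => V) ℂ where
  toFun v := ∏ x, g x (fun y => v ⟨x, y⟩)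
  map_update_add' := by
    classical
    intro _ m i a b
    obtain ⟨x₀, y₀⟩ := i
    rw [prod_aux, prod_aux, prod_aux, MultilinearMap.map_update_add, add_mul]
  map_update_smul' := by
    classical
    intro _ m i c a
    obtain ⟨x₀, y₀⟩ := i
    rw [prod_aux, prod_aux, MultilinearMap.map_update_smul, smul_mul_assoc]

theorem prodM_apply (g : ∀ x, MultilinearMap ℂ (fun _ : κ x => V) ℂ) (v : (Σ x, κ x) → V) :
    prodM g v = ∏ x, g x (fun y => v ⟨x, y⟩) := rfl

variable {N : ∀ (κ : Type) [Finite κ], Submodule ℂ (MultilinearMap ℂ (fun _ : κ => V) ℂ)}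

theorem clo_sum (hN : Clo N) {S1 S2 S3 : Type} [Fintype S1] [Fintype S2] [Fintype S3]
    (κ : S3 → Type) [∀ x, Finite (κ x)] (e : S1 ⊕ S2 ≃ S3)
    (g : ∀ x, MultilinearMap ℂ (fun _ : κ x => V) ℂ)
    (h1 : prodM (fun x : S1 => g (e (Sum.inl x))) ∈ N (Σ x : S1, κ (e (Sum.inl x))))
    (h2 : prodM (fun x : S2 => g (e (Sum.inr x))) ∈ N (Σ x : S2, κ (e (Sum.inr x)))) :
    prodM g ∈ N (Σ x, κ x) := by
  refine hN.mul _ _ _ ((Equiv.sumSigmaDistrib (fun i => κ (e i))).symm.trans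
    (Equiv.sigmaCongrLeft e)) _ _ _ h1 h2 fun v => ?_
  rw [prodM_apply, prodM_apply, prodM_apply, ← Equiv.prod_comp e, Fintype.prod_sum_type]
  rfl

/-- The union of two disjoint finite sets. -/
def unionE [DecidableEq S] (A A' : Finset S) (h : Disjoint A A') :
    {x // x ∈ A} ⊕ {x // x ∈ A'} ≃ {x // x ∈ A ∪ A'} :=
  Equiv.ofBijective (Sum.elim (fun x => ⟨x.1, Finset.mem_union_left _ x.2⟩)
    (fun x => ⟨x.1, Finset.mem_union_right _ x.2⟩)) (by
    constructor
    · rintro (⟨x, hx⟩ | ⟨x, hx⟩) (⟨y, hy⟩ | ⟨y, hy⟩) hxy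
      · have h1 : x = y := congrArg Subtype.val hxy
        subst h1
        rfl
      · have h1 : x = y := congrArg Subtype.val hxy
        subst h1
        exact absurd hy (Finset.disjoint_left.1 h hx)
      · have h1 : x = y := congrArg Subtype.val hxy
        subst h1
        exact absurd hx (Finset.disjoint_left.1 h hy)
      · have h1 : x = y := congrArg Subtype.val hxy
        subst h1
        rfl
    · rintro ⟨x, hx⟩
      rcases Finset.mem_union.1 hx with h1 | h1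
      · exact ⟨Sum.inl ⟨x, h1⟩, rfl⟩
      · exact ⟨Sum.inr ⟨x, h1⟩, rfl⟩)

/-- The product over a finite set of indices. -/
def PA (N : ∀ (κ : Type) [Finite κ], Submodule ℂ (MultilinearMap ℂ (fun _ : κ => V) ℂ))
    [∀ x, Finite (κ x)] (g : ∀ x, MultilinearMap ℂ (fun _ : κ x => V) ℂ) (A : Finset S) : Prop :=
  prodM (fun x : {x // x ∈ A} => g x.1) ∈ N (Σ x : {x // x ∈ A}, κ x.1)

theorem PA_union (hN : Clo N) [DecidableEq S] [∀ x, Finite (κ x)]
    (g : ∀ x, MultilinearMap ℂ (fun _ : κ x => V) ℂ) (A A' : Finset S) (h : Disjoint A A')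
    (h1 : PA N g A) (h2 : PA N g A') : PA N g (A ∪ A') :=
  clo_sum hN (fun x : {x // x ∈ A ∪ A'} => κ x.1) (unionE A A' h) (fun x => g x.1) h1 h2

theorem PA_empty (hN : Clo N) [∀ x, Finite (κ x)]
    (g : ∀ x, MultilinearMap ℂ (fun _ : κ x => V) ℂ) : PA N g ∅ := by
  have hE : IsEmpty (Σ x : {x // x ∈ (∅ : Finset S)}, κ x.1) :=
    ⟨fun p => absurd p.1.2 (Finset.notMem_empty _)⟩
  exact hN.unit _ _

theorem PA_classes (hN : Clo N) [DecidableEq S] [∀ x, Finite (κ x)]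
    (g : ∀ x, MultilinearMap ℂ (fun _ : κ x => V) ℂ) {C : Type} [DecidableEq C] (χ : S → C)
    (h : ∀ c, PA N g (Finset.univ.filter fun x => χ x = c)) : PA N g Finset.univ := by
  have h1 : ∀ C' : Finset C, PA N g (Finset.univ.filter fun x => χ x ∈ C') := by
    intro C'
    induction C' using Finset.induction_on with
    | empty =>
      have h2 : (Finset.univ.filter fun x => χ x ∈ (∅ : Finset C)) = ∅ := by
        apply Finset.filter_eq_empty_iff.2
        intro x _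
        exact Finset.notMem_empty _
      rw [h2]
      exact PA_empty hN g
    | insert c C' hc ih =>
      have h2 : (Finset.univ.filter fun x => χ x ∈ insert c C') =
          (Finset.univ.filter fun x => χ x = c) ∪ (Finset.univ.filter fun x => χ x ∈ C') := by
        ext x
        simp [Finset.mem_insert]
      rw [h2]
      refine PA_union hN g _ _ ?_ (h c) ih
      rw [Finset.disjoint_left]
      intro x hx hx'
      rw [Finset.mem_filter] at hx hx'
      rw [hx.2] at hx'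
      exact hc hx'.2
  have h3 := h1 (Finset.univ.image χ)
  have h4 : (Finset.univ.filter fun x => χ x ∈ Finset.univ.image χ) = Finset.univ := by
    apply Finset.filter_true_of_mem
    intro x _
    exact Finset.mem_image_of_mem _ (Finset.mem_univ x)
  rwa [h4] at h3

/-- The whole product. -/
theorem of_PA_univ (hN : Clo N) [∀ x, Finite (κ x)]
    (g : ∀ x, MultilinearMap ℂ (fun _ : κ x => V) ℂ) (h : PA N g Finset.univ)
    (ψ : MultilinearMap ℂ (fun _ : (Σ x, κ x) => V) ℂ)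
    (hψ : ∀ v, ψ v = ∏ x, g x (fun y => v ⟨x, y⟩)) : ψ ∈ N (Σ x, κ x) := by
  let e : (Σ x : {x // x ∈ (Finset.univ : Finset S)}, κ x.1) ≃ (Σ x, κ x) :=
    ⟨fun p => ⟨p.1.1, p.2⟩, fun p => ⟨⟨p.1, Finset.mem_univ _⟩, p.2⟩, fun _ => rfl, fun _ => rfl⟩
  refine hN.reindex e h ψ fun v => ?_
  rw [hψ, prodM_apply]
  exact (Finset.prod_coe_sort Finset.univ (fun x => g x (fun y => v ⟨x, y⟩))).symm

end prod

/-- The character of a quadratic irrationality. -/
def chr (w : ℂ) (D : ℚ) (hw0 : w ≠ 0) (hw : w * w = -(D : ℂ)) : (ℂ ≃+* ℂ) →* ℂ where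
  toFun σ := σ w / w
  map_one' := div_self hw0
  map_mul' := by
    intro σ τ
    have h1 : τ w = w ∨ τ w = -w := by
      apply mul_self_eq_mul_self_iff.1
      rw [← map_mul, hw, map_neg, map_ratCast]
    have h2 : (σ * τ) w = σ (τ w) := rfl
    rw [h2]
    rcases h1 with h1 | h1
    · rw [h1, div_self hw0, mul_one]
    · rw [h1, map_neg, neg_div, neg_div, div_self hw0, mul_neg, mul_one]

theorem chr_apply {w : ℂ} {D : ℚ} (hw0 : w ≠ 0) (hw : w * w = -(D : ℂ)) (σ : ℂ ≃+* ℂ) :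
    chr w D hw0 hw σ = σ w / w := rfl

/-- Quadratic irrationalities with the same character. -/
theorem rat_of_chr {w w' : ℂ} (hw0 : w ≠ 0) (hw0' : w' ≠ 0)
    (h : ∀ σ : ℂ ≃+* ℂ, σ w / w = σ w' / w') : ∃ r : ℚ, w = r * w' := by
  obtain ⟨r, hr⟩ := exists_rat (z := w / w') (fun σ => by
    have h1 := h σ
    have h2 : σ w' ≠ 0 := (map_ne_zero σ).2 hw0'
    rw [div_eq_div_iff hw0 hw0'] at h1
    rw [map_div₀, div_eq_div_iff h2 hw0']
    linear_combination h1)
  exact ⟨r, by rw [← hr, div_mul_cancel₀ _ hw0']⟩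

/-- Relations between characters. -/
theorem chr_rel {S : Type} [Fintype S] (χ : S → ((ℂ ≃+* ℂ) →* ℂ)) (t : S → ℂ)
    [DecidableEq ((ℂ ≃+* ℂ) →* ℂ)]
    (h : ∀ σ, ∑ x, χ x σ * t x = 0) (c : (ℂ ≃+* ℂ) →* ℂ) :
    ∑ x ∈ Finset.univ.filter (fun x => χ x = c), t x = 0 := by
  by_cases hc : c ∈ Finset.univ.image χ
  · have h1 := linearIndependent_monoidHom (ℂ ≃+* ℂ) ℂ
    refine linearIndependent_iff'.1 h1 (Finset.univ.image χ)
      (fun c => ∑ x ∈ Finset.univ.filter (fun x => χ x = c), t x) ?_ c hc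
    funext σ
    rw [Finset.sum_apply, Pi.zero_apply, ← h σ, ← Finset.sum_fiberwise_of_maps_to
      (g := χ) (t := Finset.univ.image χ) (fun x _ => Finset.mem_image_of_mem _ (Finset.mem_univ x))]
    refine Finset.sum_congr rfl fun c _ => ?_
    rw [Pi.smul_apply, smul_eq_mul, Finset.sum_mul]
    refine Finset.sum_congr rfl fun x hx => ?_
    rw [(Finset.mem_filter.1 hx).2, mul_comm]
  · have h2 : Finset.univ.filter (fun x => χ x = c) = ∅ := by
      apply Finset.filter_eq_empty_iff.2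
      intro x _ hx
      exact hc (Finset.mem_image.2 ⟨x, Finset.mem_univ _, hx⟩)
    rw [h2, Finset.sum_empty]

end Q643

open Q643 in
/-- **Products of determinants.** -/
theorem s_qdet (hO : S_QONE) (hT : S_QTR) (hI : S_QISO) : S_QDET := by
  intro B G hGB Z h s W hW st hst hDu hDu' a ha hPD hdet ι _ _ f q hq ψ hψ c₀ hc₀
  classical
  have hpos : ∀ x : (Σ i, Fin (a i).toNat), 0 < a x.1 := by
    intro x
    have h1 := x.2.2
    by_contra h0
    push Not at h0
    have h2 : (a x.1).toNat = 0 := Int.toNat_eq_zero.2 h0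
    exact absurd (lt_of_lt_of_eq h1 h2) (Nat.not_lt_zero _)
  choose w D ε T hD hw e1 e2 e3 e5 e6 e7 using
    fun x : (Σ i, Fin (a i).toNat) => hPD x.1 (hpos x).ne'
  have hw0 : ∀ x, w x ≠ 0 := by
    intro x h0
    have h1 := hw x
    rw [h0, mul_zero] at h1
    have h2 : (D x : ℂ) = 0 := by
      rw [eq_comm, neg_eq_zero] at h1
      exact h1
    exact (hD x).ne' (by exact_mod_cast h2)
  have hqX : ∀ x y, ∀ X ∈ LZ Z, ∀ v, (q x y (X *ᵥ v) : Fin G ⊕ Fin G → ℂ) =
      X *ᵥ (q x y v : Fin G ⊕ Fin G → ℂ) := by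
    intro x y X hX v
    exact (rz_equiv h stab_top ((W x.1).subtype.comp (q x y))).1 (fun g u _ => hq x y g u) X hX v
      trivial
  -- there are no invariant pairings
  have hno : ∀ (x x' : (Σ i, Fin (a i).toNat))
      (b : (Fin G ⊕ Fin G → ℂ) →ₗ[ℂ] (Fin G ⊕ Fin G → ℂ) →ₗ[ℂ] ℂ),
      (∀ X ∈ LZ Z, ∀ u ∈ W x.1, ∀ v ∈ W x'.1, b (X *ᵥ u) v + b u (X *ᵥ v) = 0) →
        ∀ u ∈ W x.1, ∀ v ∈ W x'.1, b u v = 0 := by
    intro x x' b hb u hu v hv
    by_contra hne
    have h1 : Du (RZ Z) 1 (W x.1) (W x'.1) :=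
      (rz_du h (hW x.1).2.1 (hW x'.1).2.1).2 ⟨b, ⟨u, hu, v, hv, hne⟩, hb⟩
    have h2 := hDu' _ _ h1
    have h3 := hpos x'
    rw [h2, ha] at h3
    have h4 := hpos x
    omega
  -- the traces
  have htr : ∀ σ : ℂ ≃+* ℂ, ∑ x, (σ (w x) / w x) * Matrix.trace (DZ Z * ε x) = 0 := by
    intro σ
    have h1 : ∀ x, (σ (w x) / w x) * Matrix.trace (DZ Z * ε x) =
        ((tr Z (cjS σ.symm (W x.1)) : ℤ) : ℂ) := by
      intro x
      rw [← hT G Z h (W x.1) (hW x.1) (ε x) (T x) (e1 x) (e2 x) (e5 x) (e6 x) (e7 x) (w x) (D x)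
        (hD x) (hw x) (e3 x) σ]
      exact Pool.Agent.Y977.P.jtrace G Z h (W x.1) (hW x.1) (ε x) (T x) (e1 x) (e2 x) (e5 x)
        (e6 x) (e7 x) σ
    rw [Finset.sum_congr rfl fun x _ => h1 x, ← Int.cast_sum,
      Pool.Agent.Y4.P.tr_pos h W hW st hst hDu a ha hdet σ.symm, Int.cast_zero]
  let χ : (Σ i, Fin (a i).toNat) → ((ℂ ≃+* ℂ) →* ℂ) := fun x => chr (w x) (D x) (hw0 x) (hw x)
  have htr2 := chr_rel χ (fun x => Matrix.trace (DZ Z * ε x)) htr
  -- the factors
  let g : ∀ x : (Σ i, Fin (a i).toNat),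
      MultilinearMap ℂ (fun _ : ι x.1 => Fin G ⊕ Fin G → ℂ) ℂ := fun x =>
    (f x.1).det.toMultilinearMap.compLinearMap (fun y => q x y)
  have hclass : ∀ c, PA (NQ Z B c₀) g (Finset.univ.filter fun x => χ x = c) := by
    intro c
    rcases (Finset.univ.filter fun x => χ x = c).eq_empty_or_nonempty with h0 | ⟨x₀, hx₀⟩
    · rw [h0]
      exact PA_empty (clo_NQ Z B c₀) g
    obtain ⟨A, hA⟩ : ∃ A, A = Finset.univ.filter fun x => χ x = c := ⟨_, rfl⟩
    have hχ₀ : χ x₀ = c := (Finset.mem_filter.1 hx₀).2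
    have hAc : ∀ y ∈ A, χ y = c := by
      intro y hy
      rw [hA] at hy
      exact (Finset.mem_filter.1 hy).2
    have hrat : ∀ x : {x // x ∈ A}, ∃ r : ℚ, w x.1 = r * w x₀ := by
      intro x
      have hx : χ x.1 = c := hAc x.1 x.2
      apply rat_of_chr (hw0 _) (hw0 _)
      intro σ
      have h2 : χ x.1 σ = χ x₀ σ := by rw [hx, hχ₀]
      exact h2
    have htrA := htr2 c
    rw [← hA] at htrA ⊢
    refine hO B G hGB Z h (w x₀) (D x₀) (hD x₀) (hw x₀) {x // x ∈ A} (fun x => W x.1.1)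
      (fun x => hW x.1.1) (fun x => ε x.1) (fun x => T x.1) (fun x => e1 x.1) (fun x => e2 x.1)
      (fun x i j => ?_) (fun x => e5 x.1) (fun x => e6 x.1) (fun x => e7 x.1) ?_
      (fun x => ι x.1.1) (fun x => f x.1.1) (fun x => q x.1) (fun x => hqX x.1) (Or.inl ?_) _
      (fun v => ?_) c₀ (fun h₀ => ⟨hc₀ h₀, fun x hAlt => ?_⟩)
    · obtain ⟨y, z, hyz⟩ := e3 x.1 i j
      obtain ⟨r, hr⟩ := hrat x
      refine ⟨y, z * r, ?_⟩
      rw [hyz, hr]
      push_cast
      ring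
    · rw [← htrA]
      exact Finset.sum_coe_sort A (fun x => Matrix.trace (DZ Z * ε x))
    · exact hI G Z h {x // x ∈ A} (fun x => W x.1.1) (fun x => hW x.1.1)
        (fun x x' b => hno x.1 x'.1 b) (fun x => ι x.1.1) (fun x => q x.1) (fun x => hqX x.1)
    · rfl
    · obtain ⟨b, hb, ⟨u, hu, v, hv, hne⟩, -⟩ := hAlt
      exact hne (hno x.1 x.1 b hb u hu v hv)
  exact of_PA_univ (clo_NQ Z B c₀) g (PA_classes (clo_NQ Z B c₀) g χ hclass) ψ hψ

end

end Pool.Agent.H926.A
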