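import Pool.Agent.H926.A.Jobs

/-!
# Irreducible submodules are symplectic or defined over imaginary quadratic fields
-/

set_option autoImplicit false
set_option linter.unusedSectionVars false

namespace Pool.Agent.H926.A

open Matrix Module Pool.Agent.W437.HC Pool.Agent.W437.HD Pool.Agent.TH504.CB Pool.Agent.W522.U
open Pool.Agent.Y90 hiding mulA exists_lam mulA_altQ
open Pool.Agent.W548.Odd hiding cv
open Pool.Agent.W437.HP (cK cK_mul cK_one)
open Pool.Agent.Y4.P (MaxM EigM cx mem_eigM om_real)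

noncomputable section

namespace H297

variable {G a : ℕ} {Z : Matrix (Fin G) (Fin G) ℂ} {Z' : Matrix (Fin a) (Fin a) ℂ}
  {E : Matrix (Fin G ⊕ Fin G) (Fin a ⊕ Fin a) ℚ} {F : Matrix (Fin a ⊕ Fin a) (Fin G ⊕ Fin G) ℚ}

/-- Coefficients in `ℚ + ℚ w`. -/
theorem entries {w : ℂ} {ε : Matrix (Fin a ⊕ Fin a) (Fin a ⊕ Fin a) ℂ}
    (h : ∀ i j, ∃ x y : ℚ, ε i j = x + y * w) (i j : Fin G ⊕ Fin G) :
    ∃ x y : ℚ, (cK ℂ E * ε * cK ℂ F) i j = x + y * w := by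
  choose x y hxy using h
  have h1 : ε = cK ℂ (Matrix.of x) + w • cK ℂ (Matrix.of y) := by
    ext k l
    rw [hxy, Matrix.add_apply, Matrix.smul_apply, smul_eq_mul]
    change (x k l : ℂ) + (y k l : ℂ) * w = (x k l : ℂ) + w * (y k l : ℂ)
    ring
  refine ⟨(E * Matrix.of x * F) i j, (E * Matrix.of y * F) i j, ?_⟩
  rw [h1, Matrix.mul_add, Matrix.add_mul, Matrix.mul_smul, Matrix.smul_mul, ← cK_mul, ← cK_mul,
    ← cK_mul, ← cK_mul, Matrix.add_apply, Matrix.smul_apply, smul_eq_mul, mul_comm w]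
  rfl

/-- The transfer from a factor. -/
theorem transfer_q (hf : Fac Z Z' E F) {U : Submodule ℂ (Fin G ⊕ Fin G → ℂ)}
    (hi : ∀ u ∈ U, ml F u = 0 → u = 0) (hp : PDq (LZ Z') (U.map (ml F))) : PDq (LZ Z) U := by
  obtain ⟨w, D, π, T', hD, hw, h1, h2, h4, e1, e2, h3⟩ := hp
  refine ⟨w, D, cK ℂ E * π * cK ℂ F, (ml E).comp (T'.comp (ml F)), hD, hw, ?_, ?_, ?_, ?_, ?_, ?_⟩
  · calc cK ℂ E * π * cK ℂ F * (cK ℂ E * π * cK ℂ F)
        = cK ℂ E * (π * (cK ℂ F * cK ℂ E) * π) * cK ℂ F := by simp only [Matrix.mul_assoc]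
      _ = _ := by rw [hf.fe', Matrix.mul_one, h1]
  · intro X hX
    obtain ⟨c1, c2, c3⟩ := hf.comp hX
    calc X * (cK ℂ E * π * cK ℂ F) = (X * cK ℂ E) * π * cK ℂ F := by simp only [Matrix.mul_assoc]
      _ = cK ℂ E * ((cK ℂ F * X * cK ℂ E) * π) * cK ℂ F := by
          rw [c2]
          simp only [Matrix.mul_assoc]
      _ = cK ℂ E * (π * (cK ℂ F * X * cK ℂ E)) * cK ℂ F := by rw [h2 _ c1]
      _ = cK ℂ E * π * (cK ℂ F * X * cK ℂ E * cK ℂ F) := by simp only [Matrix.mul_assoc]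
      _ = cK ℂ E * π * (cK ℂ F * X) := by rw [← c3]
      _ = _ := by simp only [Matrix.mul_assoc]
  · exact entries h4
  · intro X hX u hu
    obtain ⟨c1, c2, c3⟩ := hf.comp hX
    change ml E (T' (ml F (X *ᵥ u))) = X *ᵥ ml E (T' (ml F u))
    rw [hf.act hX, e1 _ c1 _ ⟨u, hu, rfl⟩, ml_apply E, ml_apply E, mulVec_mulVec, mulVec_mulVec,
      ← c2]
  · intro u hu h6
    refine hi u hu (e2 _ ⟨u, hu, rfl⟩ ?_)
    have h7 := congrArg (fun v => cK ℂ F *ᵥ v) h6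
    change cK ℂ F *ᵥ (cK ℂ E *ᵥ (T' (ml F u))) = cK ℂ F *ᵥ 0 at h7
    rwa [mulVec_mulVec, hf.fe', one_mulVec, mulVec_zero] at h7
  · intro v
    rw [Submodule.map_comp, Submodule.map_comp]
    constructor
    · rintro ⟨x, hx, rfl⟩
      have h6 := (h3 x).1 hx
      rw [ml_apply, mulVec_mulVec]
      calc (cK ℂ E * π * cK ℂ F * cK ℂ E) *ᵥ x = (cK ℂ E * π) *ᵥ x := by
            rw [Matrix.mul_assoc _ (cK ℂ F), hf.fe', Matrix.mul_one]
        _ = cK ℂ E *ᵥ (π *ᵥ x) := by rw [mulVec_mulVec]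
        _ = _ := by rw [h6]
    · intro hv
      refine ⟨π *ᵥ (cK ℂ F *ᵥ v), (h3 _).2 (by rw [mulVec_mulVec, h1]), ?_⟩
      rw [ml_apply, mulVec_mulVec, mulVec_mulVec]
      exact hv

/-- The idempotent of a quadratic endomorphism. -/
theorem quad {φ : Matrix (Fin a ⊕ Fin a) (Fin a ⊕ Fin a) ℚ} (hφ : qm φ * DZ Z' = DZ Z' * qm φ)
    (hd : (minpoly ℚ φ).natDegree = 2) {z : ℂ} (hz : z ∈ (minpoly ℚ φ).aroots ℂ)
    (hzi : z.im ≠ 0) :
    ∃ (w : ℂ) (D : ℚ) (ε : Matrix (Fin a ⊕ Fin a) (Fin a ⊕ Fin a) ℂ), 0 < D ∧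
      w * w = -(D : ℂ) ∧ ε * ε = ε ∧ (∀ X ∈ LZ Z', X * ε = ε * X) ∧
      (∀ i j, ∃ x y : ℚ, ε i j = x + y * w) ∧ ∀ v, v ∈ EigM φ z ↔ ε *ᵥ v = v := by
  have hm : (minpoly ℚ φ).Monic := minpoly.monic (Matrix.isIntegral φ)
  obtain ⟨s, t, hst⟩ : ∃ s t : ℚ, minpoly ℚ φ = Polynomial.X ^ 2 + Polynomial.C s * Polynomial.X +
      Polynomial.C t := by
    refine ⟨(minpoly ℚ φ).coeff 1, (minpoly ℚ φ).coeff 0, ?_⟩
    have h1 : (minpoly ℚ φ).coeff 2 = 1 := by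
      rw [← hd]
      exact hm
    conv_lhs => rw [Polynomial.eq_quadratic_of_degree_le_two
      (Polynomial.natDegree_le_iff_degree_le.1 hd.le)]
    rw [h1, Polynomial.C_1, one_mul]
  have h1 : φ * φ + s • φ + t • (1 : Matrix _ _ ℚ) = 0 := by
    have h2 := minpoly.aeval ℚ φ
    rw [hst, map_add, map_add, map_mul, map_pow, Polynomial.aeval_C, Polynomial.aeval_X,
      Polynomial.aeval_C, Algebra.algebraMap_eq_smul_one, Algebra.algebraMap_eq_smul_one,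
      smul_mul_assoc, one_mul, sq] at h2
    exact h2
  have h3 : z * z + (s : ℂ) * z + (t : ℂ) = 0 := by
    have h2 := (Polynomial.mem_aroots.1 hz).2
    rw [hst, map_add, map_add, map_mul, map_pow, Polynomial.aeval_C, Polynomial.aeval_X,
      Polynomial.aeval_C, sq] at h2
    exact h2
  have hD : 0 < 4 * t - s ^ 2 := by
    have h4 := congrArg Complex.re h3
    have h5 := congrArg Complex.im h3
    simp only [Complex.add_re, Complex.mul_re, Complex.add_im, Complex.mul_im, Complex.zero_re,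
      Complex.zero_im, Complex.ratCast_re, Complex.ratCast_im, zero_mul, sub_zero, add_zero] at h4 h5
    have h6 : (2 * z.re + (s : ℝ)) * z.im = 0 := by linear_combination h5
    have h7 : 2 * z.re + (s : ℝ) = 0 := (mul_eq_zero.1 h6).resolve_right hzi
    have h8 : (0 : ℝ) < 4 * (t : ℝ) - (s : ℝ) ^ 2 := by
      have h9 : 4 * (t : ℝ) - (s : ℝ) ^ 2 = 4 * z.im ^ 2 := by
        have h10 : (s : ℝ) = -(2 * z.re) := by linear_combination h7
        rw [h10] at h4 ⊢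
        linear_combination 4 * h4
      rw [h9]
      positivity
    exact_mod_cast h8
  obtain ⟨D, hDe⟩ : ∃ D : ℚ, D = 4 * t - s ^ 2 := ⟨_, rfl⟩
  rw [← hDe] at hD
  have hDc : (D : ℂ) = 4 * (t : ℂ) - (s : ℂ) ^ 2 := by
    rw [hDe]
    push_cast
    ring
  have hD0 : (D : ℂ) ≠ 0 := by exact_mod_cast hD.ne'
  obtain ⟨w, hwe⟩ : ∃ w : ℂ, w = 2 * z + s := ⟨_, rfl⟩
  have hw : w * w = -(D : ℂ) := by
    rw [hwe, hDc]
    linear_combination 4 * h3
  have hw0 : w ≠ 0 := by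
    rintro rfl
    rw [zero_mul] at hw
    exact hD0 (neg_eq_zero.1 hw.symm)
  -- the matrix
  obtain ⟨A, hA⟩ : ∃ A : Matrix (Fin a ⊕ Fin a) (Fin a ⊕ Fin a) ℂ, A = qm φ := ⟨_, rfl⟩
  have hAA : A * A = -((s : ℂ) • A + (t : ℂ) • (1 : Matrix _ _ ℂ)) := by
    have h4 : φ * φ = -(s • φ + t • (1 : Matrix _ _ ℚ)) := by
      rw [add_assoc] at h1
      exact eq_neg_of_add_eq_zero_left h1
    have h5 : A * A = cK ℂ (φ * φ) := by
      rw [cK_mul, hA]
      rfl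
    rw [h5, h4, hA]
    ext i j
    by_cases hij : i = j <;> simp [cK, qm, hij]
  obtain ⟨c, hc⟩ : ∃ c : ℂ, c = (s : ℂ) + z := ⟨_, rfl⟩
  have hcw : z + c = w := by
    rw [hc, hwe]
    ring
  have hBB : (A + c • (1 : Matrix _ _ ℂ)) * (A + c • (1 : Matrix _ _ ℂ)) =
      w • (A + c • (1 : Matrix _ _ ℂ)) := by
    rw [Matrix.add_mul, Matrix.mul_add, Matrix.mul_add, hAA]
    simp only [Matrix.smul_mul, Matrix.mul_smul, Matrix.one_mul, Matrix.mul_one]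
    have e1 : 2 * c - s = w := by
      rw [hc, hwe]
      ring
    have e2 : c * c - t = w * c := by
      rw [hc, hwe]
      linear_combination -h3
    rw [smul_add, smul_smul c c, smul_smul w c, ← e2, ← e1]
    module
  have hmv : ∀ v : Fin a ⊕ Fin a → ℂ, (w⁻¹ • (A + c • (1 : Matrix _ _ ℂ))) *ᵥ v =
      w⁻¹ • (A *ᵥ v + c • v) := by
    intro v
    rw [smul_mulVec, add_mulVec, smul_mulVec, one_mulVec]
  refine ⟨w, D, w⁻¹ • (A + c • (1 : Matrix _ _ ℂ)), hD, hw, ?_, ?_, ?_, ?_⟩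
  · rw [Matrix.smul_mul, Matrix.mul_smul, hBB, smul_smul w⁻¹ w, inv_mul_cancel₀ hw0, one_smul]
  · intro X hX
    have h4 : A * X = X * A := by
      rw [hA]
      exact Pool.Agent.Y261.P.qm_comm hφ X hX
    rw [Matrix.mul_smul, Matrix.smul_mul, Matrix.mul_add, Matrix.add_mul, h4, Matrix.mul_smul,
      Matrix.smul_mul, Matrix.mul_one, Matrix.one_mul]
  · intro i j
    refine ⟨(1 : Matrix (Fin a ⊕ Fin a) (Fin a ⊕ Fin a) ℚ) i j / 2,
      -(φ i j) / D - s * (1 : Matrix (Fin a ⊕ Fin a) (Fin a ⊕ Fin a) ℚ) i j / (2 * D), ?_⟩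
    have h4 : (1 : Matrix (Fin a ⊕ Fin a) (Fin a ⊕ Fin a) ℂ) i j =
        ((1 : Matrix (Fin a ⊕ Fin a) (Fin a ⊕ Fin a) ℚ) i j : ℂ) := by
      by_cases hij : i = j
      · rw [hij, Matrix.one_apply_eq, Matrix.one_apply_eq, Rat.cast_one]
      · rw [Matrix.one_apply_ne hij, Matrix.one_apply_ne hij, Rat.cast_zero]
    have h5 : A i j = (φ i j : ℂ) := by
      rw [hA]
      rfl
    rw [Matrix.smul_apply, Matrix.add_apply, Matrix.smul_apply, h4, h5, smul_eq_mul, smul_eq_mul,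
      inv_mul_eq_iff_eq_mul₀ hw0]
    obtain ⟨o, ho⟩ : ∃ o : ℚ, o = (1 : Matrix (Fin a ⊕ Fin a) (Fin a ⊕ Fin a) ℚ) i j := ⟨_, rfl⟩
    obtain ⟨p, hp⟩ : ∃ p : ℚ, p = φ i j := ⟨_, rfl⟩
    rw [← ho, ← hp]
    push_cast
    have h6 : c = (s + w) / 2 := by
      rw [hc, hwe]
      ring
    rw [h6]
    have h7 : w * ((o : ℂ) / 2 + (-(p : ℂ) / D - s * o / (2 * D)) * w) =
        w * o / 2 + (-(p : ℂ) / D - s * o / (2 * D)) * (w * w) := by ring
    rw [h7, hw]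
    field_simp
    ring
  · intro v
    rw [hmv, mem_eigM, ← hA]
    constructor
    · intro h4
      rw [h4, ← add_smul, hcw, smul_smul, inv_mul_cancel₀ hw0, one_smul]
    · intro h4
      have h5 : A *ᵥ v + c • v = w • v := by
        conv_rhs => rw [← h4]
        rw [smul_smul, mul_inv_cancel₀ hw0, one_smul]
      rw [← hcw, add_smul] at h5
      exact add_right_cancel h5

end H297

/-- **S_QLOC.** -/
theorem s_qloc : S_QLOC := by
  intro G Z h hq U hU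
  obtain ⟨a, Z', E, F, hf, h', hs, ha, h0⟩ := exists_fac h hU.1
  have hi := hf.inj hU h0
  have hU' := hf.irr hU h0
  obtain ⟨φ, hφ, hc⟩ := hq a Z' E F hf h' hs ha
  obtain ⟨hsp, hiso, -⟩ := Pool.Agent.Y261.P.jspec a Z' h' hs ha φ hφ
  obtain ⟨z, hz, T, hT1, hT2, hT3⟩ := hiso _ hU'
  by_cases hzi : z.im = 0
  · left
    obtain ⟨u, hu, v, hv, huv⟩ := om_real h' hzi (hsp z hz).1
    refine ⟨(om a).compl₁₂ (T.comp (ml F)) (T.comp (ml F)), ?_, ?_, ?_⟩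
    · intro X hX u _ v _
      change om a (T (ml F (X *ᵥ u))) (T (ml F v)) + om a (T (ml F u)) (T (ml F (X *ᵥ v))) = 0
      have hX' := (hf.comp hX).1
      rw [hf.act hX, hf.act hX, hT1 _ hX', hT1 _ hX']
      exact h'.om_sp hX' _ _
    · rw [← hT3] at hu hv
      obtain ⟨_, ⟨u0, hu0, rfl⟩, rfl⟩ := hu
      obtain ⟨_, ⟨v0, hv0, rfl⟩, rfl⟩ := hv
      exact ⟨u0, hu0, v0, hv0, huv⟩
    · intro u _ v _
      exact om_anti _ _
  · right
    have hd : (minpoly ℚ φ).natDegree = 2 := hc.resolve_left fun hall => hzi (hall z hz)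
    obtain ⟨w, D, ε, hD, hw, e1, e2, e3, e4⟩ := H297.quad hφ.1 hd hz hzi
    refine H297.transfer_q hf hi ⟨w, D, ε, T, hD, hw, e1, e2, e3, fun X hX u _ => hT1 X hX u,
      hT2, fun v => ?_⟩
    rw [hT3]
    exact e4 v

end

end Pool.Agent.H926.A
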