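import Pool.Agent.H926.A.Jobs
import Pool.Graph.R_pool_sql_team_seeded_1acbe0a2.Y977.P.Tr

/-!
# Products of determinants for one imaginary quadratic field
-/

set_option autoImplicit false
set_option linter.unusedSectionVars false

namespace Pool.Agent.H926.A

open Matrix Module Pool.Agent.W437.HC Pool.Agent.W437.HD Pool.Agent.TH504.CB Pool.Agent.W522.U
open Pool.Agent.Y90 hiding mulA exists_lam mulA_altQ
open Pool.Agent.W548.Odd hiding cv
open Pool.Agent.W437.HP (cK cK_mul cK_one)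
open Pool.Agent.H204R3.CM (IsHodge)
open Pool.Agent.H204R3.SP (Kills bil2 IsTate)
open Pool.Agent.Y4.P (MaxM EigM cx cx_mul cx_one exists_PQ eqU P_eqU det_coord trace_all)
open Pool.Agent.Y4.Q (IsMaxEndo)

noncomputable section

namespace H263Q

/-- A finite sum of even numbers which are at least four is six only for one summand. -/
theorem one_of_six {S : Type} [Fintype S] (d : S → ℕ) (h4 : ∀ x, 4 ≤ d x) (h6 : ∑ x, d x = 6) :
    ∃ x₀ : S, (∀ y, y = x₀) ∧ d x₀ = 6 := by
  classical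
  have hne : Nonempty S := by
    by_contra hc
    rw [not_nonempty_iff] at hc
    rw [Finset.univ_eq_empty, Finset.sum_empty] at h6
    omega
  obtain ⟨x₀⟩ := hne
  have huniq : ∀ y, y = x₀ := by
    intro y
    by_contra hy
    have h1 : d y + d x₀ ≤ ∑ x, d x := by
      rw [← Finset.sum_pair hy]
      exact Finset.sum_le_sum_of_subset (Finset.subset_univ _)
    have h2 := h4 y
    have h3 := h4 x₀
    omega
  refine ⟨x₀, huniq, ?_⟩
  rw [← h6]
  symm
  refine Finset.sum_eq_single x₀ (fun y _ hy => absurd (huniq y) hy) (fun hh => ?_)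
  exact absurd (Finset.mem_univ _) hh

end H263Q

open H263Q

theorem s_qone (hWl : S_QWEIL) (hTr : S_QTR) (hV : S_QVAN) (h2W : S_QTWO) (h6W : S_Q6) :
    S_QONE := by
  classical
  intro B G hGB Z h w D hD hw S _ _ W hW ε T e1 e2 e3 e5 e6 e7 htr0 ι _ _ f q hq hb ψ hψ cc' hcc'
  have hwK : w ∈ IntermediateField.adjoin ℚ ({w} : Set ℂ) :=
    IntermediateField.subset_adjoin ℚ _ (Set.mem_singleton w)
  have hK3 : ∀ x i j, ε x i j ∈ IntermediateField.adjoin ℚ ({w} : Set ℂ) := by
    intro x i j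
    obtain ⟨y, z, hyz⟩ := e3 x i j
    rw [hyz]
    have hr : ∀ r : ℚ, (r : ℂ) ∈ IntermediateField.adjoin ℚ ({w} : Set ℂ) := fun r =>
      SubfieldClass.ratCast_mem _ r
    exact add_mem (hr y) (mul_mem (hr z) hwK)
  have hPd : ∀ x, ∃ (d : ℕ) (P : Matrix (Fin G ⊕ Fin G) (Fin d)
      (IntermediateField.adjoin ℚ ({w} : Set ℂ)))
      (Q : Matrix (Fin d) (Fin G ⊕ Fin G) (IntermediateField.adjoin ℚ ({w} : Set ℂ))),
      cx (P * Q) = ε x ∧ Q * P = 1 := fun x =>
    exists_PQ Pool.Agent.Y317.P.Idem.x (ε x) (e1 x) (hK3 x)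
  choose d P Q hPQ hQP using hPd
  have hQP' : ∀ x, cx (Q x) * cx (P x) = 1 := fun x => by rw [← cx_mul, hQP, cx_one]
  have hPQ' : ∀ x, cx (P x) * cx (Q x) = ε x := fun x => by rw [← cx_mul, hPQ]
  have hT7 : ∀ x v, v ∈ (W x).map (T x) ↔ (cx (P x) * cx (Q x)) *ᵥ v = v := fun x v => by
    rw [hPQ']
    exact e7 x v
  -- the coordinates
  let A : ∀ x : S, W x ≃ₗ[ℂ] (Fin (d x) → ℂ) := fun x =>
    eqU (hQP' x) (e6 x) (hT7 x)
  have hA : ∀ x (u : W x), A x u = cx (Q x) *ᵥ T x u := fun x u => rfl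
  have hPA : ∀ x (u : W x), cx (P x) *ᵥ A x u = T x u := fun x u =>
    P_eqU (hQP' x) (e6 x) (hT7 x) u
  have hcard : ∀ x : S, Fintype.card (ι x) = Fintype.card (Fin (d x)) := by
    intro x
    rw [← finrank_eq_card_basis (f x), (A x).finrank_eq, finrank_fintype_fun_eq_card]
  let eι : ∀ x : S, ι x ≃ Fin (d x) := fun x =>
    Fintype.equivOfCardEq (hcard x)
  choose c hc0 hc using fun x => det_coord (f x) (A x) (eι x)
  have hdW : ∀ x, d x = finrank ℂ (W x) := by
    intro x
    have h9 := hcard x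
    rw [Fintype.card_fin] at h9
    rw [← h9, finrank_eq_card_basis (f x)]
  by_cases hspec : cc' ∧ ∑ x, d x = 6 ∧ 6 ≤ B ∧ ∀ x, ¬ Odd (d x)
  · -- a simple sixfold
    obtain ⟨hc1, h6, h6B, hodd⟩ := hspec
    obtain ⟨hQF, hAlt⟩ := hcc' hc1
    have h4 : ∀ x, 4 ≤ d x := by
      intro x
      have k1 : finrank ℂ (W x) ≠ 2 := h2W G Z h (W x) (hW x) (hAlt x)
        ⟨w, D, ε x, T x, hD, hw, e1 x, e2 x, e3 x, e5 x, e6 x, e7 x⟩
      have k2 : finrank ℂ (W x) ≠ 0 := by
        intro h0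
        exact (hW x).1 (Submodule.finrank_eq_zero.1 h0)
      rw [← hdW] at k1 k2
      have k3 := Nat.not_odd_iff_even.1 (hodd x)
      obtain ⟨m, hm⟩ := k3
      omega
    obtain ⟨x₀, hx₀, hd₀⟩ := one_of_six d h4 h6
    have htr1 : tr Z (W x₀) = 0 := by
      have k1 : Matrix.trace (DZ Z * ε x₀) = 0 := by
        rw [← htr0]
        symm
        exact Finset.sum_eq_single x₀ (fun y _ hy => absurd (hx₀ y) hy)
          (fun hh => absurd (Finset.mem_univ _) hh)
      have k2 := Pool.Agent.Y977.P.jtrace G Z h (W x₀) (hW x₀) (ε x₀) (T x₀) (e1 x₀) (e2 x₀)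
        (e5 x₀) (e6 x₀) (e7 x₀) (RingEquiv.refl ℂ)
      have k3 : DS Z (RingEquiv.refl ℂ) = DZ Z := by
        unfold DS
        ext i j
        rfl
      have k4 : cjS (RingEquiv.refl ℂ).symm (W x₀) = W x₀ := by
        ext v
        rfl
      rw [k3, k4, k1] at k2
      exact_mod_cast k2.symm
    letI hU : Unique S := ⟨⟨x₀⟩, hx₀⟩
    let E' : (Σ x, ι x) ≃ ι x₀ := Equiv.uniqueSigma ι
    have hE' : ∀ y : ι x₀, E' ⟨x₀, y⟩ = y := fun y => rfl
    have hmem := h6W B G h6B Z h hQF (W x₀) (hW x₀) (by rw [← hdW, hd₀]) (hAlt x₀) htr1 (ι x₀)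
      (f x₀) (q x₀) (hq x₀) (ψ.domDomCongr E') (fun v => by
        rw [MultilinearMap.domDomCongr_apply, hψ, Fintype.prod_unique]
        rfl) cc'
    refine (clo_NQ Z B cc').reindex E'.symm hmem ψ fun v => ?_
    rw [MultilinearMap.domDomCongr_apply]
    congr 1
    funext p
    rw [Equiv.symm_apply_apply]
  by_cases hdB : ∑ x, d x ≤ B
  · have hsodd : cc' → ∑ x, d x = 6 → ∃ x, Odd (d x) := by
      intro k1 k2
      by_contra k3
      push Not at k3
      exact hspec ⟨k1, k2, by rw [← k2]; exact hdB, k3⟩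
    -- the matrices of the equivariant maps
    let R : ∀ k : (Σ x, Fin (d x)), Matrix (Fin (d k.1)) (Fin G ⊕ Fin G) ℂ := fun k =>
      LinearMap.toMatrix' ((A k.1).toLinearMap.comp (q k.1 ((eι k.1).symm k.2)))
    have hRv : ∀ k v, R k *ᵥ v = A k.1 (q k.1 ((eι k.1).symm k.2) v) := by
      intro k v
      change LinearMap.toMatrix' _ *ᵥ v = _
      rw [← Matrix.toLin'_apply, Matrix.toLin'_toMatrix']
      rfl
    have hR : ∀ k, ∀ X ∈ LZ Z, R k * X = (cx (Q k.1) * X * cx (P k.1)) * R k := by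
      intro k X hX
      apply Matrix.toLin'.injective
      refine LinearMap.ext fun v => ?_
      rw [Matrix.toLin'_apply, Matrix.toLin'_apply, ← mulVec_mulVec, ← mulVec_mulVec, hRv, hRv,
        ← mulVec_mulVec, ← mulVec_mulVec, hPA, hA, hq _ _ X hX, e5 k.1 X hX _ (SetLike.coe_mem _)]
    -- the traces
    have htr : ∀ X ∈ LZ Z, ∑ x, Matrix.trace (X * cx (P x * Q x)) = 0 := by
      have h1 := trace_all (Z := Z) ε e2 (fun σ => by
        have h2 : ∀ x, Matrix.trace (DS Z σ * ε x) = (σ w / w) * Matrix.trace (DZ Z * ε x) :=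
          fun x => hTr G Z h (W x) (hW x) (ε x) (T x) (e1 x) (e2 x) (e5 x) (e6 x) (e7 x) w D hD hw
            (e3 x) σ
        rw [Finset.sum_congr rfl fun x _ => h2 x, ← Finset.mul_sum, htr0, mul_zero])
      intro X hX
      rw [← h1 X hX]
      refine Finset.sum_congr rfl fun x _ => ?_
      rw [hPQ]
    -- reindexing
    let E : (Σ x : S, ι x) ≃ (Σ x, Fin (d x)) := Equiv.sigmaCongrRight eι
    have hmem := @hWl B G Z h w D hD hw S inferInstance inferInstance d P Q hQP
      (fun x X hX => by rw [hPQ]; exact e2 x X hX) htr R hR ((∏ x, c x) • ψ.domDomCongr E)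
      (fun v => by
        rw [_root_.smul_apply, MultilinearMap.domDomCongr_apply, hψ, smul_eq_mul,
          ← Finset.prod_mul_distrib]
        refine Finset.prod_congr rfl fun x _ => ?_
        have h1 := hc x (fun y => q x y (v ⟨x, eι x y⟩))
        have h2 : (fun y => q x y (v (E ⟨x, y⟩))) = fun y => q x y (v ⟨x, eι x y⟩) := rfl
        rw [h2, ← h1]
        congr 1
        ext y j
        rw [Matrix.of_apply, Matrix.of_apply, hRv, Equiv.apply_symm_apply]) hdB cc' hsodd
    have hc' : (∏ x, c x) ≠ 0 := Finset.prod_ne_zero_iff.2 fun x _ => hc0 x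
    have h1 := Submodule.smul_mem _ (∏ x, c x)⁻¹ hmem
    rw [smul_smul, inv_mul_cancel₀ hc', one_smul] at h1
    refine (clo_NQ Z B cc').reindex E.symm h1 ψ fun v => ?_
    rw [MultilinearMap.domDomCongr_apply]
    congr 1
    funext p
    rw [Equiv.symm_apply_apply]
  · -- too many variables
    have hsum : ∑ x, Fintype.card (ι x) = ∑ x, d x :=
      Finset.sum_congr rfl fun x _ => by rw [hcard x, Fintype.card_fin]
    have hV' : G ≤ finrank ℂ ↥(⨅ x, ⨅ y, LinearMap.ker (q x y)) :=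
      hb.resolve_right (by rw [hsum]; exact hdB)
    intro i1 i2
    have hκ : G < @Fintype.card (Σ x : S, ι x) i1 := by
      have h3 : @Fintype.card (Σ x : S, ι x) i1 = ∑ x, Fintype.card (ι x) := by
        have e9 : i1 = Sigma.instFintype := Subsingleton.elim _ _
        rw [e9]
        exact Fintype.card_sigma
      rw [h3, hsum]
      omega
    have h4 := @hV G (⨅ x, ⨅ y, LinearMap.ker (q x y)) hV' (Σ x : S, ι x) i1 i2 hκ ψ (by
      rintro v ⟨⟨x, y⟩, hk⟩
      rw [hψ]
      refine Finset.prod_eq_zero (Finset.mem_univ x) ?_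
      refine AlternatingMap.map_coord_zero (f x).det y ?_
      rw [Submodule.mem_iInf] at hk
      have h5 := hk x
      rw [Submodule.mem_iInf] at h5
      exact LinearMap.mem_ker.1 (h5 y))
    rw [h4]
    exact Submodule.zero_mem _

end

end Pool.Agent.H926.A
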