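import Mathlib
import Pool.Agent.H926.A.Qkun
import Pool.Agent.H926.T.Main2
import Pool.Agent.H926.T.Facp
import Pool.Agent.H926.Fin

/-!
# Hodge classes on abelian varieties of dimension at most seven and on their powers
-/

set_option linter.unusedSectionVars false

namespace Pool.Agent.H926.A

open Matrix Module Pool.Agent.Y90 Pool.Agent.W437.HC Pool.Agent.W437.HD
  Pool.Agent.TH504.CB Pool.Agent.W522.U
open Pool.Agent.W548.Odd hiding cv
open Pool.Agent.H204R3.CM (IsHodge)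
open Pool.Agent.H204R3.SP (Kills bil2)
open Pool.Agent.W437.HP (cK cK_mul cK_one)
open Pool.Agent.H926
open Pool.Agent.H926.T
open TraL (opQ matQ_opQ)

noncomputable section

/-- Composition of factors. -/
theorem fac_trans {G a b : ℕ} {Z : Matrix (Fin G) (Fin G) ℂ} {Z₁ : Matrix (Fin a) (Fin a) ℂ}
    {Z₂ : Matrix (Fin b) (Fin b) ℂ} {E₁ : Matrix (Fin G ⊕ Fin G) (Fin a ⊕ Fin a) ℚ}
    {F₁ : Matrix (Fin a ⊕ Fin a) (Fin G ⊕ Fin G) ℚ}
    {E₂ : Matrix (Fin a ⊕ Fin a) (Fin b ⊕ Fin b) ℚ}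
    {F₂ : Matrix (Fin b ⊕ Fin b) (Fin a ⊕ Fin a) ℚ} (h₁ : Fac Z Z₁ E₁ F₁) (h₂ : Fac Z₁ Z₂ E₂ F₂) :
    Fac Z Z₂ (E₁ * E₂) (F₂ * F₁) where
  fe := by
    rw [Matrix.mul_assoc, ← Matrix.mul_assoc F₁, h₁.fe, Matrix.one_mul, h₂.fe]
  de := by
    rw [cK_mul, ← Matrix.mul_assoc, h₁.de, Matrix.mul_assoc, h₂.de, Matrix.mul_assoc]
  fd := by
    rw [cK_mul, Matrix.mul_assoc, h₁.fd, ← Matrix.mul_assoc, h₂.fd, Matrix.mul_assoc]

theorem QF.fac {G b : ℕ} {Z : Matrix (Fin G) (Fin G) ℂ} {Z₂ : Matrix (Fin b) (Fin b) ℂ}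
    {E₂ : Matrix (Fin G ⊕ Fin G) (Fin b ⊕ Fin b) ℚ}
    {F₂ : Matrix (Fin b ⊕ Fin b) (Fin G ⊕ Fin G) ℚ} (hq : QF Z) (hf : Fac Z Z₂ E₂ F₂) : QF Z₂ :=
  fun a Z' _ _ hf' h' hs ha => hq a Z' _ _ (fac_trans hf hf') h' hs ha

/-- The lemmas on determinants and submodules. -/
structure Lem : Prop where
  det : S_QDET
  det1 : S_QDET1
  loc : S_QLOC
  formq : S_FORMQ
  rk1 : S_RK1
  twi : S_TWI
  ort : S_ORT
  o3 : S_O3
  lb : S_LB

variable {G B : ℕ} {c : Prop} {Z : Matrix (Fin G) (Fin G) ℂ}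

theorem Lem.all (L : Lem) (h : PM Z) (hGB : G ≤ B) (hq : QF Z) (hb : BrH Z) : AllFq Z B c :=
  allF_ofq L.det L.det1 L.formq L.rk1 L.twi L.ort L.o3 L.lb hGB h (L.loc G Z h hq) (fun _ => hq) hb

/-- **Dimension at most seven.** -/
theorem Lem.seven (L : Lem) (hG : S_GBR) (h3 : S_T3L) (hB : S_BRD) (h : PM Z) (h7 : G ≤ 7)
    (hGB : G ≤ B) (hq : QF Z) : AltFoq Z B c := by
  by_cases hb : ∃ (a : ℕ) (Z' : Matrix (Fin a) (Fin a) ℂ)
      (E : Matrix (Fin G ⊕ Fin G) (Fin a ⊕ Fin a) ℚ)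
      (F : Matrix (Fin a ⊕ Fin a) (Fin G ⊕ Fin G) ℚ), Fac Z Z' E F ∧ PM Z' ∧ MumM Z'
  · obtain ⟨a, Z₁, E₁, F₁, hf, h₁, hM⟩ := hb
    obtain ⟨b, Z₂, E₂, F₂, h₂, D, hab⟩ := exists_compl h hf
    have ha := hM.four
    exact kunnethq D h h₁ h₂ (mum_hsp h₁ hM (by omega) D h h₂) (mum_altFoq h₁ hM)
      (L.all h₂ (by omega) (hq.fac D.f₂) (hG b Z₂ h₂ (good_three (by omega))))
  · exact altFoq_of_all (L.all h hGB hq (brh_seven hG h3 hB h h7
      fun a Z' E F hf h' hM => hb ⟨a, Z', E, F, hf, h', hM⟩))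

/-- **Hodge classes on period matrices.** -/
theorem hodge_altq (h : PM Z) (hA : AltFoq Z B c) {κ : Type} [Finite κ]
    (f : (Fin G ⊕ Fin G → ℚ) [⋀^κ]→ₗ[ℚ] ℚ) (hf : IsHodge (perOne Z) f) :
    QR (perOne Z) B c κ f := by
  classical
  let _ : Fintype κ := Fintype.ofFinite κ
  refine altQ_altq h f ?_
  have h1 : (extA f).toMultilinearMap ∈ NQ Z B c κ := hA κ (extA f) (Pool.Agent.H926.hodge_kills h hf)
  have h2 : evalM (cst ℂ (CF f.toMultilinearMap)) ∈ NQ Z B c κ := h1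
  exact h2 _ _

section abs

variable {H T : Type} [AddCommGroup H] [Module ℚ H] [AddCommGroup T] [Module ℂ T] {per : H →+ T}

/-- The isomorphism with a period matrix. -/
theorem iso_maps (h : PM Z) (A : H ≃ₗ[ℚ] (Fin G ⊕ Fin G → ℚ))
    (hC : Cht (per.comp A.symm.toLinearMap.toAddMonoidHom) (JR Z)) :
    (∃ Ψ₁ : (Fin G → ℂ) →ₗ[ℂ] T, ∀ w, Ψ₁ (perOne Z w) = per (A.symm w)) ∧
      ∃ Ψ₂ : T →ₗ[ℂ] (Fin G → ℂ), ∀ v, Ψ₂ (per v) = perOne Z (A v) := by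
  obtain ⟨Ψ₁, h₁⟩ := h.cht.hom hC (R := 1) (by rw [cK_one, Matrix.one_mul, Matrix.mul_one])
  obtain ⟨Ψ₂, h₂⟩ := hC.hom h.cht (R := 1) (by rw [cK_one, Matrix.one_mul, Matrix.mul_one])
  refine ⟨⟨Ψ₁, fun w => by
    rw [h₁, one_mulVec]
    rfl⟩, ⟨Ψ₂, fun v => ?_⟩⟩
  have h3 := h₂ (A v)
  have h4 : (per.comp A.symm.toLinearMap.toAddMonoidHom) (A v) = per v := by
    change per (A.symm (A v)) = per v
    rw [LinearEquiv.symm_apply_apply]
  rwa [h4, one_mulVec] at h3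

/-- Transport of the theorem. -/
theorem hodge_abs (h : PM Z) (A : H ≃ₗ[ℚ] (Fin G ⊕ Fin G → ℚ))
    (hC : Cht (per.comp A.symm.toLinearMap.toAddMonoidHom) (JR Z)) {κ : Type} [Finite κ]
    (hA : ∀ f : (Fin G ⊕ Fin G → ℚ) [⋀^κ]→ₗ[ℚ] ℚ, IsHodge (perOne Z) f →
      QR (perOne Z) B c κ f) (f : H [⋀^κ]→ₗ[ℚ] ℚ) (hf : IsHodge per f) : QR per B c κ f := by
  obtain ⟨⟨Ψ₁, e₁⟩, ⟨Ψ₂, e₂⟩⟩ := iso_maps h A hC
  have h5 : IsHodge (perOne Z) (f.compLinearMap A.symm.toLinearMap) :=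
    Pool.Agent.TH504.CB.isHodge_comp A.symm.toLinearMap Ψ₁ e₁ hf
  have h7 := pull_q (per := per) (hA _ h5) A.toLinearMap Ψ₂ e₂
  have h8 : (f.compLinearMap A.symm.toLinearMap).compLinearMap A.toLinearMap = f := by
    ext v
    rw [AlternatingMap.compLinearMap_apply, AlternatingMap.compLinearMap_apply]
    congr 1
    funext k
    exact A.symm_apply_apply (v k)
  rwa [h8] at h7

/-- **Hodge classes on abelian varieties of dimension at most seven.** -/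
theorem hodge_seven (L : Lem) (hGood : S_QGOOD) (hG : S_GBR) (h3 : S_T3L) (hBr : S_BRD)
    (hX : St.IsAV per) (h7 : finrank ℂ T ≤ 7) (hB : finrank ℂ T ≤ B)
    (hq : ∀ U : Submodule ℚ H, St.IsSimpleSub per U → IsRQSub per U) {κ : Type} [Finite κ]
    (f : H [⋀^κ]→ₗ[ℚ] ℚ) (hf : IsHodge per f) : QR per B c κ f := by
  obtain ⟨G, Z, h, A, hC⟩ := exists_ppav hX
  have ha : G = finrank ℂ T := by
    have h1 := A.finrank_eq
    rw [Module.finrank_fintype_fun_eq_card, Fintype.card_sum, Fintype.card_fin] at h1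
    have h3 := hX.2.2.2.1
    omega
  exact hodge_abs h A hC (fun g hg => hodge_altq h (L.seven hG h3 hBr h (by omega) (by omega)
    (hGood H T per G Z A hC hq)) g hg) f hf

/-- The commutators, from the abstract form. -/
theorem brh_of (h : PM Z) (A : H ≃ₗ[ℚ] (Fin G ⊕ Fin G → ℚ))
    (hC : Cht (per.comp A.symm.toLinearMap.toAddMonoidHom) (JR Z))
    (hbr : ∀ x y : H →ₗ[ℚ] H, InLef per x → InLef per y → InHdg per (x ∘ₗ y - y ∘ₗ x)) :
    BrH Z := by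
  obtain ⟨t1, t2⟩ := s_tra H T per G Z h A hC
  intro X hX' Y hY'
  obtain ⟨m, c, x, hx, rfl⟩ := s_ratl G Z X hX'
  obtain ⟨n, d, y, hy, rfl⟩ := s_ratl G Z Y hY'
  have h1 : (∑ j, c j • qm (x j)) * (∑ k, d k • qm (y k)) -
      (∑ k, d k • qm (y k)) * ∑ j, c j • qm (x j) =
      ∑ j, ∑ k, (c j * d k) • (qm (x j) * qm (y k) - qm (y k) * qm (x j)) := by
    rw [Finset.sum_mul_sum, Finset.sum_mul_sum, Finset.sum_comm (s := Finset.univ (α := Fin n)),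
      ← Finset.sum_sub_distrib]
    refine Finset.sum_congr rfl fun j _ => ?_
    rw [← Finset.sum_sub_distrib]
    refine Finset.sum_congr rfl fun k _ => ?_
    rw [smul_mul_smul_comm, smul_mul_smul_comm, smul_sub, mul_comm (d k)]
  rw [h1]
  refine Submodule.sum_mem _ fun j _ => Submodule.sum_mem _ fun k _ =>
    Submodule.smul_mem _ _ ?_
  have h2 := (t2 _).1 (hbr (opQ A (x j)) (opQ A (y k))
    ((t1 _).2 (by rw [matQ_opQ]; exact hx j)) ((t1 _).2 (by rw [matQ_opQ]; exact hy k)))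
  rw [matQ_br, qm_br, matQ_opQ, matQ_opQ] at h2
  exact h2

/-- The commutators of the powers. -/
theorem hbr_pow (hX : St.IsAV per)
    (hbr : ∀ x y : H →ₗ[ℚ] H, InLef per x → InLef per y → InHdg per (x ∘ₗ y - y ∘ₗ x)) (n : ℕ)
    (x' y' : (Fin n → H) →ₗ[ℚ] (Fin n → H)) (hx : InLef (powPer per n) x')
    (hy : InLef (powPer per n) y') : InHdg (powPer per n) (x' ∘ₗ y' - y' ∘ₗ x') := by
  rcases Nat.eq_zero_or_pos n with rfl | hn
  · have h0 : x' ∘ₗ y' - y' ∘ₗ x' = 0 := by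
      refine LinearMap.ext fun v => funext fun i => i.elim0
    rw [h0]
    exact fun L _ _ => L.zero_mem
  · obtain ⟨x, hx1, rfl⟩ := (s_lp H T per hX n).2 hn x' hx
    obtain ⟨y, hy1, rfl⟩ := (s_lp H T per hX n).2 hn y' hy
    exact s_hp H T per hX n _ (hbr x y hx1 hy1)

/-- **Hodge classes on powers: period matrices.** -/
theorem pow_pm (L : Lem) (hF : S_FACP) (h : PM Z) (hq : QF Z) (hb : BrH Z) (n : ℕ) {κ : Type}
    [Finite κ] (f : (Fin n → (Fin G ⊕ Fin G → ℚ)) [⋀^κ]→ₗ[ℚ] ℚ)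
    (hf : IsHodge (powPer (perOne Z) n) f) : QR (powPer (perOne Z) n) (n * G) c κ f := by
  have hX : St.IsAV (perOne Z) := by
    exact h.isAV
  have hXn : St.IsAV (powPer (perOne Z) n) := s_pav _ _ (perOne Z) hX n
  obtain ⟨G', Z', h', A', hC'⟩ := exists_ppav hXn
  have hG' : G' = n * G := by
    have h1 := A'.finrank_eq
    rw [Module.finrank_fintype_fun_eq_card, Module.finrank_pi_fintype] at h1
    simp only [Module.finrank_fintype_fun_eq_card, Fintype.card_sum, Fintype.card_fin,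
      Finset.sum_const, Finset.card_univ, smul_eq_mul] at h1
    have h2 : n * (G + G) = 2 * (n * G) := by ring
    omega
  have hq' : QF Z' := by
    intro a Z₁ E F hf' h₁ hs ha
    obtain ⟨E', F', hf''⟩ := hF G Z h n G' Z' h' A' hC' a Z₁ E F hf' h₁ hs ha
    exact hq a Z₁ E' F' hf'' h₁ hs ha
  have hC0 : Cht ((perOne Z).comp (LinearEquiv.refl ℚ (Fin G ⊕ Fin G → ℚ)).symm.toLinearMap.toAddMonoidHom)
      (JR Z) := h.cht
  obtain ⟨t1, t2⟩ := s_tra _ _ (perOne Z) G Z h (LinearEquiv.refl ℚ _) hC0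
  have hbr : ∀ x y : (Fin G ⊕ Fin G → ℚ) →ₗ[ℚ] (Fin G ⊕ Fin G → ℚ), InLef (perOne Z) x →
      InLef (perOne Z) y → InHdg (perOne Z) (x ∘ₗ y - y ∘ₗ x) := by
    intro x y hx hy
    refine (t2 _).2 ?_
    rw [matQ_br, qm_br]
    exact hb _ ((t1 x).1 hx) _ ((t1 y).1 hy)
  have hb' := brh_of h' A' hC' (hbr_pow hX hbr n)
  exact hodge_abs h' A' hC' (fun g hg => hodge_altq h' (altFoq_of_all
    (L.all h' (by omega) hq' hb')) g hg) f hf

end abs

end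

end Pool.Agent.H926.A
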