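import Mathlib
import Pool.Agent.H926.A.Qtop

/-!
# Powers, and the reduction to even dimensions
-/

set_option linter.unusedSectionVars false

namespace Pool.Agent.H926.A

open Matrix Module Pool.Agent.Y90 Pool.Agent.W437.HC Pool.Agent.W437.HD
  Pool.Agent.TH504.CB Pool.Agent.W522.U
open Pool.Agent.W548.Odd hiding cv
open Pool.Agent.H204R3.CM (IsHodge)
open Pool.Agent.W437.HP (cK cK_mul cK_one)
open Pool.Agent.H926
open Pool.Agent.H926.T

noncomputable section

/-- **Powers of period matrices.** -/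
theorem pow_pm' {G : ℕ} {c : Prop} {Z : Matrix (Fin G) (Fin G) ℂ} (L : Lem) (hG : S_GBR)
    (h3 : S_T3L) (hBr : S_BRD) (h : PM Z) (h7 : G ≤ 7) (hq : QF Z) (n : ℕ)
    (hn : n ≤ 1 ∨ BrH Z) {κ : Type}
    [Finite κ] (f : (Fin n → (Fin G ⊕ Fin G → ℚ)) [⋀^κ]→ₗ[ℚ] ℚ)
    (hf : IsHodge (powPer (perOne Z) n) f) : QR (powPer (perOne Z) n) (n * G) c κ f := by
  rcases hn with hn | hb
  · have hX : St.IsAV (perOne Z) := h.isAV
    have hXn : St.IsAV (powPer (perOne Z) n) := s_pav _ _ (perOne Z) hX n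
    obtain ⟨G', Z', h', A', hC'⟩ := exists_ppav hXn
    have hG' : G' = n * G := by
      have h1 := A'.finrank_eq
      rw [Module.finrank_fintype_fun_eq_card, Module.finrank_pi_fintype] at h1
      simp only [Module.finrank_fintype_fun_eq_card, Fintype.card_sum, Fintype.card_fin,
        Finset.sum_const, Finset.card_univ, smul_eq_mul] at h1
      have h2 : n * (G + G) = 2 * (n * G) := by ring
      omega
    have hq' : QF Z' := by
      intro a Z₁ E F hf' h₁ hs ha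
      obtain ⟨E', F', hf''⟩ := s_facp G Z h n G' Z' h' A' hC' a Z₁ E F hf' h₁ hs ha
      exact hq a Z₁ E' F' hf'' h₁ hs ha
    have h7' : n * G ≤ 7 := (Nat.mul_le_mul_right G hn).trans (by omega)
    exact hodge_abs h' A' hC' (fun g hg => hodge_altq h'
      (L.seven hG h3 hBr h' (by omega) (by omega) hq') g hg) f hf
  · exact pow_pm L s_facp h hq hb n f hf

section abs

variable {H T : Type} [AddCommGroup H] [Module ℚ H] [AddCommGroup T] [Module ℂ T] {per : H →+ T}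

/-- Transport of a theorem on the powers. -/
theorem pow_transport {G B : ℕ} {c : Prop} {Z : Matrix (Fin G) (Fin G) ℂ} (h : PM Z)
    (A : H ≃ₗ[ℚ] (Fin G ⊕ Fin G → ℚ))
    (hC : Cht (per.comp A.symm.toLinearMap.toAddMonoidHom) (JR Z)) (n : ℕ) {κ : Type} [Finite κ]
    (hA : ∀ f : (Fin n → (Fin G ⊕ Fin G → ℚ)) [⋀^κ]→ₗ[ℚ] ℚ, IsHodge (powPer (perOne Z) n) f →
      QR (powPer (perOne Z) n) B c κ f)
    (f : (Fin n → H) [⋀^κ]→ₗ[ℚ] ℚ) (hf : IsHodge (powPer per n) f) :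
    QR (powPer per n) B c κ f := by
  obtain ⟨⟨Ψ₁, e₁⟩, ⟨Ψ₂, e₂⟩⟩ := iso_maps h A hC
  -- the maps of the powers
  let Φ₁ : (Fin n → (Fin G ⊕ Fin G → ℚ)) →ₗ[ℚ] (Fin n → H) :=
    LinearMap.pi fun i => A.symm.toLinearMap ∘ₗ LinearMap.proj i
  let Φ₂ : (Fin n → H) →ₗ[ℚ] (Fin n → (Fin G ⊕ Fin G → ℚ)) :=
    LinearMap.pi fun i => A.toLinearMap ∘ₗ LinearMap.proj i
  let Θ₁ : (Fin n → (Fin G → ℂ)) →ₗ[ℂ] (Fin n → T) :=
    LinearMap.pi fun i => Ψ₁ ∘ₗ LinearMap.proj i
  let Θ₂ : (Fin n → T) →ₗ[ℂ] (Fin n → (Fin G → ℂ)) :=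
    LinearMap.pi fun i => Ψ₂ ∘ₗ LinearMap.proj i
  have g₁ : ∀ w, Θ₁ (powPer (perOne Z) n w) = powPer per n (Φ₁ w) := fun w => by
    funext i
    exact e₁ (w i)
  have g₂ : ∀ w, Θ₂ (powPer per n w) = powPer (perOne Z) n (Φ₂ w) := fun w => by
    funext i
    exact e₂ (w i)
  have h5 : IsHodge (powPer (perOne Z) n) (f.compLinearMap Φ₁) :=
    Pool.Agent.TH504.CB.isHodge_comp Φ₁ Θ₁ g₁ hf
  have h7 := pull_q (per := powPer per n) (hA _ h5) Φ₂ Θ₂ g₂
  have h8 : (f.compLinearMap Φ₁).compLinearMap Φ₂ = f := by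
    ext v
    rw [AlternatingMap.compLinearMap_apply, AlternatingMap.compLinearMap_apply]
    congr 1
    funext k i
    exact A.symm_apply_apply (v k i)
  rw [h8] at h7
  exact h7

/-- **Hodge classes on powers of abelian varieties of dimension at most seven.** -/
theorem hodge_pow {c : Prop} (L : Lem) (hGood : S_QGOOD) (hG : S_GBR) (h3 : S_T3L) (hBr : S_BRD)
    (hMQ : S_MQ) (hX : St.IsAV per) (h7 : finrank ℂ T ≤ 7)
    (hq : ∀ U : Submodule ℚ H, St.IsSimpleSub per U → IsRQSub per U) (n : ℕ)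
    (hn : n ≤ 1 ∨ ∀ (H' T' : Type) [AddCommGroup H'] [Module ℚ H'] [AddCommGroup T'] [Module ℂ T']
      (per' : H' →+ T') (q : H →ₗ[ℚ] H'), St.IsHom per per' q → Function.Surjective q →
        ¬IsMumfordType per') {κ : Type} [Finite κ]
    (f : (Fin n → H) [⋀^κ]→ₗ[ℚ] ℚ) (hf : IsHodge (powPer per n) f) :
    QR (powPer per n) (n * finrank ℂ T) c κ f := by
  obtain ⟨G, Z, h, A, hC⟩ := exists_ppav hX
  obtain rfl : G = finrank ℂ T := by
    have h1 := A.finrank_eq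
    rw [Module.finrank_fintype_fun_eq_card, Fintype.card_sum, Fintype.card_fin] at h1
    have h3 := hX.2.2.2.1
    omega
  have hn' : n ≤ 1 ∨ BrH Z := by
    rcases hn with hn | hno
    · exact Or.inl hn
    · exact Or.inr (brh_seven hG h3 hBr h h7 fun a Z' E F hf' h' hM => by
        obtain ⟨q, hq, hs, hM'⟩ := hMQ H T per _ Z h A hC a Z' E F hf' h' hM
        exact hno _ _ (perOne Z') q hq hs hM')
  have hq' := hGood H T per _ Z A hC hq
  exact pow_transport h A hC n (fun g hg => pow_pm' L hG h3 hBr h h7 hq' n hn' g hg) f hf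

/-- **Hodge classes on powers, from the commutators.** -/
theorem hodge_crit {c : Prop} (L : Lem) (hGood : S_QGOOD) (hX : St.IsAV per)
    (hq : ∀ U : Submodule ℚ H, St.IsSimpleSub per U → IsRQSub per U)
    (hbr : ∀ x y : H →ₗ[ℚ] H, InLef per x → InLef per y → InHdg per (x ∘ₗ y - y ∘ₗ x)) (n : ℕ)
    {κ : Type} [Finite κ] (f : (Fin n → H) [⋀^κ]→ₗ[ℚ] ℚ) (hf : IsHodge (powPer per n) f) :
    QR (powPer per n) (n * finrank ℂ T) c κ f := by
  obtain ⟨G, Z, h, A, hC⟩ := exists_ppav hX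
  obtain rfl : G = finrank ℂ T := by
    have h1 := A.finrank_eq
    rw [Module.finrank_fintype_fun_eq_card, Fintype.card_sum, Fintype.card_fin] at h1
    have h3 := hX.2.2.2.1
    omega
  have hq' := hGood H T per _ Z A hC hq
  exact pow_transport h A hC n (fun g hg => pow_pm L s_facp h hq' (brh_of h A hC hbr) n g hg) f hf

end abs

/-- Hodge classes of odd degree are zero. -/
theorem hodge_odd {H T : Type} [AddCommGroup H] [Module ℚ H] [AddCommGroup T] [Module ℂ T]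
    {per : H →+ T} {n : ℕ} (hn : Odd n) {f : H [⋀^Fin n]→ₗ[ℚ] ℚ} (hf : IsHodge per f) : f = 0 := by
  obtain ⟨ψ, h1, h2⟩ := hf
  ext v
  have h3 := h2 (-1) (by simp) (fun l => per (v l))
  have h4 : (fun l => (-1 : ℂ) • per (v l)) = fun l => (-1 : ℝ) • per (v l) := by
    funext l
    rw [neg_one_smul, neg_one_smul]
  rw [h4, MultilinearMap.map_smul_univ, Finset.prod_const, Finset.card_univ, Fintype.card_fin,
    Odd.neg_one_pow hn, neg_one_smul, h1] at h3
  rw [AlternatingMap.zero_apply]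
  have h5 : ((f v : ℚ) : ℝ) = 0 := by linarith
  exact_mod_cast h5

end

end Pool.Agent.H926.A
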