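import Mathlib
import Pool.Agent.H926.A.Jobs

/-!
# Determinants on orthogonal submodules
-/

set_option autoImplicit false
set_option linter.unusedSectionVars false

namespace Pool.Agent.H926.A

open Matrix Module Pool.Agent.W437.HC Pool.Agent.W437.HD Pool.Agent.TH504.CB Pool.Agent.W522.U
open Pool.Agent.Y90 hiding mulA exists_lam mulA_altQ
open Pool.Agent.W548.Odd hiding cv
open Pool.Agent.W437.HP (cK cK_mul cK_one)
open Pool.Agent.H204R3.CM (IsHodge)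
open Pool.Agent.H204R3.SP (Kills bil2 IsTate)
open Pool.Agent.Y4.P (MaxM EigM cx cx_mul cx_one exists_PQ eqU P_eqU)

noncomputable section

namespace Q643

variable {G : ℕ} {Z : Matrix (Fin G) (Fin G) ℂ}

/-- An isotropic subspace has dimension at most `G`. -/
theorem iso_dim (U : Submodule ℂ (Fin G ⊕ Fin G → ℂ))
    (h : ∀ u ∈ U, ∀ v ∈ U, Pool.Agent.Y90.om G u v = 0) : finrank ℂ U ≤ G := by
  have hinj : Function.Injective (Pool.Agent.Y90.om G) := by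
    rw [injective_iff_map_eq_zero]
    intro u hu
    exact om_nd u fun v => by rw [hu, LinearMap.zero_apply]
  have h1 : U.map (Pool.Agent.Y90.om G) ≤ U.dualAnnihilator := by
    rintro _ ⟨u, hu, rfl⟩
    rw [Submodule.mem_dualAnnihilator]
    exact fun v hv => h u hu v hv
  have h2 := Submodule.finrank_mono h1
  have h3 : finrank ℂ (U.map (Pool.Agent.Y90.om G)) = finrank ℂ U :=
    (LinearEquiv.finrank_eq (Submodule.equivMapOfInjective _ hinj U)).symm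
  have h4 := Subspace.finrank_add_finrank_dualAnnihilator_eq U
  have h5 : finrank ℂ (Fin G ⊕ Fin G → ℂ) = G + G := by
    rw [finrank_fintype_fun_eq_card, Fintype.card_sum, Fintype.card_fin]
  rw [h3] at h2
  obtain ⟨m, hm⟩ : ∃ m, m = finrank ℂ U.dualAnnihilator := ⟨_, rfl⟩
  have h6 : finrank ℂ U ≤ m := h2.trans (le_of_eq hm.symm)
  rw [← hm, h5] at h4
  omega

/-- The radical of an invariant form on an irreducible submodule. -/
theorem rad {U : Submodule ℂ (Fin G ⊕ Fin G → ℂ)} (hU : IrS (LZ Z) U)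
    (b : (Fin G ⊕ Fin G → ℂ) →ₗ[ℂ] (Fin G ⊕ Fin G → ℂ) →ₗ[ℂ] ℂ)
    (hb : ∀ X ∈ LZ Z, ∀ u ∈ U, ∀ v ∈ U, b (X *ᵥ u) v + b u (X *ᵥ v) = 0)
    {u0 : Fin G ⊕ Fin G → ℂ} (hu0 : u0 ∈ U) (hne : u0 ≠ 0) (h0 : ∀ v ∈ U, b u0 v = 0) :
    ∀ u ∈ U, ∀ v ∈ U, b u v = 0 := by
  let W : Submodule ℂ (Fin G ⊕ Fin G → ℂ) :=
    { carrier := {u | u ∈ U ∧ ∀ v ∈ U, b u v = 0}
      add_mem' := fun {x y} hx hy => ⟨U.add_mem hx.1 hy.1, fun v hv => by
        rw [map_add, LinearMap.add_apply, hx.2 v hv, hy.2 v hv, add_zero]⟩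
      zero_mem' := ⟨U.zero_mem, fun v _ => by rw [map_zero, LinearMap.zero_apply]⟩
      smul_mem' := fun c x hx => ⟨U.smul_mem c hx.1, fun v hv => by
        rw [map_smul, LinearMap.smul_apply, hx.2 v hv, smul_zero]⟩ }
  have hW : W = ⊥ ∨ W = U := hU.2.2 W (fun x hx => hx.1) (fun X hX u hu =>
    ⟨hU.2.1 X hX u hu.1, fun v hv => by
      have h1 := hb X hX u hu.1 v hv
      rw [hu.2 _ (hU.2.1 X hX v hv), add_zero] at h1
      exact h1⟩)
  have hu : u0 ∈ W := ⟨hu0, h0⟩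
  rcases hW with hW | hW
  · rw [hW] at hu
    exact absurd ((Submodule.mem_bot ℂ).1 hu) hne
  · intro u hu' v hv
    have h1 : u ∈ W := by
      rw [hW]
      exact hu'
    exact h1.2 v hv

/-- **Schur's lemma** for invariant forms. -/
theorem scalar {U : Submodule ℂ (Fin G ⊕ Fin G → ℂ)} (hU : IrS (LZ Z) U)
    (b c : (Fin G ⊕ Fin G → ℂ) →ₗ[ℂ] (Fin G ⊕ Fin G → ℂ) →ₗ[ℂ] ℂ)
    (hb : ∀ X ∈ LZ Z, ∀ u ∈ U, ∀ v ∈ U, b (X *ᵥ u) v + b u (X *ᵥ v) = 0)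
    (hc : ∀ X ∈ LZ Z, ∀ u ∈ U, ∀ v ∈ U, c (X *ᵥ u) v + c u (X *ᵥ v) = 0)
    (hb0 : ∃ u ∈ U, ∃ v ∈ U, b u v ≠ 0) :
    ∃ s : ℂ, ∀ u ∈ U, ∀ v ∈ U, c u v = s * b u v := by
  let b' : U →ₗ[ℂ] Module.Dual ℂ U := (b.domRestrict₁₂ U U)
  let c' : U →ₗ[ℂ] Module.Dual ℂ U := (c.domRestrict₁₂ U U)
  have hinj : Function.Injective b' := by
    rw [injective_iff_map_eq_zero]
    intro u hu
    by_contra hne
    obtain ⟨x, hx, y, hy, hxy⟩ := hb0
    refine hxy (rad hU b hb u.2 (fun h0 => hne (Subtype.ext h0)) (fun v hv => ?_) x hx y hy)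
    exact LinearMap.congr_fun hu ⟨v, hv⟩
  let e : U ≃ₗ[ℂ] Module.Dual ℂ U :=
    LinearMap.linearEquivOfInjective b' hinj (Subspace.dual_finrank_eq (K := ℂ) (V := U)).symm
  have he : ∀ u, e u = b' u := fun u => rfl
  have hnt : Nontrivial U := by
    obtain ⟨x, hx, hx0⟩ := (Submodule.ne_bot_iff U).1 hU.1
    exact ⟨⟨⟨x, hx⟩, 0, fun h0 => hx0 (congrArg Subtype.val h0)⟩⟩
  obtain ⟨s, hs⟩ := Module.End.exists_eigenvalue (K := ℂ) (V := U)
    (e.symm.toLinearMap.comp c')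
  obtain ⟨u0, hu0⟩ := hs.exists_hasEigenvector
  have h1 : e.symm (c' u0) = s • u0 := hu0.apply_eq_smul
  have h2 : c' u0 = s • b' u0 := by
    rw [← he, ← map_smul, ← h1, LinearEquiv.apply_symm_apply]
  refine ⟨s, fun u hu v hv => ?_⟩
  have h3 := rad hU (c - s • b) (fun X hX u hu v hv => by
    have h4 := hb X hX u hu v hv
    have h5 := hc X hX u hu v hv
    simp only [LinearMap.sub_apply, LinearMap.smul_apply, smul_eq_mul]
    linear_combination h5 - s * h4) u0.2 (fun h0 => hu0.2 (Subtype.ext h0)) (fun v hv => by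
      have h4 := LinearMap.congr_fun h2 ⟨v, hv⟩
      have h5 : c u0 v = s * b u0 v := h4
      rw [LinearMap.sub_apply, LinearMap.sub_apply, LinearMap.smul_apply, LinearMap.smul_apply,
        smul_eq_mul, h5, sub_self]) u hu v hv
  rw [LinearMap.sub_apply, LinearMap.sub_apply, LinearMap.smul_apply, LinearMap.smul_apply,
    smul_eq_mul, sub_eq_zero] at h3
  exact h3

/-- The trace on a submodule with a nondegenerate invariant form. -/
theorem trace_zero {U : Submodule ℂ (Fin G ⊕ Fin G → ℂ)} (hU : IrS (LZ Z) U)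
    {ε : Matrix (Fin G ⊕ Fin G) (Fin G ⊕ Fin G) ℂ}
    {T : (Fin G ⊕ Fin G → ℂ) →ₗ[ℂ] (Fin G ⊕ Fin G → ℂ)} (e1 : ε * ε = ε)
    (e5 : ∀ X ∈ LZ Z, ∀ u ∈ U, T (X *ᵥ u) = X *ᵥ T u)
    (e6 : ∀ u ∈ U, T u = 0 → u = 0) (e7 : ∀ v, v ∈ U.map T ↔ ε *ᵥ v = v)
    (b : (Fin G ⊕ Fin G → ℂ) →ₗ[ℂ] (Fin G ⊕ Fin G → ℂ) →ₗ[ℂ] ℂ)
    (hb : ∀ X ∈ LZ Z, ∀ u ∈ U, ∀ v ∈ U, b (X *ᵥ u) v + b u (X *ᵥ v) = 0)
    (hb0 : ∃ u ∈ U, ∃ v ∈ U, b u v ≠ 0) {X : Matrix (Fin G ⊕ Fin G) (Fin G ⊕ Fin G) ℂ}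
    (hX : X ∈ LZ Z) : Matrix.trace (X * ε) = 0 := by
  classical
  obtain ⟨d, P, Q, hPQ, hQP⟩ := exists_PQ Pool.Agent.Y317.P.Idem.x
    (K := (⊤ : IntermediateField ℚ ℂ)) ε e1 (fun _ _ => IntermediateField.mem_top)
  have hQP' : cx Q * cx P = 1 := by rw [← cx_mul, hQP, cx_one]
  have hPQ' : cx P * cx Q = ε := by rw [← cx_mul, hPQ]
  have hT7 : ∀ v, v ∈ U.map T ↔ (cx P * cx Q) *ᵥ v = v := fun v => by
    rw [hPQ']
    exact e7 v
  let A : U ≃ₗ[ℂ] (Fin d → ℂ) := eqU hQP' e6 hT7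
  have hA : ∀ u : U, A u = cx Q *ᵥ T u := fun u => rfl
  have hPA : ∀ u : U, cx P *ᵥ A u = T u := fun u => P_eqU hQP' e6 hT7 u
  have hst : ∀ u : U, X *ᵥ (u : Fin G ⊕ Fin G → ℂ) ∈ U := fun u => hU.2.1 X hX u u.2
  have hact : ∀ (u : U),
      A ⟨X *ᵥ (u : Fin G ⊕ Fin G → ℂ), hst u⟩ = (cx Q * X * cx P) *ᵥ A u := by
    intro u
    rw [hA, ← mulVec_mulVec, hPA, e5 X hX u u.2, mulVec_mulVec]
  have hker : ∀ u ∈ U, (∀ v ∈ U, b u v = 0) → u = 0 := by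
    intro u hu hv
    by_contra hne
    obtain ⟨x, hx, y, hy, hxy⟩ := hb0
    exact hxy (rad hU b hb hu hne hv x hx y hy)
  let f : (Fin d → ℂ) →ₗ[ℂ] (Fin d → ℂ) →ₗ[ℂ] ℂ :=
    b.compl₁₂ (U.subtype.comp A.symm.toLinearMap) (U.subtype.comp A.symm.toLinearMap)
  obtain ⟨B, hB⟩ : ∃ B : Matrix (Fin d) (Fin d) ℂ, B = LinearMap.toMatrix₂' ℂ f := ⟨_, rfl⟩
  have hBv : ∀ x y : Fin d → ℂ, x ⬝ᵥ (B *ᵥ y) = b (A.symm x) (A.symm y) := by
    intro x y
    rw [← Matrix.toLinearMap₂'_apply', hB, Matrix.toLinearMap₂'_toMatrix']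
    rfl
  have hBdet : IsUnit B.det := by
    rw [isUnit_iff_ne_zero]
    intro h0
    obtain ⟨x, hx, hx'⟩ := Matrix.exists_vecMul_eq_zero_iff.2 h0
    apply hx
    have h1 : A.symm x = 0 := by
      apply Subtype.ext
      refine hker _ (A.symm x).2 fun v hv => ?_
      have h2 := hBv x (A ⟨v, hv⟩)
      rw [LinearEquiv.symm_apply_apply, Matrix.dotProduct_mulVec, hx', zero_dotProduct] at h2
      exact h2.symm
    rw [← A.apply_symm_apply x, h1, map_zero]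
  have h1 : Matrix.trace (X * ε) = Matrix.trace (cx Q * X * cx P) := by
    rw [← hPQ', ← Matrix.mul_assoc, Matrix.trace_mul_comm, Matrix.mul_assoc]
  rw [h1]
  refine Pool.Agent.H926.T.trace_skew hBdet ?_
  have hsy : ∀ x : Fin d → ℂ, (A.symm ((cx Q * X * cx P) *ᵥ x) : Fin G ⊕ Fin G → ℂ) =
      X *ᵥ (A.symm x : Fin G ⊕ Fin G → ℂ) := by
    intro x
    have h2 := hact (A.symm x)
    rw [LinearEquiv.apply_symm_apply] at h2
    rw [← h2, LinearEquiv.symm_apply_apply]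
  have h3 : ∀ x y : Fin d → ℂ,
      x ⬝ᵥ (((cx Q * X * cx P)ᵀ * B + B * (cx Q * X * cx P)) *ᵥ y) = 0 := by
    intro x y
    rw [Matrix.add_mulVec, dotProduct_add, ← mulVec_mulVec, ← mulVec_mulVec,
      Matrix.dotProduct_mulVec x (cx Q * X * cx P)ᵀ, Matrix.vecMul_transpose, hBv, hBv, hsy, hsy]
    exact hb X hX _ (A.symm x).2 _ (A.symm y).2
  ext i j
  have h4 := h3 (Pi.single i 1) (Pi.single j 1)
  rwa [Matrix.mulVec_single_one, single_one_dotProduct] at h4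

end Q643

/-- **Determinants on orthogonal submodules.** -/
theorem s_qdet1 (hO : S_QONE) : S_QDET1 := by
  intro B G hGB Z h U hU hPD b hb hb0 hbs n e q hq ψ hψ c hc
  obtain ⟨w, D, ε, T, hD, hw, e1, e2, e3, e5, e6, e7⟩ := hPD
  have hiso : ∀ u ∈ U, ∀ v ∈ U, Pool.Agent.Y90.om G u v = 0 := by
    obtain ⟨s, hs⟩ := Q643.scalar hU b (Pool.Agent.Y90.om G) hb
      (fun X hX u _ v _ => h.om_sp hX u v) hb0
    intro u hu v hv
    have h1 := hs u hu v hv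
    have h2 := hs v hv u hu
    rw [hbs v hv u hu] at h2
    have h3 := om_anti (g := G) u v
    have h4 : (2 : ℂ) * Pool.Agent.Y90.om G u v = 0 := by
      linear_combination h3 + h1 - h2
    exact (mul_eq_zero.1 h4).resolve_left two_ne_zero
  have hn : n ≤ G := by
    have h1 := finrank_eq_card_basis e
    rw [Fintype.card_fin] at h1
    rw [← h1]
    exact Q643.iso_dim U hiso
  have htr : Matrix.trace (DZ Z * ε) = 0 := Q643.trace_zero hU e1 e5 e6 e7 b hb hb0 DZ_mem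
  have hAlt : ¬AltE (LZ Z) U := by
    rintro ⟨b', hb', ⟨u, hu, v, hv, hne⟩, hanti⟩
    obtain ⟨s, hs⟩ := Q643.scalar hU b b' hb hb' hb0
    apply hne
    have h1 := hs u hu v hv
    have h2 := hs v hv u hu
    rw [hbs v hv u hu] at h2
    have h3 := hanti u hu v hv
    have h4 : (2 : ℂ) * b' u v = 0 := by
      linear_combination h3 + h1 - h2
    exact (mul_eq_zero.1 h4).resolve_left two_ne_zero
  let E : Fin n ≃ (Σ _ : Unit, Fin n) := (Equiv.uniqueSigma fun _ : Unit => Fin n).symm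
  have h1 := hO B G hGB Z h w D hD hw Unit (fun _ => U) (fun _ => hU) (fun _ => ε) (fun _ => T)
    (fun _ => e1) (fun _ => e2) (fun _ => e3) (fun _ => e5) (fun _ => e6) (fun _ => e7)
    (by rw [Fintype.sum_unique]; exact htr)
    (fun _ => Fin n) (fun _ => e) (fun _ => q) (fun _ y X hX v => hq y X hX v)
    (Or.inr (by rw [Fintype.sum_unique, Fintype.card_fin]; omega))
    (ψ.domDomCongr E) (fun v => by
      rw [MultilinearMap.domDomCongr_apply, hψ, Fintype.prod_unique]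
      rfl) c (fun h₀ => ⟨hc h₀, fun _ => hAlt⟩)
  refine (clo_NQ Z B c).reindex E.symm h1 ψ fun v => ?_
  rw [MultilinearMap.domDomCongr_apply]
  congr 1

end

end Pool.Agent.H926.A
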