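import Mathlib
import Pool.Agent.H926.A.Jobs
import Pool.Graph.R_pool_sql_team_seeded_1acbe0a2.Y4.P.Goo4

/-!
# S_QGOOD: the factors of the period matrix of an abstract abelian variety
-/

set_option autoImplicit false
set_option linter.unusedSectionVars false

namespace Pool.Agent.H926.A

open Pool.Agent.Y4.P.G3.Sd (Φ)

theorem s_qgood : S_QGOOD := by
  intro H T _ _ _ _ per G Z A hC hs a Z' E F hfac h' hsim ha
  obtain ⟨U, e, Ψ₁, Ψ₂, s⟩ := Pool.Agent.Y4.P.G3.exists_sd A hC hfac h' hsim ha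
  obtain ⟨b, hb, h1⟩ := hs U s.sim
  refine ⟨(Φ e).symm b, s.maxM h' hb, ?_⟩
  rw [minpoly.algEquiv_eq (Φ e).symm b]
  exact h1

end Pool.Agent.H926.A
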