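import Pool.Agent.H926.A.Jobs

/-!
# S_QISO: the common kernel of equivariant maps is large
-/

set_option autoImplicit false
set_option linter.unusedSectionVars false

namespace Pool.Agent.H926.A

open Matrix Module Pool.Agent.Y90

namespace H720Q

variable {B : Type} [Fintype B] [DecidableEq B] {L : Submodule ℂ (Matrix B B ℂ)}

/-- an equivariant map to an irreducible module which is not zero on a stable subspace is surjective there -/
theorem surj_on {W : Submodule ℂ (B → ℂ)} (hW : IrS L W) (q : (B → ℂ) →ₗ[ℂ] W)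
    (hq : ∀ X ∈ L, ∀ v, (q (X *ᵥ v) : B → ℂ) = X *ᵥ (q v : B → ℂ)) {N : Submodule ℂ (B → ℂ)}
    (hN : Stab L N) (h0 : ∃ n ∈ N, q n ≠ 0) (w : W) : ∃ n ∈ N, q n = w := by
  have h1 : N.map (W.subtype ∘ₗ q) ≤ W := by
    rintro _ ⟨n, _, rfl⟩
    exact (q n).2
  have h2 : Stab L (N.map (W.subtype ∘ₗ q)) := by
    rintro X hX _ ⟨n, hn, rfl⟩
    refine ⟨X *ᵥ n, hN X hX n hn, ?_⟩
    exact hq X hX n
  rcases hW.2.2 _ h1 h2 with h3 | h3
  · exfalso
    obtain ⟨n, hn, hqn⟩ := h0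
    apply hqn
    apply Subtype.ext
    have h4 : ((q n : W) : B → ℂ) ∈ N.map (W.subtype ∘ₗ q) := ⟨n, hn, rfl⟩
    rw [h3] at h4
    exact (Submodule.mem_bot ℂ).1 h4
  · have h4 : (w : B → ℂ) ∈ N.map (W.subtype ∘ₗ q) := by
      rw [h3]
      exact w.2
    obtain ⟨n, hn, hnw⟩ := h4
    exact ⟨n, hn, Subtype.ext hnw⟩

theorem stab_ker {W : Submodule ℂ (B → ℂ)} (q : (B → ℂ) →ₗ[ℂ] W)
    (hq : ∀ X ∈ L, ∀ v, (q (X *ᵥ v) : B → ℂ) = X *ᵥ (q v : B → ℂ)) : Stab L (LinearMap.ker q) := by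
  intro X hX u hu
  rw [LinearMap.mem_ker] at hu ⊢
  apply Subtype.ext
  rw [hq X hX u, hu]
  exact mulVec_zero X

theorem stab_orth {o : LinearMap.BilinForm ℂ (B → ℂ)}
    (sk : ∀ X ∈ L, ∀ u v, o (X *ᵥ u) v + o u (X *ᵥ v) = 0) {N : Submodule ℂ (B → ℂ)}
    (hN : Stab L N) : Stab L (o.orthogonal N) := by
  intro X hX u hu
  rw [LinearMap.BilinForm.mem_orthogonal_iff] at hu ⊢
  intro n hn
  have h1 : o (X *ᵥ n) u = 0 := hu _ (hN X hX n hn)
  have h2 := sk X hX n u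
  rw [h1, zero_add] at h2
  exact h2

/-- the main step -/
theorem key {o : LinearMap.BilinForm ℂ (B → ℂ)} (nd : ∀ u, (∀ v, o u v = 0) → u = 0)
    (anti : ∀ u v, o u v = -o v u) (hnd : o.Nondegenerate) (hrf : o.IsRefl)
    (sk : ∀ X ∈ L, ∀ u v, o (X *ᵥ u) v + o u (X *ᵥ v) = 0) {W W' : Submodule ℂ (B → ℂ)}
    (hW : IrS L W) (hW' : IrS L W')
    (hno : ∀ b : (B → ℂ) →ₗ[ℂ] (B → ℂ) →ₗ[ℂ] ℂ,
      (∀ X ∈ L, ∀ u ∈ W, ∀ v ∈ W', b (X *ᵥ u) v + b u (X *ᵥ v) = 0) →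
        ∀ u ∈ W, ∀ v ∈ W', b u v = 0)
    (q : (B → ℂ) →ₗ[ℂ] W) (hq : ∀ X ∈ L, ∀ v, (q (X *ᵥ v) : B → ℂ) = X *ᵥ (q v : B → ℂ))
    (q' : (B → ℂ) →ₗ[ℂ] W') (hq' : ∀ X ∈ L, ∀ v, (q' (X *ᵥ v) : B → ℂ) = X *ᵥ (q' v : B → ℂ)) :
    o.orthogonal (LinearMap.ker q) ≤ LinearMap.ker q' := by
  intro n₀ hn₀
  rw [LinearMap.mem_ker]
  by_contra hne
  have hmem : ∀ (M : Submodule ℂ (B → ℂ)) (n : B → ℂ), n ∈ o.orthogonal M ↔ ∀ m ∈ M, o m n = 0 :=
    fun M n => LinearMap.BilinForm.mem_orthogonal_iff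
  have nd' : ∀ u, (∀ v, o v u = 0) → u = 0 := fun u hu => nd u fun v => by rw [anti, hu v, neg_zero]
  have hK : Stab L (LinearMap.ker q) := stab_ker q hq
  have hN : Stab L (o.orthogonal (LinearMap.ker q)) := stab_orth sk hK
  have hn₀' := (hmem _ _).1 hn₀
  -- `q` is surjective
  have hq0 : ∃ n ∈ (⊤ : Submodule ℂ (B → ℂ)), q n ≠ 0 := by
    by_contra hcon
    push Not at hcon
    apply hne
    have h1 : n₀ = 0 := nd' n₀ fun v => hn₀' v (LinearMap.mem_ker.2 (hcon v trivial))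
    rw [h1, map_zero]
  have hqs : Function.Surjective q := fun w => by
    obtain ⟨n, _, hn⟩ := surj_on hW q hq (N := ⊤) (fun _ _ _ _ => Submodule.mem_top) hq0 w
    exact ⟨n, hn⟩
  -- `q'` is injective on the orthogonal complement
  have hinj : ∀ n ∈ o.orthogonal (LinearMap.ker q), q' n = 0 → n = 0 := by
    intro n₁ hn₁ hq1
    have hM : Stab L (o.orthogonal (o.orthogonal (LinearMap.ker q) ⊓ LinearMap.ker q')) := by
      refine stab_orth sk ?_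
      intro X hX u hu
      exact ⟨hN X hX u hu.1, stab_ker q' hq' X hX u hu.2⟩
    have hqM : ∃ n ∈ o.orthogonal (o.orthogonal (LinearMap.ker q) ⊓ LinearMap.ker q'), q n ≠ 0 := by
      by_contra hcon
      push Not at hcon
      have h1 : o.orthogonal (o.orthogonal (LinearMap.ker q) ⊓ LinearMap.ker q') ≤
          LinearMap.ker q := fun m hm => LinearMap.mem_ker.2 (hcon m hm)
      have h2 := LinearMap.BilinForm.orthogonal_le (B := o) h1
      rw [LinearMap.BilinForm.orthogonal_orthogonal hnd hrf] at h2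
      exact hne (LinearMap.mem_ker.1 (h2 hn₀).2)
    refine nd' n₁ fun v => ?_
    obtain ⟨m, hm, hmv⟩ := surj_on hW q hq hM hqM (q v)
    have h3 : v - m ∈ LinearMap.ker q := by
      rw [LinearMap.mem_ker, map_sub, hmv, sub_self]
    have h4 : o (v - m) n₁ = 0 := (hmem _ _).1 hn₁ _ h3
    have h5 : o n₁ m = 0 := (hmem _ _).1 hm n₁ ⟨hn₁, LinearMap.mem_ker.2 hq1⟩
    rw [map_sub, LinearMap.sub_apply, sub_eq_zero] at h4
    rw [h4, anti, h5, neg_zero]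
  -- sections
  obtain ⟨s, hs⟩ := LinearMap.exists_rightInverse_of_surjective q (LinearMap.range_eq_top.2 hqs)
  have hs' : ∀ w, q (s w) = w := fun w => LinearMap.congr_fun hs w
  have hq's : Function.Surjective (q'.domRestrict (o.orthogonal (LinearMap.ker q))) := fun w => by
    obtain ⟨n, hn, hnw⟩ := surj_on hW' q' hq' hN ⟨n₀, hn₀, hne⟩ w
    exact ⟨⟨n, hn⟩, hnw⟩
  obtain ⟨t, ht⟩ := LinearMap.exists_rightInverse_of_surjective _ (LinearMap.range_eq_top.2 hq's)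
  have ht' : ∀ w, q' (t w : B → ℂ) = w := fun w => LinearMap.congr_fun ht w
  obtain ⟨π, hπ⟩ := LinearMap.exists_leftInverse_of_injective W.subtype W.ker_subtype
  have hπ' : ∀ w (hw : w ∈ W), π w = ⟨w, hw⟩ := fun w hw => LinearMap.congr_fun hπ (⟨w, hw⟩ : W)
  obtain ⟨ρ, hρ⟩ := LinearMap.exists_leftInverse_of_injective W'.subtype W'.ker_subtype
  have hρ' : ∀ w (hw : w ∈ W'), ρ w = ⟨w, hw⟩ := fun w hw => LinearMap.congr_fun hρ (⟨w, hw⟩ : W')
  have hb := hno (LinearMap.compl₁₂ o (s ∘ₗ π)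
    ((o.orthogonal (LinearMap.ker q)).subtype ∘ₗ t ∘ₗ ρ)) (by
      intro X hX u hu v hv
      show o (s (π (X *ᵥ u))) (t (ρ v) : B → ℂ) + o (s (π u)) (t (ρ (X *ᵥ v)) : B → ℂ) = 0
      have h1 : q (s (π (X *ᵥ u)) - X *ᵥ s (π u)) = 0 := by
        rw [map_sub, hs', sub_eq_zero]
        apply Subtype.ext
        rw [hq X hX, hs', hπ' _ (hW.2.1 X hX u hu), hπ' u hu]
      have h2 : o (s (π (X *ᵥ u)) - X *ᵥ s (π u)) (t (ρ v) : B → ℂ) = 0 :=
        (hmem _ _).1 (t (ρ v)).2 _ (LinearMap.mem_ker.2 h1)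
      rw [map_sub, LinearMap.sub_apply, sub_eq_zero] at h2
      have h3 : (t (ρ (X *ᵥ v)) : B → ℂ) = X *ᵥ (t (ρ v) : B → ℂ) := by
        rw [← sub_eq_zero]
        refine hinj _ (Submodule.sub_mem _ (t (ρ (X *ᵥ v))).2 (hN X hX _ (t (ρ v)).2)) ?_
        rw [map_sub, ht', sub_eq_zero]
        apply Subtype.ext
        rw [hq' X hX, ht', hρ' _ (hW'.2.1 X hX v hv), hρ' v hv]
      rw [h2, h3]
      exact sk X hX _ _)
  have h6 : n₀ = 0 := by
    refine nd' n₀ fun v => ?_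
    have h1 : v - s (q v) ∈ LinearMap.ker q := by
      rw [LinearMap.mem_ker, map_sub, hs', sub_self]
    have h2 := hn₀' _ h1
    rw [map_sub, LinearMap.sub_apply, sub_eq_zero] at h2
    have h3 : (t (q' n₀) : B → ℂ) = n₀ := by
      rw [← sub_eq_zero]
      refine hinj _ (Submodule.sub_mem _ (t (q' n₀)).2 hn₀) ?_
      rw [map_sub, ht', sub_self]
    have h4 := hb (q v : B → ℂ) (q v).2 (q' n₀ : B → ℂ) (q' n₀).2
    have h5 : o (s (π (q v : B → ℂ))) (t (ρ (q' n₀ : B → ℂ)) : B → ℂ) = 0 := h4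
    rw [hπ' _ (q v).2, hρ' _ (q' n₀).2, Subtype.coe_eta, Subtype.coe_eta, h3] at h5
    rw [h2, h5]
  apply hne
  rw [h6, map_zero]

/-- the common kernel is large, general version -/
theorem main {o : LinearMap.BilinForm ℂ (B → ℂ)} (nd : ∀ u, (∀ v, o u v = 0) → u = 0)
    (anti : ∀ u v, o u v = -o v u)
    (sk : ∀ X ∈ L, ∀ u v, o (X *ᵥ u) v + o u (X *ᵥ v) = 0) {S : Type}
    (W : S → Submodule ℂ (B → ℂ)) (hW : ∀ x, IrS L (W x))
    (hno : ∀ (x x' : S) (b : (B → ℂ) →ₗ[ℂ] (B → ℂ) →ₗ[ℂ] ℂ),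
      (∀ X ∈ L, ∀ u ∈ W x, ∀ v ∈ W x', b (X *ᵥ u) v + b u (X *ᵥ v) = 0) →
        ∀ u ∈ W x, ∀ v ∈ W x', b u v = 0)
    (ι : S → Type) (q : ∀ x, ι x → (B → ℂ) →ₗ[ℂ] W x)
    (hq : ∀ x y, ∀ X ∈ L, ∀ v, (q x y (X *ᵥ v) : B → ℂ) = X *ᵥ (q x y v : B → ℂ)) :
    Fintype.card B ≤ 2 * finrank ℂ ↥(⨅ x, ⨅ y, LinearMap.ker (q x y)) := by
  have nd' : ∀ u, (∀ v, o v u = 0) → u = 0 := fun u hu => nd u fun v => by rw [anti, hu v, neg_zero]
  have hnd : o.Nondegenerate := ⟨nd, nd'⟩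
  have hrf : o.IsRefl := fun u v huv => by rw [anti, huv, neg_zero]
  obtain ⟨V', hV'⟩ : ∃ V' : Submodule ℂ (B → ℂ), V' = ⨅ x, ⨅ y, LinearMap.ker (q x y) := ⟨_, rfl⟩
  obtain ⟨R, hR⟩ : ∃ R : Submodule ℂ (B → ℂ),
    R = ⨆ x, ⨆ y, o.orthogonal (LinearMap.ker (q x y)) := ⟨_, rfl⟩
  have h1 : R ≤ V' := by
    rw [hR, hV']
    refine iSup_le fun x => iSup_le fun y => le_iInf fun x' => le_iInf fun y' => ?_
    exact key nd anti hnd hrf sk (hW x) (hW x') (hno x x') (q x y) (hq x y) (q x' y') (hq x' y')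
  have h2 : o.orthogonal R ≤ V' := by
    rw [hV']
    refine le_iInf fun x => le_iInf fun y => ?_
    have h3 : o.orthogonal (LinearMap.ker (q x y)) ≤ R := by
      rw [hR]
      exact le_iSup_of_le x (le_iSup (fun y => o.orthogonal (LinearMap.ker (q x y))) y)
    have h4 := LinearMap.BilinForm.orthogonal_le (B := o) h3
    rwa [LinearMap.BilinForm.orthogonal_orthogonal hnd hrf] at h4
  have h3 : o.orthogonal V' ≤ V' := by
    have h4 := LinearMap.BilinForm.orthogonal_le (B := o) h2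
    rw [LinearMap.BilinForm.orthogonal_orthogonal hnd hrf] at h4
    exact h4.trans h1
  have h4 := Submodule.finrank_mono h3
  rw [LinearMap.BilinForm.finrank_orthogonal hnd, Module.finrank_pi] at h4
  rw [← hV']
  omega

end H720Q

/-- the common kernel is large -/
theorem s_qiso : S_QISO := by
  intro G Z h S _ W hW hno ι _ q hq
  have h1 := H720Q.main (L := LZ Z) (o := om G) om_nd om_anti (fun X hX u v => h.om_sp hX u v) W hW
    hno ι q hq
  rw [Fintype.card_sum, Fintype.card_fin] at h1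
  omega

end Pool.Agent.H926.A
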