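import Mathlib
import Pool.Agent.H926.A.Jobs
import Pool.Graph.R_pool_sql_team_seeded_1acbe0a2.Y977.P.Tr

/-!
# Traces over imaginary quadratic fields
-/

set_option autoImplicit false

noncomputable section

open Matrix Module Pool.Agent.W437.HC Pool.Agent.W437.HD Pool.Agent.TH504.CB Pool.Agent.W522.U
open Pool.Agent.Y90 hiding mulA exists_lam mulA_altQ
open Pool.Agent.W548.Odd hiding cv

namespace Pool.Agent.H926.A

namespace H548Q

/-- the trace of a conjugate -/
theorem tr_map {n : Type} [Fintype n] (σ : ℂ ≃+* ℂ) (A B : Matrix n n ℂ) :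
    Matrix.trace (A.map σ * B.map σ) = σ (Matrix.trace (A * B)) := by
  rw [← Matrix.map_mul]
  unfold Matrix.trace
  rw [map_sum]
  rfl

theorem map_map_symm {n : Type} (σ : ℂ ≃+* ℂ) (A : Matrix n n ℂ) :
    (A.map σ.symm).map σ = A := by
  ext i j
  simp

end H548Q

open H548Q

theorem s_qtr : S_QTR := by
  intro G Z h U hU ε T h1 h2 h3 h4 h5 w D hD hw hε σ
  have hint : ∃ n : ℤ, Matrix.trace (DZ Z * ε) = (n : ℂ) := by
    have h0 := Pool.Agent.Y977.P.jtrace G Z h U hU ε T h1 h2 h3 h4 h5 (RingEquiv.refl ℂ)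
    have e : DS Z (RingEquiv.refl ℂ) = DZ Z := by
      unfold DS
      ext i j
      rfl
    rw [e] at h0
    exact ⟨_, h0⟩
  obtain ⟨n, hn⟩ := hint
  have hfix : ∀ τ : ℂ ≃+* ℂ, τ (n : ℂ) = (n : ℂ) := fun τ => map_intCast τ n
  have hD' : (0 : ℝ) < (D : ℝ) := by exact_mod_cast hD
  have hw0 : w ≠ 0 := by
    rintro rfl
    rw [zero_mul] at hw
    have : (D : ℂ) ≠ 0 := by exact_mod_cast hD.ne'
    exact this (neg_eq_zero.1 hw.symm)
  have hconj : ∀ τ : ℂ ≃+* ℂ, τ w = w ∨ τ w = -w := by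
    intro τ
    have e1 : τ w * τ w = w * w := by
      rw [← map_mul, hw, map_neg, map_ratCast]
    exact mul_self_eq_mul_self_iff.1 e1
  have hmapn : ∀ τ τ' : ℂ ≃+* ℂ, τ w = τ' w → ε.map τ = ε.map τ' := by
    intro τ τ' hτ
    ext i j
    obtain ⟨x, y, hxy⟩ := hε i j
    rw [Matrix.map_apply, Matrix.map_apply, hxy, map_add, map_add, map_mul, map_mul, hτ,
      map_ratCast, map_ratCast, map_ratCast, map_ratCast]
  -- complex conjugation
  have hcc : cc w = -w := by
    rcases hconj cc with h6 | h6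
    · exfalso
      rw [cc_apply, Complex.conj_eq_iff_real] at h6
      obtain ⟨r, hr⟩ := h6
      rw [hr] at hw
      have h7 : (r * r : ℝ) = -(D : ℝ) := by exact_mod_cast hw
      nlinarith [mul_self_nonneg r]
    · exact h6
  have hcctr : Matrix.trace (DZ Z * ε.map cc) = -(n : ℂ) := by
    have e1 : DZ Z = (-DZ Z).map cc := by
      ext i j
      have e2 := congrFun (congrFun (Pool.Agent.Y90.DZ_conj (Z := Z)) i) j
      rw [Matrix.map_apply, Matrix.neg_apply] at e2
      rw [Matrix.map_apply, Matrix.neg_apply, map_neg, e2, neg_neg]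
    conv_lhs => rw [e1]
    rw [tr_map, Matrix.neg_mul, Matrix.trace_neg, hn, map_neg, hfix]
  unfold DS
  rcases hconj σ with h6 | h6
  · have e1 : ε.map σ = ε := by
      have e2 := hmapn σ (RingEquiv.refl ℂ) h6
      rw [e2]
      ext i j
      rfl
    conv_lhs => rw [← e1]
    rw [tr_map, hn, hfix, h6, div_self hw0, one_mul]
  · have h7 : σ.symm w = -w := by
      apply σ.injective
      rw [RingEquiv.apply_symm_apply, map_neg, h6, neg_neg]
    have e1 : ε.map σ.symm = ε.map cc := hmapn _ _ (by rw [h7, hcc])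
    have e2 : (ε.map cc).map σ = ε := by
      rw [← e1]
      exact map_map_symm σ ε
    conv_lhs => rw [← e2]
    rw [tr_map, hcctr, map_neg, hfix, h6, hn]
    field_simp

end Pool.Agent.H926.A
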