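import Pool.Agent.H926.A.Jobs

/-! S_QVAN: alternation in too many variables vanishes. -/

set_option autoImplicit false

namespace Pool.Agent.H926.A

open Module Pool.Agent.Y90

namespace H401

/-- replacing the variables modulo the common kernel -/
theorem alt_congr {κ V : Type*} [DecidableEq κ] [Fintype κ] [AddCommGroup V] [Module ℂ V]
    (V' : Submodule ℂ V) (φ : V [⋀^κ]→ₗ[ℂ] ℂ) (hφ : ∀ v : κ → V, (∃ k, v k ∈ V') → φ v = 0)
    (v c : κ → V) (h : ∀ k, c k - v k ∈ V') : φ c = φ v := by
  have key : ∀ s : Finset κ, φ (fun k => if k ∈ s then c k else v k) = φ v := by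
    intro s
    induction s using Finset.induction_on with
    | empty => simp
    | @insert a s ha ih =>
      set x : κ → V := fun k => if k ∈ s then c k else v k with hx
      have h1 : (fun k => if k ∈ insert a s then c k else v k) = Function.update x a (c a) := by
        funext k
        by_cases hk : k = a
        · subst hk
          rw [Function.update_self, if_pos (Finset.mem_insert_self _ _)]
        · rw [Function.update_of_ne hk, hx]
          simp only [Finset.mem_insert, hk, false_or]
      have h2 : Function.update x a (v a) = x := by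
        have h3 : v a = x a := by
          rw [hx]
          simp only [if_neg ha]
        rw [h3, Function.update_eq_self]
      have h4 : φ (Function.update x a (c a - v a)) = 0 :=
        hφ _ ⟨a, by rw [Function.update_self]; exact h a⟩
      rw [AlternatingMap.map_update_sub, h2, sub_eq_zero] at h4
      rw [h1, h4, ih]
  have h1 := key Finset.univ
  simpa using h1

theorem alt_zero {κ V : Type*} [DecidableEq κ] [Fintype κ] [AddCommGroup V] [Module ℂ V]
    [FiniteDimensional ℂ V] (V' : Submodule ℂ V) (φ : V [⋀^κ]→ₗ[ℂ] ℂ)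
    (hφ : ∀ v : κ → V, (∃ k, v k ∈ V') → φ v = 0)
    (hc : finrank ℂ V < finrank ℂ V' + Fintype.card κ) (v : κ → V) : φ v = 0 := by
  obtain ⟨C, hC⟩ := Submodule.exists_isCompl V'
  have hdim := Submodule.finrank_add_eq_of_isCompl hC
  have hdec : ∀ k, ∃ c : C, (c : V) - v k ∈ V' := by
    intro k
    have h1 : v k ∈ V' ⊔ C := by
      rw [hC.sup_eq_top]
      trivial
    obtain ⟨a, ha, b, hb, hab⟩ := Submodule.mem_sup.1 h1
    refine ⟨⟨b, hb⟩, ?_⟩
    have h2 : b - v k = -a := by rw [← hab]; abel
    show b - v k ∈ V'
    rw [h2]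
    exact V'.neg_mem ha
  choose c hc' using hdec
  rw [← alt_congr V' φ hφ v (fun k => (c k : V)) hc']
  apply AlternatingMap.map_linearDependent
  intro hli
  have h1 : LinearIndependent ℂ c := LinearIndependent.of_comp C.subtype hli
  have h2 := h1.fintype_card_le_finrank
  omega

end H401

theorem s_qvan : S_QVAN := by
  intro G V' hV κ _ _ hκ ψ hψ
  funext v
  have h1 : altQ ψ v = MultilinearMap.alternatization ψ (fun k => cv (v k)) := by
    unfold altQ
    rw [MultilinearMap.alternatization_apply]
    refine Finset.sum_congr rfl fun σ _ => ?_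
    rw [Units.smul_def, zsmul_eq_mul]
    rfl
  have hφ : ∀ w : κ → Fin G ⊕ Fin G → ℂ, (∃ k, w k ∈ V') →
      MultilinearMap.alternatization ψ w = 0 := by
    rintro w ⟨k, hk⟩
    rw [MultilinearMap.alternatization_apply]
    refine Finset.sum_eq_zero fun σ _ => ?_
    have h2 : (MultilinearMap.domDomCongr σ ψ) w = 0 := by
      rw [MultilinearMap.domDomCongr_apply]
      refine hψ _ ⟨σ.symm k, ?_⟩
      rw [Equiv.apply_symm_apply]
      exact hk
    rw [h2, smul_zero]
  rw [h1]
  refine H401.alt_zero V' _ hφ ?_ _
  have h3 : finrank ℂ (Fin G ⊕ Fin G → ℂ) = G + G := by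
    rw [Module.finrank_fintype_fun_eq_card, Fintype.card_sum, Fintype.card_fin]
  rw [h3]
  omega

end Pool.Agent.H926.A
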