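import Mathlib
import Pool.Agent.H926.A.Qpull

/-!
# Products of determinants: imaginary quadratic fields
-/

set_option linter.unusedSectionVars false

namespace Pool.Agent.H926.A

open Matrix Module Pool.Agent.W437.HC Pool.Agent.W437.HD Pool.Agent.TH504.CB Pool.Agent.W522.U
open Pool.Agent.Y90 hiding mulA exists_lam mulA_altQ
open Pool.Agent.W548.Odd hiding cv
open Pool.Agent.W437.HP (cK cK_mul cK_one)
open Pool.Agent.H204R3.CM (IsHodge)
open Pool.Agent.Y4.P (cx WD)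

noncomputable section

/-! ## Block diagonal matrices -/

section bd

variable {S : Type} [Fintype S] [DecidableEq S] {m : S → Type} [∀ x, Fintype (m x)]
  [∀ x, DecidableEq (m x)]

private theorem det_bd (M : ∀ x, Matrix (m x) (m x) ℂ) :
    (Matrix.blockDiagonal' M).det = ∏ x, (M x).det := by
  let o : LinearOrder S := LinearOrder.lift' (Fintype.equivFin S) (Equiv.injective _)
  rw [(Matrix.blockTriangular_blockDiagonal' M).det_fintype]
  refine Finset.prod_congr rfl fun x _ => ?_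
  let e : m x ≃ {a : Σ x, m x // a.1 = x} :=
    { toFun := fun y => ⟨⟨x, y⟩, rfl⟩
      invFun := fun a => a.2 ▸ a.1.2
      left_inv := fun y => rfl
      right_inv := by
        rintro ⟨⟨x', y⟩, h⟩
        subst h
        rfl }
  rw [← Matrix.det_submatrix_equiv_self e]
  congr 1
  ext y y'
  exact Matrix.blockDiagonal'_apply_eq M x y y'

private theorem bd_mulVec {n : S → Type} [∀ x, Fintype (n x)] {F : Type} [Field F]
    (M : ∀ x, Matrix (m x) (n x) F) (v : (Σ x, n x) → F) (x : S) (y : m x) :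
    (Matrix.blockDiagonal' M *ᵥ v) ⟨x, y⟩ = (M x *ᵥ fun z => v ⟨x, z⟩) y := by
  rw [Matrix.mulVec, dotProduct, Fintype.sum_sigma, Finset.sum_eq_single x]
  · rw [Matrix.mulVec, dotProduct]
    exact Finset.sum_congr rfl fun z _ => by rw [Matrix.blockDiagonal'_apply_eq]
  · intro x' _ hx'
    exact Finset.sum_eq_zero fun z _ => by
      rw [Matrix.blockDiagonal'_apply_ne M _ _ (Ne.symm hx'), zero_mul]
  · intro hx
    exact absurd (Finset.mem_univ x) hx

end bd

/-! ## The symmetric multilinear form -/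

section form

variable {N B : Type} [Fintype N] [DecidableEq N] [Fintype B]

/-- the multilinear form -/
private def M1 : MultilinearMap ℂ (fun _ : N => Matrix N B ℂ) ((N → B → ℚ) → ℂ) :=
  MultilinearMap.pi fun v => ∑ σ : Equiv.Perm N, ((Equiv.Perm.sign σ : ℤ) : ℂ) •
    (Matrix.detRowAlternating (n := N) (R := ℂ)).toMultilinearMap.compLinearMap
      fun k => mvL (cv (v (σ k)))

private theorem M1_apply (R : N → Matrix N B ℂ) (v : N → B → ℚ) :
    M1 R v = ∑ σ : Equiv.Perm N, ((Equiv.Perm.sign σ : ℤ) : ℂ) *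
      Matrix.det (Matrix.of fun k j => (R k *ᵥ cv (v (σ k))) j) := by
  unfold M1
  rw [MultilinearMap.pi_apply, _root_.sum_apply]
  refine Finset.sum_congr rfl fun σ _ => ?_
  rw [_root_.smul_apply, MultilinearMap.compLinearMap_apply, smul_eq_mul]
  rfl

private theorem det_perm (R : N → N → ℂ) (τ : Equiv.Perm N) :
    Matrix.det (Matrix.of fun k j => R (τ k) j) =
      ((Equiv.Perm.sign τ : ℤ) : ℂ) * Matrix.det (Matrix.of fun k j => R k j) :=
  Matrix.det_permute τ (Matrix.of fun k j => R k j)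

private theorem sign_sq (τ : Equiv.Perm N) :
    ((Equiv.Perm.sign τ : ℤ) : ℂ) * ((Equiv.Perm.sign τ : ℤ) : ℂ) = 1 := by
  rw [← Int.cast_mul, ← Units.val_mul, Int.units_mul_self, Units.val_one, Int.cast_one]

private theorem M1_sym (R : N → Matrix N B ℂ) (τ : Equiv.Perm N) :
    M1 (fun k => R (τ k)) = M1 R := by
  funext v
  rw [M1_apply, M1_apply, ← Equiv.sum_comp (Equiv.mulRight τ)
    (fun σ : Equiv.Perm N => ((Equiv.Perm.sign σ : ℤ) : ℂ) *
      Matrix.det (Matrix.of fun k j => (R (τ k) *ᵥ cv (v (σ k))) j))]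
  refine Finset.sum_congr rfl fun σ _ => ?_
  have h1 : (Equiv.mulRight τ) σ = σ * τ := rfl
  have h2 : Matrix.det (Matrix.of fun k j => (R (τ k) *ᵥ cv (v ((σ * τ) k))) j) =
      ((Equiv.Perm.sign τ : ℤ) : ℂ) *
        Matrix.det (Matrix.of fun k j => (R k *ᵥ cv (v (σ k))) j) :=
    det_perm (fun k j => (R k *ᵥ cv (v (σ k))) j) τ
  rw [h1, h2, Equiv.Perm.sign_mul, Units.val_mul, Int.cast_mul]
  have h3 := sign_sq τ
  linear_combination (((Equiv.Perm.sign σ : ℤ) : ℂ) *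
    Matrix.det (Matrix.of fun k j => (R k *ᵥ cv (v (σ k))) j)) * h3

private theorem M1_const (R : Matrix N B ℂ) (v : N → B → ℚ) :
    M1 (fun _ => R) v = (Fintype.card (Equiv.Perm N) : ℂ) *
      Matrix.det (Matrix.of fun k j => (R *ᵥ cv (v k)) j) := by
  rw [M1_apply]
  have h1 : ∀ σ : Equiv.Perm N, ((Equiv.Perm.sign σ : ℤ) : ℂ) *
      Matrix.det (Matrix.of fun k j => (R *ᵥ cv (v (σ k))) j) =
      Matrix.det (Matrix.of fun k j => (R *ᵥ cv (v k)) j) := by
    intro σ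
    have h2 : Matrix.det (Matrix.of fun k j => (R *ᵥ cv (v (σ k))) j) =
      ((Equiv.Perm.sign σ : ℤ) : ℂ) * Matrix.det (Matrix.of fun k j => (R *ᵥ cv (v k)) j) :=
      det_perm (fun k j => (R *ᵥ cv (v k)) j) σ
    rw [h2, ← mul_assoc, sign_sq, one_mul]
  rw [Finset.sum_congr rfl fun σ _ => h1 σ, Finset.sum_const, Finset.card_univ, nsmul_eq_mul]

private theorem M1_mem (W : Submodule ℂ ((N → B → ℚ) → ℂ)) (T : AddSubmonoid (Matrix N B ℂ))
    (h : ∀ R ∈ T, (fun v : N → B → ℚ => Matrix.det (Matrix.of fun k j => (R *ᵥ cv (v k)) j)) ∈ W)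
    (R : N → Matrix N B ℂ) (hR : ∀ y, R y ∈ Submodule.span ℂ (T : Set (Matrix N B ℂ))) :
    M1 R ∈ W := by
  have h2 : ∀ (x : N → Matrix N B ℂ) (τ : Equiv.Perm N), M1 (fun k => x (τ k)) = M1 x := M1_sym
  have h3 : ∀ x ∈ T, M1 (fun _ => x) ∈ W := by
    intro x hx
    have h4 : M1 (fun _ => x) = (Fintype.card (Equiv.Perm N) : ℂ) •
        fun v : N → B → ℚ => Matrix.det (Matrix.of fun k j => (x *ᵥ cv (v k)) j) := by
      funext v
      rw [M1_const]
      rfl
    rw [h4]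
    exact Submodule.smul_mem _ _ (h x hx)
  have h4 := polar_mem M1 W T h2 h3
  exact multi_span M1 W T h4 R hR

end form

/-! ## Power of a principally polarized abelian variety -/

section pow

variable {G : ℕ} {Z : Matrix (Fin G) (Fin G) ℂ} (S : Type) [Fintype S] [DecidableEq S]

private theorem cK_bd (F : Type) [Field F] [CharZero F]
    (M : S → Matrix (Fin G ⊕ Fin G) (Fin G ⊕ Fin G) ℚ) :
    cK F (Matrix.blockDiagonal' M) = Matrix.blockDiagonal' fun x : S => cK F (M x) :=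
  Matrix.blockDiagonal'_map _ _ Rat.cast_zero

theorem cK_smul (F : Type) [Field F] [CharZero F] (l : ℚ)
    (M : Matrix (Fin G ⊕ Fin G) (Fin G ⊕ Fin G) ℚ) : cK F (l • M) = (l : F) • cK F M := by
  ext i j
  show ((l * M i j : ℚ) : F) = (l : F) * ((M i j : ℚ) : F)
  exact Rat.cast_mul _ _

private theorem DJ_bd : DJ (Matrix.blockDiagonal' fun _ : S => JR Z) =
    Matrix.blockDiagonal' fun _ : S => DZ Z := by
  unfold DJ
  rw [Matrix.blockDiagonal'_map _ _ Complex.ofReal_zero, ← Matrix.blockDiagonal'_smul]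
  rfl

private theorem pos_one (h : PM Z) (x : Fin G ⊕ Fin G → ℝ) (hx : x ≠ 0) :
    0 < (JR Z *ᵥ x) ⬝ᵥ (cK ℝ (-Om G ℚ) *ᵥ x) := by
  have h1 : cK ℝ (-Om G ℚ) = -Om G ℝ := by
    have h2 : cK ℝ (Om G ℚ) = Om G ℝ := Om_map ℝ
    rw [← h2]
    ext i j
    simp [cK]
  have h3 := (OmJ_posDef h.symm h.pos).dotProduct_mulVec_pos hx
  rw [star_trivial, ← mulVec_mulVec, dotProduct_mulVec, ← mulVec_transpose, Om_transpose,
    neg_mulVec, neg_dotProduct, dotProduct_comm] at h3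
  rw [h1, neg_mulVec, dotProduct_neg]
  exact h3

private theorem wd {K : IntermediateField ℚ ℂ} (h : PM Z) (d : S → ℕ)
    (P : ∀ x, Matrix (Fin G ⊕ Fin G) (Fin (d x)) K)
    (Q : ∀ x, Matrix (Fin (d x)) (Fin G ⊕ Fin G) K)
    (hQP : ∀ x, Q x * P x = 1)
    (hc : ∀ x, ∀ X ∈ LZ Z, X * cx (P x * Q x) = cx (P x * Q x) * X)
    (htr : ∀ X ∈ LZ Z, ∑ x, Matrix.trace (X * cx (P x * Q x)) = 0) (l : S → ℚ)
    (hl : ∀ x, 0 < l x) :
    WD (Matrix.blockDiagonal' fun _ : S => JR Z)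
      (Matrix.blockDiagonal' fun x : S => l x • -Om G ℚ)
      (Matrix.blockDiagonal' P) (Matrix.blockDiagonal' Q) := by
  have hD : ∀ σ : ℂ ≃+* ℂ, (DJ (Matrix.blockDiagonal' fun _ : S => JR Z)).map σ =
      Matrix.blockDiagonal' fun _ : S => DS Z σ := by
    intro σ
    rw [DJ_bd, Matrix.blockDiagonal'_map _ _ (map_zero σ)]
    rfl
  have hC : cx (Matrix.blockDiagonal' P * Matrix.blockDiagonal' Q) =
      Matrix.blockDiagonal' fun x => cx (P x * Q x) := by
    rw [← Matrix.blockDiagonal'_mul]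
    exact Matrix.blockDiagonal'_map _ _ (map_zero _)
  refine ⟨?_, ?_, ?_, ?_, ?_, ?_, ?_⟩
  · rw [← Matrix.blockDiagonal'_mul, JR_sq h.det]
    have h1 : (fun _ : S => (-1 : Matrix (Fin G ⊕ Fin G) (Fin G ⊕ Fin G) ℝ)) = -1 := rfl
    rw [h1, Matrix.blockDiagonal'_neg, Matrix.blockDiagonal'_one]
  · rw [Matrix.blockDiagonal'_transpose, ← Matrix.blockDiagonal'_neg]
    congr 1
    funext x
    rw [transpose_smul, transpose_neg, Om_transpose, Pi.neg_apply, smul_neg]
  · rw [cK_bd, Matrix.blockDiagonal'_transpose, ← Matrix.blockDiagonal'_mul,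
      ← Matrix.blockDiagonal'_mul, ← Matrix.blockDiagonal'_add]
    have h1 : cK ℝ (-Om G ℚ) = -Om G ℝ := by
      have h2 : cK ℝ (Om G ℚ) = Om G ℝ := Om_map ℝ
      rw [← h2]
      ext i j
      simp [cK]
    have h3 : ((fun x : S => (JR Z)ᵀ * cK ℝ (l x • -Om G ℚ)) +
        fun x : S => cK ℝ (l x • -Om G ℚ) * JR Z) = 0 := by
      funext x
      rw [Pi.add_apply, cK_smul, h1, Matrix.mul_smul, Matrix.smul_mul, ← smul_add, Matrix.mul_neg,
        Matrix.neg_mul, ← neg_add, JR_sp h.symm, neg_zero, smul_zero]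
      rfl
    rw [h3, Matrix.blockDiagonal'_zero]
  · intro x hx
    rw [cK_bd, dotProduct, Fintype.sum_sigma]
    have h1 : ∀ s : S, ∑ y, (Matrix.blockDiagonal' (fun _ : S => JR Z) *ᵥ x) ⟨s, y⟩ *
        (Matrix.blockDiagonal' (fun s : S => cK ℝ (l s • -Om G ℚ)) *ᵥ x) ⟨s, y⟩ =
        (l s : ℝ) * ((JR Z *ᵥ fun z => x ⟨s, z⟩) ⬝ᵥ (cK ℝ (-Om G ℚ) *ᵥ fun z => x ⟨s, z⟩)) := by
      intro s
      rw [dotProduct, Finset.mul_sum]
      refine Finset.sum_congr rfl fun y _ => ?_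
      rw [bd_mulVec, bd_mulVec, cK_smul, smul_mulVec, Pi.smul_apply, smul_eq_mul]
      ring
    rw [Finset.sum_congr rfl fun s _ => h1 s]
    have hl' : ∀ s : S, 0 < (l s : ℝ) := fun s => by exact_mod_cast hl s
    have h2 : ∀ s : S, 0 ≤ (l s : ℝ) * ((JR Z *ᵥ fun z => x ⟨s, z⟩) ⬝ᵥ
        (cK ℝ (-Om G ℚ) *ᵥ fun z => x ⟨s, z⟩)) := by
      intro s
      by_cases h3 : (fun z => x ⟨s, z⟩) = (0 : Fin G ⊕ Fin G → ℝ)
      · rw [h3, mulVec_zero, mulVec_zero, dotProduct_zero, mul_zero]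
      · exact (mul_pos (hl' s) (pos_one h _ h3)).le
    obtain ⟨⟨s, z⟩, hz⟩ := Function.ne_iff.1 hx
    refine Finset.sum_pos' (fun s _ => h2 s) ⟨s, Finset.mem_univ s,
      mul_pos (hl' s) (pos_one h _ fun h4 => hz ?_)⟩
    exact congrFun h4 z
  · rw [← Matrix.blockDiagonal'_mul]
    have h1 : (fun x => Q x * P x) = 1 := funext hQP
    rw [h1, Matrix.blockDiagonal'_one]
  · intro σ
    rw [hD, hC, ← Matrix.blockDiagonal'_mul, ← Matrix.blockDiagonal'_mul]
    congr 1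
    funext x
    exact hc x _ (DS_mem σ)
  · intro σ
    rw [hD, hC, ← Matrix.blockDiagonal'_mul, Matrix.trace_blockDiagonal']
    exact htr _ (DS_mem σ)

/-- The Gram matrix of a block diagonal matrix. -/
private theorem det_Sg {K : IntermediateField ℚ ℂ} (d : S → ℕ)
    (P : ∀ x, Matrix (Fin G ⊕ Fin G) (Fin (d x)) K) (l : S → ℚ) :
    Matrix.det (Sg (Matrix.blockDiagonal' fun x : S => l x • -Om G ℚ)
      (Matrix.blockDiagonal' P)) =
      (∏ x, (l x : ℂ) ^ d x) * ∏ x, Matrix.det (Sg (-Om G ℚ) (P x)) := by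
  have h1 : Sg (Matrix.blockDiagonal' fun x : S => l x • -Om G ℚ) (Matrix.blockDiagonal' P) =
      Matrix.blockDiagonal' fun x => (l x : ℂ) • Sg (-Om G ℚ) (P x) := by
    unfold Sg
    have e1 : cx (Matrix.blockDiagonal' P) = Matrix.blockDiagonal' fun x => cx (P x) :=
      Matrix.blockDiagonal'_map _ _ (map_zero _)
    rw [e1, cK_bd, Matrix.blockDiagonal'_map _ _ (map_zero _), Matrix.blockDiagonal'_transpose,
      ← Matrix.blockDiagonal'_mul, ← Matrix.blockDiagonal'_mul]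
    congr 1
    funext x
    rw [cK_smul, Matrix.mul_smul, Matrix.smul_mul]
  rw [h1, det_bd, ← Finset.prod_mul_distrib]
  refine Finset.prod_congr rfl fun x _ => ?_
  rw [Matrix.det_smul, Fintype.card_fin]

/-- The weights. -/
private theorem exists_weights {r : ℂ} {D : ℚ} (hDpos : S_DPOS) (hD : 0 < D)
    (hr : r * r = -(D : ℂ)) (h : PM Z) (d : S → ℕ)
    (P : ∀ x, Matrix (Fin G ⊕ Fin G) (Fin (d x)) (IntermediateField.adjoin ℚ {r}))
    (Q : ∀ x, Matrix (Fin (d x)) (Fin G ⊕ Fin G) (IntermediateField.adjoin ℚ {r}))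
    (hQP : ∀ x, Q x * P x = 1)
    (hc : ∀ x, ∀ X ∈ LZ Z, X * cx (P x * Q x) = cx (P x * Q x) * X)
    (htr : ∀ X ∈ LZ Z, ∑ x, Matrix.trace (X * cx (P x * Q x)) = 0) (h6 : ∑ x, d x = 6)
    (x₀ : S) (hx₀ : Odd (d x₀)) : ∃ l : S → ℚ, (∀ x, 0 < l x) ∧ ∃ δ a : ℚ,
      Matrix.det (Sg (Matrix.blockDiagonal' fun x : S => l x • -Om G ℚ)
        (Matrix.blockDiagonal' P)) = δ ∧ a ≠ 0 ∧ D ^ 3 * δ = a ^ 2 := by
  have w := wd S h d P Q hQP hc htr (fun _ => 1) (fun _ => one_pos)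
  obtain ⟨δ, h1, h2⟩ := hDpos r D hD hr _ _ (by rw [Fintype.card_sigma]; simpa using h6) _ _ _ _ w
  rw [det_Sg] at h2
  simp only [Rat.cast_one, one_pow, Finset.prod_const_one, one_mul] at h2
  obtain ⟨k, hk⟩ := hx₀
  refine ⟨fun x => if x = x₀ then δ * D else 1, fun x => ?_, (δ * D) ^ d x₀ * δ,
    δ ^ (k + 1) * D ^ (k + 2), ?_, ?_, ?_⟩
  · by_cases hx : x = x₀
    · simp only [hx, if_true]
      exact mul_pos h1 hD
    · simp only [hx, if_false]
      exact one_pos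
  · rw [det_Sg, h2]
    push_cast
    congr 1
    rw [Finset.prod_eq_single x₀]
    · rw [if_pos rfl]
      push_cast
      rfl
    · intro x _ hx
      rw [if_neg hx]
      simp
    · intro hx
      exact absurd (Finset.mem_univ _) hx
  · exact mul_ne_zero (pow_ne_zero _ h1.ne') (pow_ne_zero _ hD.ne')
  · rw [hk]
    ring

/-- the embedding of a block -/
private def emb {S : Type} [DecidableEq S] (F : Type) [Field F] (G : ℕ) (s : S) :
    Matrix (Fin G ⊕ Fin G) (Fin G ⊕ Fin G) F →ₗ[F]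
      Matrix (Σ _ : S, Fin G ⊕ Fin G) (Fin G ⊕ Fin G) F where
  toFun C := Matrix.of fun p i => if p.1 = s then C p.2 i else 0
  map_add' C D := by
    ext p i
    simp only [Matrix.of_apply, Matrix.add_apply]
    split_ifs
    · rfl
    · rw [add_zero]
  map_smul' c C := by
    ext p i
    simp only [Matrix.of_apply, Matrix.smul_apply, RingHom.id_apply]
    split_ifs
    · rfl
    · rw [smul_zero]

private theorem emb_apply {S : Type} [DecidableEq S] (F : Type) [Field F] (G : ℕ) (s : S)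
    (C : Matrix (Fin G ⊕ Fin G) (Fin G ⊕ Fin G) F) (p : Σ _ : S, Fin G ⊕ Fin G)
    (i : Fin G ⊕ Fin G) : emb F G s C p i = if p.1 = s then C p.2 i else 0 := rfl

private theorem emb_cK (s : S) (A : Matrix (Fin G ⊕ Fin G) (Fin G ⊕ Fin G) ℚ) :
    cK ℂ (emb ℚ G s A) = emb ℂ G s (cK ℂ A) := by
  ext p i
  rw [emb_apply]
  show ((emb ℚ G s A p i : ℚ) : ℂ) = _
  rw [emb_apply]
  split_ifs
  · rfl
  · exact Rat.cast_zero

private theorem emb_mul (s : S) (C D : Matrix (Fin G ⊕ Fin G) (Fin G ⊕ Fin G) ℂ) :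
    emb ℂ G s C * D = emb ℂ G s (C * D) := by
  ext p i
  rw [emb_apply, Matrix.mul_apply]
  split_ifs with hp
  · rw [Matrix.mul_apply]
    exact Finset.sum_congr rfl fun l _ => by rw [emb_apply, if_pos hp]
  · exact Finset.sum_eq_zero fun l _ => by rw [emb_apply, if_neg hp, zero_mul]

private theorem mul_emb (s : S) (C D : Matrix (Fin G ⊕ Fin G) (Fin G ⊕ Fin G) ℂ) :
    (Matrix.blockDiagonal' fun _ : S => C) * emb ℂ G s D = emb ℂ G s (C * D) := by
  ext p i
  have h1 : ((Matrix.blockDiagonal' fun _ : S => C) * emb ℂ G s D) p i =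
      ((Matrix.blockDiagonal' fun _ : S => C) *ᵥ fun q => emb ℂ G s D q i) p := rfl
  obtain ⟨x, y⟩ := p
  rw [h1, bd_mulVec, emb_apply]
  simp only [emb_apply]
  split_ifs with hp
  · rfl
  · exact congrFun (mulVec_zero C) y

end pow

theorem s_qweil (hDpos : S_DPOS) (hDisc : S_DISC) : S_QWEIL := by
  intro B G Z h r D hD hr S _ _ d P Q hQP hc htr R hR ψ hψ hB c hs
  suffices H : altQ ψ ∈ RCq (perOne Z) B c (Σ x, Fin (d x)) by
    intro i1 i2
    rw [Subsingleton.elim i1 (Sigma.instFintype), Subsingleton.elim i2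
      (fun a b => Sigma.instDecidableEqSigma a b)]
    exact H
  obtain ⟨l, hl, hcl⟩ : ∃ l : S → ℚ, (∀ x, 0 < l x) ∧
      (c → Fintype.card (Σ x, Fin (d x)) = 6 → ∃ δ a : ℚ,
        Matrix.det (Sg (Matrix.blockDiagonal' fun x : S => l x • -Om G ℚ)
          (Matrix.blockDiagonal' P)) = δ ∧ a ≠ 0 ∧ D ^ 3 * δ = a ^ 2) := by
    by_cases hcc : c ∧ ∑ x, d x = 6
    · obtain ⟨x₀, hx₀⟩ := hs hcc.1 hcc.2
      obtain ⟨l, hl, δ, a, e⟩ := exists_weights S hDpos hD hr h d P Q hQP hc htr hcc.2 x₀ hx₀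
      exact ⟨l, hl, fun _ _ => ⟨δ, a, e⟩⟩
    · refine ⟨fun _ => 1, fun _ => one_pos, fun h1 h2 => absurd ⟨h1, ?_⟩ hcc⟩
      rw [Fintype.card_sigma] at h2
      simpa using h2
  have w := wd S h d P Q hQP hc htr l hl
  -- the additive monoid of the rational homomorphisms
  let T : AddSubmonoid (Matrix (Σ x, Fin (d x)) (Fin G ⊕ Fin G) ℂ) :=
    { carrier := {C | ∃ A : Matrix (Σ _ : S, Fin G ⊕ Fin G) (Fin G ⊕ Fin G) ℚ,
        C = cx (Matrix.blockDiagonal' Q) * cK ℂ A ∧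
          cK ℂ A * DZ Z = DJ (Matrix.blockDiagonal' fun _ : S => JR Z) * cK ℂ A}
      add_mem' := by
        rintro _ _ ⟨A, rfl, hA⟩ ⟨A', rfl, hA'⟩
        have h1 : cK ℂ (A + A') = cK ℂ A + cK ℂ A' := by
          ext i j
          simp [cK]
        exact ⟨A + A', by rw [h1, Matrix.mul_add], by
          rw [h1, Matrix.add_mul, Matrix.mul_add, hA, hA']⟩
      zero_mem' := by
        have h1 : cK ℂ (0 : Matrix (Σ _ : S, Fin G ⊕ Fin G) (Fin G ⊕ Fin G) ℚ) = 0 := by
          ext i j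
          simp [cK]
        exact ⟨0, by rw [h1, Matrix.mul_zero], by rw [h1, Matrix.zero_mul, Matrix.mul_zero]⟩ }
  have hT : ∀ C ∈ T, (fun v : (Σ x, Fin (d x)) → Fin G ⊕ Fin G → ℚ =>
      Matrix.det (Matrix.of fun k j => (C *ᵥ cv (v k)) j)) ∈ RCq (perOne Z) B c (Σ x, Fin (d x)) := by
    rintro _ ⟨A, rfl, hA⟩
    exact pullq hDisc hD hr _ _ (by
      rw [Fintype.card_sigma]
      simpa using hB) _ _ _ _ w c hcl G Z h A hA
  -- the matrices
  let R' : (Σ x, Fin (d x)) → Matrix (Σ x, Fin (d x)) (Fin G ⊕ Fin G) ℂ := fun k =>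
    cx (Matrix.blockDiagonal' Q) * emb ℂ G k.1 (cx (P k.1) * R k)
  have hR' : ∀ k, R' k ∈ Submodule.span ℂ
      (T : Set (Matrix (Σ x, Fin (d x)) (Fin G ⊕ Fin G) ℂ)) := by
    intro k
    have h1 : cx (P k.1) * R k ∈ Submodule.span ℂ
        (TT Z Z : Set (Matrix (Fin G ⊕ Fin G) (Fin G ⊕ Fin G) ℂ)) := by
      refine exp_mem fun σ => ?_
      have hX := DS_mem (Z := Z) σ
      have h2 := hR k _ hX
      have h3 := hc k.1 _ hX
      have h4 : cx (P k.1) * (cx (Q k.1) * DS Z σ * cx (P k.1)) =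
          DS Z σ * (cx (P k.1 * Q k.1) * cx (P k.1)) := by
        have h5 : cx (P k.1 * Q k.1) = cx (P k.1) * cx (Q k.1) :=
          Matrix.map_mul (f := algebraMap (IntermediateField.adjoin ℚ {r}) ℂ)
        rw [← Matrix.mul_assoc (DS Z σ), h3, h5]
        simp only [Matrix.mul_assoc]
      have h6 : cx (P k.1 * Q k.1) * cx (P k.1) = cx (P k.1) := by
        have h7 : cx (P k.1 * Q k.1) * cx (P k.1) = cx (P k.1 * Q k.1 * P k.1) :=
          (Matrix.map_mul (f := algebraMap (IntermediateField.adjoin ℚ {r}) ℂ)).symm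
        rw [h7, Matrix.mul_assoc, hQP, Matrix.mul_one]
      rw [Matrix.mul_assoc, h2, ← Matrix.mul_assoc, h4, h6, Matrix.mul_assoc]
    let L : Matrix (Fin G ⊕ Fin G) (Fin G ⊕ Fin G) ℂ →ₗ[ℂ]
        Matrix (Σ x, Fin (d x)) (Fin G ⊕ Fin G) ℂ :=
      { toFun := fun C => cx (Matrix.blockDiagonal' Q) * emb ℂ G k.1 C
        map_add' := fun C D => by rw [map_add, Matrix.mul_add]
        map_smul' := fun c C => by rw [map_smul, Matrix.mul_smul, RingHom.id_apply] }
    have h8 : ∀ C ∈ Submodule.span ℂ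
        (TT Z Z : Set (Matrix (Fin G ⊕ Fin G) (Fin G ⊕ Fin G) ℂ)), L C ∈ Submodule.span ℂ
          (T : Set (Matrix (Σ x, Fin (d x)) (Fin G ⊕ Fin G) ℂ)) := by
      intro C hC
      induction hC using Submodule.span_induction with
      | mem C hC =>
        obtain ⟨A, rfl, hA⟩ := hC
        refine Submodule.subset_span ⟨emb ℚ G k.1 A, ?_, ?_⟩
        · rw [emb_cK]
          rfl
        · rw [emb_cK, DJ_bd, emb_mul, mul_emb, hA]
      | zero =>
        rw [map_zero]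
        exact Submodule.zero_mem _
      | add C D _ _ hC hD =>
        rw [map_add]
        exact Submodule.add_mem _ hC hD
      | smul c C _ hC =>
        rw [map_smul]
        exact Submodule.smul_mem _ c hC
    exact h8 _ h1
  have hmem := M1_mem (RCq (perOne Z) B c (Σ x, Fin (d x))) T hT R' hR'
  have hrow : ∀ (k : Σ x, Fin (d x)) (u : Fin G ⊕ Fin G → ℂ) (x : S) (j : Fin (d x)),
      (R' k *ᵥ u) ⟨x, j⟩ = (cx (Q x) *ᵥ fun l =>
        if x = k.1 then ((cx (P k.1) * R k) *ᵥ u) l else 0) j := by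
    intro k u x j
    have h1 : cx (Matrix.blockDiagonal' Q) = Matrix.blockDiagonal' fun x => cx (Q x) :=
      Matrix.blockDiagonal'_map _ _ (map_zero _)
    have h2 : R' k *ᵥ u = cx (Matrix.blockDiagonal' Q) *ᵥ
        (emb ℂ G k.1 (cx (P k.1) * R k) *ᵥ u) := (mulVec_mulVec _ _ _).symm
    rw [h2, h1, bd_mulVec]
    congr 2
    funext l
    show ∑ i, emb ℂ G k.1 (cx (P k.1) * R k) ⟨x, l⟩ i * u i = _
    simp only [emb_apply]
    split_ifs with hx
    · rfl
    · simp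
  have hdet : ∀ u : (Σ x, Fin (d x)) → Fin G ⊕ Fin G → ℂ,
      Matrix.det (Matrix.of fun k j => (R' k *ᵥ u k) j) = ψ u := by
    intro u
    have h1 : (Matrix.of fun k j => (R' k *ᵥ u k) j) =
        Matrix.blockDiagonal' fun x => (Matrix.of fun y j : Fin (d x) =>
          (R ⟨x, y⟩ *ᵥ u ⟨x, y⟩) j) := by
      ext k q
      obtain ⟨x', y⟩ := k
      obtain ⟨x, j⟩ := q
      rw [Matrix.of_apply, hrow]
      by_cases hx : x' = x
      · subst hx
        rw [Matrix.blockDiagonal'_apply_eq]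
        simp only [if_true]
        rw [mulVec_mulVec, ← Matrix.mul_assoc]
        have h3 : cx (Q x') * cx (P x') = 1 := by
          have h4 : cx (Q x') * cx (P x') = cx (Q x' * P x') :=
            (Matrix.map_mul (f := algebraMap (IntermediateField.adjoin ℚ {r}) ℂ)).symm
          rw [h4, hQP]
          exact Matrix.map_one _ (map_zero _) (map_one _)
        rw [h3, Matrix.one_mul]
        rfl
      · rw [Matrix.blockDiagonal'_apply_ne _ _ _ hx]
        have h3 : (fun l => if x = x' then ((cx (P x') * R ⟨x', y⟩) *ᵥ u ⟨x', y⟩) l else 0) =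
            (0 : Fin G ⊕ Fin G → ℂ) := by
          funext l
          rw [if_neg (fun h => hx h.symm)]
          rfl
        show (cx (Q x) *ᵥ fun l => if x = x' then ((cx (P x') * R ⟨x', y⟩) *ᵥ u ⟨x', y⟩) l
          else 0) j = 0
        rw [h3, mulVec_zero]
        rfl
    rw [h1, det_bd, hψ]
  have hfin : altQ ψ = M1 R' := by
    funext v
    rw [M1_apply]
    unfold altQ
    refine Finset.sum_congr rfl fun σ _ => ?_
    rw [hdet fun k => cv (v (σ k))]
  rw [hfin]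
  exact hmem

end

end Pool.Agent.H926.A
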