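import Mathlib
import Pool.Agent.H926.A.Qfin
import Pool.Agent.H926.A.Qone
import Pool.Agent.H926.A.Qdet
import Pool.Agent.H926.A.Qdet1
import Pool.Agent.H926.A.Qiso
import Pool.Agent.H926.A.Qtr
import Pool.Agent.H926.A.Qvan
import Pool.Agent.H926.A.Qloc
import Pool.Agent.H926.A.Qgood
import Pool.Agent.H926.A.Qweil
import Pool.Agent.H926.T.Main3

/-!
# Assembly
-/

set_option linter.unusedSectionVars false

namespace Pool.Agent.H926.A

open Matrix Module Pool.Agent.Y90 Pool.Agent.W437.HC Pool.Agent.W437.HD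
  Pool.Agent.TH504.CB Pool.Agent.W522.U
open Pool.Agent.W548.Odd hiding cv
open Pool.Agent.H204R3.CM (IsHodge)
open Pool.Agent.H926
open Pool.Agent.H926.T

noncomputable section

theorem lem_of (h2 : S_QTWO) (h6 : S_Q6) (hP : S_DPOS) (hD : S_DISC) : Lem := by
  have hOne := s_qone (s_qweil hP hD) s_qtr s_qvan h2 h6
  have hTh := s_th s_dual
  exact { det := s_qdet hOne s_qtr s_qiso
          det1 := s_qdet1 hOne
          loc := s_qloc
          formq := s_formq Pool.Agent.Y4.Q.jforms2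
          rk1 := s_rk1 hTh
          twi := s_twi hTh
          ort := s_ort s_dual
          o3 := s_o3
          lb := s_lb }

variable {H T : Type} [AddCommGroup H] [Module ℚ H] [AddCommGroup T] [Module ℂ T] {per : H →+ T}

/-- Dimension at most seven. -/
theorem seven_of (L : Lem) (c : Prop) (hX : St.IsAV per) (h7 : finrank ℂ T ≤ 7)
    (hq : ∀ U : Submodule ℚ H, St.IsSimpleSub per U → IsRQSub per U) {κ : Type} [Finite κ]
    (f : H [⋀^κ]→ₗ[ℚ] ℚ) (hf : IsHodge per f) : QR per 7 c κ f :=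
  hodge_seven L s_qgood (s_gbr s_facp) s_t3l s_brd hX h7 h7 hq f hf

/-- Powers in dimension at most seven. -/
theorem pow_of (L : Lem) (c : Prop) (hX : St.IsAV per) (h7 : finrank ℂ T ≤ 7)
    (hq : ∀ U : Submodule ℚ H, St.IsSimpleSub per U → IsRQSub per U) (n : ℕ)
    (hn : n ≤ 1 ∨ ∀ (H' T' : Type) [AddCommGroup H'] [Module ℚ H'] [AddCommGroup T'] [Module ℂ T']
      (per' : H' →+ T') (q : H →ₗ[ℚ] H'), St.IsHom per per' q → Function.Surjective q →
        ¬IsMumfordType per') {κ : Type} [Finite κ]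
    (f : (Fin n → H) [⋀^κ]→ₗ[ℚ] ℚ) (hf : IsHodge (powPer per n) f) :
    QR (powPer per n) (n * finrank ℂ T) c κ f :=
  hodge_pow L s_qgood (s_gbr s_facp) s_t3l s_brd s_mq hX h7 hq n hn f hf

/-- Powers, from the commutators. -/
theorem crit_of (L : Lem) (c : Prop) (hX : St.IsAV per)
    (hq : ∀ U : Submodule ℚ H, St.IsSimpleSub per U → IsRQSub per U)
    (hbr : ∀ x y : H →ₗ[ℚ] H, InLef per x → InLef per y → InHdg per (x ∘ₗ y - y ∘ₗ x)) (n : ℕ)
    {κ : Type} [Finite κ] (f : (Fin n → H) [⋀^κ]→ₗ[ℚ] ℚ) (hf : IsHodge (powPer per n) f) :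
    QR (powPer per n) (n * finrank ℂ T) c κ f :=
  hodge_crit L s_qgood hX hq hbr n f hf

/-- The images of homomorphisms are abelian subvarieties. -/
theorem isSub_range {H' T' : Type} [AddCommGroup H'] [Module ℚ H'] [AddCommGroup T'] [Module ℂ T']
    {per' : H' →+ T'} (hX : St.IsAV per) {h : H →ₗ[ℚ] H'} (hh : St.IsHom per per' h) :
    St.IsSub per' (LinearMap.range h) := by
  obtain ⟨Ψ, hΨ⟩ := hh
  have h1 : Submodule.span ℝ (per' '' (LinearMap.range h : Submodule ℚ H')) =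
      (Submodule.span ℝ (Set.range per)).map (Ψ.restrictScalars ℝ) := by
    rw [Submodule.map_span]
    congr 1
    ext x
    constructor
    · rintro ⟨_, ⟨v, rfl⟩, rfl⟩
      exact ⟨per v, ⟨v, rfl⟩, hΨ v⟩
    · rintro ⟨_, ⟨v, rfl⟩, rfl⟩
      exact ⟨h v, ⟨v, rfl⟩, (hΨ v).symm⟩
  intro x hx
  rw [h1, hX.2.2.1] at hx ⊢
  obtain ⟨t, -, rfl⟩ := hx
  exact ⟨Complex.I • t, trivial, map_smul Ψ _ _⟩

/-- Homomorphisms to a simple abelian variety are zero or surjective. -/
theorem zero_or_surj {H' T' : Type} [AddCommGroup H'] [Module ℚ H'] [AddCommGroup T'] [Module ℂ T']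
    {per' : H' →+ T'} (hX : St.IsAV per) {h : H →ₗ[ℚ] H'} (hh : St.IsHom per per' h)
    (hs : St.IsSimpleSub per' ⊤) : h = 0 ∨ Function.Surjective h := by
  rcases hs.2.2 _ le_top (isSub_range hX hh) with h1 | h1
  · exact Or.inl (LinearMap.range_eq_bot.1 h1)
  · exact Or.inr (LinearMap.range_eq_top.1 h1)

end

end Pool.Agent.H926.A
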