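import Mathlib
import Pool.Agent.H926.A.Jobs
import Pool.Graph.R_pool_sql_team_seeded_1acbe0a2.Y220.P.JPull
import Pool.Graph.R_pool_sql_team_seeded_1acbe0a2.Y291.P.JKill
import Pool.Graph.R_pool_sql_team_seeded_1acbe0a2.Y141.P.JStr

/-!
# The discriminant of the Weil type structure (by helper720)
-/

set_option linter.unusedSectionVars false

namespace Pool.Agent.H926.A

open Matrix Module Pool.Agent.Y90
open Pool.Agent.W437.HP (cK cK_mul cK_one)
open Pool.Agent.Y4.P (cx co reg kap blow WD JB MB)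
open Pool.Agent.Y141.P (reg_mul reg_one blow_mul blow_one blow_neg cK_blow cK_neg reg_comm)
open Pool.Agent.Y291.P (kap_reg)

noncomputable section

namespace H720D

/-! ## Weighted Kronecker products -/

section bw

variable {R : Type} [CommRing R] {m : ℕ} {I J L : Type}

/-- The Kronecker product with a diagonal matrix. -/
def bw (c : Fin m → R) (A : Matrix I J R) : Matrix (I × Fin m) (J × Fin m) R :=
  Matrix.of fun p q => if p.2 = q.2 then c p.2 * A p.1 q.1 else 0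

theorem bw_apply (c : Fin m → R) (A : Matrix I J R) (p : I × Fin m) (q : J × Fin m) :
    bw c A p q = if p.2 = q.2 then c p.2 * A p.1 q.1 else 0 := rfl

theorem blow_apply (A : Matrix I J R) (p : I × Fin m) (q : J × Fin m) :
    blow m A p q = if p.2 = q.2 then A p.1 q.1 else 0 := rfl

theorem blow_mul_bw [Fintype J] (c : Fin m → R) (A : Matrix I J R) (B : Matrix J L R) :
    blow m A * bw c B = bw c (A * B) := by
  ext p q
  rw [Matrix.mul_apply, Fintype.sum_prod_type, bw_apply]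
  simp only [blow_apply, bw_apply, ite_mul, zero_mul, Finset.sum_ite_eq, Finset.mem_univ, if_true]
  by_cases h : p.2 = q.2
  · simp only [if_pos h]
    rw [Matrix.mul_apply, Finset.mul_sum]
    exact Finset.sum_congr rfl fun j _ => by ring
  · simp only [if_neg h, mul_zero, Finset.sum_const_zero]

theorem bw_mul_blow [Fintype J] (c : Fin m → R) (A : Matrix I J R) (B : Matrix J L R) :
    bw c A * blow m B = bw c (A * B) := by
  ext p q
  rw [Matrix.mul_apply, Fintype.sum_prod_type, bw_apply]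
  simp only [blow_apply, bw_apply, ite_mul, zero_mul, Finset.sum_ite_eq, Finset.mem_univ, if_true]
  by_cases h : p.2 = q.2
  · simp only [if_pos h]
    rw [Matrix.mul_apply, Finset.mul_sum]
    exact Finset.sum_congr rfl fun j _ => by ring
  · simp only [if_neg h, mul_zero, Finset.sum_const_zero]

theorem bw_neg (c : Fin m → R) (A : Matrix I J R) : bw c (-A) = -bw c A := by
  ext p q
  rw [Matrix.neg_apply, bw_apply, bw_apply, Matrix.neg_apply]
  split_ifs <;> simp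

theorem bw_add (c : Fin m → R) (A B : Matrix I J R) : bw c (A + B) = bw c A + bw c B := by
  ext p q
  rw [Matrix.add_apply, bw_apply, bw_apply, bw_apply, Matrix.add_apply]
  split_ifs
  · ring
  · simp

theorem bw_zero (c : Fin m → R) : bw c (0 : Matrix I J R) = 0 := by
  ext p q
  rw [bw_apply, Matrix.zero_apply, Matrix.zero_apply]
  split_ifs <;> simp

theorem bw_transpose (c : Fin m → R) (A : Matrix I J R) : (bw c A)ᵀ = bw c Aᵀ := by
  ext p q
  rw [Matrix.transpose_apply, bw_apply, bw_apply, Matrix.transpose_apply]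
  by_cases h : p.2 = q.2
  · rw [if_pos h.symm, if_pos h, h]
  · rw [if_neg (Ne.symm h), if_neg h]

end bw

theorem cK_bw {m : ℕ} {I J : Type} (c : Fin m → ℚ) (A : Matrix I J ℚ) :
    cK ℝ (bw c A) = bw (fun i => ((c i : ℚ) : ℝ)) (cK ℝ A) := by
  ext p q
  show (((if p.2 = q.2 then c p.2 * A p.1 q.1 else 0 : ℚ)) : ℝ) =
    if p.2 = q.2 then ((c p.2 : ℚ) : ℝ) * ((A p.1 q.1 : ℚ) : ℝ) else 0
  split_ifs
  · push_cast
    rfl
  · simp

/-- The polarization with weights. -/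
def MW {V N : Type} [Fintype V] {K : IntermediateField ℚ ℂ} {m : ℕ} (β : Basis (Fin m) ℚ K)
    (c : Fin m → ℚ) (M : Matrix V V ℚ) (P : Matrix V N K) : Matrix (N × Fin m) (N × Fin m) ℚ :=
  (reg β P)ᵀ * bw c M * reg β P

/-- The weighted form is a polarization. -/
theorem wpol (V N : Type) [Fintype V] [DecidableEq V] [Fintype N] [DecidableEq N]
    (K : IntermediateField ℚ ℂ) (J : Matrix V V ℝ) (M : Matrix V V ℚ) (P : Matrix V N K)
    (Q : Matrix N V K) (w : WD J M P Q) (m : ℕ) (β : Basis (Fin m) ℚ K) (c : Fin m → ℚ)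
    (hc : ∀ i, 0 < c i) :
    (MW β c M P)ᵀ = -MW β c M P ∧
    (JB β J P Q)ᵀ * cK ℝ (MW β c M P) + cK ℝ (MW β c M P) * JB β J P Q = 0 ∧
    (∀ x, x ≠ 0 → 0 < (JB β J P Q *ᵥ x) ⬝ᵥ (cK ℝ (MW β c M P) *ᵥ x)) := by
  obtain ⟨-, h2, -, -, -, -, -⟩ := Pool.Agent.Y141.P.jstr V N K J M P Q w m β
  have hreg : ∀ {A B C : Type} [Fintype B] (X : Matrix A B K) (Y : Matrix B C K),
      cK ℝ (reg β X) * cK ℝ (reg β Y) = cK ℝ (reg β (X * Y)) := by
    intro A B C _ X Y
    rw [reg_mul, cK_mul]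
  have hqp : cK ℝ (reg β Q) * cK ℝ (reg β P) = 1 := by
    rw [hreg, w.qp, reg_one, cK_one]
  let c' : Fin m → ℝ := fun i => ((c i : ℚ) : ℝ)
  have hMB : cK ℝ (MW β c M P) = (cK ℝ (reg β P))ᵀ * bw c' (cK ℝ M) * cK ℝ (reg β P) := by
    unfold MW
    rw [cK_mul, cK_mul, cK_bw]
    rfl
  refine ⟨?_, ?_, ?_⟩
  · unfold MW
    rw [Matrix.transpose_mul, Matrix.transpose_mul, Matrix.transpose_transpose, bw_transpose,
      w.skew, bw_neg, Matrix.neg_mul, Matrix.mul_neg, Matrix.mul_assoc]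
  · have e1 : (JB β J P Q)ᵀ * (cK ℝ (reg β P))ᵀ = (cK ℝ (reg β P))ᵀ * blow m Jᵀ := by
      rw [← Matrix.transpose_mul, h2, Matrix.transpose_mul, Pool.Agent.Y141.P.blow_transpose]
    have e2 : (JB β J P Q)ᵀ * cK ℝ (MW β c M P) =
        (cK ℝ (reg β P))ᵀ * (bw c' (Jᵀ * cK ℝ M)) * cK ℝ (reg β P) := by
      rw [hMB, ← Matrix.mul_assoc, ← Matrix.mul_assoc, e1, Matrix.mul_assoc (cK ℝ (reg β P))ᵀ,
        blow_mul_bw]
    have e3 : cK ℝ (MW β c M P) * JB β J P Q =
        (cK ℝ (reg β P))ᵀ * (bw c' (cK ℝ M * J)) * cK ℝ (reg β P) := by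
      rw [hMB, Matrix.mul_assoc, h2, ← Matrix.mul_assoc, Matrix.mul_assoc (cK ℝ (reg β P))ᵀ,
        bw_mul_blow]
    rw [e2, e3, ← Matrix.add_mul, ← Matrix.mul_add, ← bw_add, w.inv, bw_zero,
      Matrix.mul_zero, Matrix.zero_mul]
  · intro x hx
    set y := cK ℝ (reg β P) *ᵥ x with hy
    have hy0 : y ≠ 0 := by
      intro h
      apply hx
      have h5 : cK ℝ (reg β Q) *ᵥ y = x := by
        rw [hy, Matrix.mulVec_mulVec, hqp, Matrix.one_mulVec]
      rw [← h5, h, Matrix.mulVec_zero]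
    have e1 : (JB β J P Q *ᵥ x) ⬝ᵥ (cK ℝ (MW β c M P) *ᵥ x) =
        (blow m J *ᵥ y) ⬝ᵥ (bw c' (cK ℝ M) *ᵥ y) := by
      rw [hMB, ← Matrix.mulVec_mulVec, ← hy, ← Matrix.mulVec_mulVec, Matrix.dotProduct_mulVec,
        Matrix.vecMul_transpose, Matrix.mulVec_mulVec, h2, ← Matrix.mulVec_mulVec]
    rw [e1]
    have e2 : ∀ (A : Matrix V V ℝ) (p : V × Fin m),
        (blow m A *ᵥ y) p = (A *ᵥ fun v => y (v, p.2)) p.1 := by
      intro A p
      have h6 : (blow m A *ᵥ y) p = ∑ x : V × Fin m, (if p.2 = x.2 then A p.1 x.1 else 0) * y x :=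
        rfl
      rw [h6, Fintype.sum_prod_type]
      simp only [ite_mul, zero_mul, Finset.sum_ite_eq, Finset.mem_univ, if_true]
      rfl
    have e2' : ∀ (A : Matrix V V ℝ) (p : V × Fin m),
        (bw c' A *ᵥ y) p = c' p.2 * (A *ᵥ fun v => y (v, p.2)) p.1 := by
      intro A p
      have h6 : (bw c' A *ᵥ y) p =
        ∑ x : V × Fin m, (if p.2 = x.2 then c' p.2 * A p.1 x.1 else 0) * y x := rfl
      rw [h6, Fintype.sum_prod_type]
      simp only [ite_mul, zero_mul, Finset.sum_ite_eq, Finset.mem_univ, if_true]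
      have h8 : (A *ᵥ fun v => y (v, p.2)) p.1 = ∑ v, A p.1 v * y (v, p.2) := rfl
      rw [h8, Finset.mul_sum]
      exact Finset.sum_congr rfl fun v _ => by ring
    have e3 : (blow m J *ᵥ y) ⬝ᵥ (bw c' (cK ℝ M) *ᵥ y) =
        ∑ l : Fin m, c' l * ((J *ᵥ fun v => y (v, l)) ⬝ᵥ (cK ℝ M *ᵥ fun v => y (v, l))) := by
      have h7 : (blow m J *ᵥ y) ⬝ᵥ (bw c' (cK ℝ M) *ᵥ y) =
        ∑ p : V × Fin m, (blow m J *ᵥ y) p * (bw c' (cK ℝ M) *ᵥ y) p := rfl
      rw [h7, Fintype.sum_prod_type, Finset.sum_comm]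
      refine Finset.sum_congr rfl fun l _ => ?_
      have h9 : (J *ᵥ fun v => y (v, l)) ⬝ᵥ (cK ℝ M *ᵥ fun v => y (v, l)) =
        ∑ v, (J *ᵥ fun v => y (v, l)) v * (cK ℝ M *ᵥ fun v => y (v, l)) v := rfl
      rw [h9, Finset.mul_sum]
      refine Finset.sum_congr rfl fun v _ => ?_
      rw [e2, e2']
      ring
    rw [e3]
    have hc' : ∀ l, 0 < c' l := fun l => by
      show (0 : ℝ) < ((c l : ℚ) : ℝ)
      exact_mod_cast hc l
    have e4 : ∀ l : Fin m,
        0 ≤ c' l * ((J *ᵥ fun v => y (v, l)) ⬝ᵥ (cK ℝ M *ᵥ fun v => y (v, l))) := by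
      intro l
      by_cases h : (fun v => y (v, l)) = 0
      · rw [h, Matrix.mulVec_zero, zero_dotProduct, mul_zero]
      · exact (mul_pos (hc' l) (w.pos _ h)).le
    obtain ⟨l, hl⟩ : ∃ l : Fin m, (fun v => y (v, l)) ≠ 0 := by
      by_contra hcon
      push Not at hcon
      apply hy0
      funext p
      exact congrFun (hcon p.2) p.1
    exact Finset.sum_pos' (fun l _ => e4 l) ⟨l, Finset.mem_univ _, mul_pos (hc' l) (w.pos _ hl)⟩

/-! ## The Hermitian form -/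

theorem conj_r {r : ℂ} {D : ℚ} (hD : 0 < D) (hr : r * r = -(D : ℂ)) : starRingEnd ℂ r = -r := by
  have hre : r.re * r.im = 0 := by
    have h1 := congrArg Complex.im hr
    rw [Complex.mul_im] at h1
    simp at h1
    linarith
  have h2 : r.re * r.re - r.im * r.im = -(D : ℝ) := by
    have h1 := congrArg Complex.re hr
    rw [Complex.mul_re] at h1
    simpa using h1
  have hDr : (0 : ℝ) < (D : ℝ) := by exact_mod_cast hD
  have h3 : r.re = 0 := by
    rcases mul_eq_zero.1 hre with h | h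
    · exact h
    · rw [h] at h2
      nlinarith [mul_self_nonneg r.re]
  apply Complex.ext
  · rw [Complex.conj_re, Complex.neg_re, h3, neg_zero]
  · rw [Complex.conj_im, Complex.neg_im]

theorem rat_coord {r : ℂ} {D : ℚ} (hD : 0 < D) (hr : r * r = -(D : ℂ)) {a b c d : ℚ}
    (h : (a : ℂ) + r * b = c + r * d) : a = c ∧ b = d := by
  have h1 : ((a - c : ℚ) : ℂ) = r * ((d - b : ℚ) : ℂ) := by
    push_cast
    linear_combination h
  have h2 : (((a - c) * (a - c) : ℚ) : ℂ) = ((-D * ((d - b) * (d - b)) : ℚ) : ℂ) := by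
    have h3 : ((a - c : ℚ) : ℂ) * ((a - c : ℚ) : ℂ) =
        -(D : ℂ) * (((d - b : ℚ) : ℂ) * ((d - b : ℚ) : ℂ)) := by
      rw [h1, ← hr]
      ring
    push_cast at h3 ⊢
    exact h3
  have h4 : (a - c) * (a - c) = -D * ((d - b) * (d - b)) := by exact_mod_cast h2
  have h5 : 0 ≤ (a - c) * (a - c) := mul_self_nonneg _
  have h6 : 0 ≤ (d - b) * (d - b) := mul_self_nonneg _
  have h7 : 0 ≤ D * ((d - b) * (d - b)) := mul_nonneg hD.le h6
  have h8 : (a - c) * (a - c) = 0 := by linarith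
  have h9 : D * ((d - b) * (d - b)) = 0 := by linarith
  have h10 : (d - b) * (d - b) = 0 := (mul_eq_zero.1 h9).resolve_left hD.ne'
  exact ⟨sub_eq_zero.1 (mul_self_eq_zero.1 h8), (sub_eq_zero.1 (mul_self_eq_zero.1 h10)).symm⟩

/-- The weights `1, D`. -/
def wt (D : ℚ) : Fin 2 → ℚ := fun k => if k = 0 then 1 else D

theorem wt_pos {D : ℚ} (hD : 0 < D) (k : Fin 2) : 0 < wt D k := by
  unfold wt
  split_ifs
  · exact one_pos
  · exact hD

/-- The imaginary part of the form on the two copies. -/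
def IX {V : Type} (M : Matrix V V ℚ) : Matrix (V × Fin 2) (V × Fin 2) ℚ :=
  Matrix.of fun p q => if p.2 = q.2 then 0 else if p.2 = 0 then -M p.1 q.1 else M p.1 q.1

section form

variable {r : ℂ} {D : ℚ} {K : IntermediateField ℚ ℂ} (β : Basis (Fin 2) ℚ K)

theorem mul_kap {I V : Type} [Fintype V] [DecidableEq V] (A : Matrix I V ℂ) (i : I)
    (q : V × Fin 2) : (A * kap β V) i q = A i q.1 * ((β q.2 : K) : ℂ) := by
  rw [Matrix.mul_apply, Finset.sum_eq_single q.1]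
  · simp only [kap, Matrix.of_apply, if_true]
  · intro b _ hb
    simp only [kap, Matrix.of_apply]
    rw [if_neg hb, mul_zero]
  · intro h
    exact absurd (Finset.mem_univ _) h

theorem kapT_mul {I V : Type} [Fintype V] [DecidableEq V] (A : Matrix V I ℂ) (q : V × Fin 2)
    (i : I) : ((kap β V)ᵀ * A) q i = ((β q.2 : K) : ℂ) * A q.1 i := by
  rw [Matrix.mul_apply, Finset.sum_eq_single q.1]
  · simp only [kap, Matrix.transpose_apply, Matrix.of_apply, if_true]
  · intro b _ hb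
    simp only [kap, Matrix.transpose_apply, Matrix.of_apply]
    rw [if_neg hb, zero_mul]
  · intro h
    exact absurd (Finset.mem_univ _) h

theorem mul_kapC {I V : Type} [Fintype V] [DecidableEq V] (A : Matrix I V ℂ) (i : I)
    (q : V × Fin 2) : (A * (kap β V).map (starRingEnd ℂ)) i q =
      A i q.1 * starRingEnd ℂ ((β q.2 : K) : ℂ) := by
  rw [Matrix.mul_apply, Finset.sum_eq_single q.1]
  · simp only [kap, Matrix.map_apply, Matrix.of_apply, if_true]
  · intro b _ hb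
    simp only [kap, Matrix.map_apply, Matrix.of_apply]
    rw [if_neg hb, map_zero, mul_zero]
  · intro h
    exact absurd (Finset.mem_univ _) h

/-- The form on the two copies of `V`. -/
theorem form_V (hD : 0 < D) (hr : r * r = -(D : ℂ)) (h0 : ((β 0 : K) : ℂ) = 1)
    (h1 : ((β 1 : K) : ℂ) = r) {V : Type} [Fintype V] [DecidableEq V] (M : Matrix V V ℚ) :
    (kap β V)ᵀ * cK ℂ M * (kap β V).map (starRingEnd ℂ) =
      cK ℂ (bw (wt D) M) + r • cK ℂ (IX M) := by
  have hc := conj_r hD hr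
  ext ⟨p, k⟩ ⟨q, l⟩
  rw [mul_kapC, kapT_mul]
  show ((β k : K) : ℂ) * ((M p q : ℚ) : ℂ) * starRingEnd ℂ ((β l : K) : ℂ) =
    (((if k = l then wt D k * M p q else 0 : ℚ)) : ℂ) +
      r * (((if k = l then 0 else if k = 0 then -M p q else M p q : ℚ)) : ℂ)
  have hk : k = 0 ∨ k = 1 := by omega
  have hl : l = 0 ∨ l = 1 := by omega
  have h10 : (1 : Fin 2) ≠ 0 := by decide
  rcases hk with rfl | rfl <;> rcases hl with rfl | rfl
  · rw [h0, if_pos rfl, if_pos rfl]
    simp [wt]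
  · rw [h0, h1, if_neg (Ne.symm h10), if_neg (Ne.symm h10), if_pos rfl, hc]
    push_cast
    ring
  · rw [h0, h1, if_neg h10, if_neg h10, if_neg h10]
    push_cast
    simp
  · rw [h1, if_pos rfl, if_pos rfl, hc]
    unfold wt
    rw [if_neg h10]
    push_cast
    linear_combination (-((M p q : ℚ) : ℂ)) * hr

/-- The rational and the imaginary part of the Hermitian form. -/
theorem form_N (hD : 0 < D) (hr : r * r = -(D : ℂ)) (h0 : ((β 0 : K) : ℂ) = 1)
    (h1 : ((β 1 : K) : ℂ) = r) {V N : Type} [Fintype V] [DecidableEq V] [Fintype N]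
    [DecidableEq N] (M : Matrix V V ℚ) (P : Matrix V N K) :
    (kap β N)ᵀ * Sg M P * (kap β N).map (starRingEnd ℂ) =
      cK ℂ (MW β (wt D) M P) + r • cK ℂ ((reg β P)ᵀ * IX M * reg β P) := by
  have hk : kap β V * cK ℂ (reg β P) = cx P * kap β N := kap_reg β P
  have hk2 : (kap β V).map (starRingEnd ℂ) * cK ℂ (reg β P) =
      (cx P).map (starRingEnd ℂ) * (kap β N).map (starRingEnd ℂ) := by
    have h2 : (cK ℂ (reg β P)).map (starRingEnd ℂ) = cK ℂ (reg β P) := by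
      ext i j
      show starRingEnd ℂ ((reg β P i j : ℚ) : ℂ) = ((reg β P i j : ℚ) : ℂ)
      exact map_ratCast (starRingEnd ℂ) _
    have h3 := congrArg (fun X : Matrix V (N × Fin 2) ℂ => X.map (starRingEnd ℂ)) hk
    simp only [Matrix.map_mul] at h3
    rw [h2] at h3
    exact h3
  have hT : (cK ℂ (reg β P))ᵀ * (kap β V)ᵀ = (kap β N)ᵀ * (cx P)ᵀ := by
    rw [← Matrix.transpose_mul, hk, Matrix.transpose_mul]
  have e1 : (kap β N)ᵀ * Sg M P * (kap β N).map (starRingEnd ℂ) =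
      (cK ℂ (reg β P))ᵀ * ((kap β V)ᵀ * cK ℂ M * (kap β V).map (starRingEnd ℂ)) *
        cK ℂ (reg β P) := by
    unfold Sg
    calc (kap β N)ᵀ * ((cx P)ᵀ * cK ℂ M * (cx P).map (starRingEnd ℂ)) *
          (kap β N).map (starRingEnd ℂ)
        = ((kap β N)ᵀ * (cx P)ᵀ) * cK ℂ M * ((cx P).map (starRingEnd ℂ) *
          (kap β N).map (starRingEnd ℂ)) := by simp only [Matrix.mul_assoc]
      _ = ((cK ℂ (reg β P))ᵀ * (kap β V)ᵀ) * cK ℂ M * ((kap β V).map (starRingEnd ℂ) *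
          cK ℂ (reg β P)) := by rw [hT, hk2]
      _ = _ := by simp only [Matrix.mul_assoc]
  rw [e1, form_V β hD hr h0 h1]
  unfold MW
  rw [cK_mul, cK_mul, cK_mul, cK_mul, Matrix.mul_add, Matrix.add_mul, Matrix.mul_smul,
    Matrix.smul_mul]
  rfl

end form

/-- The discriminant, over a field `K` with the basis `1, r`. -/
theorem disc_aux {r : ℂ} {D : ℚ} (hD : 0 < D) (hr : r * r = -(D : ℂ)) (V N : Type) [Fintype V]
    [DecidableEq V] [Fintype N] [DecidableEq N] (hN : Fintype.card N = 6)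
    (K : IntermediateField ℚ ℂ) (J : Matrix V V ℝ)
    (M : Matrix V V ℚ) (P : Matrix V N K) (Q : Matrix N V K) (w : WD J M P Q)
    (β : Basis (Fin 2) ℚ K) (h0 : ((β 0 : K) : ℂ) = 1)
    (h1 : ((β 1 : K) : ℂ) = r) (δ a : ℚ) (hδ : Matrix.det (Sg M P) = δ) (ha : a ≠ 0)
    (hda : D ^ 3 * δ = a ^ 2) (T : Type) [AddCommGroup T] [Module ℂ T]
    (per : (N × Fin 2 → ℚ) →+ T) (ch : Cht per (JB β J P Q)) (r' : K) (hr' : (r' : ℂ) = r) :
    St.HasTrivialDisc per D (Pool.Agent.Y220.P.actK β N r') := by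
  obtain ⟨p1, p2, p3⟩ := wpol V N _ J M P Q w 2 β (wt D) (wt_pos hD)
  have hF := form_N β hD hr h0 h1 M P
  obtain ⟨M', hM'⟩ : ∃ X, X = MW β (wt D) M P := ⟨_, rfl⟩
  obtain ⟨I', hI'⟩ : ∃ X, X = (reg β P)ᵀ * IX M * reg β P := ⟨_, rfl⟩
  obtain ⟨R, hR⟩ : ∃ X, X = reg β (r' • (1 : Matrix N N K)) := ⟨_, rfl⟩
  have hact : ∀ v : N × Fin 2 → ℚ, Pool.Agent.Y220.P.actK β N r' v = R *ᵥ v := by
    intro v
    rw [hR]
    rfl
  rw [← hM'] at p1 p2 p3 hF
  rw [← hI'] at hF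
  have hpol := ch.polar M' p1 p2 p3
  have hcr := conj_r hD hr
  -- the multiplication by `r`
  have hcx : cx (r' • (1 : Matrix N N K)) = r • (1 : Matrix N N ℂ) := by
    ext i j
    show algebraMap K ℂ (r' * (1 : Matrix N N K) i j) = r * (1 : Matrix N N ℂ) i j
    have h2 : algebraMap K ℂ r' = r := hr'
    rw [map_mul, Matrix.one_apply, Matrix.one_apply, h2]
    split_ifs <;> simp
  have hkR : kap β N * cK ℂ R = r • kap β N := by
    rw [hR, kap_reg, hcx, Matrix.smul_mul, Matrix.one_mul]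
  have hRT : (cK ℂ R)ᵀ * (kap β N)ᵀ = r • (kap β N)ᵀ := by
    rw [← Matrix.transpose_mul, hkR, Matrix.transpose_smul]
  have hkRc : (kap β N).map (starRingEnd ℂ) * cK ℂ R = (-r) • (kap β N).map (starRingEnd ℂ) := by
    have h2 : (cK ℂ R).map (starRingEnd ℂ) = cK ℂ R := by
      ext i j
      show starRingEnd ℂ ((R i j : ℚ) : ℂ) = ((R i j : ℚ) : ℂ)
      exact map_ratCast (starRingEnd ℂ) _
    have h3 := congrArg (fun X : Matrix N (N × Fin 2) ℂ => X.map (starRingEnd ℂ)) hkR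
    simp only [Matrix.map_mul] at h3
    rw [h2] at h3
    rw [h3]
    ext i j
    show starRingEnd ℂ (r * kap β N i j) = -r * starRingEnd ℂ (kap β N i j)
    rw [map_mul, hcr]
  -- the two relations
  have g1 : (cK ℂ R)ᵀ * (cK ℂ M' + r • cK ℂ I') = r • (cK ℂ M' + r • cK ℂ I') := by
    rw [← hF, Matrix.mul_assoc, ← Matrix.mul_assoc, hRT, Matrix.smul_mul]
  have g2 : (cK ℂ M' + r • cK ℂ I') * cK ℂ R = (-r) • (cK ℂ M' + r • cK ℂ I') := by
    rw [← hF, Matrix.mul_assoc, hkRc, Matrix.mul_smul]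
  have k1 : ∀ i j, (Rᵀ * M') i j = -D * I' i j ∧ (Rᵀ * I') i j = M' i j := by
    intro i j
    have h2 := congrFun (congrFun g1 i) j
    have h3 : ((cK ℂ R)ᵀ * (cK ℂ M' + r • cK ℂ I')) i j =
        (((Rᵀ * M') i j : ℚ) : ℂ) + r * (((Rᵀ * I') i j : ℚ) : ℂ) := by
      have h4 : (cK ℂ R)ᵀ * (cK ℂ M' + r • cK ℂ I') =
          cK ℂ (Rᵀ * M') + r • cK ℂ (Rᵀ * I') := by
        rw [cK_mul, cK_mul, Matrix.mul_add, Matrix.mul_smul]
        rfl
      rw [h4]
      rfl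
    rw [h3] at h2
    have h5 : (r • (cK ℂ M' + r • cK ℂ I')) i j =
        ((-D * I' i j : ℚ) : ℂ) + r * ((M' i j : ℚ) : ℂ) := by
      show r * (((M' i j : ℚ) : ℂ) + r * ((I' i j : ℚ) : ℂ)) = _
      push_cast
      linear_combination ((I' i j : ℚ) : ℂ) * hr
    rw [h5] at h2
    exact rat_coord hD hr h2
  have k2 : ∀ i j, (M' * R) i j = D * I' i j ∧ (I' * R) i j = -M' i j := by
    intro i j
    have h2 := congrFun (congrFun g2 i) j
    have h3 : ((cK ℂ M' + r • cK ℂ I') * cK ℂ R) i j =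
        (((M' * R) i j : ℚ) : ℂ) + r * (((I' * R) i j : ℚ) : ℂ) := by
      have h4 : (cK ℂ M' + r • cK ℂ I') * cK ℂ R =
          cK ℂ (M' * R) + r • cK ℂ (I' * R) := by
        rw [cK_mul, cK_mul, Matrix.add_mul, Matrix.smul_mul]
      rw [h4]
      rfl
    rw [h3] at h2
    have h5 : ((-r) • (cK ℂ M' + r • cK ℂ I')) i j =
        ((D * I' i j : ℚ) : ℂ) + r * ((-M' i j : ℚ) : ℂ) := by
      show -r * (((M' i j : ℚ) : ℂ) + r * ((I' i j : ℚ) : ℂ)) = _
      push_cast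
      linear_combination (-((I' i j : ℚ) : ℂ)) * hr
    rw [h5] at h2
    exact rat_coord hD hr h2
  have m1 : Rᵀ * M' = -(M' * R) := by
    ext i j
    rw [Matrix.neg_apply, (k1 i j).1, (k2 i j).1, neg_mul]
  let e : Fin 6 ≃ N := (finCongr hN.symm).trans (Fintype.equivFin N).symm
  refine ⟨r, fun v w => v ⬝ᵥ (M' *ᵥ w), fun i => Pi.single (e i, 0) 1, a, 0, hr, hpol, ?_,
    Or.inl ha, ?_⟩
  · intro v u
    show (Pool.Agent.Y220.P.actK β N r' v) ⬝ᵥ (M' *ᵥ u) =
      -(v ⬝ᵥ (M' *ᵥ (Pool.Agent.Y220.P.actK β N r' u)))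
    rw [hact, hact, Matrix.mulVec_mulVec]
    have h2 : (R *ᵥ v) ⬝ᵥ (M' *ᵥ u) = v ⬝ᵥ ((Rᵀ * M') *ᵥ u) := by
      rw [← Matrix.mulVec_mulVec, Matrix.dotProduct_mulVec v, Matrix.vecMul_transpose]
    rw [h2, m1, Matrix.neg_mulVec, dotProduct_neg]
  · have hsing : ∀ (X : Matrix (N × Fin 2) (N × Fin 2) ℚ) (p q : N × Fin 2),
        (Pi.single p 1 : N × Fin 2 → ℚ) ⬝ᵥ (X *ᵥ (Pi.single q 1 : N × Fin 2 → ℚ)) = X p q := by
      intro X p q
      rw [single_dotProduct, one_mul, Matrix.mulVec_single_one]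
      rfl
    have hmat : (Matrix.of fun i j : Fin 6 =>
        (((Pi.single (e i, 0) 1 : N × Fin 2 → ℚ) ⬝ᵥ (M' *ᵥ
          (Pool.Agent.Y220.P.actK β N r' (Pi.single (e j, 0) 1 : N × Fin 2 → ℚ))) : ℚ) : ℂ) +
        r * (((Pi.single (e i, 0) 1 : N × Fin 2 → ℚ) ⬝ᵥ (M' *ᵥ
          (Pi.single (e j, 0) 1 : N × Fin 2 → ℚ)) : ℚ) : ℂ)) =
        r • ((Sg M P).map (starRingEnd ℂ)).submatrix e e := by
      ext i j
      rw [Matrix.of_apply, hact, Matrix.mulVec_mulVec, hsing, hsing, (k2 _ _).1]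
      have h2 := congrFun (congrFun hF (e i, 0)) (e j, 0)
      rw [mul_kapC, kapT_mul] at h2
      have h3 : Sg M P (e i) (e j) = ((M' (e i, 0) (e j, 0) : ℚ) : ℂ) +
          r * ((I' (e i, 0) (e j, 0) : ℚ) : ℂ) := by
        refine Eq.trans ?_ h2
        show Sg M P (e i) (e j) =
          ((β 0 : K) : ℂ) * Sg M P (e i) (e j) * starRingEnd ℂ ((β 0 : K) : ℂ)
        rw [h0, map_one, mul_one, one_mul]
      show _ = r * starRingEnd ℂ (Sg M P (e i) (e j))
      rw [h3, map_add, map_mul, hcr, map_ratCast, map_ratCast]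
      push_cast
      linear_combination ((I' (e i, 0) (e j, 0) : ℚ) : ℂ) * hr
    refine (congrArg Matrix.det hmat).trans ?_
    rw [Matrix.det_smul, Fintype.card_fin, Matrix.det_submatrix_equiv_self]
    have h4 : ((Sg M P).map (starRingEnd ℂ)).det = (δ : ℂ) := by
      have h5 := RingHom.map_det (starRingEnd ℂ) (Sg M P)
      have h6 : (starRingEnd ℂ).mapMatrix (Sg M P) = (Sg M P).map (starRingEnd ℂ) := rfl
      rw [h6] at h5
      rw [← h5, hδ, map_ratCast]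
    rw [h4]
    have h7 : r ^ 6 = -((D : ℂ) ^ 3) := by
      have h8 : r ^ 6 = (r * r) ^ 3 := by ring
      rw [h8, hr]
      ring
    rw [h7]
    have h9 : ((D ^ 3 * δ : ℚ) : ℂ) = ((a ^ 2 : ℚ) : ℂ) := by rw [hda]
    push_cast at h9 ⊢
    linear_combination -h9

end H720D

/-- **S_DISC.** -/
theorem s_disc : S_DISC :=
  fun _r _D hD hr V N _ _ _ _ hN J M P Q w β h0 h1 δ a hδ ha hda T _ _ per ch r' hr' =>
    H720D.disc_aux hD hr V N hN _ J M P Q w β h0 h1 δ a hδ ha hda T per ch r' hr'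

end

end Pool.Agent.H926.A
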