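import Mathlib
import Pool.Agent.H926.A.Jobs

set_option autoImplicit false

/-!
# The sign of the determinant
-/

namespace Pool.Agent.H926.A

noncomputable section

namespace H196D

open Matrix Module
open scoped ComplexOrder


theorem mset {s : Multiset ℂ} (hs : ∀ x ∈ s, x = Complex.I ∨ x = -Complex.I) :
    ∃ a b : ℕ, Multiset.card s = a + b ∧ s.sum = ((a : ℂ) - b) * Complex.I ∧
      s.prod = Complex.I ^ a * (-Complex.I) ^ b := by
  induction s using Multiset.induction_on with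
  | empty => exact ⟨0, 0, by simp, by simp, by simp⟩
  | cons x s ih =>
    obtain ⟨a, b, h1, h2, h3⟩ := ih fun y hy => hs y (Multiset.mem_cons_of_mem hy)
    rcases hs x (Multiset.mem_cons_self x s) with hx | hx
    · refine ⟨a + 1, b, ?_, ?_, ?_⟩
      · rw [Multiset.card_cons, h1]; ring
      · rw [Multiset.sum_cons, h2, hx]; push_cast; ring
      · rw [Multiset.prod_cons, h3, hx]; ring
    · refine ⟨a, b + 1, ?_, ?_, ?_⟩
      · rw [Multiset.card_cons, h1]; ring
      · rw [Multiset.sum_cons, h2, hx]; push_cast; ring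
      · rw [Multiset.prod_cons, h3, hx]; ring

theorem det_one {N : Type*} [Fintype N] [DecidableEq N] (hN : Fintype.card N = 6)
    (C : Matrix N N ℂ) (hC : C * C = -1) (ht : C.trace = 0) : C.det = 1 := by
  have hroot : ∀ x ∈ C.charpoly.roots, x = Complex.I ∨ x = -Complex.I := by
    intro x hx
    have hx' : x ∈ spectrum ℂ C :=
      Matrix.mem_spectrum_iff_isRoot_charpoly.2 (Polynomial.isRoot_of_mem_roots hx)
    have h2 : x ^ 2 ∈ spectrum ℂ (C ^ 2) := by
      have := spectrum.pow_mem_pow C 2 hx'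
      exact this
    rw [sq C, hC] at h2
    have h3 : (-1 : Matrix N N ℂ) = algebraMap ℂ (Matrix N N ℂ) (-1) := by simp
    have hne : Nonempty N := by
      rw [← Fintype.card_pos_iff, hN]; norm_num
    rw [h3, spectrum.scalar_eq, Set.mem_singleton_iff] at h2
    have h4 : (x - Complex.I) * (x + Complex.I) = 0 := by
      have : (x - Complex.I) * (x + Complex.I) = x ^ 2 - Complex.I * Complex.I := by ring
      rw [this, h2, Complex.I_mul_I]; ring
    rcases mul_eq_zero.1 h4 with h5 | h5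
    · left; linear_combination h5
    · right; linear_combination h5
  obtain ⟨a, b, h1, h2, h3⟩ := mset hroot
  have hs : C.charpoly.Splits := IsAlgClosed.splits _
  have h4 := Matrix.det_eq_prod_roots_charpoly_of_splits hs
  have h5 := Matrix.trace_eq_sum_roots_charpoly_of_splits hs
  have h6 : Multiset.card C.charpoly.roots = 6 := by
    rw [← hs.natDegree_eq_card_roots, Matrix.charpoly_natDegree_eq_dim, hN]
  rw [ht, h2] at h5
  have h7 : ((a : ℂ) - b) = 0 := by
    rcases mul_eq_zero.1 h5.symm with h | h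
    · exact h
    · exact absurd h Complex.I_ne_zero
  have h8 : a = b := by
    have : (a : ℂ) = b := by linear_combination h7
    exact_mod_cast this
  have ha : a = 3 := by omega
  have hb : b = 3 := by omega
  rw [h4, h3, ha, hb, ← mul_pow]
  simp

theorem posdef_map {V : Type*} [Fintype V] [DecidableEq V] (S : Matrix V V ℝ) (hs : Sᵀ = S)
    (hp : ∀ x, x ≠ 0 → 0 < x ⬝ᵥ (S *ᵥ x)) :
    (S.map (fun x : ℝ => (x : ℂ)) : Matrix V V ℂ).PosDef := by
  rw [Matrix.posDef_iff_dotProduct_mulVec]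
  constructor
  · ext i j
    have := congrFun (congrFun hs i) j
    rw [Matrix.transpose_apply] at this
    rw [Matrix.conjTranspose_apply, Matrix.map_apply, Matrix.map_apply, this]
    exact Complex.conj_ofReal _
  · intro x hx
    have h1 : star x ⬝ᵥ (S.map (fun x : ℝ => (x : ℂ)) *ᵥ x) =
        (((fun i => (x i).re) ⬝ᵥ (S *ᵥ fun i => (x i).re) +
          (fun i => (x i).im) ⬝ᵥ (S *ᵥ fun i => (x i).im) : ℝ) : ℂ) := by
      have hx' : x = fun i => (((x i).re : ℝ) : ℂ) + Complex.I * (((x i).im : ℝ) : ℂ) := by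
        funext i
        rw [mul_comm, Complex.re_add_im]
      obtain ⟨u, hu⟩ : ∃ u : V → ℝ, u = fun i => (x i).re := ⟨_, rfl⟩
      obtain ⟨v, hv⟩ : ∃ v : V → ℝ, v = fun i => (x i).im := ⟨_, rfl⟩
      rw [← hu, ← hv]
      have hx2 : x = fun i => ((u i : ℝ) : ℂ) + Complex.I * ((v i : ℝ) : ℂ) := by
        rw [hu, hv]; exact hx'
      have e : ∀ i j, S i j = S j i := fun i j => by
        have := congrFun (congrFun hs j) i
        rw [Matrix.transpose_apply] at this
        exact this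
      have h2 : ∑ i, ∑ j, (S i j : ℂ) * ((u i : ℂ) * v j) =
          ∑ i, ∑ j, (S i j : ℂ) * ((v i : ℂ) * u j) := by
        rw [Finset.sum_comm]
        refine Finset.sum_congr rfl fun i _ => Finset.sum_congr rfl fun j _ => ?_
        rw [e j i]; ring
      have h3 : star x ⬝ᵥ (S.map (fun x : ℝ => (x : ℂ)) *ᵥ x) =
          ∑ i, ∑ j, (S i j : ℂ) * ((u i : ℂ) * u j) + ∑ i, ∑ j, (S i j : ℂ) * ((v i : ℂ) * v j) +
          Complex.I * (∑ i, ∑ j, (S i j : ℂ) * ((u i : ℂ) * v j) -
            ∑ i, ∑ j, (S i j : ℂ) * ((v i : ℂ) * u j)) := by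
        rw [hx2]
        simp only [dotProduct, Matrix.mulVec, Matrix.map_apply, Pi.star_apply, Finset.mul_sum,
          ← Finset.sum_add_distrib, ← Finset.sum_sub_distrib]
        refine Finset.sum_congr rfl fun i _ => Finset.sum_congr rfl fun j _ => ?_
        have hst : star ((u i : ℂ) + Complex.I * (v i : ℂ)) = (u i : ℂ) - Complex.I * v i := by
          simp [Complex.conj_ofReal]
          ring
        rw [hst]
        linear_combination (-(S i j : ℂ) * v i * v j) * Complex.I_mul_I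
      rw [h3, h2, sub_self, mul_zero, add_zero]
      push_cast
      simp only [dotProduct, Matrix.mulVec, Finset.mul_sum]
      push_cast
      congr 1
      · refine Finset.sum_congr rfl fun i _ => Finset.sum_congr rfl fun j _ => ?_
        ring
      · refine Finset.sum_congr rfl fun i _ => Finset.sum_congr rfl fun j _ => ?_
        ring
    rw [h1]
    have h0 : ∀ y : V → ℝ, 0 ≤ y ⬝ᵥ (S *ᵥ y) := by
      intro y
      by_cases hy : y = 0
      · rw [hy, zero_dotProduct]
      · exact (hp y hy).le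
    have h2 : (0 : ℝ) < (fun i => (x i).re) ⬝ᵥ (S *ᵥ fun i => (x i).re) +
        (fun i => (x i).im) ⬝ᵥ (S *ᵥ fun i => (x i).im) := by
      by_cases hu : (fun i => (x i).re) = 0
      · have hv : (fun i => (x i).im) ≠ 0 := by
          intro hv
          apply hx
          funext i
          exact Complex.ext (congrFun hu i) (congrFun hv i)
        have := hp _ hv
        have := h0 fun i => (x i).re
        linarith
      · have := hp _ hu
        have := h0 fun i => (x i).im
        linarith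
    exact_mod_cast h2

/-- the numbers `a + b r` -/
def QA (r : ℂ) (D : ℚ) (hr : r * r = -(D : ℂ)) : Subalgebra ℚ ℂ where
  carrier := {z | ∃ a b : ℚ, z = a + b * r}
  mul_mem' := by
    rintro _ _ ⟨a, b, rfl⟩ ⟨c, d, rfl⟩
    refine ⟨a * c - b * d * D, a * d + b * c, ?_⟩
    push_cast
    linear_combination ((b : ℂ) * d) * hr
  add_mem' := by
    rintro _ _ ⟨a, b, rfl⟩ ⟨c, d, rfl⟩
    exact ⟨a + c, b + d, by push_cast; ring⟩
  algebraMap_mem' := fun q => ⟨q, 0, by simp⟩

theorem QA_le (r : ℂ) (D : ℚ) (hr : r * r = -(D : ℂ))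
    (x : IntermediateField.adjoin ℚ {r}) : (x : ℂ) ∈ QA r D hr := by
  have halg : IsAlgebraic ℚ r := by
    refine ⟨Polynomial.X ^ 2 + Polynomial.C D, ?_, ?_⟩
    · exact (Polynomial.monic_X_pow_add_C D (by norm_num)).ne_zero
    · simp [sq, hr]
  have h1 : (x : ℂ) ∈ (IntermediateField.adjoin ℚ {r}).toSubalgebra := x.2
  rw [IntermediateField.adjoin_simple_toSubalgebra_of_isAlgebraic halg] at h1
  refine (Algebra.adjoin_le ?_) h1
  rw [Set.singleton_subset_iff]
  exact ⟨0, 1, by simp⟩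

theorem r_re (r : ℂ) (D : ℚ) (hD : 0 < D) (hr : r * r = -(D : ℂ)) : r.re = 0 ∧ r.im ≠ 0 := by
  have h1 := congrArg Complex.re hr
  have h2 := congrArg Complex.im hr
  simp only [Complex.mul_re, Complex.mul_im, Complex.neg_re, Complex.neg_im, Complex.ratCast_re,
    Complex.ratCast_im, neg_zero] at h1 h2
  have hD' : (0 : ℝ) < D := by exact_mod_cast hD
  have h3 : r.im ≠ 0 := by
    intro h
    rw [h] at h1
    nlinarith [sq_nonneg r.re]
  refine ⟨?_, h3⟩
  have h4 : r.re * r.im = 0 := by linarith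
  exact (mul_eq_zero.1 h4).resolve_right h3

theorem QA_conj (r : ℂ) (D : ℚ) (hD : 0 < D) (hr : r * r = -(D : ℂ)) (z : ℂ)
    (hz : z ∈ QA r D hr) : (starRingEnd ℂ) z ∈ QA r D hr := by
  obtain ⟨a, b, rfl⟩ := hz
  refine ⟨a, -b, ?_⟩
  have h1 : (starRingEnd ℂ) r = -r := by
    apply Complex.ext
    · rw [Complex.conj_re, Complex.neg_re, (r_re r D hD hr).1, neg_zero]
    · rw [Complex.conj_im, Complex.neg_im]
  rw [map_add, map_mul, h1]
  have h2 : ∀ q : ℚ, (starRingEnd ℂ) (q : ℂ) = q := fun q => map_ratCast _ q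
  rw [h2, h2]
  push_cast
  ring

theorem QA_det {N : Type*} [Fintype N] [DecidableEq N] (A : Subalgebra ℚ ℂ) (C : Matrix N N ℂ)
    (hC : ∀ i j, C i j ∈ A) : C.det ∈ A := by
  rw [Matrix.det_apply]
  refine Subalgebra.sum_mem _ fun σ _ => ?_
  rw [Units.smul_def, zsmul_eq_mul]
  exact Subalgebra.mul_mem _ (intCast_mem _ _) (Subalgebra.prod_mem _ fun i _ => hC _ _)

theorem QA_real (r : ℂ) (D : ℚ) (hD : 0 < D) (hr : r * r = -(D : ℂ)) (z : ℂ)
    (hz : z ∈ QA r D hr) (h0 : 0 < z) : ∃ δ : ℚ, 0 < δ ∧ z = δ := by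
  obtain ⟨a, b, rfl⟩ := hz
  have h1 := Complex.pos_iff.1 h0
  have h2 := (r_re r D hD hr)
  obtain ⟨h3, h4⟩ := h1
  simp only [Complex.add_re, Complex.mul_re, Complex.add_im, Complex.mul_im, Complex.ratCast_re,
    Complex.ratCast_im, h2.1] at h3 h4
  have h5 : (b : ℝ) * r.im = 0 := by linarith
  have h6 : (b : ℝ) = 0 := (mul_eq_zero.1 h5).resolve_right h2.2
  have h7 : b = 0 := by exact_mod_cast h6
  refine ⟨a, ?_, ?_⟩
  · have : (0 : ℝ) < a := by
      rw [h6] at h3
      linarith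
    exact_mod_cast this
  · rw [h7]; simp


end H196D

open Matrix Module Pool.Agent.W437.HC Pool.Agent.W437.HD Pool.Agent.TH504.CB Pool.Agent.W522.U
open Pool.Agent.Y90 hiding mulA exists_lam mulA_altQ
open Pool.Agent.W437.HP (cK cK_mul cK_one)
open Pool.Agent.Y4.P (MaxM EigM cx WD JB)
open scoped ComplexOrder

theorem s_dpos : S_DPOS := by
  intro r D hD hr V N _ _ _ _ hN J M P Q w
  -- notation
  obtain ⟨Jc, hJc⟩ : ∃ Jc : Matrix V V ℂ, Jc = J.map (fun x : ℝ => (x : ℂ)) := ⟨_, rfl⟩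
  have hcx1 : cx Q * cx P = 1 := by
    have h1 : cx (Q * P) = cx Q * cx P := Matrix.map_mul
    rw [← h1, w.qp]
    exact Matrix.map_one _ (map_zero _) (map_one _)
  have hcx2 : cx (P * Q) = cx P * cx Q := Matrix.map_mul
  have hDJ : (DJ J).map (RingEquiv.refl ℂ) = (-Complex.I) • Jc := by
    rw [hJc]
    ext i j
    rfl
  have hcom : Jc * (cx P * cx Q) = cx P * cx Q * Jc := by
    have h1 := w.com (RingEquiv.refl ℂ)
    rw [hDJ, hcx2, Matrix.smul_mul, Matrix.mul_smul] at h1
    exact smul_right_injective _ (neg_ne_zero.2 Complex.I_ne_zero) h1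
  have htr : Matrix.trace (Jc * (cx P * cx Q)) = 0 := by
    have h1 := w.tr (RingEquiv.refl ℂ)
    rw [hDJ, hcx2, Matrix.smul_mul, Matrix.trace_smul, smul_eq_mul] at h1
    exact (mul_eq_zero.1 h1).resolve_left (neg_ne_zero.2 Complex.I_ne_zero)
  have hJJ : Jc * Jc = -1 := by
    have h1 : (J * J).map (fun x : ℝ => (x : ℂ)) = Jc * Jc := by
      rw [hJc]
      exact Matrix.map_mul (f := Complex.ofRealHom)
    rw [← h1, w.sq]
    ext i j
    rw [Matrix.map_apply, Matrix.neg_apply, Matrix.neg_apply, Matrix.one_apply, Matrix.one_apply]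
    split_ifs <;> simp
  obtain ⟨C, hC⟩ : ∃ C : Matrix N N ℂ, C = cx Q * Jc * cx P := ⟨_, rfl⟩
  have hPC : cx P * C = Jc * cx P := by
    rw [hC]
    calc cx P * (cx Q * Jc * cx P) = (cx P * cx Q * Jc) * cx P := by
          simp only [Matrix.mul_assoc]
      _ = Jc * (cx P * cx Q) * cx P := by rw [hcom]
      _ = Jc * cx P * (cx Q * cx P) := by simp only [Matrix.mul_assoc]
      _ = Jc * cx P := by rw [hcx1, Matrix.mul_one]
  have hCC : C * C = -1 := by
    calc C * C = cx Q * Jc * (cx P * C) := by rw [hC]; simp only [Matrix.mul_assoc]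
      _ = cx Q * (Jc * Jc) * cx P := by rw [hPC]; simp only [Matrix.mul_assoc]
      _ = -(cx Q * cx P) := by
        rw [hJJ, Matrix.mul_neg, Matrix.mul_one, Matrix.neg_mul]
      _ = -1 := by rw [hcx1]
  have hCt : C.trace = 0 := by
    rw [hC, Matrix.trace_mul_comm, ← Matrix.mul_assoc, Matrix.trace_mul_comm]
    exact htr
  have hdet := H196D.det_one hN C hCC hCt
  -- the positive definite real matrix
  obtain ⟨S, hS⟩ : ∃ S : Matrix V V ℝ, S = Jᵀ * cK ℝ M := ⟨_, rfl⟩
  have hinv : S = -(cK ℝ M * J) := by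
    rw [hS]
    exact eq_neg_of_add_eq_zero_left w.inv
  have hMt : (cK ℝ M)ᵀ = -cK ℝ M := by
    have h1 : (cK ℝ M)ᵀ = cK ℝ Mᵀ := rfl
    rw [h1, w.skew]
    ext i j
    show (((-M) i j : ℚ) : ℝ) = -((M i j : ℚ) : ℝ)
    rw [Matrix.neg_apply]
    push_cast
    rfl
  have hSt : Sᵀ = S := by
    conv_lhs => rw [hS]
    rw [Matrix.transpose_mul, Matrix.transpose_transpose, hMt, Matrix.neg_mul, hinv]
  have hSp : ∀ x, x ≠ 0 → 0 < x ⬝ᵥ (S *ᵥ x) := by
    intro x hx
    have h1 := w.pos x hx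
    rw [hS, ← Matrix.mulVec_mulVec, Matrix.dotProduct_mulVec, Matrix.vecMul_transpose]
    exact h1
  have hSc := H196D.posdef_map S hSt hSp
  have hinj : Function.Injective (cx P).mulVec := by
    intro x y hxy
    have h1 := congrArg (fun z => cx Q *ᵥ z) hxy
    simpa only [Matrix.mulVec_mulVec, hcx1, Matrix.one_mulVec] using h1
  have hH := (hSc.conjTranspose_mul_mul_same (B := cx P) hinj).det_pos
  have hScx : S.map (fun x : ℝ => (x : ℂ)) = -(cK ℂ M * Jc) := by
    have h1 : (cK ℝ M * J).map (fun x : ℝ => (x : ℂ)) = cK ℂ M * Jc := by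
      have h2 : (cK ℝ M).map (fun x : ℝ => (x : ℂ)) = cK ℂ M := by
        ext i j
        show (((M i j : ℚ) : ℝ) : ℂ) = ((M i j : ℚ) : ℂ)
        norm_cast
      rw [hJc, ← h2]
      exact Matrix.map_mul (f := Complex.ofRealHom)
    rw [← h1, hinv]
    ext i j
    show ((-(cK ℝ M * J) i j : ℝ) : ℂ) = -(((cK ℝ M * J) i j : ℝ) : ℂ)
    push_cast
    rfl
  have hMct : (cK ℂ M)ᵀ = -cK ℂ M := by
    have h1 : (cK ℂ M)ᵀ = cK ℂ Mᵀ := rfl
    rw [h1, w.skew]
    ext i j
    show (((-M) i j : ℚ) : ℂ) = -((M i j : ℚ) : ℂ)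
    rw [Matrix.neg_apply]
    push_cast
    rfl
  have hHeq : (cx P)ᴴ * S.map (fun x : ℝ => (x : ℂ)) * cx P = (Sg M P)ᵀ * C := by
    have h1 : (Sg M P)ᵀ = (cx P)ᴴ * (-cK ℂ M) * cx P := by
      unfold Sg
      rw [Matrix.transpose_mul, Matrix.transpose_mul, Matrix.transpose_transpose, hMct,
        Matrix.mul_assoc]
      rfl
    rw [h1, hScx, Matrix.mul_assoc, Matrix.mul_assoc, hPC]
    simp only [Matrix.mul_neg, Matrix.neg_mul, Matrix.mul_assoc]
  rw [hHeq, Matrix.det_mul, Matrix.det_transpose, hdet, mul_one] at hH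
  refine H196D.QA_real r D hD hr _ ?_ hH
  refine H196D.QA_det _ _ fun i j => ?_
  have h1 : Sg M P i j = ∑ x, (∑ y, (P y i : ℂ) * ((M y x : ℚ) : ℂ)) *
      (starRingEnd ℂ) (P x j : ℂ) := rfl
  rw [h1]
  refine Subalgebra.sum_mem _ fun x _ => Subalgebra.mul_mem _ (Subalgebra.sum_mem _ fun y _ =>
    Subalgebra.mul_mem _ (H196D.QA_le r D hr _) ⟨M y x, 0, by simp⟩)
    (H196D.QA_conj r D hD hr _ (H196D.QA_le r D hr _))

end

end Pool.Agent.H926.A
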