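import Mathlib
import Pool.Agent.H926.A.Qloc
import Pool.Graph.R_pool_sql_team_seeded_63374d34.N994.PG.HDet
import Pool.Graph.R_pool_sql_team_seeded_1acbe0a2.Y977.P.Tr

/-!
# Weil classes on simple sixfolds
-/

set_option autoImplicit false
set_option linter.unusedSectionVars false

namespace Pool.Agent.H926.A

open Matrix Module Pool.Agent.W437.HC Pool.Agent.W437.HD Pool.Agent.TH504.CB Pool.Agent.W522.U
open Pool.Agent.Y90 hiding mulA exists_lam mulA_altQ
open Pool.Agent.W548.Odd hiding cv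
open Pool.Agent.W437.HP (cK cK_mul cK_one)
open Pool.Agent.H204R3.CM (IsHodge)
open Pool.Agent.Y4.P (MaxM EigM cx mem_eigM om_real)
open Pool.Agent.R915 (KW KW.alt_apply)
open Pool.Agent.N994.PG (N1 N1_mem dl_kill dl_hodge dl_move)

noncomputable section

namespace Six

variable {G a : ℕ} {Z : Matrix (Fin G) (Fin G) ℂ} {Z' : Matrix (Fin a) (Fin a) ℂ}

/-- The square root of a negative rational number in a quadratic algebra. -/
theorem quad {φ : Matrix (Fin a ⊕ Fin a) (Fin a ⊕ Fin a) ℚ} (hφ : qm φ * DZ Z' = DZ Z' * qm φ)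
    (hd : (minpoly ℚ φ).natDegree = 2) {z : ℂ} (hz : z ∈ (minpoly ℚ φ).aroots ℂ)
    (hzi : z.im ≠ 0) :
    ∃ (w : ℂ) (D : ℚ) (j : Matrix (Fin a ⊕ Fin a) (Fin a ⊕ Fin a) ℚ), 0 < D ∧
      w * w = -(D : ℂ) ∧ j * j = -(D • (1 : Matrix (Fin a ⊕ Fin a) (Fin a ⊕ Fin a) ℚ)) ∧
      qm j * DZ Z' = DZ Z' * qm j ∧ ∀ v, v ∈ EigM φ z ↔ qm j *ᵥ v = w • v := by
  have hm : (minpoly ℚ φ).Monic := minpoly.monic (Matrix.isIntegral φ)
  obtain ⟨s, t, hst⟩ : ∃ s t : ℚ, minpoly ℚ φ = Polynomial.X ^ 2 + Polynomial.C s * Polynomial.X +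
      Polynomial.C t := by
    refine ⟨(minpoly ℚ φ).coeff 1, (minpoly ℚ φ).coeff 0, ?_⟩
    have h1 : (minpoly ℚ φ).coeff 2 = 1 := by
      rw [← hd]
      exact hm
    conv_lhs => rw [Polynomial.eq_quadratic_of_degree_le_two
      (Polynomial.natDegree_le_iff_degree_le.1 hd.le)]
    rw [h1, Polynomial.C_1, one_mul]
  have h1 : φ * φ + s • φ + t • (1 : Matrix _ _ ℚ) = 0 := by
    have h2 := minpoly.aeval ℚ φ
    rw [hst, map_add, map_add, map_mul, map_pow, Polynomial.aeval_C, Polynomial.aeval_X,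
      Polynomial.aeval_C, Algebra.algebraMap_eq_smul_one, Algebra.algebraMap_eq_smul_one,
      smul_mul_assoc, one_mul, sq] at h2
    exact h2
  have h3 : z * z + (s : ℂ) * z + (t : ℂ) = 0 := by
    have h2 := (Polynomial.mem_aroots.1 hz).2
    rw [hst, map_add, map_add, map_mul, map_pow, Polynomial.aeval_C, Polynomial.aeval_X,
      Polynomial.aeval_C, sq] at h2
    exact h2
  have hD : 0 < 4 * t - s ^ 2 := by
    have h4 := congrArg Complex.re h3
    have h5 := congrArg Complex.im h3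
    simp only [Complex.add_re, Complex.mul_re, Complex.add_im, Complex.mul_im, Complex.zero_re,
      Complex.zero_im, Complex.ratCast_re, Complex.ratCast_im, zero_mul, sub_zero, add_zero] at h4 h5
    have h6 : (2 * z.re + (s : ℝ)) * z.im = 0 := by linear_combination h5
    have h7 : 2 * z.re + (s : ℝ) = 0 := (mul_eq_zero.1 h6).resolve_right hzi
    have h8 : (0 : ℝ) < 4 * (t : ℝ) - (s : ℝ) ^ 2 := by
      have h9 : 4 * (t : ℝ) - (s : ℝ) ^ 2 = 4 * z.im ^ 2 := by
        have h10 : (s : ℝ) = -(2 * z.re) := by linear_combination h7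
        rw [h10] at h4 ⊢
        linear_combination 4 * h4
      rw [h9]
      positivity
    exact_mod_cast h8
  have hqj : qm ((2 : ℚ) • φ + s • (1 : Matrix (Fin a ⊕ Fin a) (Fin a ⊕ Fin a) ℚ)) =
      (2 : ℂ) • qm φ + (s : ℂ) • (1 : Matrix (Fin a ⊕ Fin a) (Fin a ⊕ Fin a) ℂ) := by
    ext i k
    by_cases hik : i = k <;> simp [qm, hik]
  refine ⟨2 * z + s, 4 * t - s ^ 2, (2 : ℚ) • φ + s • 1, hD, ?_, ?_, ?_, fun v => ?_⟩
  · push_cast
    linear_combination 4 * h3
  · have h4 : φ * φ = -(s • φ + t • (1 : Matrix _ _ ℚ)) := by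
      rw [add_assoc] at h1
      exact eq_neg_of_add_eq_zero_left h1
    rw [Matrix.add_mul, Matrix.mul_add, Matrix.mul_add]
    simp only [Matrix.smul_mul, Matrix.mul_smul, Matrix.one_mul, Matrix.mul_one, h4]
    module
  · rw [hqj, Matrix.add_mul, Matrix.mul_add, Matrix.smul_mul, Matrix.mul_smul, hφ, Matrix.smul_mul,
      Matrix.mul_smul, Matrix.one_mul, Matrix.mul_one]
  · rw [mem_eigM, hqj, add_mulVec, smul_mulVec, smul_mulVec, one_mulVec, add_smul, mul_smul]
    constructor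
    · intro h4
      rw [h4]
    · intro h4
      have h5 := add_right_cancel h4
      exact smul_right_injective _ (two_ne_zero (α := ℂ)) h5

section kw

variable {U : Submodule ℂ (Fin a ⊕ Fin a → ℂ)} {j : Matrix (Fin a ⊕ Fin a) (Fin a ⊕ Fin a) ℚ}
  {w : ℂ} {D : ℚ} (h : PM Z') (hs : IsSimpleAV Z') (k : KW Z' U j w D) {ι : Type} [ι₁ : Fintype ι]
  [ι₂ : DecidableEq ι] (f : Basis ι ℂ U) (t : tr Z' U = 0)

include h k t hs in
/-- The rational parts of the determinant form belong to the ring. -/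
theorem weil (hj : qm j * DZ Z' = DZ Z' * qm j) (c : Prop) (l : ℂ →ₗ[ℚ] ℚ) {n : ℕ}
    (e : ι ≃ Fin n) (_hn : 0 < n) :
    IsQWeil c (perOne Z') n ((ratA (k.dl f) l).domDomCongr e) := by
  have hc : n = a := by
    rw [← k.dim, finrank_eq_card_basis f, Fintype.card_congr e, Fintype.card_fin]
  refine ⟨isHodge_congr e (dl_hodge h k f t l), D, Matrix.toLin' j, k.pos, ?_, fun v => ?_, ?_,
    fun v i i' => ?_, fun _ _ => Or.inr ?_⟩
  · obtain ⟨Ψ, hΨ⟩ := h.cht.hom h.cht (R := j) (by rw [DJ_JR]; exact hj)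
    exact ⟨Ψ, fun v => by rw [Matrix.toLin'_apply]; exact hΨ v⟩
  · rw [Matrix.toLin'_apply, Matrix.toLin'_apply, mulVec_mulVec, k.sq, neg_mulVec, smul_mulVec,
      one_mulVec]
  · rw [finrank_fintype_fun_eq_card]
    simp only [Fintype.card_sum, Fintype.card_fin]
    omega
  · have key : ∀ i, (ratA (k.dl f) l).domDomCongr e
        (Function.update v i (Matrix.toLin' j (v i))) =
        ∑ σ : Equiv.Perm ι, ((Equiv.Perm.sign σ : ℤ) : ℚ) *
          l (w * k.dl f (fun j => cv (v (e (σ j))))) := by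
      intro i
      rw [AlternatingMap.domDomCongr_apply, toLin'_apply]
      have h1 := dl_move k f l (fun j => v (e j)) (e.symm i)
      rw [Equiv.apply_symm_apply] at h1
      rw [← h1]
      congr 1
      funext j'
      rw [Function.comp_apply]
      by_cases hj' : j' = e.symm i
      · subst hj'
        rw [Equiv.apply_symm_apply, Function.update_self, Function.update_self]
      · rw [Function.update_of_ne hj', Function.update_of_ne]
        intro h
        exact hj' (by rw [← h, Equiv.symm_apply_apply])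
    rw [key i, key i']
  · refine ⟨fun x _ => ?_, fun h0 => ?_, fun U' _ hU' => hs U' hU'⟩
    · have h1 : Submodule.span ℝ (Set.range (perOne Z')) = ⊤ := (AVZ h).span
      have h2 : Submodule.span ℝ (perOne Z' '' ((⊤ : Submodule ℚ (Fin a ⊕ Fin a → ℚ)) : Set _)) = ⊤ := by
        rw [Submodule.top_coe, Set.image_univ]
        exact h1
      rw [h2]
      exact Submodule.mem_top
    · have h1 : finrank ℚ (⊤ : Submodule ℚ (Fin a ⊕ Fin a → ℚ)) = 0 := by
        rw [h0, finrank_bot]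
      rw [finrank_top, finrank_fintype_fun_eq_card] at h1
      simp only [Fintype.card_sum, Fintype.card_fin] at h1
      omega

include h k t hs in
/-- Pull-backs of the rational parts along rational homomorphisms. -/
theorem pull {G : ℕ} {Z : Matrix (Fin G) (Fin G) ℂ} (hZ : PM Z)
    (hj : qm j * DZ Z' = DZ Z' * qm j) (c : Prop) (l : ℂ →ₗ[ℚ] ℚ) {n B : ℕ}
    (e : ι ≃ Fin n) (hn : 0 < n) (hB : n ≤ B) {R : Matrix (Fin a ⊕ Fin a) (Fin G ⊕ Fin G) ℚ}
    (hR : cK ℂ R * DZ Z = DZ Z' * cK ℂ R) :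
    QR (perOne Z) B c ι ((ratA (k.dl f) l).compLinearMap (Matrix.toLin' R)) := by
  obtain ⟨Ψ, hΨ⟩ := hZ.cht.hom h.cht (R := R) (by rw [DJ_JR, DJ_JR]; exact hR)
  have h3 := QR.weil (per := perOne Z) (s := c) (B := B) (per' := perOne Z') h.isAV hB _
    (weil h hs k f t hj c l e hn) (Matrix.toLin' R)
    ⟨Ψ, fun v => by rw [Matrix.toLin'_apply]; exact hΨ v⟩
  have h4 := h3.reindex e.symm
  have h5 : ((((ratA (k.dl f) l).domDomCongr e).compLinearMap
      (Matrix.toLin' R)).domDomCongr e.symm) =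
      (ratA (k.dl f) l).compLinearMap (Matrix.toLin' R) := by
    ext v
    rw [AlternatingMap.domDomCongr_apply, AlternatingMap.compLinearMap_apply,
      AlternatingMap.domDomCongr_apply, AlternatingMap.compLinearMap_apply]
    congr 1
    funext i
    simp
  rw [← h5]
  exact h4

include h k t hs in
/-- The determinant form composed with equivariant maps. -/
theorem main {G : ℕ} {Z : Matrix (Fin G) (Fin G) ℂ} (hZ : PM Z)
    (hj : qm j * DZ Z' = DZ Z' * qm j) (c : Prop) {n B : ℕ} (e : ι ≃ Fin n) (hn : 0 < n)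
    (hB : n ≤ B) (R : ι → Matrix (Fin a ⊕ Fin a) (Fin G ⊕ Fin G) ℂ)
    (hR : ∀ y σ, R y * DS Z σ = DS Z' σ * R y)
    (ψ : MultilinearMap ℂ (fun _ : ι => Fin G ⊕ Fin G → ℂ) ℂ)
    (hψ : ∀ v, ψ v = k.alt f (fun y => R y *ᵥ v y)) : ψ ∈ NQ Z B c ι := by
  intro i1 i2
  obtain rfl : i1 = ι₁ := Subsingleton.elim _ _
  obtain rfl : i2 = ι₂ := Subsingleton.elim _ _
  have h1 : altQ ψ = N1 (k.alt f) R := by
    funext v
    unfold altQ N1
    refine Finset.sum_congr rfl fun σ _ => ?_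
    rw [hψ]
  rw [h1]
  refine N1_mem (k.alt f) (RCq (perOne Z) B c ι) (TT Z Z') ?_ _ (fun y => exp_mem (hR y))
  rintro _ ⟨R, rfl, hR⟩
  obtain ⟨m, c', l, hl⟩ := altQ_expand (k.dl f)
  have h3 : N1 (k.alt f) (fun _ => cK ℂ R) =
      ∑ i, c' i • fun v : ι → Fin G ⊕ Fin G → ℚ =>
        ((((ratA (k.dl f) (l i)).compLinearMap (Matrix.toLin' R)) v : ℚ) : ℂ) := by
    funext v
    have h4 := hl (fun y => R *ᵥ v y)
    rw [Finset.sum_apply]
    refine Eq.trans ?_ (h4.trans ?_)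
    · unfold altQ N1
      refine Finset.sum_congr rfl fun σ _ => ?_
      congr 1
      change k.dl f _ = k.dl f _
      congr 1
      funext y i
      simp [cv, mulVec, dotProduct, cK]
    · rfl
  rw [h3]
  exact Submodule.sum_mem _ fun i _ => Submodule.smul_mem _ _
    (RCq_of (pull h hs k f t hZ hj c (l i) e hn hB hR))

end kw

end Six

/-- **S_Q6.** -/
theorem s_q6 : S_Q6 := by
  intro B G hB Z h hq U hU h6 hA htr ι _ _ f q hq' ψ hψ c
  obtain ⟨a, Z', E, F, hf, h', hs, ha, h0⟩ := exists_fac h hU.1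
  have hi := hf.inj hU h0
  have hU' := hf.irr hU h0
  obtain ⟨φ, hφ, hc⟩ := hq a Z' E F hf h' hs ha
  obtain ⟨hsp, hiso, -⟩ := Pool.Agent.Y261.P.jspec a Z' h' hs ha φ hφ
  obtain ⟨z, hz, T, hT1, hT2, hT3⟩ := hiso _ hU'
  -- the eigenspace is isotropic
  have hisot : ∀ u ∈ EigM φ z, ∀ v ∈ EigM φ z, om a u v = 0 := by
    intro u hu v hv
    by_contra huv
    refine hA ⟨(om a).compl₁₂ (T.comp (ml F)) (T.comp (ml F)), ?_, ?_, ?_⟩
    · intro X hX u _ v _
      change om a (T (ml F (X *ᵥ u))) (T (ml F v)) + om a (T (ml F u)) (T (ml F (X *ᵥ v))) = 0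
      have hX' := (hf.comp hX).1
      rw [hf.act hX, hf.act hX, hT1 _ hX', hT1 _ hX']
      exact h'.om_sp hX' _ _
    · rw [← hT3] at hu hv
      obtain ⟨_, ⟨u0, hu0, rfl⟩, rfl⟩ := hu
      obtain ⟨_, ⟨v0, hv0, rfl⟩, rfl⟩ := hv
      exact ⟨u0, hu0, v0, hv0, huv⟩
    · intro u _ v _
      exact om_anti _ _
  have hzi : z.im ≠ 0 := by
    intro hzi
    obtain ⟨u, hu, v, hv, huv⟩ := om_real h' hzi (hsp z hz).1
    exact huv (hisot u hu v hv)
  have hd : (minpoly ℚ φ).natDegree = 2 := hc.resolve_left fun hall => hzi (hall z hz)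
  obtain ⟨w, D, j, hD, hw, hjj, hj, hmem⟩ := Six.quad hφ.1 hd hz hzi
  -- the dimensions
  have hTi : ∀ u ∈ U, (T.comp (ml F)) u = 0 → u = 0 := fun u hu h1 =>
    hi u hu (hT2 _ ⟨u, hu, rfl⟩ h1)
  have hmap : U.map (T.comp (ml F)) = EigM φ z := by rw [Submodule.map_comp, hT3]
  have hfr : finrank ℂ (EigM φ z) = 6 := by
    rw [← hT3, Pool.Agent.Y977.P.finrank_inj T hT2, finrank_ml hi, h6]
  have ha6 : a = 6 := by
    have h1 := (hsp z hz).2
    rw [hfr, hd] at h1
    omega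
  have k : KW Z' (EigM φ z) j w D :=
    { dim := by rw [hfr, ha6]
      comm := fun X hX => (Pool.Agent.Y261.P.qm_comm hj X hX).symm
      pos := hD
      sq := hjj
      al := hw
      mem := hmem
      isot := hisot }
  -- the trace
  have htr' : tr Z' (EigM φ z) = 0 := by
    obtain ⟨ε, hε⟩ : ∃ ε : Matrix (Fin a ⊕ Fin a) (Fin a ⊕ Fin a) ℂ,
        ε = (2 * w)⁻¹ • (qm j + w • (1 : Matrix _ _ ℂ)) := ⟨_, rfl⟩
    have hεv : ∀ v, ε *ᵥ v = pj j w v := fun v => by
      rw [hε, smul_mulVec, add_mulVec, smul_mulVec, one_mulVec, pj_apply]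
    have e1 : ε * ε = ε := by
      apply Matrix.toLin'.injective
      refine LinearMap.ext fun v => ?_
      rw [Matrix.toLin'_apply, Matrix.toLin'_apply, ← mulVec_mulVec, hεv, hεv]
      exact k.pj_of_mem (k.pj_mem v)
    have e2 : ∀ X ∈ LZ Z', X * ε = ε * X := by
      intro X hX
      rw [hε, Matrix.mul_smul, Matrix.smul_mul, Matrix.mul_add, Matrix.add_mul, k.comm X hX,
        Matrix.mul_smul, Matrix.smul_mul, Matrix.mul_one, Matrix.one_mul]
    have e3 : ∀ v, v ∈ EigM φ z ↔ ε *ᵥ v = v := fun v => by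
      rw [hεv]
      constructor
      · exact fun hv => k.pj_of_mem hv
      · intro hv
        rw [← hv]
        exact k.pj_mem v
    have t1 := Pool.Agent.Y977.P.jtrace a Z' h' _ hU' ε T e1 e2 (fun X hX u _ => hT1 X hX u) hT2
      (fun v => by rw [hT3]; exact e3 v) (RingEquiv.refl ℂ)
    have t2 := Pool.Agent.Y977.P.jtrace a Z' h' _ (hsp z hz).1 ε LinearMap.id e1 e2
      (fun X _ u _ => rfl) (fun u _ hu => hu) (fun v => by rw [Submodule.map_id]; exact e3 v)
      (RingEquiv.refl ℂ)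
    have t3 : ∀ V : Submodule ℂ (Fin a ⊕ Fin a → ℂ), cjS (RingEquiv.refl ℂ).symm V = V := by
      intro V
      ext v
      rfl
    rw [t3] at t1 t2
    rw [t1, hf.tr_map hi hU.2.1, htr] at t2
    exact_mod_cast t2.symm
  let e : U ≃ₗ[ℂ] EigM φ z := LinearEquiv.ofBijective
    (((T.comp (ml F)).domRestrict U).codRestrict (EigM φ z) fun u => by
      rw [← hmap]
      exact Submodule.mem_map_of_mem u.2) (by
      constructor
      · rw [injective_iff_map_eq_zero]
        intro u hu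
        exact Subtype.ext (hTi u u.2 (congrArg Subtype.val hu))
      · rintro ⟨v, hv⟩
        rw [← hmap] at hv
        obtain ⟨u, hu, rfl⟩ := hv
        exact ⟨⟨u, hu⟩, rfl⟩)
  have he : ∀ u : U, (e u : Fin a ⊕ Fin a → ℂ) = T (ml F u) := fun _ => rfl
  have hcard : Fintype.card ι = 6 := by rw [← finrank_eq_card_basis f, h6]
  refine Six.main h' hs k (f.map e) htr' h hj c (Fintype.equivFinOfCardEq hcard) (by norm_num) hB
    (fun y => LinearMap.toMatrix' ((T.comp (ml F)).comp (U.subtype.comp (q y))))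
    (fun y σ => ?_) ψ fun v => ?_
  · apply Matrix.toLin'.injective
    refine LinearMap.ext fun v => ?_
    rw [Matrix.toLin'_apply, Matrix.toLin'_apply, ← mulVec_mulVec, ← mulVec_mulVec,
      LinearMap.toMatrix'_mulVec, LinearMap.toMatrix'_mulVec]
    change T (ml F (q y (DS Z σ *ᵥ v))) = DS Z' σ *ᵥ T (ml F (q y v))
    rw [hq' y _ (DS_mem σ), ml_apply, mulVec_mulVec, hf.fds, ← mulVec_mulVec,
      hT1 _ (DS_mem σ)]
    rfl
  · rw [hψ, KW.alt_apply, Basis.det_map]
    congr 1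
    funext y
    have h1 : k.pU (((T.comp (ml F)).comp (U.subtype.comp (q y))) (v y)) = e (q y (v y)) :=
      k.pU_of_mem (e (q y (v y))).2
    change _ = e.symm (k.pU _)
    rw [LinearMap.toMatrix'_mulVec, h1, LinearEquiv.symm_apply_apply]

end

end Pool.Agent.H926.A
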