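import Mathlib
import Pool.Agent.H926.A.Jobs

/-!
# S_QTWO: submodules of dimension two
-/

set_option autoImplicit false
set_option linter.unusedSectionVars false

namespace Pool.Agent.H926.A

open Matrix Module Pool.Agent.W437.HC Pool.Agent.W437.HD Pool.Agent.TH504.CB Pool.Agent.W522.U
open Pool.Agent.Y90 hiding mulA exists_lam mulA_altQ
open Pool.Agent.W548.Odd hiding cv
open Pool.Agent.Y4.P (cx cx_mul cx_one exists_PQ eqU P_eqU trace_all)

noncomputable section

namespace H183Q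

/-- the form given by the determinant in dimension two -/
def dform {V : Type} [AddCommGroup V] [Module ℂ V] (F : V →ₗ[ℂ] (Fin 2 → ℂ)) :
    V →ₗ[ℂ] V →ₗ[ℂ] ℂ :=
  LinearMap.mk₂ ℂ (fun u v => F u 0 * F v 1 - F u 1 * F v 0)
    (by intro u u' v; simp only [map_add, Pi.add_apply]; ring)
    (by intro c u v; simp only [map_smul, Pi.smul_apply, smul_eq_mul]; ring)
    (by intro u v v'; simp only [map_add, Pi.add_apply]; ring)
    (by intro c u v; simp only [map_smul, Pi.smul_apply, smul_eq_mul]; ring)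

theorem dform_apply {V : Type} [AddCommGroup V] [Module ℂ V] (F : V →ₗ[ℂ] (Fin 2 → ℂ)) (u v : V) :
    dform F u v = F u 0 * F v 1 - F u 1 * F v 0 := rfl

/-- an involution in dimension two with nonzero trace is a scalar -/
theorem scalar_of_two {N : Matrix (Fin 2) (Fin 2) ℂ} (h1 : N * N = 1) (h2 : Matrix.trace N ≠ 0) :
    ∃ c : ℂ, N = c • (1 : Matrix (Fin 2) (Fin 2) ℂ) := by
  rw [Matrix.trace_fin_two] at h2
  have h3 : ∀ i j, (N * N) i j = (1 : Matrix (Fin 2) (Fin 2) ℂ) i j := fun i j => by rw [h1]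
  have a00 := h3 0 0
  have a01 := h3 0 1
  have a10 := h3 1 0
  have a11 := h3 1 1
  simp only [Matrix.mul_apply, Fin.sum_univ_two, Matrix.one_apply_eq] at a00 a11
  rw [Matrix.one_apply_ne (by decide)] at a01 a10
  simp only [Matrix.mul_apply, Fin.sum_univ_two] at a01 a10
  have b01 : N 0 1 = 0 := by
    have : (N 0 0 + N 1 1) * N 0 1 = 0 := by linear_combination a01
    exact (mul_eq_zero.1 this).resolve_left h2
  have b10 : N 1 0 = 0 := by
    have : (N 0 0 + N 1 1) * N 1 0 = 0 := by linear_combination a10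
    exact (mul_eq_zero.1 this).resolve_left h2
  have b : N 0 0 = N 1 1 := by
    have : (N 0 0 + N 1 1) * (N 0 0 - N 1 1) = 0 := by linear_combination a00 - a11
    exact sub_eq_zero.1 ((mul_eq_zero.1 this).resolve_left h2)
  refine ⟨N 0 0, ?_⟩
  ext i j
  fin_cases i <;> fin_cases j
  · simp
  · simp [b01]
  · simp [b10]
  · simp [b]

end H183Q

open H183Q

theorem s_qtwo (hT : S_QTR) : S_QTWO := by
  classical
  intro G Z h W hW hA hP hf
  obtain ⟨w, D, ε, T, hD, hw, e1, e2, e3, e5, e6, e7⟩ := hP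
  have hwK : w ∈ IntermediateField.adjoin ℚ ({w} : Set ℂ) :=
    IntermediateField.subset_adjoin ℚ _ (Set.mem_singleton w)
  have hK3 : ∀ i j, ε i j ∈ IntermediateField.adjoin ℚ ({w} : Set ℂ) := by
    intro i j
    obtain ⟨y, z, hyz⟩ := e3 i j
    rw [hyz]
    have hr : ∀ r : ℚ, (r : ℂ) ∈ IntermediateField.adjoin ℚ ({w} : Set ℂ) := fun r =>
      SubfieldClass.ratCast_mem _ r
    exact add_mem (hr y) (mul_mem (hr z) hwK)
  obtain ⟨d, P₀, Q₀, hPQ₀, hQP₀⟩ := exists_PQ Pool.Agent.Y317.P.Idem.x ε e1 hK3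
  have hQP : cx Q₀ * cx P₀ = 1 := by rw [← cx_mul, hQP₀, cx_one]
  have hPQ : cx P₀ * cx Q₀ = ε := by rw [← cx_mul, hPQ₀]
  have hT7 : ∀ v, v ∈ W.map T ↔ (cx P₀ * cx Q₀) *ᵥ v = v := fun v => by
    rw [hPQ]
    exact e7 v
  let A : W ≃ₗ[ℂ] (Fin d → ℂ) := eqU hQP e6 hT7
  have hAu : ∀ u : W, A u = cx Q₀ *ᵥ T u := fun u => rfl
  have hPA : ∀ u : W, cx P₀ *ᵥ A u = T u := fun u => P_eqU hQP e6 hT7 u
  have hd : d = 2 := by
    have h1 := A.finrank_eq
    rw [hf, finrank_fintype_fun_eq_card, Fintype.card_fin] at h1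
    exact h1.symm
  subst hd
  obtain ⟨P, hPdef⟩ : ∃ P : Matrix (Fin G ⊕ Fin G) (Fin 2) ℂ, P = cx P₀ := ⟨_, rfl⟩
  obtain ⟨Q, hQdef⟩ : ∃ Q : Matrix (Fin 2) (Fin G ⊕ Fin G) ℂ, Q = cx Q₀ := ⟨_, rfl⟩
  rw [← hPdef, ← hQdef] at hQP hPQ
  rw [← hQdef] at hAu
  rw [← hPdef] at hPA
  -- the map to the plane
  obtain ⟨F, hF⟩ : ∃ F : (Fin G ⊕ Fin G → ℂ) →ₗ[ℂ] (Fin 2 → ℂ), F = Q.mulVecLin ∘ₗ T := ⟨_, rfl⟩
  have hFA : ∀ u (hu : u ∈ W), F u = A ⟨u, hu⟩ := by
    intro u hu
    rw [hF, hAu]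
    rfl
  have hFX : ∀ X ∈ LZ Z, ∀ u ∈ W, F (X *ᵥ u) = (Q * X * P) *ᵥ F u := by
    intro X hX u hu
    have h1 := hPA ⟨u, hu⟩
    rw [← hFA u hu] at h1
    rw [← mulVec_mulVec, h1, ← mulVec_mulVec, ← e5 X hX u hu, hF]
    rfl
  have hYtr : ∀ X, Matrix.trace (X * ε) = Matrix.trace (Q * X * P) := by
    intro X
    rw [← hPQ, ← Matrix.mul_assoc, Matrix.trace_mul_comm, ← Matrix.mul_assoc]
  have hεP : ε * P = P := by rw [← hPQ, Matrix.mul_assoc, hQP, Matrix.mul_one]
  have hYm : ∀ X X' : Matrix (Fin G ⊕ Fin G) (Fin G ⊕ Fin G) ℂ, X' * ε = ε * X' →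
      (Q * X * P) * (Q * X' * P) = Q * (X * X') * P := by
    intro X X' h2
    calc (Q * X * P) * (Q * X' * P) = Q * X * ((P * Q) * X') * P := by
          simp only [Matrix.mul_assoc]
      _ = Q * (X * X') * (ε * P) := by
          rw [hPQ, ← h2]
          simp only [Matrix.mul_assoc]
      _ = Q * (X * X') * P := by rw [hεP]
  by_cases ht : Matrix.trace (DZ Z * ε) = 0
  · -- the determinant is an invariant form
    have htr : ∀ X ∈ LZ Z, Matrix.trace (X * ε) = 0 := by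
      have h1 := trace_all (Z := Z) (fun _ : Unit => ε) (fun _ => e2) (fun σ => by
        rw [Fintype.sum_unique, hT G Z h W hW ε T e1 e2 e5 e6 e7 w D hD hw e3 σ, ht, mul_zero])
      intro X hX
      have h2 := h1 X hX
      rw [Fintype.sum_unique] at h2
      exact h2
    apply hA
    refine ⟨dform F, ?_, ?_, ?_⟩
    · intro X hX u hu v hv
      have h1 := htr X hX
      rw [hYtr, Matrix.trace_fin_two] at h1
      rw [dform_apply, dform_apply, hFX X hX u hu, hFX X hX v hv]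
      simp only [Matrix.mulVec, dotProduct, Fin.sum_univ_two]
      linear_combination (F u 0 * F v 1 - F u 1 * F v 0) * h1
    · refine ⟨A.symm ![1, 0], (A.symm ![1, 0]).2, A.symm ![0, 1], (A.symm ![0, 1]).2, ?_⟩
      rw [dform_apply, hFA _ (A.symm ![1, 0]).2, hFA _ (A.symm ![0, 1]).2]
      simp
    · intro u _ v _
      rw [dform_apply, dform_apply]
      ring
  · -- scalars
    have hw0 : w ≠ 0 := by
      rintro rfl
      rw [zero_mul] at hw
      have : (D : ℂ) ≠ 0 := by exact_mod_cast hD.ne'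
      exact this (neg_eq_zero.1 hw.symm)
    have hsc : ∀ σ : ℂ ≃+* ℂ, ∃ c : ℂ, Q * DS Z σ * P = c • (1 : Matrix (Fin 2) (Fin 2) ℂ) := by
      intro σ
      refine scalar_of_two ?_ ?_
      · rw [hYm _ _ (e2 _ (DS_mem σ)), DS_sq h.det σ, Matrix.mul_one, hQP]
      · rw [← hYtr, hT G Z h W hW ε T e1 e2 e5 e6 e7 w D hD hw e3 σ]
        refine mul_ne_zero (div_ne_zero ?_ hw0) ht
        exact (map_ne_zero σ).2 hw0
    let C : Submodule ℂ (Matrix (Fin G ⊕ Fin G) (Fin G ⊕ Fin G) ℂ) :=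
      { carrier := {X | X ∈ LZ Z ∧ ∃ c : ℂ, Q * X * P = c • (1 : Matrix (Fin 2) (Fin 2) ℂ)}
        add_mem' := fun {X Y} hX hY => by
          obtain ⟨hX1, c, hc⟩ := hX
          obtain ⟨hY1, c', hc'⟩ := hY
          refine ⟨Submodule.add_mem _ hX1 hY1, c + c', ?_⟩
          rw [Matrix.mul_add, Matrix.add_mul, hc, hc', add_smul]
        zero_mem' := ⟨Submodule.zero_mem _, 0, by simp⟩
        smul_mem' := fun a X hX => by
          obtain ⟨hX1, c, hc⟩ := hX
          refine ⟨Submodule.smul_mem _ a hX1, a * c, ?_⟩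
          rw [Matrix.mul_smul, Matrix.smul_mul, hc, smul_smul] }
    have hC : LZ Z ≤ C := by
      refine LZ_le (fun σ => ⟨DS_mem σ, hsc σ⟩) (fun X hX Y hY => ?_)
      obtain ⟨hX1, c, hc⟩ := hX
      obtain ⟨hY1, c', hc'⟩ := hY
      refine ⟨LZ_br hX1 hY1, 0, ?_⟩
      rw [Matrix.mul_sub, Matrix.sub_mul, ← hYm X Y (e2 Y hY1), ← hYm Y X (e2 X hX1), hc, hc',
        zero_smul, Matrix.smul_mul, Matrix.smul_mul, Matrix.mul_smul, Matrix.mul_smul, Matrix.mul_one,
        smul_smul, smul_smul, mul_comm, sub_self]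
    -- a stable line
    obtain ⟨u, hu, hu0⟩ := (Submodule.ne_bot_iff W).1 hW.1
    have hst : Stab (LZ Z) (Submodule.span ℂ {u}) := by
      intro X hX v hv
      obtain ⟨a, rfl⟩ := Submodule.mem_span_singleton.1 hv
      obtain ⟨-, c, hc⟩ := hC hX
      have h1 : X *ᵥ u = c • u := by
        have h2 := hFX X hX u hu
        rw [hc, Matrix.smul_mulVec, Matrix.one_mulVec, ← map_smul] at h2
        have h3 : X *ᵥ u ∈ W := hW.2.1 X hX u hu
        have h4 : c • u ∈ W := W.smul_mem c hu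
        rw [hFA _ h3, hFA _ h4] at h2
        exact congrArg Subtype.val (A.injective h2)
      rw [mulVec_smul, h1]
      exact Submodule.smul_mem _ _ (Submodule.smul_mem _ _ (Submodule.mem_span_singleton_self u))
    rcases hW.2.2 _ ((Submodule.span_singleton_le_iff_mem u W).2 hu) hst with h1 | h1
    · exact hu0 (Submodule.span_singleton_eq_bot.1 h1)
    · have h2 := finrank_span_singleton (K := ℂ) hu0
      rw [h1, hf] at h2
      exact absurd h2 (by norm_num)

end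

end Pool.Agent.H926.A
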