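import Mathlib
import Pool.Agent.H926.A.Asb
import Pool.Agent.H926.A.Qtwo
import Pool.Agent.H926.A.Q6
import Pool.Agent.H926.A.Dpos
import Pool.Agent.H926.A.Disc

/-!
# The theorems with all lemmas
-/

set_option linter.unusedSectionVars false

namespace Pool.Agent.H926.A

open Module Pool.Agent.Y90

theorem lem : Lem := lem_of (s_qtwo s_qtr) s_q6 s_dpos s_disc

end Pool.Agent.H926.A
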