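import Mathlib
import Pool.Agent.H926.A.Jobs
import Pool.Graph.R_pool_sql_team_seeded_1acbe0a2.Y4.P.Stm

/-!
# The ring of the imaginary quadratic Weil classes is contained in the ring of all Weil classes
-/

set_option linter.unusedSectionVars false

namespace Pool.Agent.H926.A

open Module Pool.Agent.Y90

/-- **S_INC (inclusion of the rings).**

Proof. Induction on `QR`. All constructors except `weil` are the same for `WeilRing`
(`Pool.Agent.Y4.P.WeilRing`, `Y4/P/Stm.lean`). For `weil`: let `IsQWeil c per' n f` with `D`, `j`; we show
`Pool.Agent.Y4.P.IsWeilClass per' n f`. Let `r = I * √D : ℂ`, so `r * r = -D`, and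
`K = IntermediateField.adjoin ℚ {r}` (`exists_basis2`, `minpoly_r`, `finrank_adjoin_two`, `integral_r`,
`sq_ne_rat` in `Pool/Agent/H926/A/Qpull.lean` may be copied). `K` is a number field of degree two without
real embeddings (an embedding sends `r` to a square root of `-D < 0`), so it is a CM field
(`NumberField.IsCMField`, look for the constructor from a totally complex quadratic extension of a totally
real field, here `ℚ`; or the instance/lemma for imaginary quadratic fields in Mathlib). The ring
homomorphism `ι : K → End H`: `PowerBasis.lift` of `IntermediateField.adjoin.powerBasis` with `j` (its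
square is `-D`, and the minimal polynomial of `r` is `X ^ 2 + D`), so `ι (x + y r) = x + y j` for rational
`x`, `y` (each element of `K` has this form). Each `ι a` is a homomorphism of abelian varieties
(`St.IsHom`: sums and rational multiples), `finrank ℚ H = 2 n = n * finrank ℚ K`, and `ι a` may be moved
in `f` as `j` may be moved. -/
def S_INC : Prop :=
  ∀ (H T : Type) [AddCommGroup H] [Module ℚ H] [AddCommGroup T] [Module ℂ T] (per : H →+ T)
    (B : ℕ) (c : Prop) (κ : Type) (f : H [⋀^κ]→ₗ[ℚ] ℚ) (_hf : QR per B c κ f),
    Pool.Agent.Y4.P.WeilRing per κ f

end Pool.Agent.H926.A
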