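import Mathlib
import Pool.Agent.H926.A.Jobs2

/-!
# The ring of the imaginary quadratic Weil classes is contained in the ring of all Weil classes
-/

set_option autoImplicit false
set_option linter.unusedSectionVars false

namespace Pool.Agent.H926.A

open Module Pool.Agent.Y90

noncomputable section

namespace IncL

theorem sq_ne_rat {r : ℂ} {D : ℚ} (hD : 0 < D) (hr : r * r = -(D : ℂ)) (q : ℚ) : r ≠ (q : ℂ) := by
  rintro rfl
  have h1 : ((q * q + D : ℚ) : ℂ) = 0 := by
    push_cast
    rw [hr]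
    ring
  have h2 : q * q + D = 0 := by exact_mod_cast h1
  have h3 := mul_self_nonneg q
  linarith

theorem integral_r {r : ℂ} {D : ℚ} (hr : r * r = -(D : ℂ)) : IsIntegral ℚ r := by
  refine ⟨Polynomial.X ^ 2 + Polynomial.C D, Polynomial.monic_X_pow_add_C D two_ne_zero, ?_⟩
  simp only [Polynomial.eval₂_add, Polynomial.eval₂_pow, Polynomial.eval₂_X, Polynomial.eval₂_C]
  rw [sq, hr]
  simp

theorem minpoly_r {r : ℂ} {D : ℚ} (hD : 0 < D) (hr : r * r = -(D : ℂ)) :
    minpoly ℚ r = Polynomial.X ^ 2 + Polynomial.C D := by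
  have hi := integral_r hr
  have h3 : Polynomial.aeval r (Polynomial.X ^ 2 + Polynomial.C D : Polynomial ℚ) = 0 := by
    simp only [map_add, map_pow, Polynomial.aeval_X, Polynomial.aeval_C]
    rw [sq, hr]
    simp
  have h2 : (minpoly ℚ r).natDegree ≠ 0 := (minpoly.natDegree_pos hi).ne'
  have h4 : (minpoly ℚ r).natDegree ≠ 1 := by
    intro h4
    obtain ⟨q, hq⟩ := minpoly.natDegree_eq_one_iff.1 h4
    exact sq_ne_rat hD hr q (by rw [← hq]; rfl)
  have h5 := Polynomial.eq_of_monic_of_dvd_of_natDegree_le (minpoly.monic hi)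
    (Polynomial.monic_X_pow_add_C D two_ne_zero) (minpoly.dvd ℚ r h3) (by
      rw [Polynomial.natDegree_X_pow_add_C]
      omega)
  exact h5.symm

theorem finrank_adjoin_two {r : ℂ} {D : ℚ} (hD : 0 < D) (hr : r * r = -(D : ℂ)) :
    finrank ℚ (IntermediateField.adjoin ℚ {r}) = 2 := by
  rw [IntermediateField.adjoin.finrank (integral_r hr), minpoly_r hD hr,
    Polynomial.natDegree_X_pow_add_C]

theorem exists_root (D : ℚ) (hD : 0 < D) : ∃ r : ℂ, r * r = -(D : ℂ) := by
  refine ⟨Complex.I * ((Real.sqrt (D : ℝ) : ℝ) : ℂ), ?_⟩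
  have h1 : Real.sqrt (D : ℝ) * Real.sqrt (D : ℝ) = (D : ℝ) :=
    Real.mul_self_sqrt (by exact_mod_cast hD.le)
  calc Complex.I * ((Real.sqrt (D : ℝ) : ℝ) : ℂ) * (Complex.I * ((Real.sqrt (D : ℝ) : ℝ) : ℂ))
      = (Complex.I * Complex.I) * ((Real.sqrt (D : ℝ) * Real.sqrt (D : ℝ) : ℝ) : ℂ) := by
        push_cast
        ring
    _ = -(D : ℂ) := by
        rw [h1, Complex.I_mul_I]
        push_cast
        ring

/-- imaginary quadratic fields are totally complex -/
theorem tot_complex {r : ℂ} {D : ℚ} (hD : 0 < D) (hr : r * r = -(D : ℂ)) :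
    NumberField.IsTotallyComplex (IntermediateField.adjoin ℚ {r}) := by
  refine ⟨fun v => ?_⟩
  by_contra hcon
  rw [NumberField.InfinitePlace.not_isComplex_iff_isReal, NumberField.InfinitePlace.isReal_iff] at hcon
  obtain ⟨r', hr'⟩ : ∃ r' : IntermediateField.adjoin ℚ {r}, (r' : ℂ) = r :=
    ⟨⟨r, IntermediateField.mem_adjoin_simple_self ℚ r⟩, rfl⟩
  have hrr : r' * r' = ((-D : ℚ) : IntermediateField.adjoin ℚ {r}) := by
    apply Subtype.ext
    change (r' : ℂ) * (r' : ℂ) = _
    rw [hr', hr]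
    simp
  have h1 : v.embedding r' * v.embedding r' = ((-D : ℚ) : ℂ) := by
    rw [← map_mul, hrr, map_ratCast]
  have h2 : (starRingEnd ℂ) (v.embedding r') = v.embedding r' := by
    have h3 := congrArg (fun φ : IntermediateField.adjoin ℚ {r} →+* ℂ => φ r') hcon
    exact h3
  obtain ⟨x, hx⟩ := Complex.conj_eq_iff_real.1 h2
  rw [hx] at h1
  have h3 : x * x = ((-D : ℚ) : ℝ) := by exact_mod_cast h1
  have h4 : ((-D : ℚ) : ℝ) < 0 := by
    have : (-D : ℚ) < 0 := by linarith
    exact_mod_cast this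
  nlinarith [mul_self_nonneg x]

/-- imaginary quadratic Weil classes are Weil classes -/
theorem isWeil {s : Prop} {H T : Type} [AddCommGroup H] [Module ℚ H] [AddCommGroup T] [Module ℂ T]
    {per : H →+ T} {n : ℕ} {f : H [⋀^Fin n]→ₗ[ℚ] ℚ} (hf : IsQWeil s per n f) :
    Pool.Agent.Y4.P.IsWeilClass per n f := by
  obtain ⟨hH, D, j, hD, ⟨Ψ, hΨ⟩, hj, hfin, hmove, -⟩ := hf
  obtain ⟨r, hr⟩ := exists_root D hD
  have hi := integral_r hr
  have hfd : FiniteDimensional ℚ (IntermediateField.adjoin ℚ {r}) :=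
    IntermediateField.adjoin.finiteDimensional hi
  have hnf : NumberField (IntermediateField.adjoin ℚ {r}) :=
    { to_charZero := inferInstance, to_finiteDimensional := hfd }
  have h2 := finrank_adjoin_two hD hr
  have htc := tot_complex hD hr
  have hqe : Algebra.IsQuadraticExtension ℚ (IntermediateField.adjoin ℚ {r}) := ⟨h2⟩
  have hcm : NumberField.IsCMField (IntermediateField.adjoin ℚ {r}) :=
    NumberField.IsCMField.ofCMExtension ℚ _
  let pb := IntermediateField.adjoin.powerBasis hi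
  have hmp : minpoly ℚ pb.gen = Polynomial.X ^ 2 + Polynomial.C D := by
    rw [← minpoly_r hD hr]
    exact IntermediateField.minpoly_gen ℚ r
  have hjj : Polynomial.aeval (j : Module.End ℚ H) (minpoly ℚ pb.gen) = 0 := by
    rw [hmp, map_add, map_pow, Polynomial.aeval_X, Polynomial.aeval_C, sq]
    ext v
    rw [LinearMap.add_apply, Module.End.mul_apply, hj, Module.algebraMap_end_apply,
      LinearMap.zero_apply, neg_add_cancel]
  let ι : (IntermediateField.adjoin ℚ {r}) →ₐ[ℚ] Module.End ℚ H := pb.lift j hjj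
  have hgen : ι pb.gen = j := pb.lift_gen j hjj
  have hd : pb.dim = 2 := by
    rw [← h2, pb.finrank]
  let β := pb.basis.reindex (finCongr hd)
  have hβ0 : β 0 = 1 := by
    have h1 : β 0 = pb.gen ^ 0 := by
      rw [Basis.reindex_apply, PowerBasis.basis_eq_pow]
      rfl
    rw [h1, pow_zero]
  have hβ1 : β 1 = pb.gen := by
    have h1 : β 1 = pb.gen ^ 1 := by
      rw [Basis.reindex_apply, PowerBasis.basis_eq_pow]
      rfl
    rw [h1, pow_one]
  have hdec : ∀ a, ∃ x y : ℚ, ∀ v, ι a v = x • v + y • j v := by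
    intro a
    refine ⟨β.repr a 0, β.repr a 1, fun v => ?_⟩
    have h3 : a = β.repr a 0 • 1 + β.repr a 1 • pb.gen := by
      rw [← hβ0, ← hβ1]
      have h4 := β.sum_repr a
      rw [Fin.sum_univ_two] at h4
      exact h4.symm
    have h5 : ι a = β.repr a 0 • (1 : Module.End ℚ H) + β.repr a 1 • (j : Module.End ℚ H) := by
      conv_lhs => rw [h3]
      rw [map_add, map_smul, map_smul, map_one, hgen]
    rw [h5]
    rfl
  refine ⟨hH, IntermediateField.adjoin ℚ {r}, inferInstance, hnf, hcm, ι.toRingHom, fun a => ?_,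
    ?_, fun a v k l => ?_⟩
  · obtain ⟨x, y, hxy⟩ := hdec a
    refine ⟨(x : ℂ) • LinearMap.id + (y : ℂ) • Ψ, fun v => ?_⟩
    have h3 : (ι.toRingHom a) v = x • v + y • j v := hxy v
    rw [h3, map_add]
    have h4 : ∀ (c : ℚ) (u : H), per (c • u) = (c : ℂ) • per u := by
      intro c u
      have := map_ratCast_smul per ℚ ℂ c u
      rwa [Rat.cast_id] at this
    rw [h4, h4, LinearMap.add_apply, LinearMap.smul_apply, LinearMap.smul_apply, hΨ]
    rfl
  · rw [h2, hfin, mul_comm]
  · obtain ⟨x, y, hxy⟩ := hdec a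
    have h3 : ∀ v, (ι.toRingHom a) v = x • v + y • j v := hxy
    rw [h3, h3]
    have h4 : ∀ k : Fin n, f (Function.update v k (x • v k + y • j (v k))) =
        x • f v + y • f (Function.update v k (j (v k))) := by
      intro k
      rw [f.map_update_add, f.map_update_smul, f.map_update_smul, Function.update_eq_self]
    rw [h4, h4, hmove v k l]

end IncL

/-- **Inclusion of the rings.** -/
theorem s_inc : S_INC := by
  intro H T _ _ _ _ per B c κ f hf
  induction hf with
  | unit f => exact Pool.Agent.Y4.P.WeilRing.unit f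
  | divisor hκ f hf => exact Pool.Agent.Y4.P.WeilRing.divisor hκ f hf
  | weil hY hn f hf h hh => exact Pool.Agent.Y4.P.WeilRing.weil hY f (IncL.isWeil hf) h hh
  | zero κ => exact Pool.Agent.Y4.P.WeilRing.zero κ
  | add f g _ _ hf hg => exact Pool.Agent.Y4.P.WeilRing.add f g hf hg
  | smul a f _ hf => exact Pool.Agent.Y4.P.WeilRing.smul a f hf
  | reindex e f _ hf => exact Pool.Agent.Y4.P.WeilRing.reindex e f hf
  | cup f g _ _ h hh hf hg => exact Pool.Agent.Y4.P.WeilRing.cup f g hf hg h hh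

end

end Pool.Agent.H926.A
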