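import Mathlib
import Pool.Agent.H926.A.Last

/-!
# The ring generated by divisors and by Weil classes for imaginary quadratic fields: definitions

A complex abelian variety `X` (up to isogeny) is given by `H = H_1(X, ℚ)`, the tangent space `T` and
the period map `per : H → T`; a class in `H^κ(X, ℚ)` is an alternating form on `H` in variables
indexed by the finite set `κ`. See `Pool.Agent.H204R3.CM.Defs` (`IsHodge`) and `Pool.Agent.Y90.Stm`
(`IsAV`: polarizable; `IsHom`: homomorphisms; `IsSimpleSub`: simple abelian subvarieties;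
`HasTrivialDisc`: the abelian sixfold `Y` with the endomorphism `j = √-D` has discriminant `-1`).
-/

namespace Pool.Agent.H926.A.Quad

open Module
open Pool.Agent.H204R3.CM (IsHodge)
open Pool.Agent.Y90.St (IsAV IsHom IsSimpleSub HasTrivialDisc)

/-- The endomorphism algebra of each simple abelian subvariety `U` of `X` contains a maximal commutative
subfield `ℚ(a)` which is totally real or of degree two: `a` is an endomorphism of `U`, all endomorphisms
of `U` which commute with `a` are polynomials in `a`, and all roots of the minimal polynomial of `a` are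
real or its degree is two. -/
def RealOrQuadratic {H T : Type} [AddCommGroup H] [Module ℚ H] [AddCommGroup T] [Module ℂ T]
    (per : H →+ T) : Prop :=
  ∀ U : Submodule ℚ H, IsSimpleSub per U → ∃ a : U →ₗ[ℚ] U,
    ((∃ Ψ : T →ₗ[ℂ] T, ∀ u : U, Ψ (per u) = per (a u)) ∧
      ∀ b : U →ₗ[ℚ] U, (∃ Ψ : T →ₗ[ℂ] T, ∀ u : U, Ψ (per u) = per (b u)) → b ∘ₗ a = a ∘ₗ b →
        b ∈ Algebra.adjoin ℚ ({a} : Set (Module.End ℚ U))) ∧
    ((∀ z ∈ (minpoly ℚ a).aroots ℂ, z.im = 0) ∨ (minpoly ℚ a).natDegree = 2)

/-- `f ∈ H^n(Y, ℚ)` is a **Weil class** for the imaginary quadratic field `ℚ(√-D)` which acts by the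
endomorphism `j = √-D` on the abelian variety `Y` of dimension `n`: `f` is a Hodge class, and `j` may be
moved in `f` from each variable to each other variable (so `f` is in the line `Λ^n H¹(Y, ℚ)` over
`ℚ(√-D)`). -/
structure IsWeilClass {H T : Type} [AddCommGroup H] [Module ℚ H] [AddCommGroup T] [Module ℂ T]
    (per : H →+ T) (n : ℕ) (D : ℚ) (j : H →ₗ[ℚ] H) (f : H [⋀^Fin n]→ₗ[ℚ] ℚ) : Prop where
  pos : 0 < D
  hom : IsHom per per j
  sq : ∀ v, j (j v) = -(D • v)
  dim : finrank ℚ H = 2 * n
  hodge : IsHodge per f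
  move : ∀ (v : Fin n → H) (k l : Fin n),
    f (Function.update v k (j (v k))) = f (Function.update v l (j (v l)))

/-- The smallest system of cohomology classes `f ∈ H^κ(X, ℚ)` of the abelian variety `X` which contains
the classes of degree zero, the Hodge classes of degree two and the pull-backs along homomorphisms
`X → Y` of the Weil classes for imaginary quadratic fields on abelian varieties `Y` of even dimension
`4, 6, 8, ...` at most `B`, where the sixfolds `Y` have discriminant `-1` or are simple (and then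
`X → Y` is surjective), and which is stable under linear combinations and cup products. -/
inductive QuadRing {H T : Type} [AddCommGroup H] [Module ℚ H] [AddCommGroup T] [Module ℂ T]
    (per : H →+ T) (B : ℕ) : (κ : Type) → (H [⋀^κ]→ₗ[ℚ] ℚ) → Prop
  /-- classes of degree zero -/
  | unit {κ : Type} [IsEmpty κ] (f : H [⋀^κ]→ₗ[ℚ] ℚ) : QuadRing per B κ f
  /-- Hodge classes of degree two -/
  | divisor {κ : Type} (hκ : Nat.card κ = 2) (f : H [⋀^κ]→ₗ[ℚ] ℚ)
      (hf : IsHodge per f) : QuadRing per B κ f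
  /-- pull-backs of Weil classes for imaginary quadratic fields -/
  | weil {H' T' : Type} [AddCommGroup H'] [Module ℚ H'] [AddCommGroup T'] [Module ℂ T']
      {per' : H' →+ T'} (hY : IsAV per') {n : ℕ} (h4 : 4 ≤ n) (he : Even n) (hn : n ≤ B) {D : ℚ}
      {j : H' →ₗ[ℚ] H'}
      (f : H' [⋀^Fin n]→ₗ[ℚ] ℚ) (hf : IsWeilClass per' n D j f) (h : H →ₗ[ℚ] H')
      (hh : IsHom per per' h)
      (h6 : n = 6 → HasTrivialDisc per' D j ∨ (IsSimpleSub per' ⊤ ∧ Function.Surjective h)) :
      QuadRing per B (Fin n) (f.compLinearMap h)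
  | zero (κ : Type) : QuadRing per B κ 0
  | add {κ : Type} (f g : H [⋀^κ]→ₗ[ℚ] ℚ) (hf : QuadRing per B κ f) (hg : QuadRing per B κ g) :
      QuadRing per B κ (f + g)
  | smul {κ : Type} (a : ℚ) (f : H [⋀^κ]→ₗ[ℚ] ℚ) (hf : QuadRing per B κ f) :
      QuadRing per B κ (a • f)
  /-- renaming of the variables -/
  | reindex {κ κ' : Type} (e : κ ≃ κ') (f : H [⋀^κ]→ₗ[ℚ] ℚ) (hf : QuadRing per B κ f) :
      QuadRing per B κ' (f.domDomCongr e)
  /-- cup products (up to a factor) -/
  | cup {κ κ' : Type} [Fintype κ] [DecidableEq κ] [Fintype κ'] [DecidableEq κ']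
      (f : H [⋀^κ]→ₗ[ℚ] ℚ) (g : H [⋀^κ']→ₗ[ℚ] ℚ) (hf : QuadRing per B κ f)
      (hg : QuadRing per B κ' g) (h : H [⋀^κ ⊕ κ']→ₗ[ℚ] ℚ)
      (hh : ∀ v : κ ⊕ κ' → H, h v = ∑ σ : Equiv.Perm (κ ⊕ κ'), ((Equiv.Perm.sign σ : ℤ) : ℚ) *
        (f (fun k => v (σ (Sum.inl k))) * g (fun k => v (σ (Sum.inr k))))) :
      QuadRing per B (κ ⊕ κ') h

section aux

variable {H T : Type} [AddCommGroup H] [Module ℚ H] [AddCommGroup T] [Module ℂ T] {per : H →+ T}
  {B : ℕ}

theorem of_ring (hX : IsAV per) {κ : Type} {f : H [⋀^κ]→ₗ[ℚ] ℚ}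
    (hf : Pool.Agent.H926.A.QR per B True κ f) : QuadRing per B κ f := by
  induction hf with
  | unit f => exact QuadRing.unit f
  | divisor hκ f hf => exact QuadRing.divisor hκ f hf
  | @weil H' T' _ _ _ _ per' hY n hn f hf h hh =>
    by_cases ho : Odd n
    · have h0 : f = 0 := Pool.Agent.H926.A.hodge_odd ho hf.1
      have h1 : f.compLinearMap h = 0 := by
        rw [h0]
        rfl
      rw [h1]
      exact QuadRing.zero _
    · rw [Nat.not_odd_iff_even] at ho
      obtain ⟨hf1, D, j, hD, hj, hjj, hdim, hmv, h6⟩ := hf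
      by_cases h4 : 4 ≤ n
      · by_cases hn6 : n = 6
        · subst hn6
          rcases h6 trivial rfl with h7 | h7
          · exact QuadRing.weil hY h4 ho hn f ⟨hD, hj, hjj, hdim, hf1, hmv⟩ h hh
              (fun _ => Or.inl h7)
          · rcases Pool.Agent.H926.A.zero_or_surj hX hh h7 with h8 | h8
            · have h1 : f.compLinearMap h = 0 := by
                ext v
                rw [AlternatingMap.compLinearMap_apply, h8, AlternatingMap.zero_apply]
                exact f.map_coord_zero (0 : Fin 6) rfl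
              rw [h1]
              exact QuadRing.zero _
            · exact QuadRing.weil hY h4 ho hn f ⟨hD, hj, hjj, hdim, hf1, hmv⟩ h hh
                (fun _ => Or.inr ⟨h7, h8⟩)
        · exact QuadRing.weil hY h4 ho hn f ⟨hD, hj, hjj, hdim, hf1, hmv⟩ h hh
            (fun h => absurd h hn6)
      · obtain ⟨m, hm⟩ := ho
        have hm2 : m = 0 ∨ m = 1 := by omega
        rcases hm2 with rfl | rfl
        · obtain rfl : n = 0 := by omega
          exact QuadRing.unit _
        · obtain rfl : n = 2 := by omega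
          obtain ⟨Ψ, hΨ⟩ := hh
          exact QuadRing.divisor (Nat.card_fin 2) _
            (Pool.Agent.TH504.CB.isHodge_comp h Ψ hΨ hf1)
  | zero κ => exact QuadRing.zero κ
  | add f g _ _ hf hg => exact QuadRing.add _ _ hf hg
  | smul a f _ hf => exact QuadRing.smul a _ hf
  | reindex e f _ hf => exact QuadRing.reindex e _ hf
  | cup f g _ _ h hh hf hg => exact QuadRing.cup _ _ hf hg _ hh

theorem to_ring {κ : Type} {f : H [⋀^κ]→ₗ[ℚ] ℚ} (hf : QuadRing per B κ f) :
    Pool.Agent.H926.A.QR per B False κ f := by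
  induction hf with
  | unit f => exact Pool.Agent.H926.A.QR.unit f
  | divisor hκ f hf => exact Pool.Agent.H926.A.QR.divisor hκ f hf
  | weil hY _ _ hn f hf h hh _ =>
    exact Pool.Agent.H926.A.QR.weil hY hn f ⟨hf.hodge, _, _, hf.pos, hf.hom, hf.sq, hf.dim,
      hf.move, fun h => h.elim⟩ h hh
  | zero κ => exact Pool.Agent.H926.A.QR.zero κ
  | add f g _ _ hf hg => exact Pool.Agent.H926.A.QR.add _ _ hf hg
  | smul a f _ hf => exact Pool.Agent.H926.A.QR.smul a _ hf
  | reindex e f _ hf => exact Pool.Agent.H926.A.QR.reindex e _ hf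
  | cup f g _ _ h hh hf hg => exact Pool.Agent.H926.A.QR.cup _ _ hf hg _ hh

theorem isHodge {κ : Type} {f : H [⋀^κ]→ₗ[ℚ] ℚ} (hf : QuadRing per B κ f) : IsHodge per f :=
  Pool.Agent.H926.A.qr_isHodge (to_ring hf)

end aux

end Pool.Agent.H926.A.Quad
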