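import Mathlib
import Pool.Agent.H926.T.Conv
import Pool.Agent.H926.T.Jobs6
import Pool.Graph.R_pool_sql_team_seeded_1acbe0a2.Y4.P.Real

/-!
# The commutators of the Lefschetz Lie algebra and the Hodge-Tate involutions
-/

set_option linter.unusedSectionVars false

namespace Pool.Agent.H926.A

open Matrix Module Pool.Agent.Y90 Pool.Agent.W437.HC Pool.Agent.W437.HD
  Pool.Agent.TH504.CB Pool.Agent.TH131.GHC Pool.Agent.W522.U
open Pool.Agent.W548.Odd hiding cv
open Pool.Agent.H926.T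
open Pool.Agent.H204R3.SP (Kills)
open Pool.Agent.Y224.TS (TD LT_gen LT_br LT_le)

open scoped ComplexOrder

noncomputable section

variable {G : ℕ} {Z : Matrix (Fin G) (Fin G) ℂ}

theorem Om_cast : (Om G ℚ).map (fun x : ℚ => (x : ℂ)) = Om G ℂ := by
  ext i j
  rcases i with i | i <;> rcases j with j | j <;>
    simp [Om, Matrix.one_apply, apply_ite]

/-- The trace form is nondegenerate on the Lefschetz Lie algebra. -/
theorem lefC_nd (h : PM Z) {X : Matrix (Fin G ⊕ Fin G) (Fin G ⊕ Fin G) ℂ} (hX : X ∈ lefC Z)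
    (h0 : ∀ Y ∈ lefC Z, trace (X * Y) = 0) : X = 0 := by
  obtain ⟨y, hy, hyy⟩ := exists_sqrt (OmJ_posDef h.symm h.pos)
  rw [star_eq_conjTranspose, conjTranspose_eq_transpose_of_trivial] at hyy
  obtain ⟨J, hJ⟩ : ∃ J, J = cm (JR Z) := ⟨_, rfl⟩
  obtain ⟨O, hO⟩ : ∃ O, O = Om G ℂ := ⟨_, rfl⟩
  have hJD : J = Complex.I • DZ Z := by
    change _ = Complex.I • ((-Complex.I) • cm (JR Z))
    rw [smul_smul, show Complex.I * -Complex.I = 1 by simp, one_smul, hJ]
  have hOm : cm (Om G ℝ) = O := by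
    rw [hO]
    ext i j
    rcases i with i | i <;> rcases j with j | j <;>
      simp [cm, Om, Matrix.one_apply, apply_ite]
  have hOO : O * O = -1 := by rw [hO]; exact Om_sq ℂ
  have hJJ : J * J = -1 := by
    rw [hJD, smul_mul_smul_comm, Complex.I_mul_I, DZ_sq h.det, neg_smul, one_smul]
  have hJO : Jᵀ * O = -(O * J) := by
    have h1 := DZ_sp h.symm
    rw [Om_cast] at h1
    rw [hJD, hO, transpose_smul, Matrix.smul_mul, Matrix.mul_smul, ← smul_neg]
    congr 1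
    exact eq_neg_of_add_eq_zero_left h1
  obtain ⟨Xb, hXb⟩ : ∃ Xb, Xb = X.map cc := ⟨_, rfl⟩
  have hb : Xb ∈ lefC Z := by rw [hXb]; exact Conv.lefC_gal cc X hX
  have hb1 : Xbᵀ * O = -(O * Xb) := by
    rw [hO]
    exact eq_neg_of_add_eq_zero_left hb.1
  have hY : J * Xb * J ∈ lefC Z := by
    refine ⟨?_, fun φ hφ => ?_⟩
    · rw [← hO]
      have h1 : (J * Xb * J)ᵀ * O = Jᵀ * (Xbᵀ * (Jᵀ * O)) := by
        rw [transpose_mul, transpose_mul]
        simp only [Matrix.mul_assoc]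
      rw [h1, hJO]
      have h2 : Jᵀ * (Xbᵀ * -(O * J)) = -(Jᵀ * ((Xbᵀ * O) * J)) := by noncomm_ring
      rw [h2, hb1]
      have h3 : -(Jᵀ * (-(O * Xb) * J)) = (Jᵀ * O) * (Xb * J) := by noncomm_ring
      rw [h3, hJO]
      noncomm_ring
    · have h1 : J * qm φ = qm φ * J := by
        rw [hJD, Matrix.smul_mul, Matrix.mul_smul, hφ]
      have h2 := hb.2 φ hφ
      calc J * Xb * J * qm φ = J * Xb * (J * qm φ) := by rw [Matrix.mul_assoc]
        _ = J * (Xb * qm φ) * J := by rw [h1]; noncomm_ring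
        _ = (J * qm φ) * (Xb * J) := by rw [h2]; noncomm_ring
        _ = qm φ * (J * Xb * J) := by rw [h1]; noncomm_ring
  have htr := h0 _ hY
  obtain ⟨yi, hyi⟩ : ∃ yi, yi * y = 1 := hy.exists_left_inv
  have hyi' : y * yi = 1 := mul_eq_one_comm.1 hyi
  have c1 : cm yi * cm y = 1 := by rw [← cm_mul, hyi, cm_one]
  have c2 : cm y * cm yi = 1 := by rw [← cm_mul, hyi', cm_one]
  have hOJ : O * J = (cm y)ᴴ * cm y := by
    rw [hJ, ← hOm, ← cm_mul, hyy, cm_mul]
    congr 1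
    ext i j
    simp [cm, conjTranspose_apply]
  have hinv : cm yi * (cm yi)ᴴ = J * O := by
    have h1 : (O * J) * (J * O) = 1 := by
      have : (O * J) * (J * O) = O * (J * J) * O := by noncomm_ring
      rw [this, hJJ]
      have : O * -1 * O = -(O * O) := by noncomm_ring
      rw [this, hOO, neg_neg]
    have h2 : cm yi * (cm yi)ᴴ * (O * J) = 1 := by
      rw [hOJ]
      have : cm yi * (cm yi)ᴴ * ((cm y)ᴴ * cm y) = cm yi * ((cm yi)ᴴ * (cm y)ᴴ) * cm y := by
        noncomm_ring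
      rw [this, ← conjTranspose_mul, c2, conjTranspose_one, Matrix.mul_one, c1]
    calc cm yi * (cm yi)ᴴ = cm yi * (cm yi)ᴴ * ((O * J) * (J * O)) := by rw [h1, Matrix.mul_one]
      _ = cm yi * (cm yi)ᴴ * (O * J) * (J * O) := by rw [Matrix.mul_assoc (cm yi * (cm yi)ᴴ)]
      _ = J * O := by rw [h2, Matrix.one_mul]
  have hXH : Xᴴ = Xbᵀ := by
    rw [hXb]
    ext i j
    rfl
  obtain ⟨N, hN⟩ : ∃ N, N = cm y * X * cm yi := ⟨_, rfl⟩
  have h5 : O * Xbᵀ * O = Xb := by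
    rw [Matrix.mul_assoc, hb1, Matrix.mul_neg, ← Matrix.mul_assoc, hOO, Matrix.neg_mul,
      Matrix.one_mul, neg_neg]
  have hNN : trace (N * Nᴴ) = 0 := by
    rw [hN, conjTranspose_mul, conjTranspose_mul, hXH]
    have h1 : cm y * X * cm yi * ((cm yi)ᴴ * (Xbᵀ * (cm y)ᴴ)) =
        cm y * (X * (cm yi * (cm yi)ᴴ) * Xbᵀ * (cm y)ᴴ) := by noncomm_ring
    rw [h1, Matrix.trace_mul_comm, hinv]
    have h2 : X * (J * O) * Xbᵀ * (cm y)ᴴ * cm y = X * J * (O * Xbᵀ) * ((cm y)ᴴ * cm y) := by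
      noncomm_ring
    rw [h2, ← hOJ]
    have h3 : X * J * (O * Xbᵀ) * (O * J) = X * (J * (O * Xbᵀ * O) * J) := by noncomm_ring
    rw [h3, h5]
    exact htr
  have hN0 : N = 0 := trace_mul_conjTranspose_self_eq_zero_iff.1 hNN
  calc X = cm yi * cm y * X * (cm yi * cm y) := by rw [c1, Matrix.one_mul, Matrix.mul_one]
    _ = cm yi * (cm y * X * cm yi) * cm y := by noncomm_ring
    _ = 0 := by rw [← hN, hN0, Matrix.mul_zero, Matrix.zero_mul]

theorem lefC_br {X Y : Matrix (Fin G ⊕ Fin G) (Fin G ⊕ Fin G) ℂ} (hX : X ∈ lefC Z)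
    (hY : Y ∈ lefC Z) : X * Y - Y * X ∈ lefC Z := by
  obtain ⟨x1, x2⟩ := hX
  obtain ⟨y1, y2⟩ := hY
  refine ⟨?_, fun φ hφ => ?_⟩
  · have e1 : Xᵀ * Om G ℂ = -(Om G ℂ * X) := eq_neg_of_add_eq_zero_left x1
    have e2 : Yᵀ * Om G ℂ = -(Om G ℂ * Y) := eq_neg_of_add_eq_zero_left y1
    have h1 : (X * Y - Y * X)ᵀ * Om G ℂ = Yᵀ * (Xᵀ * Om G ℂ) - Xᵀ * (Yᵀ * Om G ℂ) := by
      rw [transpose_sub, transpose_mul, transpose_mul]
      noncomm_ring
    rw [h1, e1, e2]
    have h2 : Yᵀ * -(Om G ℂ * X) - Xᵀ * -(Om G ℂ * Y) =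
        -((Yᵀ * Om G ℂ) * X) + (Xᵀ * Om G ℂ) * Y := by noncomm_ring
    rw [h2, e1, e2]
    noncomm_ring
  · have e1 := x2 φ hφ
    have e2 := y2 φ hφ
    calc (X * Y - Y * X) * qm φ = X * (Y * qm φ) - Y * (X * qm φ) := by noncomm_ring
      _ = X * (qm φ * Y) - Y * (qm φ * X) := by rw [e1, e2]
      _ = (X * qm φ) * Y - (Y * qm φ) * X := by noncomm_ring
      _ = qm φ * (X * Y - Y * X) := by rw [e1, e2]; noncomm_ring

/-- The span of the commutators. -/
def comC (Z : Matrix (Fin G) (Fin G) ℂ) :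
    Submodule ℂ (Matrix (Fin G ⊕ Fin G) (Fin G ⊕ Fin G) ℂ) :=
  Submodule.span ℂ {W | ∃ X ∈ lefC Z, ∃ Y ∈ lefC Z, W = X * Y - Y * X}

theorem LZ_le_lefC (h : PM Z) : LZ Z ≤ lefC Z := by
  refine LZ_le (fun σ => ?_) fun A hA B hB => lefC_br hA hB
  refine ⟨?_, fun φ hφ => ?_⟩
  · have h0 := DZ_sp h.symm
    rw [Om_cast] at h0
    have h1 := congrArg (fun M => Matrix.map M σ) h0
    simp only [Matrix.map_add σ (map_add σ), Matrix.map_mul, Matrix.map_zero σ (map_zero σ),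
      Conv.Om_map, Matrix.transpose_map] at h1
    exact h1
  · exact Conv.LZ_comm hφ _ (DS_mem σ)

/-- **Elements of the Lefschetz Lie algebra which are orthogonal to the endomorphisms are
combinations of commutators.** -/
theorem mem_comC (h : PM Z) {W : Matrix (Fin G ⊕ Fin G) (Fin G ⊕ Fin G) ℂ} (hW : W ∈ lefC Z)
    (h0 : ∀ φ : Matrix (Fin G ⊕ Fin G) (Fin G ⊕ Fin G) ℚ, qm φ * DZ Z = DZ Z * qm φ →
      trace (W * qm φ) = 0) : W ∈ comC Z := by
  let B : LinearMap.BilinForm ℂ (lefC Z) :=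
    LinearMap.mk₂ ℂ (fun X Y => trace ((X : Matrix (Fin G ⊕ Fin G) (Fin G ⊕ Fin G) ℂ) *
      (Y : Matrix (Fin G ⊕ Fin G) (Fin G ⊕ Fin G) ℂ)))
      (fun X X' Y => by
        rw [Submodule.coe_add, Matrix.add_mul, trace_add])
      (fun c X Y => by
        rw [Submodule.coe_smul, Matrix.smul_mul, trace_smul])
      (fun X Y Y' => by
        rw [Submodule.coe_add, Matrix.mul_add, trace_add])
      (fun c X Y => by
        rw [Submodule.coe_smul, Matrix.mul_smul, trace_smul])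
  have hB : ∀ X Y : lefC Z, B X Y = trace ((X : Matrix (Fin G ⊕ Fin G) (Fin G ⊕ Fin G) ℂ) *
      (Y : Matrix (Fin G ⊕ Fin G) (Fin G ⊕ Fin G) ℂ)) := fun _ _ => rfl
  have hsym : ∀ X Y : lefC Z, B X Y = B Y X := fun X Y => by
    rw [hB, hB, trace_mul_comm]
  have hrefl : B.IsRefl := fun X Y hXY => by rw [hsym]; exact hXY
  have hnd : B.Nondegenerate := by
    refine ⟨fun X hX => ?_, fun X hX => ?_⟩
    · refine Subtype.ext (lefC_nd h X.2 fun Y hY => ?_)
      exact hX ⟨Y, hY⟩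
    · refine Subtype.ext (lefC_nd h X.2 fun Y hY => ?_)
      have := hX ⟨Y, hY⟩
      rw [hsym] at this
      exact this
  let C : Submodule ℂ (lefC Z) := (comC Z).comap (lefC Z).subtype
  have hoo : B.orthogonal (B.orthogonal C) = C := LinearMap.BilinForm.orthogonal_orthogonal hnd hrefl C
  have hmem : (⟨W, hW⟩ : lefC Z) ∈ B.orthogonal (B.orthogonal C) := by
    rw [LinearMap.BilinForm.mem_orthogonal_iff]
    intro K hK
    rw [LinearMap.BilinForm.mem_orthogonal_iff] at hK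
    -- `K` commutes with the Lefschetz Lie algebra
    have hKc : ∀ X ∈ lefC Z, (K : Matrix (Fin G ⊕ Fin G) (Fin G ⊕ Fin G) ℂ) * X - X * K = 0 := by
      intro X hX
      refine lefC_nd h (lefC_br K.2 hX) fun Y hY => ?_
      have h1 := hK ⟨X * Y - Y * X, lefC_br hX hY⟩
        (Submodule.subset_span ⟨X, hX, Y, hY, rfl⟩)
      have h2 : trace ((X * Y - Y * X) * (K : Matrix (Fin G ⊕ Fin G) (Fin G ⊕ Fin G) ℂ)) = 0 := h1
      obtain ⟨K₀, hK₀⟩ : ∃ K₀, K₀ = (K : Matrix (Fin G ⊕ Fin G) (Fin G ⊕ Fin G) ℂ) := ⟨_, rfl⟩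
      rw [← hK₀] at h2 ⊢
      have h3 : trace ((K₀ * X - X * K₀) * Y) = trace ((X * Y - Y * X) * K₀) := by
        rw [Matrix.sub_mul, Matrix.sub_mul, trace_sub, trace_sub]
        congr 1
        · rw [Matrix.mul_assoc, trace_mul_comm]
        · rw [trace_mul_comm, Matrix.mul_assoc]
      rw [h3, h2]
    -- the commutant of the Hodge Lie algebra is spanned by endomorphisms
    let C' : Submodule ℂ (Matrix (Fin G ⊕ Fin G) (Fin G ⊕ Fin G) ℂ) :=
      { carrier := {W | ∀ A ∈ LZ Z, A * W = W * A}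
        add_mem' := by
          intro U W hU hW A hA
          rw [Matrix.mul_add, Matrix.add_mul, hU A hA, hW A hA]
        zero_mem' := by
          intro A hA
          rw [Matrix.mul_zero, Matrix.zero_mul]
        smul_mem' := by
          intro c W hW A hA
          rw [Matrix.mul_smul, Matrix.smul_mul, hW A hA] }
    have hC' : ∀ (σ : ℂ ≃+* ℂ), ∀ W ∈ C', W.map σ ∈ C' := by
      intro σ W hW A hA
      have h1 := hW _ (gal_LZ σ.symm A hA)
      have h2 := congrArg (fun M => Matrix.map M σ) h1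
      have h3 : (A.map σ.symm).map σ = A := by
        ext i j
        simp
      simp only [Matrix.map_mul, h3] at h2
      exact h2
    have key : ∀ K' ∈ C', trace (K' * W) = 0 := by
      refine rational_induction C' hC' ?_ ?_ ?_ ?_
      · intro u hu
        have hu' : ∀ A ∈ LZ Z, A * qm u = qm u * A := hu
        have h1 : qm u * DZ Z = DZ Z * qm u := (hu' _ DZ_mem).symm
        have h2 := h0 u h1
        rw [trace_mul_comm] at h2
        exact h2
      · simp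
      · intro U V hU hV
        rw [Matrix.add_mul, Matrix.trace_add, hU, hV, add_zero]
      · intro c V hV
        rw [Matrix.smul_mul, Matrix.trace_smul, hV, smul_zero]
    refine key K fun A hA => ?_
    exact (sub_eq_zero.1 (hKc A (LZ_le_lefC h hA))).symm
  rw [hoo] at hmem
  exact hmem

end

end Pool.Agent.H926.A
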