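import Mathlib
import Pool.Agent.H926.A.Tfn
import Pool.Agent.H926.T.Sat7
import Pool.Agent.H926.T.Main

/-!
# Tate classes on the powers and the Lefschetz Lie algebra
-/

set_option linter.unusedSectionVars false

namespace Pool.Agent.H926.A

open Matrix Module Pool.Agent.Y90 Pool.Agent.W437.HC Pool.Agent.W437.HD
open Pool.Agent.W548.Odd hiding cv
open Pool.Agent.H926.T
open Pool.Agent.H204R3.SP Pool.Agent.H204R3.GP TensorProduct
open Pool.Agent.W437.HP (cK cK_mul cK_one)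
open Pool.Agent.H204R3.CM (IsHodge HodgeMul)
open Pool.Agent.TH504.CB (isHodge_comp)
open Pool.Agent.Y4.P (WeilRing)
open Pool.Agent.R915 (IsFactor)
open Pool.Agent.Y224.TS
open Pool.Agent.Y224.TS.St (IsHodgeTate IsTateModule)
open Pool.Agent.Y91.L (hodgeMul_of)

noncomputable section

section lie

variable {G : ℕ} {Z : Matrix (Fin G) (Fin G) ℂ}

theorem mem_lefC_of {X : Matrix (Fin G ⊕ Fin G) (Fin G ⊕ Fin G) ℂ}
    (h1 : ∀ u v, om G (X *ᵥ u) v + om G u (X *ᵥ v) = 0)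
    (h2 : ∀ φ : Matrix (Fin G ⊕ Fin G) (Fin G ⊕ Fin G) ℚ, qm φ * DZ Z = DZ Z * qm φ →
      X * qm φ = qm φ * X) : X ∈ lefC Z := by
  refine ⟨?_, h2⟩
  ext i j
  have h3 := h1 (Pi.single i 1) (Pi.single j 1)
  rw [om_apply, om_apply] at h3
  have e3 : (X *ᵥ Pi.single i (1 : ℂ)) ⬝ᵥ Om G ℂ *ᵥ Pi.single j 1 = (Xᵀ * Om G ℂ) i j := by
    rw [Matrix.mulVec_single_one, Matrix.mulVec_single_one, Matrix.mul_apply]
    rfl
  have e4 : (Pi.single i (1 : ℂ)) ⬝ᵥ Om G ℂ *ᵥ X *ᵥ Pi.single j 1 = (Om G ℂ * X) i j := by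
    rw [Matrix.mulVec_mulVec, Matrix.mulVec_single_one, single_one_dotProduct]
    rfl
  rw [e3, e4] at h3
  exact h3

/-- **Forms which are killed by the involutions and by the commutators of the Lefschetz Lie algebra
are killed by the Hodge Lie algebra.** -/
theorem LZ_kills (h : PM Z) {S : Set (Matrix (Fin G ⊕ Fin G) (Fin G ⊕ Fin G) ℂ)} (hS : TD Z S)
    {κ : Type} [Fintype κ] [DecidableEq κ]
    (φ : MultilinearMap ℂ (fun _ : κ => Fin G ⊕ Fin G → ℂ) ℂ)
    (h1 : ∀ D ∈ S, Kills (ph (Fin G ⊕ Fin G) D) φ)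
    (h2 : ∀ X ∈ lefC Z, ∀ Y ∈ lefC Z, Kills (ph (Fin G ⊕ Fin G) (X * Y - Y * X)) φ) :
    LZ Z ≤ killL φ := by
  have h4 : comC Z ≤ killL φ := by
    refine Submodule.span_le.2 ?_
    rintro _ ⟨X, hX, Y, hY, rfl⟩
    exact act_of_kills (h2 X hX Y hY)
  refine LZ_le (fun σ => ?_) fun A hA C hC => act_bracket hA hC
  obtain ⟨D, hD, hD'⟩ := hS.ex σ
  have hDl : D ∈ lefC Z := mem_lefC_of (hS.sp D hD) fun φ hφ => by
    have h5 := (hS.comm (qm φ)).2 (fun X hX => (Conv.LZ_comm hφ X hX).symm) D hD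
    exact h5.symm
  have hW : DS Z σ - D ∈ comC Z := by
    refine mem_comC h ((lefC Z).sub_mem (LZ_le_lefC h (DS_mem σ)) hDl) fun φ hφ => ?_
    have h5 := hD' (qm φ) (fun X hX => (Conv.LZ_comm hφ X hX).symm)
    rw [Matrix.sub_mul, trace_sub, trace_mul_comm, trace_mul_comm D, h5, sub_self]
  have h6 := (killL φ).add_mem (h4 hW) (act_of_kills (h1 D hD))
  rwa [sub_add_cancel] at h6

end lie

variable {K : Type} [Field K] [CharZero K] {Γ : Type} [Group Γ] {H T : Type} [AddCommGroup H]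
  [Module ℚ H] [AddCommGroup T] [Module ℂ T] {per : H →+ T}

section base

variable [Algebra K ℂ] {G : ℕ}

/-- Base change of killed forms. -/
theorem kills_FC (b : Basis (Fin G ⊕ Fin G) ℚ H) {m : ℕ}
    (φ : MultilinearMap K (fun _ : Fin m × Fin 2 => K ⊗[ℚ] H) K) (z : H →ₗ[ℚ] H)
    (hz : Kills (z.baseChange K) φ) :
    Kills (ph (Fin G ⊕ Fin G) (qm (matQ b.equivFun z))) (FC b φ) := by
  classical
  refine kills_of_basis (Pi.basisFun ℂ (Fin G ⊕ Fin G)) _ _ fun I => ?_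
  let v : Fin m × Fin 2 → Fin G ⊕ Fin G → ℚ := fun k => Pi.single (I k) 1
  have hcv : ∀ k, Pi.basisFun ℂ (Fin G ⊕ Fin G) (I k) = Pool.Agent.Y90.cv (v k) := by
    intro k
    funext i
    rw [Pi.basisFun_apply]
    change (Pi.single (I k) 1 : Fin G ⊕ Fin G → ℂ) i = (((Pi.single (I k) 1 : Fin G ⊕ Fin G → ℚ) i : ℚ) : ℂ)
    by_cases hi : i = I k
    · subst hi; simp
    · rw [Pi.single_eq_of_ne hi, Pi.single_eq_of_ne hi, Rat.cast_zero]
  have hM : ∀ w : Fin G ⊕ Fin G → ℚ, (ph (Fin G ⊕ Fin G) (qm (matQ b.equivFun z)))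
      (Pool.Agent.Y90.cv w) = Pool.Agent.Y90.cv (b.equivFun (z (b.equivFun.symm w))) := by
    intro w
    have h1 : matQ b.equivFun z *ᵥ w = b.equivFun (z (b.equivFun.symm w)) := by
      unfold matQ
      rw [← Matrix.toLin'_apply, Matrix.toLin'_toMatrix']
      rfl
    rw [← h1]
    funext i
    change ((qm (matQ b.equivFun z)) *ᵥ _) i = _
    simp [Pool.Agent.Y90.cv, mulVec, dotProduct, qm]
  have h1 : ∀ k, FC b φ (Function.update (fun l => Pi.basisFun ℂ (Fin G ⊕ Fin G) (I l)) k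
      ((ph (Fin G ⊕ Fin G) (qm (matQ b.equivFun z))) (Pi.basisFun ℂ (Fin G ⊕ Fin G) (I k)))) =
      algebraMap K ℂ (φ (Function.update (fun l => (1 : K) ⊗ₜ[ℚ] b.equivFun.symm (v l)) k
        (z.baseChange K ((1 : K) ⊗ₜ[ℚ] b.equivFun.symm (v k))))) := by
    intro k
    rw [hcv k, hM]
    have h2 : (Function.update (fun l => Pi.basisFun ℂ (Fin G ⊕ Fin G) (I l)) k
        (Pool.Agent.Y90.cv (b.equivFun (z (b.equivFun.symm (v k)))))) =
        fun l => Pool.Agent.Y90.cv (Function.update v k (b.equivFun (z (b.equivFun.symm (v k)))) l) := by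
      funext l
      by_cases hl : l = k
      · subst hl
        rw [Function.update_self, Function.update_self]
      · rw [Function.update_of_ne hl, Function.update_of_ne hl, hcv]
    rw [h2, FC_rat]
    congr 2
    funext l
    by_cases hl : l = k
    · subst hl
      rw [Function.update_self, Function.update_self, LinearEquiv.symm_apply_apply]
      rfl
    · rw [Function.update_of_ne hl, Function.update_of_ne hl]
  rw [Finset.sum_congr rfl fun k _ => h1 k, ← map_sum, hz, map_zero]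

end base

section defs

/-- Tate tensors. -/
def TateT {κ : Type} (ρ : Representation K Γ (K ⊗[ℚ] H)) (χ : Γ →* K) (m : ℕ)
    (φ : (κ → K ⊗[ℚ] H) → K) : Prop :=
  ∃ Δ : Subgroup Γ, Δ.FiniteIndex ∧ ∀ g ∈ Δ, ∀ v, φ (fun k => ρ g (v k)) = χ g ^ m * φ v

/-- Tate classes on powers. -/
def TateP {κ : Type} (ρ : Representation K Γ (K ⊗[ℚ] H)) (χ : Γ →* K) (n m : ℕ)
    (φ : (κ → Fin n → K ⊗[ℚ] H) → K) : Prop :=
  ∃ Δ : Subgroup Γ, Δ.FiniteIndex ∧
    ∀ g ∈ Δ, ∀ v, φ (fun k i => ρ g (v k i)) = χ g ^ m * φ v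

/-- Combinations of Hodge tensors. -/
def HodgeC (per : H →+ T) {κ : Type} (φ : (κ → K ⊗[ℚ] H) → K) : Prop :=
  ∃ (N : ℕ) (c : Fin N → K) (f : Fin N → MultilinearMap ℚ (fun _ : κ => H) ℚ),
    (∀ j, HodgeMul per (f j)) ∧
      ∀ v : κ → H, φ (fun k => (1 : K) ⊗ₜ[ℚ] v k) = ∑ j, c j * ((f j v : ℚ) : K)

end defs

section one

/-- **First implication.** -/
theorem one_two (hX : Pool.Agent.Y90.St.IsAV per) {ρ : Representation K Γ (K ⊗[ℚ] H)} {χ : Γ →* K}
    (hP : ∀ (n m : ℕ) (φ : (Fin n → K ⊗[ℚ] H) [⋀^Fin (2 * m)]→ₗ[K] K), TateP ρ χ n m φ →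
        ∃ (N : ℕ) (c : Fin N → K) (f : Fin N → ((Fin n → H) [⋀^Fin (2 * m)]→ₗ[ℚ] ℚ)),
          (∀ j, WeilRing (powPer per n) (Fin (2 * m)) (f j)) ∧
            ∀ v : Fin (2 * m) → Fin n → H,
              φ (fun k i => (1 : K) ⊗ₜ[ℚ] v k i) = ∑ j, c j * ((f j v : ℚ) : K))
    (x y : H →ₗ[ℚ] H) (hx : InLef per x) (hy : InLef per y) {m : ℕ} {κ : Type} [Fintype κ]
    [DecidableEq κ] (hκ : Fintype.card κ = 2 * m)
    (φ : MultilinearMap K (fun _ : κ => K ⊗[ℚ] H) K) (hφ : TateT ρ χ m φ) :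
    Kills ((x ∘ₗ y - y ∘ₗ x).baseChange K) φ := by
  classical
  have : FiniteDimensional ℚ H := hX.1
  obtain ⟨n, hn⟩ : ∃ n, n = 2 * m := ⟨_, rfl⟩
  have e : κ ≃ Fin n := Fintype.equivOfCardEq (by rw [Fintype.card_fin, hn, hκ])
  let φ' : MultilinearMap K (fun _ : Fin n => K ⊗[ℚ] H) K := φ.domDomCongr e
  have hφ' : ∀ v, φ' v = φ (fun k => v (e k)) := fun v => rfl
  let g' : MultilinearMap K (fun _ : Fin n => (Fin n → K ⊗[ℚ] H)) K :=
    φ'.compLinearMap fun k => LinearMap.proj k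
  let Φ : (Fin n → K ⊗[ℚ] H) [⋀^Fin n]→ₗ[K] K := MultilinearMap.alternatization g'
  have hΦ : ∀ v, Φ v = ∑ σ : Equiv.Perm (Fin n), ((Equiv.Perm.sign σ : ℤ)) •
      φ' (fun k => v (σ k) k) := by
    intro v
    simp only [Φ, MultilinearMap.alternatization_apply]
    refine Finset.sum_congr rfl fun σ _ => ?_
    rfl
  have hT : TateP ρ χ n m Φ := by
    obtain ⟨Δ, hΔ, h⟩ := hφ
    refine ⟨Δ, hΔ, fun g hg v => ?_⟩
    rw [hΦ, hΦ, Finset.mul_sum]
    refine Finset.sum_congr rfl fun σ _ => ?_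
    have h1 := h g hg (fun k => v (σ (e k)) (e k))
    rw [hφ', hφ', h1, mul_smul_comm]
  obtain ⟨N, c, f, hf, hfv⟩ : ∃ (N : ℕ) (c : Fin N → K) (f : Fin N → ((Fin n → H) [⋀^Fin n]→ₗ[ℚ] ℚ)),
      (∀ j, WeilRing (powPer per n) (Fin n) (f j)) ∧
        ∀ v : Fin n → Fin n → H,
          Φ (fun k i => (1 : K) ⊗ₜ[ℚ] v k i) = ∑ j, c j * ((f j v : ℚ) : K) := by
    clear_value Φ
    clear hΦ g' φ' hφ' e
    subst hn
    exact hP (2 * m) m Φ hT
  have hWR := s_wr s_mov s_adj s_pav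
  have hk : ∀ j, KillQ (dg n (x ∘ₗ y - y ∘ₗ x)) (f j).toMultilinearMap := by
    intro j
    have h3 := hWR (Fin n → H) (Fin n → T) (powPer per n) (s_pav H T per hX n) (dg n x) (dg n y)
      ((s_lp H T per hX n).1 x hx) ((s_lp H T per hX n).1 y hy) (Fin n) (f j) (hf j)
    rw [dg_br] at h3
    exact h3
  obtain ⟨z, hz⟩ : ∃ z, z = x ∘ₗ y - y ∘ₗ x := ⟨_, rfl⟩
  rw [← hz] at hk ⊢
  -- values of `Φ` at the diagonal
  have hdiag : ∀ u : Fin n → K ⊗[ℚ] H, Φ (fun k => Pi.single k (u k)) = φ' u := by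
    intro u
    rw [hΦ, Finset.sum_eq_single (1 : Equiv.Perm (Fin n))]
    · rw [Equiv.Perm.sign_one]
      simp only [Units.val_one, one_smul, Equiv.Perm.coe_one, id_eq]
      congr 1
      funext l
      exact Pi.single_eq_same (M := fun _ : Fin n => K ⊗[ℚ] H) l _
    · intro σ _ hσ
      obtain ⟨k, hk'⟩ : ∃ k, σ k ≠ k := by
        by_contra hcon
        push Not at hcon
        exact hσ (Equiv.ext hcon)
      have h1 : φ' (fun k => (Pi.single (σ k) (u (σ k)) : Fin n → K ⊗[ℚ] H) k) = 0 :=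
        φ'.map_coord_zero k (Pi.single_eq_of_ne (Ne.symm hk') _)
      rw [h1, smul_zero]
    · intro h
      exact absurd (Finset.mem_univ _) h
  have hrat : ∀ w : Fin n → H, ∑ k, φ' (fun l => (1 : K) ⊗ₜ[ℚ] Function.update w k (z (w k)) l) = 0 := by
    intro w
    let v : Fin n → Fin n → H := fun k => Pi.single k (w k)
    have h1 : ∀ k, φ' (fun l => (1 : K) ⊗ₜ[ℚ] Function.update w k (z (w k)) l) =
        ∑ j, c j * ((f j (Function.update v k (dg n z (v k))) : ℚ) : K) := by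
      intro k
      rw [← hfv, ← hdiag]
      congr 1
      funext l i
      have h2 : (Function.update v k (dg n z (v k))) l =
          Pi.single l (Function.update w k (z (w k)) l) := by
        by_cases hl : l = k
        · subst hl
          rw [Function.update_self, Function.update_self]
          funext i
          rw [dg_apply]
          by_cases hi : i = l
          · subst hi
            change z ((Pi.single i (w i) : Fin n → H) i) = (Pi.single i (z (w i)) : Fin n → H) i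
            rw [Pi.single_eq_same, Pi.single_eq_same]
          · change z ((Pi.single l (w l) : Fin n → H) i) = (Pi.single l (z (w l)) : Fin n → H) i
            rw [Pi.single_eq_of_ne hi, Pi.single_eq_of_ne hi, map_zero]
        · rw [Function.update_of_ne hl, Function.update_of_ne hl]
      rw [h2]
      by_cases hi : i = l
      · subst hi
        rw [Pi.single_eq_same, Pi.single_eq_same]
      · rw [Pi.single_eq_of_ne hi, Pi.single_eq_of_ne hi, TensorProduct.tmul_zero]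
    rw [Finset.sum_congr rfl fun k _ => h1 k, Finset.sum_comm]
    refine Finset.sum_eq_zero fun j _ => ?_
    rw [← Finset.mul_sum, ← Rat.cast_sum]
    have h2 := hk j v
    have h3 : ∑ k, (f j) (Function.update v k (dg n z (v k))) = 0 := h2
    rw [h3, Rat.cast_zero, mul_zero]
  refine kills_of_basis ((finBasis ℚ H).baseChange K) _ _ fun I => ?_
  have h1 := hrat (fun l => finBasis ℚ H (I (e.symm l)))
  rw [← h1, ← Equiv.sum_comp e]
  refine Finset.sum_congr rfl fun k _ => ?_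
  rw [hφ']
  congr 1
  funext l
  by_cases hl : l = k
  · subst hl
    rw [Function.update_self, Function.update_self, Equiv.symm_apply_apply, Basis.baseChange_apply]
    rfl
  · rw [Function.update_of_ne hl, Function.update_of_ne (fun h => hl (e.injective h)),
      Equiv.symm_apply_apply, Basis.baseChange_apply]

end one

section two

variable [Algebra K ℂ] [Algebra.IsAlgebraic K ℂ] {ρ : Representation K Γ (K ⊗[ℚ] H)} {χ : Γ →* K}
  {E : H → H → ℚ}

/-- Commutators of the complexified Lefschetz Lie algebra kill the forms. -/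
theorem kills_com {G : ℕ} (b : Basis (Fin G ⊕ Fin G) ℚ H) {Z : Matrix (Fin G) (Fin G) ℂ} (hZ : PM Z)
    (hC : Cht (per.comp b.equivFun.symm.toLinearMap.toAddMonoidHom) (JR Z)) {m : ℕ}
    (φ : MultilinearMap K (fun _ : Fin m × Fin 2 => K ⊗[ℚ] H) K)
    (hK : ∀ x y : H →ₗ[ℚ] H, InLef per x → InLef per y →
      Kills ((x ∘ₗ y - y ∘ₗ x).baseChange K) φ) :
    ∀ X ∈ lefC Z, ∀ Y ∈ lefC Z, Kills (ph (Fin G ⊕ Fin G) (X * Y - Y * X)) (FC b φ) := by
  intro X hX Y hY
  obtain ⟨t1, -⟩ := s_tra H T per G Z hZ b.equivFun hC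
  obtain ⟨m, c, x, hx, rfl⟩ := s_ratl G Z X hX
  obtain ⟨n, d, y, hy, rfl⟩ := s_ratl G Z Y hY
  have hm : ∀ M : Matrix (Fin G ⊕ Fin G) (Fin G ⊕ Fin G) ℚ, ∃ x : H →ₗ[ℚ] H,
      matQ b.equivFun x = M := by
    intro M
    refine ⟨b.equivFun.symm.toLinearMap ∘ₗ Matrix.mulVecLin M ∘ₗ b.equivFun.toLinearMap, ?_⟩
    unfold matQ
    have h1 : b.equivFun.toLinearMap ∘ₗ (b.equivFun.symm.toLinearMap ∘ₗ Matrix.mulVecLin M ∘ₗ
        b.equivFun.toLinearMap) ∘ₗ b.equivFun.symm.toLinearMap = Matrix.toLin' M := by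
      refine LinearMap.ext fun v => ?_
      change b.equivFun (b.equivFun.symm (M *ᵥ b.equivFun (b.equivFun.symm v))) = _
      rw [LinearEquiv.apply_symm_apply, LinearEquiv.apply_symm_apply, Matrix.toLin'_apply]
    rw [h1, LinearMap.toMatrix'_toLin']
  have h1 : (∑ j, c j • qm (x j)) * (∑ k, d k • qm (y k)) -
      (∑ k, d k • qm (y k)) * ∑ j, c j • qm (x j) =
      ∑ j, ∑ k, (c j * d k) • (qm (x j) * qm (y k) - qm (y k) * qm (x j)) := by
    rw [Finset.sum_mul_sum, Finset.sum_mul_sum, Finset.sum_comm (s := Finset.univ (α := Fin n)),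
      ← Finset.sum_sub_distrib]
    refine Finset.sum_congr rfl fun j _ => ?_
    rw [← Finset.sum_sub_distrib]
    refine Finset.sum_congr rfl fun k _ => ?_
    rw [smul_mul_smul_comm, smul_mul_smul_comm, smul_sub, mul_comm (d k)]
  rw [h1]
  refine kills_of_act ?_
  change _ ∈ killL (FC b φ)
  refine Submodule.sum_mem _ fun j _ => Submodule.sum_mem _ fun k _ =>
    Submodule.smul_mem _ _ ?_
  obtain ⟨x', hx'⟩ := hm (x j)
  obtain ⟨y', hy'⟩ := hm (y k)
  have h2 := kills_FC b φ (x' ∘ₗ y' - y' ∘ₗ x') (hK x' y' ((t1 x').2 (by rw [hx']; exact hx j))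
    ((t1 y').2 (by rw [hy']; exact hy k)))
  rw [matQ_br, qm_br, hx', hy'] at h2
  exact act_of_kills h2

/-- **Second implication: the Mumford–Tate conjecture.** -/
theorem two_mt (hX : Pool.Agent.Y90.St.IsAV per) (hE : Pool.Agent.Y90.St.IsPolarization per E)
    (hρ : IsTateModule per E ρ χ)
    (hK : ∀ x y : H →ₗ[ℚ] H, InLef per x → InLef per y → ∀ (m : ℕ)
      (φ : MultilinearMap K (fun _ : Fin m × Fin 2 => K ⊗[ℚ] H) K), TateT ρ χ m φ →
        Kills ((x ∘ₗ y - y ∘ₗ x).baseChange K) φ)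
    {κ : Type} [Finite κ] {n : ℕ} (hκ : Nat.card κ = 2 * n)
    (φ : MultilinearMap K (fun _ : κ => K ⊗[ℚ] H) K) (hφ : TateT ρ χ n φ) : HodgeC per φ := by
  classical
  obtain ⟨a, Z, hZ, b, hC, hb⟩ := exists_ppav' hX hE
  have hTD : TD Z (SH per ρ χ b) := td_of b hb hC hρ
  let _ : Fintype κ := Fintype.ofFinite κ
  have e : κ ≃ Fin n × Fin 2 := Fintype.equivOfCardEq (by
    rw [← Nat.card_eq_fintype_card, hκ, Fintype.card_prod, Fintype.card_fin, Fintype.card_fin,
      mul_comm])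
  let φ' : MultilinearMap K (fun _ : Fin n × Fin 2 => K ⊗[ℚ] H) K := φ.domDomCongr e
  have hφ' : ∀ v, φ' v = φ (fun k => v (e k)) := fun v => rfl
  have hT : IsTate ρ χ n φ' := by
    obtain ⟨Δ, hΔ, h⟩ := hφ
    refine ⟨Δ, hΔ, fun s hs v => ?_⟩
    rw [hφ', hφ']
    exact h s hs (fun k => v (e k))
  have hkill : ∀ X' ∈ LZ Z, act X' (CF (FC b φ')) = 0 := fun X' hX' =>
    LZ_kills hZ hTD (FC b φ') (FC_kills b φ' hT)
      (kills_com b hZ hC φ' fun x y hx hy => hK x y hx hy n φ' hT) hX'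
  -- the rational parts
  obtain ⟨per', hper'⟩ : ∃ per' : (Fin a ⊕ Fin a → ℚ) →+ T,
    per' = per.comp b.equivFun.symm.toLinearMap.toAddMonoidHom := ⟨_, rfl⟩
  rw [← hper'] at hC
  let S : Set ((Fin n × Fin 2 → (Fin a ⊕ Fin a → ℚ)) → K) :=
    {s | ∃ r : MultilinearMap ℚ (fun _ : Fin n × Fin 2 => (Fin a ⊕ Fin a → ℚ)) ℚ,
      HodgeMul per' r ∧ s = fun v => ((r v : ℚ) : K)}
  have h2 : (fun v : Fin n × Fin 2 → (Fin a ⊕ Fin a → ℚ) =>
      algebraMap K ℂ (φ' (fun k => (1 : K) ⊗ₜ[ℚ] b.equivFun.symm (v k)))) ∈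
        Submodule.span ℂ {g : (Fin n × Fin 2 → Fin a ⊕ Fin a → ℚ) → ℂ |
          ∃ s ∈ S, g = fun v => algebraMap K ℂ (s v)} := by
    obtain ⟨m, c, l, hml⟩ := rat_expand (FC b φ')
    have h3 : (fun v : Fin n × Fin 2 → (Fin a ⊕ Fin a → ℚ) =>
        algebraMap K ℂ (φ' (fun k => (1 : K) ⊗ₜ[ℚ] b.equivFun.symm (v k)))) =
        ∑ j, c j • fun v : Fin n × Fin 2 → (Fin a ⊕ Fin a → ℚ) =>
          algebraMap K ℂ (((evalM (fun I => l j (CF (FC b φ') I)) v : ℚ) : K)) := by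
      funext v
      rw [← FC_rat, hml v, Finset.sum_apply]
      refine Finset.sum_congr rfl fun j _ => ?_
      rw [Pi.smul_apply, smul_eq_mul, map_ratCast, lam_eval, evalM_apply]
    rw [h3]
    refine Submodule.sum_mem _ fun j _ => Submodule.smul_mem _ _ (Submodule.subset_span ?_)
    refine ⟨_, ⟨evalM (fun I => l j (CF (FC b φ') I)), hodgeMul_of hC ?_, rfl⟩, rfl⟩
    exact kill_lam gal_LZ hkill (l j) _ DZ_mem
  have h3 : (fun v : Fin n × Fin 2 → (Fin a ⊕ Fin a → ℚ) =>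
      φ' (fun k => (1 : K) ⊗ₜ[ℚ] b.equivFun.symm (v k))) ∈ Submodule.span K S := by
    refine span_descent_k (Ω := ℂ) S _ ?_
    refine Submodule.span_mono ?_ h2
    rintro g ⟨s, hs, rfl⟩
    exact ⟨s, hs, rfl⟩
  obtain ⟨N, c, s, hs'⟩ := Submodule.mem_span_set'.1 h3
  choose r hr hr' using fun j => (s j).2
  refine ⟨N, c, fun j => ((r j).compLinearMap fun _ => b.equivFun.toLinearMap).domDomCongr e.symm,
    fun j => ?_, fun v => ?_⟩
  · obtain ⟨ψ, h4, h5⟩ := hr j
    refine ⟨ψ.domDomCongr e.symm, fun v => ?_, fun z hz u => ?_⟩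
    · rw [MultilinearMap.domDomCongr_apply, MultilinearMap.domDomCongr_apply,
        MultilinearMap.compLinearMap_apply, ← h4]
      congr 1
      funext k
      rw [hper']
      change _ = per (b.equivFun.symm (b.equivFun (v (e.symm k))))
      rw [LinearEquiv.symm_apply_apply]
    · rw [MultilinearMap.domDomCongr_apply, MultilinearMap.domDomCongr_apply]
      exact h5 z hz _
  · have h4 := congrFun hs' (fun k => b.equivFun (v (e.symm k)))
    beta_reduce at h4
    rw [hφ'] at h4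
    have h5 : (fun k => (1 : K) ⊗ₜ[ℚ] b.equivFun.symm (b.equivFun (v (e.symm (e k))))) =
        fun k => (1 : K) ⊗ₜ[ℚ] v k := by
      funext k
      rw [LinearEquiv.symm_apply_apply, Equiv.symm_apply_apply]
    rw [h5] at h4
    rw [← h4, Finset.sum_apply]
    refine Finset.sum_congr rfl fun j _ => ?_
    rw [Pi.smul_apply, smul_eq_mul, hr' j]
    rfl

/-- The theorem of Deligne: Hodge tensors are Tate tensors. -/
def DeligneT (per : H →+ T) (ρ : Representation K Γ (K ⊗[ℚ] H)) (χ : Γ →* K) : Prop :=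
  ∀ (m : ℕ) (f : MultilinearMap ℚ (fun _ : Fin (2 * m) => H) ℚ)
    (φ : MultilinearMap K (fun _ : Fin (2 * m) => K ⊗[ℚ] H) K), HodgeMul per f →
    (∀ v : Fin (2 * m) → H, φ (fun k => (1 : K) ⊗ₜ[ℚ] v k) = ((f v : ℚ) : K)) → TateT ρ χ m φ

/-- **Second implication: the Hodge Lie algebra.** -/
theorem two_hdg (hX : Pool.Agent.Y90.St.IsAV per) (hD : DeligneT per ρ χ)
    (x y : H →ₗ[ℚ] H) (hx : InLef per x) (hy : InLef per y)
    (hK : ∀ (m : ℕ) (φ : MultilinearMap K (fun _ : Fin (2 * m) => K ⊗[ℚ] H) K), TateT ρ χ m φ →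
        Kills ((x ∘ₗ y - y ∘ₗ x).baseChange K) φ) : InHdg per (x ∘ₗ y - y ∘ₗ x) := by
  classical
  have : FiniteDimensional ℚ H := hX.1
  obtain ⟨a, Z, h, A, hC⟩ := exists_ppav hX
  obtain ⟨t1, t2⟩ := s_tra H T per a Z h A hC
  refine (t2 _).2 ?_
  rw [matQ_br, qm_br]
  refine s_conv a Z h _ _ ((t1 x).1 hx) ((t1 y).1 hy) ?_
  rw [← qm_br, ← matQ_br]
  refine s_liem H T per a Z h A hC _ fun n g ψ h1 h2 => ?_
  rcases Nat.even_or_odd' n with ⟨m, rfl | rfl⟩
  · have h3 := hK m (Pool.Agent.Q43.ST.exR (finBasis ℚ H) K g)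
      (hD m g _ ⟨ψ, h1, h2⟩ fun v => by
        rw [Pool.Agent.Q43.ST.exR_extends]
        rfl)
    intro v
    have h4 := h3 (fun k => (1 : K) ⊗ₜ[ℚ] v k)
    have h5 : ∀ k, Pool.Agent.Q43.ST.exR (finBasis ℚ H) K g
        (Function.update (fun k => (1 : K) ⊗ₜ[ℚ] v k) k
          ((x ∘ₗ y - y ∘ₗ x).baseChange K ((1 : K) ⊗ₜ[ℚ] v k))) =
        algebraMap ℚ K (g (Function.update v k ((x ∘ₗ y - y ∘ₗ x) (v k)))) := by
      intro k
      rw [← Pool.Agent.Q43.ST.exR_extends (finBasis ℚ H) (R := K)]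
      congr 1
      funext l
      by_cases hl : l = k
      · subst hl
        rw [Function.update_self, Function.update_self]
        rfl
      · rw [Function.update_of_ne hl, Function.update_of_ne hl]
    rw [Finset.sum_congr rfl fun k _ => h5 k, ← map_sum] at h4
    exact (map_eq_zero_iff _ (algebraMap ℚ K).injective).1 h4
  · have h3 : ∀ u, ψ u = 0 := by
      intro u
      have h4 := h2 (-1) (by simp) u
      have h5 : ψ (fun l => (-1 : ℂ) • u l) = (-1 : ℝ) ^ (2 * m + 1) * ψ u := by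
        have h6 := ψ.map_smul_univ (fun _ => (-1 : ℝ)) u
        rw [Finset.prod_const, Finset.card_univ, Fintype.card_fin, smul_eq_mul] at h6
        rw [← h6]
        congr 1
        funext l
        simp
      rw [h5, pow_succ, pow_mul] at h4
      norm_num at h4
      linarith
    intro v
    refine Finset.sum_eq_zero fun k _ => ?_
    have h4 := h1 (Function.update v k ((x ∘ₗ y - y ∘ₗ x) (v k)))
    rw [h3] at h4
    exact_mod_cast h4.symm

end two

section three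

variable {ρ : Representation K Γ (K ⊗[ℚ] H)} {χ : Γ →* K}

/-- Hodge classes on powers from Hodge tensors. -/
theorem isHodge_pow {κ : Type} [Fintype κ] [DecidableEq κ] {n : ℕ} (J : κ → Fin n)
    {f : MultilinearMap ℚ (fun _ : κ => H) ℚ} (hf : HodgeMul per f) (c : ℚ) :
    IsHodge (powPer per n)
      (c • MultilinearMap.alternatization (f.compLinearMap fun k => LinearMap.proj (J k))) := by
  obtain ⟨ψ, h1, h2⟩ := hf
  let ψ' : MultilinearMap ℝ (fun _ : κ => (Fin n → T)) ℝ :=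
    ψ.compLinearMap fun k => LinearMap.proj (J k)
  refine ⟨(((c : ℝ)) • MultilinearMap.alternatization ψ').toMultilinearMap, ?_, ?_⟩
  · intro v
    change (c : ℝ) * (MultilinearMap.alternatization ψ') (fun l => powPer per n (v l)) = _
    have h5 : (c • MultilinearMap.alternatization
        (f.compLinearMap fun k => LinearMap.proj (J k))) v = c * (MultilinearMap.alternatization
        (f.compLinearMap fun k => LinearMap.proj (J k))) v := rfl
    rw [h5, Rat.cast_mul]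
    congr 1
    rw [MultilinearMap.alternatization_apply, MultilinearMap.alternatization_apply, Rat.cast_sum]
    refine Finset.sum_congr rfl fun σ _ => ?_
    have h3 : (ψ'.domDomCongr σ) (fun l => powPer per n (v l)) =
        ((f (fun k => v (σ k) (J k)) : ℚ) : ℝ) := h1 (fun k => v (σ k) (J k))
    have h4 : ((f.compLinearMap fun k => LinearMap.proj (J k)).domDomCongr σ) v =
        f (fun k => v (σ k) (J k)) := rfl
    rw [h3, h4]
    rcases Int.units_eq_one_or (Equiv.Perm.sign σ) with hs | hs <;> simp [hs]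
  · intro w hw u
    change (c : ℝ) * (MultilinearMap.alternatization ψ') (fun l => w • u l) =
      (c : ℝ) * (MultilinearMap.alternatization ψ') u
    congr 1
    rw [MultilinearMap.alternatization_apply, MultilinearMap.alternatization_apply]
    refine Finset.sum_congr rfl fun σ _ => ?_
    have h3 : (ψ'.domDomCongr σ) (fun l => w • u l) = (ψ'.domDomCongr σ) u :=
      h2 w hw (fun k => u (σ k) (J k))
    rw [h3]

/-- **Third implication.** -/
theorem three_one (hX : Pool.Agent.Y90.St.IsAV per)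
    (hmt : ∀ (m : ℕ) (κ : Type) [Finite κ], Nat.card κ = 2 * m →
      ∀ φ : MultilinearMap K (fun _ : κ => K ⊗[ℚ] H) K, TateT ρ χ m φ → HodgeC per φ)
    (hL : ∀ x y : H →ₗ[ℚ] H, InLef per x → InLef per y → InHdg per (x ∘ₗ y - y ∘ₗ x))
    (n m : ℕ) (κ : Type) [Finite κ] (hκ : Nat.card κ = 2 * m)
    (φ : (Fin n → K ⊗[ℚ] H) [⋀^κ]→ₗ[K] K) (hφ : TateP ρ χ n m φ) :
    ∃ (N : ℕ) (c : Fin N → K) (f : Fin N → ((Fin n → H) [⋀^κ]→ₗ[ℚ] ℚ)),
      (∀ j, WeilRing (powPer per n) κ (f j)) ∧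
        ∀ v : κ → Fin n → H, φ (fun k i => (1 : K) ⊗ₜ[ℚ] v k i) =
          ∑ j, c j * ((f j v : ℚ) : K) := by
  classical
  let _ : Fintype κ := Fintype.ofFinite κ
  let φJ : (κ → Fin n) → MultilinearMap K (fun _ : κ => K ⊗[ℚ] H) K := fun J =>
    φ.toMultilinearMap.compLinearMap (fun k => LinearMap.single K (fun _ : Fin n => K ⊗[ℚ] H) (J k))
  have hJ : ∀ J w, φJ J w = φ (fun k => Pi.single (J k) (w k)) := fun _ _ => rfl
  have hTJ : ∀ J, TateT ρ χ m (φJ J) := by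
    intro J
    obtain ⟨Δ, hΔ, h⟩ := hφ
    refine ⟨Δ, hΔ, fun g hg v => ?_⟩
    rw [hJ, hJ, ← h g hg]
    congr 1
    funext k i
    by_cases hi : i = J k
    · subst hi
      rw [Pi.single_eq_same, Pi.single_eq_same]
    · rw [Pi.single_eq_of_ne hi, Pi.single_eq_of_ne hi, map_zero]
  choose N c f hf hfv using fun J => hmt m κ hκ (φJ J) (hTJ J)
  have hsum : ∀ v : κ → Fin n → K ⊗[ℚ] H, φ v = ∑ J : κ → Fin n, φJ J (fun k => v k (J k)) := by
    intro v
    have h1 : v = fun k => ∑ i, Pi.single (M := fun _ : Fin n => K ⊗[ℚ] H) i (v k i) := by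
      funext k
      exact (Finset.univ_sum_single (v k)).symm
    have h2 : φ v = φ.toMultilinearMap (fun k =>
        ∑ i, Pi.single (M := fun _ : Fin n => K ⊗[ℚ] H) i (v k i)) := by
      rw [← h1]
      rfl
    rw [h2, MultilinearMap.map_sum]
    rfl
  let P : ℚ := (Fintype.card (Equiv.Perm κ) : ℚ)⁻¹
  let I := Σ J : κ → Fin n, Fin (N J)
  let F : I → ((Fin n → H) [⋀^κ]→ₗ[ℚ] ℚ) := fun p =>
    P • MultilinearMap.alternatization ((f p.1 p.2).compLinearMap fun k => LinearMap.proj (p.1 k))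
  have hF : ∀ p v, F p v = P * ∑ σ : Equiv.Perm κ, ((Equiv.Perm.sign σ : ℤ) : ℚ) *
      f p.1 p.2 (fun k => v (σ k) (p.1 k)) := by
    intro p v
    have h5 : F p v = P * (MultilinearMap.alternatization
      ((f p.1 p.2).compLinearMap fun k => LinearMap.proj (p.1 k))) v := rfl
    rw [h5, MultilinearMap.alternatization_apply]
    congr 1
  have e : I ≃ Fin (Fintype.card I) := Fintype.equivFin I
  refine ⟨Fintype.card I, fun j => c (e.symm j).1 (e.symm j).2, fun j => F (e.symm j), fun j => ?_,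
    fun v => ?_⟩
  · exact (tstar hX).2 hL n κ _ (isHodge_pow _ (hf _ _) P)
  · have h1 : ∑ j, c (e.symm j).1 (e.symm j).2 * ((F (e.symm j) v : ℚ) : K) =
        ∑ p : I, c p.1 p.2 * ((F p v : ℚ) : K) :=
      Equiv.sum_comp e.symm (fun p : I => c p.1 p.2 * ((F p v : ℚ) : K))
    rw [h1]
    have hcard : (Fintype.card (Equiv.Perm κ) : K) ≠ 0 := by
      exact_mod_cast Fintype.card_ne_zero
    have h2 : (Fintype.card (Equiv.Perm κ) : K) * φ (fun k i => (1 : K) ⊗ₜ[ℚ] v k i) =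
        ∑ σ : Equiv.Perm κ, ((Equiv.Perm.sign σ : ℤ) : K) *
          φ (fun k i => (1 : K) ⊗ₜ[ℚ] v (σ k) i) := by
      have h3 : ∀ σ : Equiv.Perm κ, ((Equiv.Perm.sign σ : ℤ) : K) *
          φ (fun k i => (1 : K) ⊗ₜ[ℚ] v (σ k) i) = φ (fun k i => (1 : K) ⊗ₜ[ℚ] v k i) := by
        intro σ
        have h4 := φ.map_perm (fun k i => (1 : K) ⊗ₜ[ℚ] v k i) σ
        have h5 : φ (fun k i => (1 : K) ⊗ₜ[ℚ] v (σ k) i) =
            ((Equiv.Perm.sign σ : ℤ) : K) * φ (fun k i => (1 : K) ⊗ₜ[ℚ] v k i) := by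
          rw [Units.smul_def, zsmul_eq_mul] at h4
          exact h4
        rw [h5, ← mul_assoc, ← Int.cast_mul, ← Units.val_mul, Int.units_mul_self, Units.val_one,
          Int.cast_one, one_mul]
      rw [Finset.sum_congr rfl fun σ _ => h3 σ, Finset.sum_const, nsmul_eq_mul, Finset.card_univ]
    have h3 : ∀ σ : Equiv.Perm κ, φ (fun k i => (1 : K) ⊗ₜ[ℚ] v (σ k) i) =
        ∑ p : I, c p.1 p.2 * ((f p.1 p.2 (fun k => v (σ k) (p.1 k)) : ℚ) : K) := by
      intro σ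
      rw [hsum, Fintype.sum_sigma]
      refine Finset.sum_congr rfl fun J _ => ?_
      exact hfv J (fun k => v (σ k) (J k))
    have h4 : ∑ p : I, c p.1 p.2 * ((F p v : ℚ) : K) = ((P : ℚ) : K) *
        ∑ σ : Equiv.Perm κ, ((Equiv.Perm.sign σ : ℤ) : K) *
          φ (fun k i => (1 : K) ⊗ₜ[ℚ] v (σ k) i) := by
      have h5 : ∀ p : I, c p.1 p.2 * ((F p v : ℚ) : K) = ∑ σ : Equiv.Perm κ, ((P : ℚ) : K) *
          (((Equiv.Perm.sign σ : ℤ) : K) *
            (c p.1 p.2 * ((f p.1 p.2 (fun k => v (σ k) (p.1 k)) : ℚ) : K))) := by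
        intro p
        rw [hF, Rat.cast_mul, Rat.cast_sum, Finset.mul_sum, Finset.mul_sum]
        refine Finset.sum_congr rfl fun σ _ => ?_
        rw [Rat.cast_mul, Rat.cast_intCast]
        ring
      rw [Finset.sum_congr rfl fun p _ => h5 p, Finset.sum_comm, Finset.mul_sum]
      refine Finset.sum_congr rfl fun σ _ => ?_
      rw [h3 σ, ← Finset.mul_sum, ← Finset.mul_sum]
    rw [h4, ← h2, ← mul_assoc]
    have h5 : ((P : ℚ) : K) * (Fintype.card (Equiv.Perm κ) : K) = 1 := by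
      change (((Fintype.card (Equiv.Perm κ) : ℚ)⁻¹ : ℚ) : K) * _ = 1
      rw [Rat.cast_inv, Rat.cast_natCast, inv_mul_cancel₀ hcard]
    rw [h5, one_mul]

end three

section final

variable [Algebra K ℂ] [Algebra.IsAlgebraic K ℂ] {ρ : Representation K Γ (K ⊗[ℚ] H)} {χ : Γ →* K}
  {E : H → H → ℚ}

theorem kills_reindex {κ κ' : Type} [Fintype κ] [DecidableEq κ] [Fintype κ'] [DecidableEq κ']
    (e : κ ≃ κ') (z : Module.End K (K ⊗[ℚ] H)) (φ : MultilinearMap K (fun _ : κ => K ⊗[ℚ] H) K)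
    (h : Kills z (φ.domDomCongr e)) : Kills z φ := by
  intro v
  have h1 := h (fun k => v (e.symm k))
  rw [← h1, ← Equiv.sum_comp e]
  refine Finset.sum_congr rfl fun k _ => ?_
  rw [MultilinearMap.domDomCongr_apply]
  congr 1
  funext l
  by_cases hl : l = k
  · subst hl
    rw [Function.update_self, Function.update_self, Equiv.symm_apply_apply]
  · rw [Function.update_of_ne hl, Function.update_of_ne (fun h => hl (e.injective h)),
      Equiv.symm_apply_apply]

/-- **The criterion.** -/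
theorem tate_tfae (hX : Pool.Agent.Y90.St.IsAV per) (hE : Pool.Agent.Y90.St.IsPolarization per E)
    (hρ : IsTateModule per E ρ χ) (hD : DeligneT per ρ χ) :
    List.TFAE [
      ∀ (n m : ℕ) (φ : (Fin n → K ⊗[ℚ] H) [⋀^Fin (2 * m)]→ₗ[K] K), TateP ρ χ n m φ →
        ∃ (N : ℕ) (c : Fin N → K) (f : Fin N → ((Fin n → H) [⋀^Fin (2 * m)]→ₗ[ℚ] ℚ)),
          (∀ j, WeilRing (powPer per n) (Fin (2 * m)) (f j)) ∧
            ∀ v : Fin (2 * m) → Fin n → H,
              φ (fun k i => (1 : K) ⊗ₜ[ℚ] v k i) = ∑ j, c j * ((f j v : ℚ) : K),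
      ∀ x y : H →ₗ[ℚ] H, InLef per x → InLef per y → ∀ (m : ℕ)
        (φ : MultilinearMap K (fun _ : Fin (2 * m) => K ⊗[ℚ] H) K), TateT ρ χ m φ →
          Kills ((x ∘ₗ y - y ∘ₗ x).baseChange K) φ,
      (∀ (m : ℕ) (φ : MultilinearMap K (fun _ : Fin (2 * m) => K ⊗[ℚ] H) K), TateT ρ χ m φ →
        HodgeC per φ) ∧
        ∀ x y : H →ₗ[ℚ] H, InLef per x → InLef per y → InHdg per (x ∘ₗ y - y ∘ₗ x)] := by
  have hre : ∀ (m : ℕ) (κ : Type) [Fintype κ] (φ : MultilinearMap K (fun _ : κ => K ⊗[ℚ] H) K)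
      (e : κ ≃ Fin (2 * m)), TateT ρ χ m φ → TateT ρ χ m (φ.domDomCongr e) := by
    intro m κ _ φ e hφ
    obtain ⟨Δ, hΔ, h⟩ := hφ
    refine ⟨Δ, hΔ, fun g hg v => ?_⟩
    rw [MultilinearMap.domDomCongr_apply, MultilinearMap.domDomCongr_apply]
    exact h g hg _
  tfae_have 1 → 2 := by
    intro h x y hx hy m φ hφ
    exact one_two hX h x y hx hy (Fintype.card_fin _) φ hφ
  tfae_have 2 → 3 := by
    intro h
    refine ⟨fun m φ hφ => ?_, fun x y hx hy => two_hdg hX hD x y hx hy (h x y hx hy)⟩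
    refine two_mt hX hE hρ (fun x y hx hy n ψ hψ => ?_)
      (by rw [Nat.card_eq_fintype_card, Fintype.card_fin]) φ hφ
    have e : Fin n × Fin 2 ≃ Fin (2 * n) := Fintype.equivOfCardEq (by
      rw [Fintype.card_prod, Fintype.card_fin, Fintype.card_fin, Fintype.card_fin, mul_comm])
    exact kills_reindex e _ ψ (h x y hx hy n _ (hre n _ ψ e hψ))
  tfae_have 3 → 1 := by
    rintro ⟨h1, h2⟩ n m φ hφ
    refine three_one hX (fun m κ _ hκ ψ hψ => ?_) h2 n m (Fin (2 * m))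
      (by rw [Nat.card_eq_fintype_card, Fintype.card_fin]) φ hφ
    let _ : Fintype κ := Fintype.ofFinite κ
    have e : κ ≃ Fin (2 * m) := Fintype.equivOfCardEq (by
      rw [← Nat.card_eq_fintype_card, hκ, Fintype.card_fin])
    obtain ⟨N, c, f, hf, hfv⟩ := h1 m _ (hre m _ ψ e hψ)
    refine ⟨N, c, fun j => (f j).domDomCongr e.symm, fun j => ?_, fun v => ?_⟩
    · obtain ⟨ψ', h4, h5⟩ := hf j
      refine ⟨ψ'.domDomCongr e.symm, fun v => ?_, fun z hz u => ?_⟩
      · rw [MultilinearMap.domDomCongr_apply, MultilinearMap.domDomCongr_apply, ← h4]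
      · rw [MultilinearMap.domDomCongr_apply, MultilinearMap.domDomCongr_apply]
        exact h5 z hz _
    · have h4 := hfv (fun k => v (e.symm k))
      rw [MultilinearMap.domDomCongr_apply] at h4
      have h5 : (fun k => (1 : K) ⊗ₜ[ℚ] v (e.symm (e k))) = fun k => (1 : K) ⊗ₜ[ℚ] v k := by
        funext k
        rw [Equiv.symm_apply_apply]
      rw [h5] at h4
      exact h4
  tfae_finish

end final

end

end Pool.Agent.H926.A
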